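import Pool.Agent.R254.RB.Stm

/-!
# RB-EX (helper962): existence of the reinforced branching process
-/

open MeasureTheory ProbabilityTheory Filter Topology Set
open scoped ENNReal

namespace Pool.Agent.R254.RB

namespace Exist

/-! ### independence -/

section indep

variable {X : Type} [MeasurableSpace X] (ν : Measure X) [IsProbabilityMeasure ν]

/-- the space of all coordinates -/
noncomputable abbrev PP : Measure (ℕ → X) := Measure.infinitePi (fun _ : ℕ => ν)

/-- the canonical filtration -/
abbrev FF (X : Type) [MeasurableSpace X] :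
    @Filtration (ℕ → X) ℕ _ MeasurableSpace.pi := Filtration.piLE

lemma measurable_coord {i k : ℕ} (hik : i ≤ k) :
    Measurable[FF X k] (fun ω : ℕ → X => ω i) := by
  have h1 : Measurable[FF X k] (Preorder.restrictLe k : (ℕ → X) → _) :=
    comap_measurable _
  have h2 : Measurable (fun y : ((j : Set.Iic k) → X) => y ⟨i, hik⟩) := measurable_pi_apply _
  exact h2.comp h1

lemma indep_step {S : Type} [MeasurableSpace S] (k : ℕ) (B : Set (ℕ → X))
    (hB : MeasurableSet[FF X k] B) (h : (ℕ → X) → S) (hh : Measurable[FF X k] h)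
    (T : Set (S × X)) (hT : MeasurableSet T) :
    PP ν {ω | ω ∈ B ∧ (h ω, ω (k + 1)) ∈ T} = ∫⁻ ω in B, ν {x | (h ω, x) ∈ T} ∂(PP ν) := by
  have hle : FF X k ≤ MeasurableSpace.pi := (FF X).le k
  have h0 : iIndepFun (fun (i : ℕ) (ω : ℕ → X) => ω i) (PP ν) :=
    iIndepFun_infinitePi (P := fun _ : ℕ => ν) (X := fun _ x => x) (fun _ => measurable_id)
  have h1 := h0.indepFun_finset (Finset.Iic k) {k + 1} (by
    rw [Finset.disjoint_singleton_right, Finset.mem_Iic]; omega) (fun i => measurable_pi_apply i)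
  set G : (ℕ → X) → Prop × S := fun ω => (ω ∈ B, h ω) with hG
  have hBm : Measurable[FF X k] (fun ω => ω ∈ B) := by
    exact measurable_to_prop (by
      have : (fun ω : ℕ → X => ω ∈ B) ⁻¹' {True} = B := by ext ω; simp
      rw [this]; exact hB)
  have hGm : Measurable[FF X k] G := hBm.prodMk hh
  have h2 : IndepFun G (fun ω : ℕ → X => ω (k + 1)) (PP ν) := by
    have h3 : IndepFun (fun (ω : ℕ → X) (i : Finset.Iic k) => ω i)
        (fun ω : ℕ → X => ω (k + 1)) (PP ν) :=
      h1.comp (φ := fun y => y)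
        (ψ := fun y : ((i : ({k + 1} : Finset ℕ)) → X) => y ⟨k + 1, Finset.mem_singleton_self _⟩)
        measurable_id (measurable_pi_apply _)
    rw [IndepFun_iff_Indep] at h3 ⊢
    refine indep_of_indep_of_le_left h3 ?_
    have h4 : FF X k = MeasurableSpace.comap (fun (ω : ℕ → X) (i : Finset.Iic k) => ω i)
        inferInstance := Filtration.piLE_eq_comap_frestrictLe k
    rw [← h4]
    exact hGm.comap_le
  have hGm' : Measurable G := hGm.mono hle le_rfl
  have h5 := (indepFun_iff_map_prod_eq_prod_map_map hGm'.aemeasurable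
    (measurable_pi_apply (k + 1)).aemeasurable).1 h2
  have h6 : (PP ν).map (fun ω : ℕ → X => ω (k + 1)) = ν :=
    Measure.infinitePi_map_eval (fun _ => ν) (k + 1)
  rw [h6] at h5
  set T' : Set ((Prop × S) × X) := {q | q.1.1 ∧ (q.1.2, q.2) ∈ T} with hT'
  have hT'm : MeasurableSet T' := by
    refine MeasurableSet.inter ?_ ?_
    · exact measurableSet_setOfPred.2 (measurable_fst.comp measurable_fst)
    · exact hT.preimage ((measurable_snd.comp measurable_fst).prodMk measurable_snd)
  have e1 : PP ν {ω | ω ∈ B ∧ (h ω, ω (k + 1)) ∈ T} =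
      ((PP ν).map (fun ω : ℕ → X => (G ω, ω (k + 1)))) T' := by
    rw [Measure.map_apply (hGm'.prodMk (measurable_pi_apply _)) hT'm]
    rfl
  rw [e1, h5, Measure.prod_apply hT'm, lintegral_map (measurable_measure_prodMk_left hT'm) hGm',
    ← lintegral_indicator (hle _ hB)]
  apply lintegral_congr
  intro ω
  by_cases hω : ω ∈ B
  · rw [Set.indicator_of_mem hω]
    congr 1
    ext x
    simp [hT', hG, hω]
  · rw [Set.indicator_of_notMem hω]
    have : Prod.mk (G ω) ⁻¹' T' = ∅ := by
      ext x
      simp [hT', hG, hω]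
    rw [this, measure_empty]

end indep

/-! ### the state -/

/-- state: number of families, sizes, fitnesses -/
abbrev St : Type := ℕ × (ℕ → ℕ) × (ℕ → ℝ)

/-- noise: exponential clock, two uniforms, fitness -/
abbrev Ns : Type := ℝ × ℝ × ℝ × ℝ

/-- cumulated rates -/
noncomputable def c (s : St) (n : ℕ) : ℝ := ∑ m ∈ Finset.range n, s.2.2 m * (s.2.1 m : ℝ)

/-- total rate -/
noncomputable def RR (s : St) : ℝ := c s s.1

open Classical in
/-- number of families passed -/
noncomputable def pick' (m : ℕ) (s : St) (v : ℝ) : ℕ :=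
  ∑ n ∈ Finset.range m, if c s (n + 1) < v * RR s then 1 else 0

/-- the reproducing family -/
noncomputable def pick (s : St) (v : ℝ) : ℕ := pick' (s.1 - 1) s v

open Classical in
/-- the kind of the event -/
noncomputable def kind (β γ w : ℝ) : Fin 3 := if w ≤ β + γ - 1 then 0 else if w ≤ β then 1 else 2

open Classical in
/-- the waiting time -/
noncomputable def wait (s : St) (e : ℝ) : ℝ := (if 0 < e then e else 1) / RR s

open Classical in
/-- the fitness -/
noncomputable def fit (g : ℝ) : ℝ := if 0 < g ∧ g ≤ 1 then g else 1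

/-- one event -/
noncomputable def step (β γ : ℝ) (s : St) (x : Ns) : St :=
  (s.1 + if kind β γ x.2.2.1 = 2 then 0 else 1,
   fun n => s.2.1 n + (if n = pick s x.2.1 ∧ kind β γ x.2.2.1 ≠ 1 then 1 else 0) +
    (if n = s.1 ∧ kind β γ x.2.2.1 ≠ 2 then 1 else 0),
   fun n => if n = s.1 ∧ kind β γ x.2.2.1 ≠ 2 then fit x.2.2.2 else s.2.2 n)

/-- the start -/
noncomputable def init (x : Ns) : St :=
  (1, fun n => if n = 0 then 1 else 0, fun n => if n = 0 then fit x.2.2.2 else 1)

lemma measurable_c (n : ℕ) : Measurable (fun s : St => c s n) := by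
  unfold c
  apply Finset.measurable_fun_sum
  intro m _
  have h1 : Measurable (fun s : St => s.2.2 m) :=
    (measurable_pi_apply m).comp (measurable_snd.comp measurable_snd)
  have h2 : Measurable (fun s : St => ((s.2.1 m : ℕ) : ℝ)) :=
    measurable_from_nat.comp ((measurable_pi_apply m).comp (measurable_fst.comp measurable_snd))
  exact h1.mul h2

lemma measurable_RR : Measurable RR := by
  have h : Measurable (fun p : ℕ × St => c p.2 p.1) :=
    measurable_from_prod_countable_right (fun n => measurable_c n)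
  exact h.comp (measurable_fst.prodMk measurable_id)

lemma measurable_pick' (m : ℕ) : Measurable (fun y : St × ℝ => pick' m y.1 y.2) := by
  classical
  unfold pick'
  apply Finset.measurable_fun_sum
  intro n _
  apply Measurable.ite _ measurable_const measurable_const
  exact measurableSet_lt ((measurable_c _).comp measurable_fst)
    (measurable_snd.mul (measurable_RR.comp measurable_fst))

lemma pick_eq : (fun p : St × ℝ => pick p.1 p.2) =
    (fun p : ℕ × (St × ℝ) => pick' p.1 p.2.1 p.2.2) ∘ (fun p : St × ℝ => (p.1.1 - 1, p)) := by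
  funext p
  simp only [Function.comp, pick]

lemma measurable_pick : Measurable (fun p : St × ℝ => pick p.1 p.2) := by
  have h : Measurable (fun p : ℕ × (St × ℝ) => pick' p.1 p.2.1 p.2.2) :=
    measurable_from_prod_countable_right (fun m => measurable_pick' m)
  have h0 : Measurable (fun p : St × ℝ => p.1.1) := measurable_fst.comp measurable_fst
  have h1 : Measurable (fun n : ℕ => n - 1) := measurable_of_countable _
  have h2 : Measurable (fun p : St × ℝ => (p.1.1 - 1, p)) := (h1.comp h0).prodMk measurable_id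
  have h3 := h.comp h2
  rw [pick_eq]
  exact h3

section aux
variable {α : Type} [MeasurableSpace α] {Z P M : α → ℕ} {K : α → Fin 3}

lemma aux1 (hM : Measurable M) (hK : Measurable K) :
    Measurable (fun a => M a + if K a = 2 then 0 else 1) :=
  (measurable_of_countable (fun q : ℕ × Fin 3 => q.1 + if q.2 = 2 then 0 else 1)).comp
    (hM.prodMk hK)

lemma aux2 (hM : Measurable M) (hK : Measurable K) (hZ : Measurable Z) (hP : Measurable P)
    (n : ℕ) : Measurable (fun a => Z a + (if n = P a ∧ K a ≠ 1 then 1 else 0) +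
      (if n = M a ∧ K a ≠ 2 then 1 else 0)) :=
  (measurable_of_countable (fun q : (ℕ × ℕ) × (ℕ × Fin 3) =>
      q.1.1 + (if n = q.1.2 ∧ q.2.2 ≠ 1 then 1 else 0) +
        (if n = q.2.1 ∧ q.2.2 ≠ 2 then 1 else 0))).comp ((hZ.prodMk hP).prodMk (hM.prodMk hK))

lemma aux3 (hM : Measurable M) (hK : Measurable K) {f g : α → ℝ} (hf : Measurable f)
    (hg : Measurable g) (n : ℕ) : Measurable (fun a => if n = M a ∧ K a ≠ 2 then f a else g a) := by
  apply Measurable.ite _ hf hg
  have h1 : MeasurableSet {q : ℕ × Fin 3 | n = q.1 ∧ q.2 ≠ 2} := MeasurableSet.of_discrete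
  exact h1.preimage (hM.prodMk hK)

end aux

lemma measurable_kind (β γ : ℝ) : Measurable (kind β γ) := by
  unfold kind
  apply Measurable.ite measurableSet_Iic measurable_const
  exact Measurable.ite measurableSet_Iic measurable_const measurable_const

lemma measurable_wait : Measurable (fun p : St × ℝ => wait p.1 p.2) := by
  unfold wait
  apply Measurable.div _ (measurable_RR.comp measurable_fst)
  exact Measurable.ite (measurableSet_lt measurable_const measurable_snd) measurable_snd
    measurable_const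

lemma measurable_fit : Measurable fit := by
  unfold fit
  exact Measurable.ite (measurableSet_Ioi.inter measurableSet_Iic) measurable_id measurable_const

lemma measurable_init : Measurable init := by
  unfold init
  refine measurable_const.prodMk (measurable_const.prodMk ?_)
  apply measurable_pi_lambda
  intro n
  by_cases hn : n = 0
  · simp only [hn, if_true]
    exact measurable_fit.comp (measurable_snd.comp (measurable_snd.comp measurable_snd))
  · simp only [hn, if_false]
    exact measurable_const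

lemma step_eq (β γ : ℝ) : (fun p : St × Ns => step β γ p.1 p.2) = fun p : St × Ns =>
    (p.1.1 + (if kind β γ p.2.2.2.1 = 2 then 0 else 1),
     (fun n => p.1.2.1 n + (if n = pick p.1 p.2.2.1 ∧ kind β γ p.2.2.2.1 ≠ 1 then 1 else 0) +
      (if n = p.1.1 ∧ kind β γ p.2.2.2.1 ≠ 2 then 1 else 0)),
     fun n => if n = p.1.1 ∧ kind β γ p.2.2.2.1 ≠ 2 then fit p.2.2.2.2 else p.1.2.2 n) := by
  funext p
  simp only [step]

lemma measurable_step (β γ : ℝ) : Measurable (fun p : St × Ns => step β γ p.1 p.2) := by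
  have hk : Measurable (fun p : St × Ns => kind β γ p.2.2.2.1) :=
    (measurable_kind β γ).comp (measurable_fst.comp (measurable_snd.comp
      (measurable_snd.comp measurable_snd)))
  have hp0 := measurable_pick.comp (measurable_fst.prodMk (measurable_fst.comp
      (measurable_snd.comp measurable_snd)) : Measurable (fun p : St × Ns => (p.1, p.2.2.1)))
  have hp : Measurable (fun p : St × Ns => pick p.1 p.2.2.1) := by
    simpa only [Function.comp_def] using hp0
  have hM : Measurable (fun p : St × Ns => p.1.1) := measurable_fst.comp measurable_fst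
  have hf : Measurable (fun p : St × Ns => fit p.2.2.2.2) :=
    measurable_fit.comp (measurable_snd.comp (measurable_snd.comp
      (measurable_snd.comp measurable_snd)))
  have hz : ∀ n, Measurable (fun p : St × Ns => p.1.2.1 n) := fun n =>
    (measurable_pi_apply n).comp (measurable_fst.comp (measurable_snd.comp measurable_fst))
  have hF : ∀ n, Measurable (fun p : St × Ns => p.1.2.2 n) := fun n =>
    (measurable_pi_apply n).comp (measurable_snd.comp (measurable_snd.comp measurable_fst))
  rw [step_eq]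
  exact (aux1 hM hk).prodMk ((measurable_pi_lambda _ (fun n => aux2 hM hk (hz n) hp n)).prodMk
    (measurable_pi_lambda _ (fun n => aux3 hM hk hf (hF n) n)))

/-- reachable states -/
structure Good (s : St) : Prop where
  one : 1 ≤ s.1
  F : ∀ n, s.2.2 n ∈ Ioc (0 : ℝ) 1
  F1 : ∀ n, s.1 ≤ n → s.2.2 n = 1
  Z : ∀ n < s.1, 1 ≤ s.2.1 n

lemma fit_mem (g : ℝ) : fit g ∈ Ioc (0 : ℝ) 1 := by
  unfold fit
  split_ifs with h
  · exact h
  · exact ⟨one_pos, le_rfl⟩

lemma good_init (x : Ns) : Good (init x) := by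
  refine ⟨le_rfl, fun n => ?_, fun n hn => ?_, fun n hn => ?_⟩
  · simp only [init]
    split_ifs
    · exact fit_mem _
    · exact ⟨one_pos, le_rfl⟩
  · simp only [init] at hn ⊢
    rw [if_neg (by omega)]
  · simp only [init] at hn ⊢
    rw [if_pos (by omega)]

lemma good_step (β γ : ℝ) {s : St} (h : Good s) (x : Ns) : Good (step β γ s x) := by
  refine ⟨?_, fun n => ?_, fun n hn => ?_, fun n hn => ?_⟩
  · simp only [step]
    have := h.one
    omega
  · simp only [step]
    split_ifs
    · exact fit_mem _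
    · exact h.F n
  · simp only [step] at hn ⊢
    by_cases hk : kind β γ x.2.2.1 = 2
    · rw [if_pos hk] at hn
      rw [if_neg (by tauto)]
      exact h.F1 n (by omega)
    · rw [if_neg hk] at hn
      rw [if_neg (by omega)]
      exact h.F1 n (by omega)
  · simp only [step] at hn ⊢
    by_cases hk : kind β γ x.2.2.1 = 2
    · rw [if_pos hk] at hn
      have := h.Z n (by omega)
      omega
    · rw [if_neg hk] at hn
      by_cases hn' : n = s.1
      · rw [if_pos (c := n = s.1 ∧ _) ⟨hn', hk⟩]
        omega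
      · have := h.Z n (by omega)
        omega

lemma c_mono {s : St} (h : Good s) : Monotone (c s) := by
  apply monotone_nat_of_le_succ
  intro n
  rw [c, c, Finset.sum_range_succ]
  have := mul_nonneg (h.F n).1.le (Nat.cast_nonneg (α := ℝ) (s.2.1 n))
  linarith

lemma RR_pos {s : St} (h : Good s) : 0 < RR s := by
  have h1 := c_mono h h.one
  have h2 : 0 < c s 1 := by
    rw [c, Finset.sum_range_one]
    exact mul_pos (h.F 0).1 (by exact_mod_cast h.Z 0 h.one)
  exact lt_of_lt_of_le h2 h1

lemma pick_lt {s : St} (h : Good s) (v : ℝ) : pick s v < s.1 := by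
  have h1 : pick s v ≤ s.1 - 1 := by
    unfold pick pick'
    refine (Finset.sum_le_sum (g := fun _ => 1) (fun n _ => ?_)).trans (by simp)
    split_ifs <;> simp
  have := h.one
  omega

lemma wait_pos {s : St} (h : Good s) (e : ℝ) : 0 < wait s e := by
  unfold wait
  apply div_pos _ (RR_pos h)
  split_ifs with he
  · exact he
  · exact one_pos

/-! ### the law of the noise -/

/-- exponential law -/
noncomputable def Ex : Measure ℝ :=
  (volume.restrict (Ioi (0 : ℝ))).withDensity (fun e => ENNReal.ofReal (Real.exp (-e)))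

/-- uniform law -/
noncomputable def Un : Measure ℝ := volume.restrict (Ioc (0 : ℝ) 1)

instance : IsProbabilityMeasure Ex := ⟨by
  rw [Ex, withDensity_apply _ MeasurableSet.univ, Measure.restrict_univ,
    ← ofReal_integral_eq_lintegral_ofReal]
  · rw [integral_exp_neg_Ioi_zero, ENNReal.ofReal_one]
  · exact integrableOn_exp_neg_Ioi 0
  · exact Filter.Eventually.of_forall (fun x => (Real.exp_pos _).le)⟩

instance : IsProbabilityMeasure Un := ⟨by
  rw [Un, Measure.restrict_apply_univ, Real.volume_Ioc]; simp⟩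

lemma scale (R : ℝ) (hR : 0 < R) (g : ℝ → ℝ≥0∞) (hg : Measurable g) :
    ∫⁻ e, g e = ENNReal.ofReal R * ∫⁻ u, g (R * u) := by
  have h := Real.smul_map_volume_mul_left hR.ne'
  calc ∫⁻ e, g e = ∫⁻ e, g e ∂(ENNReal.ofReal |R| • Measure.map (R * ·) volume) := by rw [h]
    _ = ENNReal.ofReal R * ∫⁻ u, g (R * u) := by
        rw [lintegral_smul_measure, lintegral_map hg (measurable_const_mul R), abs_of_pos hR,
          smul_eq_mul]

lemma Ex_wait {s : St} (h : Good s) (A : Set ℝ) (hA : MeasurableSet A) :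
    Ex {e | wait s e ∈ A} =
      ∫⁻ u in A ∩ Ioi 0, ENNReal.ofReal (RR s * Real.exp (-(RR s) * u)) := by
  have hR := RR_pos h
  have hw : Measurable (wait s) := by
    have := measurable_wait.comp (measurable_const.prodMk measurable_id :
      Measurable (fun e : ℝ => (s, e)))
    simpa only [Function.comp_def] using this
  have hS : MeasurableSet {e | wait s e ∈ A} := hw hA
  have hm : Measurable (fun e : ℝ => ENNReal.ofReal (Real.exp (-e))) := by fun_prop
  rw [Ex, withDensity_apply _ hS, Measure.restrict_restrict hS,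
    ← lintegral_indicator (hS.inter measurableSet_Ioi), scale (RR s) hR _
      (hm.indicator (hS.inter measurableSet_Ioi)),
    ← lintegral_indicator (hA.inter measurableSet_Ioi), ← lintegral_const_mul]
  · apply lintegral_congr
    intro u
    by_cases hu : u ∈ A ∩ Ioi 0
    · have h1 : RR s * u ∈ {e | wait s e ∈ A} ∩ Ioi 0 := by
        have h2 : 0 < RR s * u := mul_pos hR hu.2
        refine ⟨?_, h2⟩
        simp only [Set.mem_ofPred_eq, wait]
        rw [if_pos h2, mul_div_cancel_left₀ _ hR.ne']
        exact hu.1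
      rw [Set.indicator_of_mem h1, Set.indicator_of_mem hu, ← ENNReal.ofReal_mul hR.le, neg_mul]
    · have h1 : RR s * u ∉ {e | wait s e ∈ A} ∩ Ioi 0 := by
        rintro ⟨h2, h3⟩
        have h4 : 0 < u := by
          rw [Set.mem_Ioi] at h3
          exact (mul_pos_iff_of_pos_left hR).1 h3
        simp only [Set.mem_ofPred_eq, wait] at h2
        rw [if_pos (show 0 < RR s * u from h3), mul_div_cancel_left₀ _ hR.ne'] at h2
        exact hu ⟨h2, h4⟩
      rw [Set.indicator_of_notMem h1, Set.indicator_of_notMem hu, mul_zero]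
  · exact (hm.indicator (hS.inter measurableSet_Ioi)).comp (measurable_const_mul _)

lemma pick_of {s : St} (h : Good s) {v : ℝ} {n : ℕ} (hn : n < s.1) (h1 : c s n < v * RR s)
    (h2 : v * RR s ≤ c s (n + 1)) : pick s v = n := by
  classical
  unfold pick pick'
  have e : ∀ m ∈ Finset.range (s.1 - 1), (if c s (m + 1) < v * RR s then 1 else 0) =
      (if m < n then 1 else 0 : ℕ) := by
    intro m _
    by_cases hm : m < n
    · rw [if_pos hm, if_pos]
      exact lt_of_le_of_lt (c_mono h hm) h1
    · rw [if_neg hm, if_neg]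
      push Not
      exact h2.trans (c_mono h (by omega))
  rw [Finset.sum_congr rfl e, ← Finset.sum_filter, Finset.sum_const, smul_eq_mul, mul_one]
  have : (Finset.range (s.1 - 1)).filter (fun m => m < n) = Finset.range n := by
    ext m
    simp only [Finset.mem_filter, Finset.mem_range]
    omega
  rw [this, Finset.card_range]

lemma exists_pick {s : St} (h : Good s) {v : ℝ} (h0 : 0 < v) (h1 : v ≤ 1) :
    ∃ n, n < s.1 ∧ c s n < v * RR s ∧ v * RR s ≤ c s (n + 1) := by
  classical
  have hR := RR_pos h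
  have hex : ∃ n, v * RR s ≤ c s (n + 1) := by
    refine ⟨s.1 - 1, ?_⟩
    have : s.1 - 1 + 1 = s.1 := by have := h.one; omega
    rw [this]
    exact (mul_le_of_le_one_left hR.le h1)
  refine ⟨Nat.find hex, ?_, ?_, Nat.find_spec hex⟩
  · have h3 : Nat.find hex ≤ s.1 - 1 := by
      apply Nat.find_min'
      have : s.1 - 1 + 1 = s.1 := by have := h.one; omega
      rw [this]
      exact (mul_le_of_le_one_left hR.le h1)
    have := h.one
    omega
  · rcases Nat.eq_zero_or_pos (Nat.find hex) with h3 | h3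
    · rw [h3]
      simp only [c, Finset.range_zero, Finset.sum_empty]
      exact mul_pos h0 hR
    · have h4 := Nat.find_min hex (m := Nat.find hex - 1) (by omega)
      push Not at h4
      have : Nat.find hex - 1 + 1 = Nat.find hex := by omega
      rw [this] at h4
      exact h4

lemma c_nonneg {s : St} (h : Good s) (n : ℕ) : 0 ≤ c s n := by
  have := c_mono h (Nat.zero_le n)
  simpa [c] using this

lemma Un_pick {s : St} (h : Good s) {n : ℕ} (hn : n < s.1) :
    Un {v | pick s v = n} = ENNReal.ofReal (s.2.2 n * (s.2.1 n : ℝ) / RR s) := by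
  have hR := RR_pos h
  have hm : Measurable (pick s) := by
    have := measurable_pick.comp (measurable_const.prodMk measurable_id :
      Measurable (fun e : ℝ => (s, e)))
    simpa only [Function.comp_def] using this
  have hS : MeasurableSet {v | pick s v = n} := hm (measurableSet_singleton n)
  have e : {v | pick s v = n} ∩ Ioc (0 : ℝ) 1 = Ioc (c s n / RR s) (c s (n + 1) / RR s) := by
    ext v
    simp only [Set.mem_inter_iff, Set.mem_ofPred_eq, Set.mem_Ioc]
    rw [div_lt_iff₀ hR, le_div_iff₀ hR]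
    constructor
    · rintro ⟨h1, h2, h3⟩
      obtain ⟨n', h4, h5, h6⟩ := exists_pick h h2 h3
      have h7 := pick_of h h4 h5 h6
      rw [h1] at h7
      subst h7
      exact ⟨h5, h6⟩
    · rintro ⟨h1, h2⟩
      refine ⟨pick_of h hn h1 h2, ?_, ?_⟩
      · have h3 : 0 < v * RR s := lt_of_le_of_lt (c_nonneg h n) h1
        exact (pos_iff_pos_of_mul_pos h3).2 hR
      · have h3 : v * RR s ≤ RR s := h2.trans (c_mono h hn)
        by_contra h4
        push Not at h4
        nlinarith
  rw [Un, Measure.restrict_apply hS, e, Real.volume_Ioc, ← sub_div]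
  congr 2
  rw [c, c, Finset.sum_range_succ]
  ring

lemma Un_kind {β γ : ℝ} (h1 : β ≤ 1) (h2 : 0 < γ) (h3 : γ ≤ 1) (h4 : 1 ≤ β + γ) (j : Fin 3) :
    Un {w | kind β γ w = j} = ENNReal.ofReal (pr β γ j) := by
  have hS : MeasurableSet {w | kind β γ w = j} := measurable_kind β γ (measurableSet_singleton j)
  rw [Un, Measure.restrict_apply hS]
  have e : ∀ a b : ℝ, {w | kind β γ w = j} ∩ Ioc (0 : ℝ) 1 = Ioc a b → b - a = pr β γ j →
      volume ({w | kind β γ w = j} ∩ Ioc (0 : ℝ) 1) = ENNReal.ofReal (pr β γ j) := by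
    intro a b h5 h6
    rw [h5, Real.volume_Ioc, h6]
  fin_cases j
  · apply e 0 (β + γ - 1)
    · ext w
      simp only [Set.mem_inter_iff, Set.mem_ofPred_eq, Set.mem_Ioc, kind]
      split_ifs with h5 h6
      · simp only [Fin.zero_eta, true_and]
        constructor
        · rintro ⟨a, b⟩; exact ⟨a, h5⟩
        · rintro ⟨a, b⟩; exact ⟨a, by linarith⟩
      · simp only [Fin.zero_eta, one_ne_zero, false_and, false_iff, not_and, not_le]
        intro _; linarith
      · simp only [Fin.zero_eta, false_iff, not_and, not_le]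
        constructor
        · intro h; exact absurd h.1 (by decide)
        · intro h; exact absurd h.2 (by linarith)
    · simp [pr]
  · apply e (β + γ - 1) β
    · ext w
      simp only [Set.mem_inter_iff, Set.mem_ofPred_eq, Set.mem_Ioc, kind]
      split_ifs with h5 h6
      · constructor
        · intro h; exact absurd h.1 (by decide)
        · intro h; exact absurd h.1 (by linarith)
      · constructor
        · intro h; exact ⟨by linarith, h6⟩
        · intro h; exact ⟨rfl, by linarith, by linarith⟩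
      · constructor
        · intro h; exact absurd h.1 (by decide)
        · intro h; exact absurd h.2 h6
    · simp only [pr, Fin.mk_one, one_ne_zero, if_false, if_true]
      ring
  · apply e β 1
    · ext w
      simp only [Set.mem_inter_iff, Set.mem_ofPred_eq, Set.mem_Ioc, kind]
      split_ifs with h5 h6
      · constructor
        · intro h; exact absurd h.1 (by decide)
        · intro h; exact absurd h.1 (by linarith)
      · constructor
        · intro h; exact absurd h.1 (by decide)
        · intro h; exact absurd h.1 (by linarith)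
      · push Not at h5 h6
        constructor
        · intro h; exact ⟨h6, h.2.2⟩
        · intro h; exact ⟨rfl, by linarith, h.2⟩
    · simp [pr]

lemma mu_fit {μ : Measure ℝ} [IsProbabilityMeasure μ] (hmu : μ (Ioo 0 1)ᶜ = 0) (j : Fin 3)
    (C : Set ℝ) : μ {g | j = 2 ∨ fit g ∈ C} = if j = 2 then 1 else μ C := by
  by_cases hj : j = 2
  · simp [hj]
  · rw [if_neg hj]
    apply measure_congr
    have h1 : ∀ᵐ g ∂μ, g ∈ Ioo (0 : ℝ) 1 := hmu
    filter_upwards [h1] with g hg
    have h2 : fit g = g := by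
      unfold fit
      rw [if_pos ⟨hg.1, hg.2.le⟩]
    show ({g | j = 2 ∨ fit g ∈ C} : Set ℝ) g = C g
    apply propext
    show (j = 2 ∨ fit g ∈ C) ↔ g ∈ C
    rw [h2]
    tauto

/-- the law of the noise -/
noncomputable def NN (μ : Measure ℝ) : Measure Ns := Ex.prod (Un.prod (Un.prod μ))

instance (μ : Measure ℝ) [IsProbabilityMeasure μ] : IsProbabilityMeasure (NN μ) := by
  unfold NN; infer_instance

lemma NN_step {μ : Measure ℝ} [IsProbabilityMeasure μ] {β γ : ℝ} (h1 : β ≤ 1) (h2 : 0 < γ)
    (h3 : γ ≤ 1) (h4 : 1 ≤ β + γ) (hmu : μ (Ioo 0 1)ᶜ = 0) {s : St} (h : Good s) (n : ℕ)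
    (j : Fin 3) (A C : Set ℝ) (hA : MeasurableSet A) :
    NN μ {x | wait s x.1 ∈ A ∧ pick s x.2.1 = n ∧ kind β γ x.2.2.1 = j ∧
        (j = 2 ∨ fit x.2.2.2 ∈ C)} =
      (if n < s.1 then ∫⁻ u in A ∩ Ioi 0, ENNReal.ofReal
          (s.2.2 n * (s.2.1 n : ℝ) * Real.exp (-(RR s) * u)) else 0) *
        (ENNReal.ofReal (pr β γ j) * (if j = 2 then 1 else μ C)) := by
  have hR := RR_pos h
  have e : {x : Ns | wait s x.1 ∈ A ∧ pick s x.2.1 = n ∧ kind β γ x.2.2.1 = j ∧
      (j = 2 ∨ fit x.2.2.2 ∈ C)} = {e | wait s e ∈ A} ×ˢ ({v | pick s v = n} ×ˢ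
        ({w | kind β γ w = j} ×ˢ {g | j = 2 ∨ fit g ∈ C})) := by
    ext x
    simp only [Set.mem_ofPred_eq, Set.mem_prod]
  rw [e, NN, Measure.prod_prod, Measure.prod_prod, Measure.prod_prod, Ex_wait h A hA,
    Un_kind h1 h2 h3 h4, mu_fit hmu, ← mul_assoc]
  congr 1
  by_cases hn : n < s.1
  · rw [if_pos hn, Un_pick h hn, mul_comm, ← lintegral_const_mul _ (by fun_prop)]
    apply lintegral_congr
    intro u
    rw [← ENNReal.ofReal_mul (div_nonneg (mul_nonneg (h.F n).1.le (Nat.cast_nonneg _)) hR.le)]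
    congr 1
    field_simp
  · rw [if_neg hn]
    have : {v | pick s v = n} = ∅ := by
      ext v
      simp only [Set.mem_ofPred_eq, Set.mem_empty_iff_false, iff_false]
      intro h5
      exact hn (h5 ▸ pick_lt h v)
    rw [this, measure_empty, mul_zero]

/-! ### the process -/

/-- the state after `k` events -/
noncomputable def Sk (β γ : ℝ) : ℕ → (ℕ → Ns) → St
  | 0, ω => init (ω 0)
  | k + 1, ω => step β γ (Sk β γ k ω) (ω (k + 1))

lemma good_Sk (β γ : ℝ) (k : ℕ) (ω : ℕ → Ns) : Good (Sk β γ k ω) := by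
  induction k with
  | zero => exact good_init _
  | succ k ih => exact good_step β γ ih _

lemma meas_Sk (β γ : ℝ) (k : ℕ) : Measurable[FF Ns k] (Sk β γ k) := by
  induction k with
  | zero =>
    have h := measurable_init.comp (measurable_coord (X := Ns) (le_refl 0))
    exact h
  | succ k ih =>
    have h1 : Measurable[FF Ns (k + 1)] (Sk β γ k) :=
      ih.mono ((FF Ns).mono (Nat.le_succ k)) le_rfl
    have h2 := measurable_coord (X := Ns) (le_refl (k + 1))
    exact (measurable_step β γ).comp (h1.prodMk h2)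

lemma Sk_le (β γ : ℝ) (k : ℕ) (ω : ℕ → Ns) : (Sk β γ k ω).1 ≤ (Sk β γ (k + 1) ω).1 :=
  Nat.le_add_right _ _

lemma Sk_const (β γ : ℝ) (ω : ℕ → Ns) {n k : ℕ} (h : n < (Sk β γ k ω).1) :
    ∀ k', k ≤ k' → n < (Sk β γ k' ω).1 ∧ (Sk β γ k' ω).2.2 n = (Sk β γ k ω).2.2 n := by
  intro k' hk
  induction k', hk using Nat.le_induction with
  | base => exact ⟨h, rfl⟩
  | succ k' _ ih =>
    refine ⟨lt_of_lt_of_le ih.1 (Sk_le β γ k' ω), ?_⟩
    rw [← ih.2]
    show (if n = (Sk β γ k' ω).1 ∧ kind β γ (ω (k' + 1)).2.2.1 ≠ 2 then _ else _) = _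
    rw [if_neg (by omega)]

open Classical in
/-- the fitness of family `n` -/
noncomputable def Fd (β γ : ℝ) (n : ℕ) (ω : ℕ → Ns) : ℝ :=
  if h : ∃ k, n < (Sk β γ k ω).1 then (Sk β γ (Nat.find h) ω).2.2 n else 1

lemma Fd_eq (β γ : ℝ) (ω : ℕ → Ns) {n k : ℕ} (h : n < (Sk β γ k ω).1) :
    Fd β γ n ω = (Sk β γ k ω).2.2 n := by
  classical
  have hex : ∃ k, n < (Sk β γ k ω).1 := ⟨k, h⟩
  unfold Fd
  rw [dif_pos hex]
  exact ((Sk_const β γ ω (Nat.find_spec hex) k (Nat.find_min' hex h)).2).symm

lemma Fd_mem (β γ : ℝ) (n : ℕ) (ω : ℕ → Ns) : Fd β γ n ω ∈ Ioc (0 : ℝ) 1 := by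
  classical
  unfold Fd
  split_ifs with h
  · exact (good_Sk β γ _ ω).F n
  · exact ⟨one_pos, le_rfl⟩

/-- the birth times -/
noncomputable def tau (β γ : ℝ) (k : ℕ) (ω : ℕ → Ns) : ℝ :=
  ∑ i ∈ Finset.range k, wait (Sk β γ i ω) (ω (i + 1)).1

lemma tau_succ (β γ : ℝ) (k : ℕ) (ω : ℕ → Ns) :
    tau β γ (k + 1) ω - tau β γ k ω = wait (Sk β γ k ω) (ω (k + 1)).1 := by
  unfold tau
  rw [Finset.sum_range_succ]
  ring

lemma Fd_new (β γ : ℝ) (k : ℕ) (ω : ℕ → Ns) (h : kind β γ (ω (k + 1)).2.2.1 ≠ 2) :
    Fd β γ (Sk β γ k ω).1 ω = fit (ω (k + 1)).2.2.2 := by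
  have h1 : (Sk β γ k ω).1 < (Sk β γ (k + 1) ω).1 := by
    show (Sk β γ k ω).1 < (Sk β γ k ω).1 + if kind β γ (ω (k + 1)).2.2.1 = 2 then 0 else 1
    rw [if_neg h]
    omega
  rw [Fd_eq β γ ω h1]
  show (if (Sk β γ k ω).1 = (Sk β γ k ω).1 ∧ kind β γ (ω (k + 1)).2.2.1 ≠ 2 then _ else _) = _
  rw [if_pos ⟨rfl, h⟩]

lemma RR_eq (β γ : ℝ) (k : ℕ) (ω : ℕ → Ns) :
    ∑ m ∈ Finset.range (Sk β γ k ω).1, Fd β γ m ω * ((Sk β γ k ω).2.1 m : ℝ) =
      RR (Sk β γ k ω) := by
  unfold RR c
  apply Finset.sum_congr rfl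
  intro m hm
  rw [Fd_eq β γ ω (Finset.mem_range.1 hm)]

lemma meas_T (β γ : ℝ) (n : ℕ) (j : Fin 3) (A C : Set ℝ) (hA : MeasurableSet A)
    (hC : MeasurableSet C) : MeasurableSet {p : St × Ns | wait p.1 p.2.1 ∈ A ∧
      pick p.1 p.2.2.1 = n ∧ kind β γ p.2.2.2.1 = j ∧ (j = 2 ∨ fit p.2.2.2.2 ∈ C)} := by
  have hk : Measurable (fun p : St × Ns => kind β γ p.2.2.2.1) :=
    (measurable_kind β γ).comp (measurable_fst.comp (measurable_snd.comp
      (measurable_snd.comp measurable_snd)))
  have hp0 := measurable_pick.comp (measurable_fst.prodMk (measurable_fst.comp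
      (measurable_snd.comp measurable_snd)) : Measurable (fun p : St × Ns => (p.1, p.2.2.1)))
  have hp : Measurable (fun p : St × Ns => pick p.1 p.2.2.1) := by
    simpa only [Function.comp_def] using hp0
  have hw0 := measurable_wait.comp (measurable_fst.prodMk (measurable_fst.comp
      measurable_snd) : Measurable (fun p : St × Ns => (p.1, p.2.1)))
  have hw : Measurable (fun p : St × Ns => wait p.1 p.2.1) := by
    simpa only [Function.comp_def] using hw0
  have hf : Measurable (fun p : St × Ns => fit p.2.2.2.2) :=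
    measurable_fit.comp (measurable_snd.comp (measurable_snd.comp
      (measurable_snd.comp measurable_snd)))
  refine (hw hA).inter ((hp (measurableSet_singleton n)).inter
    ((hk (measurableSet_singleton j)).inter ?_))
  exact (MeasurableSet.const _).union (hf hC)

end Exist

open Exist in
/-- RB-EX: the reinforced branching process exists. -/
theorem exists_rbp (μ : Measure ℝ) [IsProbabilityMeasure μ] (β γ : ℝ) (h0 : 0 < β) (h1 : β ≤ 1)
    (h2 : 0 < γ) (h3 : γ ≤ 1) (h4 : 1 ≤ β + γ) (hmu : μ (Ioo 0 1)ᶜ = 0) :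
    ∃ (Ω : Type) (m : MeasurableSpace Ω) (P : Measure Ω), IsProbabilityMeasure P ∧
      Nonempty (RBP P μ β γ) := by
  refine ⟨ℕ → Ns, MeasurableSpace.pi, PP (NN μ), inferInstance, ⟨{
    ℱ := FF Ns
    M := fun k ω => (Sk β γ k ω).1
    Z := fun k n ω => (Sk β γ k ω).2.1 n
    F := fun n ω => Fd β γ n ω
    τ := fun k ω => tau β γ k ω
    I := fun k ω => pick (Sk β γ k ω) (ω (k + 1)).2.1
    θ := fun k ω => kind β γ (ω (k + 1)).2.2.1
    M_zero := fun ω => rfl
    Z_zero := fun n ω => rfl
    τ_zero := fun ω => by simp [tau]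
    F_mem := fun n ω => Fd_mem β γ n ω
    I_lt := fun k ω => pick_lt (good_Sk β γ k ω) _
    τ_lt := fun k ω => by
      have e1 := tau_succ β γ k ω
      have e2 := wait_pos (good_Sk β γ k ω) (ω (k + 1)).1
      linarith
    M_succ := fun k ω => rfl
    Z_succ := fun k n ω => rfl
    meas_M := fun k => measurable_fst.comp (meas_Sk β γ k)
    meas_Z := fun k n => (measurable_pi_apply n).comp
      (measurable_fst.comp (measurable_snd.comp (meas_Sk β γ k)))
    meas_τ := fun k => ?_
    meas_I := fun k => ?_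
    meas_θ := fun k => ?_
    meas_F := fun k n => ?_
    law_zero := fun C hC => ?_
    law := fun k B hB n j A C hA hC => ?_ }⟩⟩
  · unfold tau
    apply Finset.measurable_fun_sum
    intro i hi
    have hi' : i + 1 ≤ k := Finset.mem_range.1 hi
    have g1 : Measurable[FF Ns k] (Sk β γ i) :=
      (meas_Sk β γ i).mono ((FF Ns).mono (by omega)) le_rfl
    have g2 : Measurable[FF Ns k] (fun ω : ℕ → Ns => (ω (i + 1)).1) :=
      measurable_fst.comp (measurable_coord (X := Ns) hi')
    have g3 := measurable_wait.comp (g1.prodMk g2)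
    simpa only [Function.comp_def] using g3
  · have g1 : Measurable[FF Ns (k + 1)] (Sk β γ k) :=
      (meas_Sk β γ k).mono ((FF Ns).mono (Nat.le_succ k)) le_rfl
    have g2 : Measurable[FF Ns (k + 1)] (fun ω : ℕ → Ns => (ω (k + 1)).2.1) :=
      (measurable_fst.comp measurable_snd).comp (measurable_coord (X := Ns) (le_refl (k + 1)))
    have g3 := measurable_pick.comp (g1.prodMk g2)
    simpa only [Function.comp_def] using g3
  · exact (measurable_kind β γ).comp ((measurable_fst.comp
      (measurable_snd.comp measurable_snd)).comp (measurable_coord (X := Ns) (le_refl (k + 1))))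
  · have e : (fun ω => if n < (Sk β γ k ω).1 then Fd β γ n ω else 1) =
        fun ω => (Sk β γ k ω).2.2 n := by
      funext ω
      split_ifs with h
      · exact Fd_eq β γ ω h
      · exact ((good_Sk β γ k ω).F1 n (not_lt.1 h)).symm
    rw [e]
    exact (measurable_pi_apply n).comp
      (measurable_snd.comp (measurable_snd.comp (meas_Sk β γ k)))
  · have e : {ω : ℕ → Ns | Fd β γ 0 ω ∈ C} = (fun ω => ω 0) ⁻¹' {x : Ns | fit x.2.2.2 ∈ C} := by
      ext ω
      have : Fd β γ 0 ω = fit (ω 0).2.2.2 := by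
        rw [Fd_eq β γ ω (k := 0) (Nat.lt_of_lt_of_le Nat.zero_lt_one (good_Sk β γ 0 ω).one)]
        rfl
      simp only [Set.mem_ofPred_eq, Set.mem_preimage, this]
    have hS : MeasurableSet {x : Ns | fit x.2.2.2 ∈ C} :=
      (measurable_fit.comp (measurable_snd.comp (measurable_snd.comp measurable_snd))) hC
    have e2 : {x : Ns | fit x.2.2.2 ∈ C} = (univ : Set ℝ) ×ˢ ((univ : Set ℝ) ×ˢ
        ((univ : Set ℝ) ×ˢ {g | fit g ∈ C})) := by
      ext x
      simp
    have e3 := mu_fit hmu 0 C
    simp only [Fin.reduceEq, false_or, if_false] at e3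
    rw [e, ← Measure.map_apply (measurable_pi_apply 0) hS,
      Measure.infinitePi_map_eval (fun _ => NN μ) 0, e2, NN, Measure.prod_prod,
      Measure.prod_prod, Measure.prod_prod, measure_univ, measure_univ, one_mul, one_mul, one_mul,
      e3]
  · have e := indep_step (NN μ) k B hB (Sk β γ k) (meas_Sk β γ k) _ (meas_T β γ n j A C hA hC)
    have e1 : {ω : ℕ → Ns | ω ∈ B ∧ tau β γ (k + 1) ω - tau β γ k ω ∈ A ∧
        pick (Sk β γ k ω) (ω (k + 1)).2.1 = n ∧ kind β γ (ω (k + 1)).2.2.1 = j ∧
        (j = 2 ∨ Fd β γ (Sk β γ k ω).1 ω ∈ C)} =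
        {ω | ω ∈ B ∧ (Sk β γ k ω, ω (k + 1)) ∈ {p : St × Ns | wait p.1 p.2.1 ∈ A ∧
          pick p.1 p.2.2.1 = n ∧ kind β γ p.2.2.2.1 = j ∧ (j = 2 ∨ fit p.2.2.2.2 ∈ C)}} := by
      ext ω
      simp only [Set.mem_ofPred_eq, tau_succ]
      constructor
      · rintro ⟨a1, a2, a3, a4, a5⟩
        refine ⟨a1, a2, a3, a4, ?_⟩
        by_cases hj : j = 2
        · exact Or.inl hj
        · rw [Fd_new β γ k ω (by rw [a4]; exact hj)] at a5
          exact a5
      · rintro ⟨a1, a2, a3, a4, a5⟩
        refine ⟨a1, a2, a3, a4, ?_⟩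
        by_cases hj : j = 2
        · exact Or.inl hj
        · rw [Fd_new β γ k ω (by rw [a4]; exact hj)]
          exact a5
    rw [e1, e]
    apply lintegral_congr
    intro ω
    have e2 := NN_step h1 h2 h3 h4 hmu (good_Sk β γ k ω) n j A C hA
    rw [RR_eq]
    refine Eq.trans ?_ (e2.trans ?_)
    · rfl
    · congr 1
      split_ifs with hn
      · rw [Fd_eq β γ ω hn]
      · rfl

end Pool.Agent.R254.RB
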