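import Pool.Agent.R254.RB.Wave

/-! WV-3 (MP_385430_pr): the Laplace functional of the old families. -/

open MeasureTheory ProbabilityTheory Filter Topology Set
open scoped ENNReal

namespace Pool.Agent.R254.RB

namespace Lapl

/-- The factor of one individual. -/
noncomputable def cc (a γ L x s : ℝ) : ℝ :=
  if a < x ∧ x < 1 then (1 + (Real.exp L - 1) * Real.exp (γ * x * s))⁻¹ else 1

theorem cc_one (a γ L s : ℝ) : cc a γ L 1 s = 1 := by
  unfold cc
  rw [if_neg]
  rintro ⟨_, h⟩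
  exact lt_irrefl _ h

theorem den_ge {L : ℝ} (hL : 0 ≤ L) (y : ℝ) : 1 ≤ 1 + (Real.exp L - 1) * Real.exp y := by
  have h1 := Real.one_le_exp hL
  have h2 := Real.exp_pos y
  nlinarith

theorem cc_pos {L : ℝ} (hL : 0 ≤ L) (a γ x s : ℝ) : 0 < cc a γ L x s := by
  unfold cc
  split_ifs
  · have := den_ge hL (γ * x * s)
    exact inv_pos.2 (by linarith)
  · norm_num

theorem cc_le {L : ℝ} (hL : 0 ≤ L) (a γ x s : ℝ) : cc a γ L x s ≤ 1 := by
  unfold cc
  split_ifs
  · exact inv_le_one_of_one_le₀ (den_ge hL _)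
  · exact le_rfl

theorem cc_deriv {L : ℝ} (hL : 0 ≤ L) (a γ x s : ℝ) : HasDerivAt (fun s => cc a γ L x s)
    (γ * x * (cc a γ L x s * (cc a γ L x s - 1))) s := by
  unfold cc
  by_cases h : a < x ∧ x < 1
  · simp only [if_pos h]
    have h1 : HasDerivAt (fun s : ℝ => Real.exp (γ * x * s)) (Real.exp (γ * x * s) * (γ * x)) s := by
      have := ((hasDerivAt_id s).const_mul (γ * x)).exp
      simpa using this
    have h2 := (h1.const_mul (Real.exp L - 1)).const_add 1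
    have hd := den_ge hL (γ * x * s)
    have hne : (1 + (Real.exp L - 1) * Real.exp (γ * x * s)) ≠ 0 := by linarith
    have h3 := h2.fun_inv hne
    refine h3.congr_deriv ?_
    field_simp
    ring
  · simp only [if_neg h]
    refine (hasDerivAt_const s (1 : ℝ)).congr_deriv ?_
    ring

theorem cc_cont {L : ℝ} (hL : 0 ≤ L) (a γ x : ℝ) : Continuous (fun s => cc a γ L x s) :=
  continuous_iff_continuousAt.2 fun s => (cc_deriv hL a γ x s).continuousAt

/-- The product over the families. -/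
noncomputable def pp (a γ L : ℝ) (J : ℕ) (y : ℕ → ℝ) (z : ℕ → ℕ) (s : ℝ) : ℝ :=
  ∏ n ∈ Finset.range J, (cc a γ L (y n) s) ^ (z n)

theorem pp_pos {L : ℝ} (hL : 0 ≤ L) (a γ : ℝ) (J : ℕ) (y : ℕ → ℝ) (z : ℕ → ℕ) (s : ℝ) :
    0 < pp a γ L J y z s :=
  Finset.prod_pos fun n _ => pow_pos (cc_pos hL a γ (y n) s) _

theorem pp_le {L : ℝ} (hL : 0 ≤ L) (a γ : ℝ) (J : ℕ) (y : ℕ → ℝ) (z : ℕ → ℕ) (s : ℝ) :
    pp a γ L J y z s ≤ 1 :=
  Finset.prod_le_one (fun n _ => (pow_pos (cc_pos hL a γ (y n) s) _).le)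
    fun n _ => pow_le_one₀ (cc_pos hL a γ (y n) s).le (cc_le hL a γ (y n) s)

theorem pp_deriv {L : ℝ} (hL : 0 ≤ L) (a γ : ℝ) (J : ℕ) (y : ℕ → ℝ) (z : ℕ → ℕ) (s : ℝ) :
    HasDerivAt (pp a γ L J y z) (pp a γ L J y z s *
      ∑ n ∈ Finset.range J, (z n : ℝ) * (γ * y n * (cc a γ L (y n) s - 1))) s := by
  induction J with
  | zero =>
    have e : pp a γ L 0 y z = fun _ => (1 : ℝ) := by funext s; simp [pp]
    rw [e]
    refine (hasDerivAt_const s (1 : ℝ)).congr_deriv ?_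
    simp
  | succ J ih =>
    have e : pp a γ L (J + 1) y z = fun s => pp a γ L J y z s * (cc a γ L (y J) s) ^ (z J) := by
      funext s
      simp [pp, Finset.prod_range_succ]
    rw [e, Finset.sum_range_succ]
    have h2 := (cc_deriv hL a γ (y J) s).fun_pow (z J)
    have h3 := ih.fun_mul h2
    refine h3.congr_deriv ?_
    rcases z J with _ | m
    · simp
    · simp only [Nat.add_sub_cancel]
      push_cast
      ring

theorem pp_cont {L : ℝ} (hL : 0 ≤ L) (a γ : ℝ) (J : ℕ) (y : ℕ → ℝ) (z : ℕ → ℕ) :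
    Continuous (pp a γ L J y z) :=
  continuous_iff_continuousAt.2 fun s => (pp_deriv hL a γ J y z s).continuousAt

theorem pp_zero (L : ℝ) (a γ : ℝ) (J : ℕ) (y : ℕ → ℝ) (z : ℕ → ℕ) :
    pp a γ L J y z 0 =
      Real.exp (-(L * ((∑ n ∈ Finset.range J, if a < y n ∧ y n < 1 then z n else 0 : ℕ) : ℝ))) := by
  unfold pp
  push_cast
  rw [Finset.mul_sum, ← Finset.sum_neg_distrib, Real.exp_sum]
  refine Finset.prod_congr rfl fun n _ => ?_
  unfold cc
  by_cases h : a < y n ∧ y n < 1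
  · rw [if_pos h, if_pos h, mul_zero, Real.exp_zero, mul_one, add_sub_cancel, ← Real.exp_neg,
      ← Real.exp_nat_mul]
    congr 1
    ring
  · rw [if_neg h, if_neg h]
    simp

variable {μ : Measure ℝ} {β γ : ℝ}

theorem pr_nonneg {β γ : ℝ} (hβ1 : β ≤ 1) (hγ1 : γ ≤ 1) (hβγ : 1 ≤ β + γ) (j : Fin 3) :
    0 ≤ pr β γ j := by
  unfold pr
  split_ifs <;> linarith

theorem sum3 (A Q c : ℝ) :
    ∑ i : Fin 3, pr β γ i * (A * (Q * (if i ≠ 1 then c else 1))) = A * Q * (1 + γ * (c - 1)) := by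
  rw [Fin.sum_univ_three]
  have e10 : (1 : Fin 3) ≠ 0 := by decide
  have e20 : (2 : Fin 3) ≠ 0 := by decide
  have e21 : (2 : Fin 3) ≠ 1 := by decide
  have e01 : (0 : Fin 3) ≠ 1 := by decide
  simp only [pr, if_true, if_neg e10, if_neg e20, ne_eq, e01, e21, not_false_eq_true,
    not_true_eq_false, if_false]
  ring

/-- The integrand, in closed form. -/
theorem integrand [IsProbabilityMeasure μ] (hβ1 : β ≤ 1) (hγ0 : 0 ≤ γ) (hγ1 : γ ≤ 1)
    (hβγ : 1 ≤ β + γ) {L : ℝ} (hL : 0 ≤ L) (a : ℝ) (J N : ℕ) (x y : ℕ → ℝ) (z : ℕ → ℕ)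
    (hx : ∀ n, 0 ≤ x n) (R : ℝ) (hR : R = ∑ n ∈ Finset.range N, x n * z n)
    (H : ∀ u, ∑ n ∈ Finset.range N, x n * z n * (cc a γ L (y n) u - 1) =
      ∑ n ∈ Finset.range J, y n * z n * (cc a γ L (y n) u - 1)) (v u : ℝ) :
    (∑ n ∈ Finset.range N, ∑ i : Fin 3, ENNReal.ofReal (pr β γ i) *
      (ENNReal.ofReal (x n * z n * Real.exp (-R * v)) *
        ∫⁻ _f, (ENNReal.ofReal (pp a γ L J y z u) *
          ENNReal.ofReal (if i ≠ 1 then cc a γ L (y n) u else 1)) ∂μ)) =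
      ENNReal.ofReal (Real.exp (-R * v) * (pp a γ L J y z u *
        (R + ∑ n ∈ Finset.range J, (z n : ℝ) * (γ * y n * (cc a γ L (y n) u - 1))))) ∧
    0 ≤ Real.exp (-R * v) * (pp a γ L J y z u *
        (R + ∑ n ∈ Finset.range J, (z n : ℝ) * (γ * y n * (cc a γ L (y n) u - 1)))) := by
  have hp := pr_nonneg hβ1 hγ1 hβγ
  have hP := (pp_pos hL a γ J y z u).le
  have hA : ∀ n, 0 ≤ x n * z n * Real.exp (-R * v) := fun n =>
    mul_nonneg (mul_nonneg (hx n) (Nat.cast_nonneg _)) (Real.exp_pos _).le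
  have hc : ∀ n (i : Fin 3), 0 ≤ (if i ≠ 1 then cc a γ L (y n) u else 1) := by
    intro n i
    split_ifs
    · exact (cc_pos hL _ _ _ _).le
    · norm_num
  have hS : ∀ n, 0 ≤ x n * z n * Real.exp (-R * v) * pp a γ L J y z u *
      (1 + γ * (cc a γ L (y n) u - 1)) := by
    intro n
    refine mul_nonneg (mul_nonneg (hA n) hP) ?_
    have := mul_nonneg hγ0 (cc_pos hL a γ (y n) u).le
    linarith
  have hsum : ∑ n ∈ Finset.range N, x n * z n * Real.exp (-R * v) * pp a γ L J y z u *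
      (1 + γ * (cc a γ L (y n) u - 1)) = Real.exp (-R * v) * (pp a γ L J y z u *
        (R + ∑ n ∈ Finset.range J, (z n : ℝ) * (γ * y n * (cc a γ L (y n) u - 1)))) := by
    have e1 : ∑ n ∈ Finset.range J, (z n : ℝ) * (γ * y n * (cc a γ L (y n) u - 1)) =
        γ * ∑ n ∈ Finset.range J, y n * z n * (cc a γ L (y n) u - 1) := by
      rw [Finset.mul_sum]
      exact Finset.sum_congr rfl fun n _ => by ring
    rw [e1, ← H u, hR, Finset.mul_sum, ← Finset.sum_add_distrib, Finset.mul_sum, Finset.mul_sum]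
    refine Finset.sum_congr rfl fun n _ => ?_
    ring
  constructor
  · rw [← hsum, ENNReal.ofReal_sum_of_nonneg (fun n _ => hS n)]
    refine Finset.sum_congr rfl fun n _ => ?_
    rw [← sum3 (β := β), ENNReal.ofReal_sum_of_nonneg (fun i _ =>
      mul_nonneg (hp i) (mul_nonneg (hA n) (mul_nonneg hP (hc n i))))]
    refine Finset.sum_congr rfl fun i _ => ?_
    rw [lintegral_const, measure_univ, mul_one, ENNReal.ofReal_mul (hp i),
      ENNReal.ofReal_mul (hA n), ENNReal.ofReal_mul hP]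
  · rw [← hsum]
    exact Finset.sum_nonneg fun n _ => hS n

theorem gen_core [IsProbabilityMeasure μ] (hβ1 : β ≤ 1) (hγ0 : 0 ≤ γ) (hγ1 : γ ≤ 1)
    (hβγ : 1 ≤ β + γ) {L : ℝ} (hL : 0 ≤ L) (a : ℝ) (J N : ℕ) (x y : ℕ → ℝ) (z : ℕ → ℕ)
    (hx : ∀ n, 0 ≤ x n) (R : ℝ) (hR : R = ∑ n ∈ Finset.range N, x n * z n)
    (H : ∀ u, ∑ n ∈ Finset.range N, x n * z n * (cc a γ L (y n) u - 1) =
      ∑ n ∈ Finset.range J, y n * z n * (cc a γ L (y n) u - 1)) (s : ℝ) (hs : 0 ≤ s) :
    ENNReal.ofReal (Real.exp (-R * s)) * ENNReal.ofReal (pp a γ L J y z 0) +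
    ∫⁻ v in Ioo (0 : ℝ) s, (∑ n ∈ Finset.range N, ∑ i : Fin 3, ENNReal.ofReal (pr β γ i) *
      (ENNReal.ofReal (x n * z n * Real.exp (-R * v)) *
        ∫⁻ _f, (ENNReal.ofReal (pp a γ L J y z (s - v)) *
          ENNReal.ofReal (if i ≠ 1 then cc a γ L (y n) (s - v) else 1)) ∂μ)) =
      ENNReal.ofReal (pp a γ L J y z s) := by
  have hI := fun v u => integrand (μ := μ) hβ1 hγ0 hγ1 hβγ hL a J N x y z hx R hR H v u
  have e1 : ∀ v, (∑ n ∈ Finset.range N, ∑ i : Fin 3, ENNReal.ofReal (pr β γ i) *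
      (ENNReal.ofReal (x n * z n * Real.exp (-R * v)) *
        ∫⁻ _f, (ENNReal.ofReal (pp a γ L J y z (s - v)) *
          ENNReal.ofReal (if i ≠ 1 then cc a γ L (y n) (s - v) else 1)) ∂μ)) =
      ENNReal.ofReal (Real.exp (-R * v) * (pp a γ L J y z (s - v) *
        (R + ∑ n ∈ Finset.range J, (z n : ℝ) * (γ * y n * (cc a γ L (y n) (s - v) - 1))))) :=
    fun v => (hI v (s - v)).1
  simp only [e1]
  set g : ℝ → ℝ := fun v => Real.exp (-R * v) * (pp a γ L J y z (s - v) *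
        (R + ∑ n ∈ Finset.range J, (z n : ℝ) * (γ * y n * (cc a γ L (y n) (s - v) - 1)))) with hg
  have hg0 : ∀ v, 0 ≤ g v := fun v => (hI v (s - v)).2
  have hgc : Continuous g := by
    have h1 := pp_cont hL a γ J y z
    have h2 := fun n => cc_cont hL a γ (y n)
    rw [hg]
    refine Continuous.mul (by fun_prop) (Continuous.mul (h1.comp (by fun_prop)) ?_)
    refine continuous_const.add (continuous_finsetSum _ fun n _ => ?_)
    refine continuous_const.mul (continuous_const.mul (Continuous.sub ?_ continuous_const))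
    exact (h2 n).comp (by fun_prop)
  have hGd : ∀ v, HasDerivAt (fun v => -(Real.exp (-R * v) * pp a γ L J y z (s - v))) (g v) v := by
    intro v
    have h1 : HasDerivAt (fun v : ℝ => Real.exp (-R * v)) (Real.exp (-R * v) * (-R)) v := by
      have := ((hasDerivAt_id v).const_mul (-R)).exp
      simpa using this
    have h2 : HasDerivAt (fun v : ℝ => pp a γ L J y z (s - v)) (-(pp a γ L J y z (s - v) *
      ∑ n ∈ Finset.range J, (z n : ℝ) * (γ * y n * (cc a γ L (y n) (s - v) - 1)))) v := by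
      have h3 := (pp_deriv hL a γ J y z (s - v)).comp v ((hasDerivAt_id v).const_sub s)
      refine h3.congr_deriv ?_
      ring
    refine (h1.fun_mul h2).fun_neg.congr_deriv ?_
    rw [hg]
    ring
  have hint : ∫ v in (0 : ℝ)..s, g v = pp a γ L J y z s - Real.exp (-R * s) * pp a γ L J y z 0 := by
    rw [intervalIntegral.integral_eq_sub_of_hasDerivAt (fun v _ => hGd v)
      (hgc.intervalIntegrable _ _)]
    simp
    ring
  have hl : ∫⁻ v in Ioo (0 : ℝ) s, ENNReal.ofReal (g v) =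
      ENNReal.ofReal (pp a γ L J y z s - Real.exp (-R * s) * pp a γ L J y z 0) := by
    rw [← hint, intervalIntegral.integral_of_le hs, integral_Ioc_eq_integral_Ioo,
      ofReal_integral_eq_lintegral_ofReal]
    · exact (hgc.integrableOn_Icc (a := 0) (b := s)).mono_set Ioo_subset_Icc_self
    · exact Eventually.of_forall hg0
  rw [hl, ← ENNReal.ofReal_mul (Real.exp_pos _).le, ← ENNReal.ofReal_add]
  · congr 1
    ring
  · exact mul_nonneg (Real.exp_pos _).le (pp_pos hL a γ J y z 0).le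
  · rw [← hint]
    exact intervalIntegral.integral_nonneg hs fun v _ => hg0 v

/-! ### The process -/

variable {Ω : Type*} [mΩ : MeasurableSpace Ω] {P : Measure Ω}

theorem MLeSucc (X : RBP P μ β γ) (k : ℕ) (ω : Ω) : X.M k ω ≤ X.M (k + 1) ω := by
  rw [X.M_succ]; exact Nat.le_add_right _ _

theorem MMono (X : RBP P μ β γ) (ω : Ω) : Monotone (fun k => X.M k ω) :=
  monotone_nat_of_le_succ (fun k => MLeSucc X k ω)

theorem MLe (X : RBP P μ β γ) (k : ℕ) (ω : Ω) : X.M k ω ≤ k + 1 := by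
  induction k with
  | zero => rw [X.M_zero]
  | succ k ih =>
    have : X.M (k + 1) ω ≤ X.M k ω + 1 := by
      rw [X.M_succ]; split_ifs <;> omega
    omega

theorem ZZero (X : RBP P μ β γ) (k n : ℕ) (ω : Ω) (h : X.M k ω ≤ n) : X.Z k n ω = 0 := by
  induction k generalizing n with
  | zero =>
    rw [X.Z_zero]
    rw [X.M_zero] at h
    rw [if_neg (by omega)]
  | succ k ih =>
    have h1 := MLeSucc X k ω
    have h2 := X.I_lt k ω
    rw [X.Z_succ, ih n (by omega)]
    rw [X.M_succ] at h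
    rw [if_neg (by omega), if_neg]
    rintro ⟨h3, h4⟩
    rw [if_neg h4] at h
    omega

/-- The fitness of family `n` if it exists after `j` events, else `1`. -/
noncomputable def Fj (X : RBP P μ β γ) (j n : ℕ) (ω : Ω) : ℝ := if n < X.M j ω then X.F n ω else 1

theorem Fj_pos (X : RBP P μ β γ) (j n : ℕ) (ω : Ω) : 0 < Fj X j n ω := by
  unfold Fj
  split_ifs
  · exact (X.F_mem n ω).1
  · norm_num

theorem prod_Fj (X : RBP P μ β γ) (j : ℕ) (ω : Ω) (G : ℕ → ℝ → ℝ) (hG : ∀ n, G n 1 = 1) :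
    ∏ n ∈ Finset.range (j + 1), G n (Fj X j n ω) = ∏ n ∈ Finset.range (X.M j ω), G n (X.F n ω) := by
  refine (Finset.prod_subset (Finset.range_mono (MLe X j ω)) fun n _ hn => ?_).symm.trans
    (Finset.prod_congr rfl fun n hn => ?_)
  · rw [Finset.mem_range] at hn
    rw [Fj, if_neg hn, hG]
  · rw [Fj, if_pos (Finset.mem_range.1 hn)]

theorem sum_Fj {A : Type*} [AddCommMonoid A] (X : RBP P μ β γ) (j : ℕ) (ω : Ω) (G : ℕ → ℝ → A)
    (hG : ∀ n, G n 1 = 0) :
    ∑ n ∈ Finset.range (j + 1), G n (Fj X j n ω) = ∑ n ∈ Finset.range (X.M j ω), G n (X.F n ω) := by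
  refine (Finset.sum_subset (Finset.range_mono (MLe X j ω)) fun n _ hn => ?_).symm.trans
    (Finset.sum_congr rfl fun n hn => ?_)
  · rw [Finset.mem_range] at hn
    rw [Fj, if_neg hn, hG]
  · rw [Fj, if_pos (Finset.mem_range.1 hn)]

/-- The value function. -/
noncomputable def U (X : RBP P μ β γ) (a L : ℝ) (j k : ℕ) (ω : Ω) (s : ℝ) : ℝ≥0∞ :=
  ENNReal.ofReal (pp a γ L (j + 1) (fun n => Fj X j n ω) (fun n => X.Z k n ω) s)

/-- Its value after one more event. -/
noncomputable def Ph (X : RBP P μ β γ) (a L : ℝ) (j k n : ℕ) (i : Fin 3) (p : Ω × ℝ × ℝ) : ℝ≥0∞ :=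
  U X a L j k p.1 p.2.1 * ENNReal.ofReal (if i ≠ 1 then cc a γ L (Fj X j n p.1) p.2.1 else 1)

theorem meas_cc (a γ L : ℝ) : Measurable (fun p : ℝ × ℝ => cc a γ L p.1 p.2) := by
  unfold cc
  refine Measurable.ite ?_ (by fun_prop) measurable_const
  exact (measurableSet_lt measurable_const measurable_fst).inter
    (measurableSet_lt measurable_fst measurable_const)

theorem meas_pp {Ω' : Type*} [MeasurableSpace Ω'] (a γ L : ℝ) (J : ℕ) (y : ℕ → Ω' → ℝ)
    (hy : ∀ n, Measurable (y n)) (z : ℕ → Ω' → ℕ) (hz : ∀ n, Measurable (z n)) :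
    Measurable (fun p : Ω' × ℝ => pp a γ L J (fun n => y n p.1) (fun n => z n p.1) p.2) := by
  unfold pp
  refine Finset.measurable_prod _ fun n _ => ?_
  exact ((meas_cc a γ L).comp (((hy n).comp measurable_fst).prodMk measurable_snd)).pow
    ((hz n).comp measurable_fst)

theorem meas_U' {Ω' : Type*} [MeasurableSpace Ω'] (a γ L : ℝ) (J : ℕ) (y : ℕ → Ω' → ℝ)
    (hy : ∀ n, Measurable (y n)) (z : ℕ → Ω' → ℕ) (hz : ∀ n, Measurable (z n)) :
    Measurable (fun p : Ω' × ℝ =>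
      ENNReal.ofReal (pp a γ L J (fun n => y n p.1) (fun n => z n p.1) p.2)) :=
  (meas_pp a γ L J y hy z hz).ennreal_ofReal

theorem meas_Ph' {Ω' : Type*} [MeasurableSpace Ω'] (a γ L : ℝ) (J : ℕ) (y : ℕ → Ω' → ℝ)
    (hy : ∀ n, Measurable (y n)) (z : ℕ → Ω' → ℕ) (hz : ∀ n, Measurable (z n)) (n : ℕ)
    (i : Fin 3) :
    Measurable (fun p : Ω' × ℝ × ℝ =>
      ENNReal.ofReal (pp a γ L J (fun n => y n p.1) (fun n => z n p.1) p.2.1) *
      ENNReal.ofReal (if i ≠ 1 then cc a γ L (y n p.1) p.2.1 else 1)) := by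
  have h1 : Measurable (fun p : Ω' × ℝ × ℝ => (p.1, p.2.1)) :=
    measurable_fst.prodMk (measurable_fst.comp measurable_snd)
  refine ((meas_U' a γ L J y hy z hz).comp h1).mul (Measurable.ennreal_ofReal ?_)
  by_cases hi : i ≠ 1
  · simp only [if_pos hi]
    exact (meas_cc a γ L).comp (((hy n).comp measurable_fst).prodMk
      (measurable_fst.comp measurable_snd))
  · simp only [if_neg hi]
    exact measurable_const

theorem val (X : RBP P μ β γ) (a : ℝ) {L : ℝ} (hL : 0 ≤ L) (j : ℕ) :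
    X.Val j (U X a L j) (Ph X a L j) where
  meas := by
    intro k hk
    exact @meas_U' Ω (X.ℱ k) a γ L (j + 1) (fun n => Fj X j n)
      (fun n => (X.meas_F j n).mono (X.ℱ.mono hk) le_rfl) (fun n => X.Z k n) (fun n => X.meas_Z k n)
  measΦ := by
    intro k hk n i
    exact @meas_Ph' Ω (X.ℱ k) a γ L (j + 1) (fun n => Fj X j n)
      (fun n => (X.meas_F j n).mono (X.ℱ.mono hk) le_rfl) (fun n => X.Z k n)
      (fun n => X.meas_Z k n) n i
  free := by
    intro k _ n ω s f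
    rfl
  next := by
    intro k hk ω s
    have hM : X.M j ω ≤ X.M k ω := MMono X ω hk
    have hnot : ∀ n, ¬ n < X.M j ω → cc a γ L (Fj X j n ω) s = 1 := by
      intro n hn
      rw [Fj, if_neg hn, cc_one]
    have key : pp a γ L (j + 1) (fun n => Fj X j n ω) (fun n => X.Z (k + 1) n ω) s =
        pp a γ L (j + 1) (fun n => Fj X j n ω) (fun n => X.Z k n ω) s *
          (if X.θ k ω ≠ 1 then cc a γ L (Fj X j (X.I k ω) ω) s else 1) := by
      unfold pp
      have e : ∀ n ∈ Finset.range (j + 1), (cc a γ L (Fj X j n ω) s) ^ (X.Z (k + 1) n ω) =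
          (cc a γ L (Fj X j n ω) s) ^ (X.Z k n ω) * (if n = X.I k ω then
            (if X.θ k ω ≠ 1 then cc a γ L (Fj X j (X.I k ω) ω) s else 1) else 1) := by
        intro n _
        rw [X.Z_succ, pow_add, pow_add]
        have e3 : (cc a γ L (Fj X j n ω) s) ^ (if n = X.M k ω ∧ X.θ k ω ≠ 2 then 1 else 0) = 1 := by
          split_ifs with h
          · rw [hnot n (by omega), one_pow]
          · rw [pow_zero]
        rw [e3, mul_one]
        congr 1
        by_cases h1 : n = X.I k ω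
        · subst h1
          by_cases h2 : X.θ k ω ≠ 1
          · rw [if_pos ⟨rfl, h2⟩, pow_one, if_pos rfl, if_pos h2]
          · rw [if_neg (fun h => h2 h.2), pow_zero, if_pos rfl, if_neg h2]
        · rw [if_neg (fun h => h1 h.1), pow_zero, if_neg h1]
      rw [Finset.prod_congr rfl e, Finset.prod_mul_distrib, Finset.prod_ite_eq']
      congr 1
      split_ifs with h1 h2 h2
      · rfl
      · rfl
      · rw [Finset.mem_range] at h1
        rw [hnot]
        have := MLe X j ω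
        omega
      · rfl
    unfold U Ph U
    rw [key, ENNReal.ofReal_mul (pp_pos hL a γ (j + 1) (fun n => Fj X j n ω)
      (fun n => X.Z k n ω) s).le]

theorem gen_eq [IsProbabilityMeasure μ] {α : ℝ} (hC : Cond μ β γ α) (X : RBP P μ β γ) {L : ℝ}
    (hL : 0 ≤ L) (a : ℝ) (j k : ℕ) (hk : j ≤ k) (ω : Ω) (s : ℝ) (hs : 0 ≤ s) :
    X.gen (U X a L j) (Ph X a L j) k ω s = U X a L j k ω s := by
  have h := gen_core (μ := μ) hC.β_le hC.γ_pos.le hC.γ_le hC.one_le hL a (j + 1) (X.M k ω)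
    (fun n => X.F n ω) (fun n => Fj X j n ω) (fun n => X.Z k n ω) (fun n => (X.F_mem n ω).1.le)
    (X.R k ω) rfl (fun u => by
      have e1 : ∑ n ∈ Finset.range (j + 1), Fj X j n ω * X.Z k n ω * (cc a γ L (Fj X j n ω) u - 1)
          = ∑ n ∈ Finset.range (X.M j ω), X.F n ω * X.Z k n ω * (cc a γ L (X.F n ω) u - 1) :=
        sum_Fj X j ω (fun n x => x * X.Z k n ω * (cc a γ L x u - 1)) (fun n => by
          rw [cc_one]; ring)
      rw [e1]
      symm
      refine (Finset.sum_congr rfl fun n hn => ?_).trans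
        (Finset.sum_subset (Finset.range_mono (MMono X ω hk)) fun n _ hn => ?_)
      · rw [Fj, if_pos (Finset.mem_range.1 hn)]
      · rw [Finset.mem_range] at hn
        rw [Fj, if_neg hn, cc_one]
        ring) s hs
  exact h

theorem idx_of_At (X : RBP P μ β γ) (j : ℕ) (t : ℝ) (ω : Ω) (h : ω ∈ X.At j t) :
    X.idx t ω = j := by
  have hmono : StrictMono (fun k => X.τ k ω) := strictMono_nat_of_lt_succ fun k => X.τ_lt k ω
  have hs : {k | X.τ k ω ≤ t} = Set.Iic j := by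
    ext k
    simp only [Set.mem_ofPred_eq, Set.mem_Iic]
    constructor
    · intro hk
      by_contra hlt
      have h1 : X.τ (j + 1) ω ≤ X.τ k ω := hmono.monotone (by omega)
      exact absurd h.2 (not_lt.2 (h1.trans hk))
    · intro hk
      have h1 : X.τ k ω ≤ X.τ j ω := hmono.monotone hk
      exact h1.trans h.1
  unfold RBP.idx
  rw [hs]
  exact csSup_Iic

theorem meas_At (X : RBP P μ β γ) (j : ℕ) (t : ℝ) : MeasurableSet (X.At j t) := by
  have h1 : Measurable (X.τ j) := (X.meas_τ j).mono (X.ℱ.le j) le_rfl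
  have h2 : Measurable (X.τ (j + 1)) := (X.meas_τ (j + 1)).mono (X.ℱ.le (j + 1)) le_rfl
  exact (measurableSet_le h1 measurable_const).inter (measurableSet_lt measurable_const h2)

theorem cover (X : RBP P μ β γ) (t : ℝ) (ht : 0 ≤ t) (ω : Ω)
    (h : Tendsto (fun k => X.τ k ω) atTop atTop) : ∃ j, ω ∈ X.At j t := by
  classical
  have hex : ∃ k, t < X.τ k ω := (h.eventually_gt_atTop t).exists
  have hpos : Nat.find hex ≠ 0 := by
    intro h0
    have := Nat.find_spec hex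
    rw [h0, X.τ_zero] at this
    linarith
  obtain ⟨j, hj⟩ := Nat.exists_eq_succ_of_ne_zero hpos
  refine ⟨j, ?_, ?_⟩
  · exact not_lt.1 (Nat.find_min hex (by omega))
  · have := Nat.find_spec hex
    rw [hj] at this
    exact this

theorem S_eq (X : RBP P μ β γ) (j : ℕ) (ω : Ω) :
    X.S j ω = ∑ n ∈ Finset.range (j + 1), X.Z j n ω := by
  unfold RBP.S
  refine Finset.sum_subset (Finset.range_mono (MLe X j ω)) fun n _ hn => ?_
  rw [Finset.mem_range] at hn
  exact ZZero X j n ω (by omega)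

theorem meas_S (X : RBP P μ β γ) (j : ℕ) : Measurable[X.ℱ j] (X.S j) := by
  have e : X.S j = fun ω => ∑ n ∈ Finset.range (j + 1), X.Z j n ω := by
    funext ω
    exact S_eq X j ω
  rw [e]
  exact Finset.measurable_sum (m := X.ℱ j) _ fun n _ => X.meas_Z j n

/-- `pp` at remaining time `0`. -/
theorem pp_0 (X : RBP P μ β γ) (a L : ℝ) (j k : ℕ) (ω : Ω) :
    pp a γ L (j + 1) (fun n => Fj X j n ω) (fun n => X.Z k n ω) 0 = Real.exp (-(L *
      ((∑ n ∈ Finset.range (X.M j ω), if a < X.F n ω ∧ X.F n ω < 1 then X.Z k n ω else 0 : ℕ) :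
        ℝ))) := by
  rw [pp_zero]
  have e := sum_Fj X j ω (fun n x => if a < x ∧ x < 1 then X.Z k n ω else 0) (fun n => by
    rw [if_neg]
    rintro ⟨_, h⟩
    exact lt_irrefl _ h)
  rw [e]

theorem pp_T (X : RBP P μ β γ) (a L : ℝ) (j k : ℕ) (ω : Ω) (T : ℝ) :
    pp a γ L (j + 1) (fun n => Fj X j n ω) (fun n => X.Z k n ω) T =
      ∏ n ∈ Finset.range (X.M j ω), if a < X.F n ω ∧ X.F n ω < 1 then
        ((1 + (Real.exp L - 1) * Real.exp (γ * X.F n ω * T))⁻¹) ^ (X.Z k n ω) else 1 := by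
  unfold pp
  rw [prod_Fj X j ω (fun n x => (cc a γ L x T) ^ (X.Z k n ω)) (fun n => by rw [cc_one, one_pow])]
  refine Finset.prod_congr rfl fun n _ => ?_
  unfold cc
  split_ifs
  · rfl
  · rw [one_pow]

theorem meas_piece (X : RBP P μ β γ) (a L : ℝ) (j k : ℕ) (T : ℝ) :
    Measurable (fun ω => pp a γ L (j + 1) (fun n => Fj X j n ω) (fun n => X.Z k n ω) T) :=
  (meas_pp a γ L (j + 1) (fun n => Fj X j n)
    (fun n => (X.meas_F j n).mono (X.ℱ.le j) le_rfl) (fun n => X.Z k n)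
    (fun n => (X.meas_Z k n).mono (X.ℱ.le k) le_rfl)).comp (measurable_id.prodMk measurable_const)

end Lapl

open Lapl

theorem lapl {Ω : Type*} [mΩ : MeasurableSpace Ω] {P : Measure Ω} {μ : Measure ℝ} {β γ : ℝ}
    [IsProbabilityMeasure P] [IsProbabilityMeasure μ] (X : RBP P μ β γ) {α : ℝ}
    (hC : Cond μ β γ α) (hR : X.RestartEqStmt) (hNE : X.NonExpStmt) : X.LaplStmt := by
  intro a t T lam ht hT hlam
  set f1 : Ω → ℝ := fun ω => Real.exp (-(lam (X.N t ω) * X.Old a t T ω)) with hf1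
  set f2 : Ω → ℝ := fun ω => (∏ n ∈ Finset.range (X.M (X.idx t ω) ω),
    if a < X.F n ω ∧ X.F n ω < 1 then
      ((1 + (Real.exp (lam (X.N t ω)) - 1) * Real.exp (γ * X.F n ω * T))⁻¹) ^
        (X.Z (X.idx t ω) n ω) else 1) with hf2
  -- the pieces
  set B : ℕ → ℕ → Set Ω := fun j m => {ω | X.S j ω = m} with hB
  have hBm : ∀ j m, MeasurableSet[X.ℱ j] (B j m) := fun j m =>
    (meas_S X j) (measurableSet_singleton m)
  have hBm' : ∀ j m, MeasurableSet (B j m) := fun j m => X.ℱ.le j _ (hBm j m)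
  have e1 : ∀ j m, ∀ ω ∈ B j m ∩ X.At j t, f1 ω =
      pp a γ (lam m) (j + 1) (fun n => Fj X j n ω) (fun n => X.Z (X.idx (t + T) ω) n ω) 0 := by
    intro j m ω hω
    have hi := idx_of_At X j t ω hω.2
    have hN : X.N t ω = m := by
      unfold RBP.N
      rw [hi]
      exact hω.1
    rw [pp_0, hf1]
    simp only
    rw [hN]
    unfold RBP.Old
    rw [hi]
  have e2 : ∀ j m, ∀ ω ∈ B j m ∩ X.At j t, f2 ω =
      pp a γ (lam m) (j + 1) (fun n => Fj X j n ω) (fun n => X.Z j n ω) T := by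
    intro j m ω hω
    have hi := idx_of_At X j t ω hω.2
    have hN : X.N t ω = m := by
      unfold RBP.N
      rw [hi]
      exact hω.1
    rw [pp_T, hf2]
    simp only
    rw [hN, hi]
  have hpiece : ∀ j m, ∫⁻ ω in B j m ∩ X.At j t, ENNReal.ofReal (f1 ω) ∂P =
      ∫⁻ ω in B j m ∩ X.At j t, ENNReal.ofReal (f2 ω) ∂P := by
    intro j m
    have hms := (hBm' j m).inter (meas_At X j t)
    have h1 : ∫⁻ ω in B j m ∩ X.At j t, ENNReal.ofReal (f1 ω) ∂P =
        ∫⁻ ω in B j m ∩ X.At j t, U X a (lam m) j (X.idx (t + T) ω) ω 0 ∂P :=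
      setLIntegral_congr_fun hms (fun ω hω => by
        rw [e1 j m ω hω]
        rfl)
    have h2 : ∫⁻ ω in B j m ∩ X.At j t, ENNReal.ofReal (f2 ω) ∂P =
        ∫⁻ ω in B j m ∩ X.At j t, U X a (lam m) j j ω T ∂P :=
      setLIntegral_congr_fun hms (fun ω hω => by
        rw [e2 j m ω hω]
        rfl)
    rw [h1, h2]
    refine hR j (U X a (lam m) j) (Ph X a (lam m) j) (val X a (hlam m) j) t T ht hT ?_ ?_
      (B j m) (hBm j m)
    · intro k ω s
      unfold U
      rw [← ENNReal.ofReal_one]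
      exact ENNReal.ofReal_le_ofReal (pp_le (hlam m) _ _ _ _ _ _)
    · intro k hk ω s hs
      exact gen_eq hC X (hlam m) a j k hk ω s hs.1
  -- covering
  have hcov : ∀ᵐ ω ∂P, ω ∈ ⋃ p : ℕ × ℕ, B p.1 p.2 ∩ X.At p.1 t :=
    hNE.mono fun ω hω => by
      obtain ⟨j, hj⟩ := cover X t ht ω hω
      exact Set.mem_iUnion.2 ⟨(j, X.S j ω), rfl, hj⟩
  have hcov3 : ∀ᵐ ω ∂P, ω ∈ ⋃ p : (ℕ × ℕ) × ℕ, (B p.1.1 p.1.2 ∩ X.At p.1.1 t) ∩ X.At p.2 (t + T) :=
    hNE.mono fun ω hω => by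
      obtain ⟨j, hj⟩ := cover X t ht ω hω
      obtain ⟨k, hk⟩ := cover X (t + T) (by linarith) ω hω
      exact Set.mem_iUnion.2 ⟨((j, X.S j ω), k), ⟨rfl, hj⟩, hk⟩
  -- measurability
  have hm2 : AEStronglyMeasurable f2 P := by
    rw [← Measure.restrict_eq_self_of_ae_mem hcov, aestronglyMeasurable_iUnion_iff]
    intro p
    have hms := (hBm' p.1 p.2).inter (meas_At X p.1 t)
    refine (meas_piece X a (lam p.2) p.1 p.1 T).aestronglyMeasurable.congr ?_
    exact (ae_restrict_of_forall_mem hms fun ω hω => (e2 p.1 p.2 ω hω).symm)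
  have hm1 : AEStronglyMeasurable f1 P := by
    rw [← Measure.restrict_eq_self_of_ae_mem hcov3, aestronglyMeasurable_iUnion_iff]
    intro p
    have hms := ((hBm' p.1.1 p.1.2).inter (meas_At X p.1.1 t)).inter (meas_At X p.2 (t + T))
    refine (meas_piece X a (lam p.1.2) p.1.1 p.2 0).aestronglyMeasurable.congr ?_
    refine (ae_restrict_of_forall_mem hms fun ω hω => ?_)
    rw [e1 p.1.1 p.1.2 ω hω.1, idx_of_At X p.2 (t + T) ω hω.2]
  have hn1 : 0 ≤ᵐ[P] f1 := Eventually.of_forall fun ω => (Real.exp_pos _).le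
  have hn2 : 0 ≤ᵐ[P] f2 := Eventually.of_forall fun ω => by
    refine Finset.prod_nonneg fun n _ => ?_
    split_ifs
    · have := den_ge (hlam (X.N t ω)) (γ * X.F n ω * T)
      exact pow_nonneg (inv_nonneg.2 (by linarith)) _
    · norm_num
  have hdisj : Pairwise (Function.onFun Disjoint fun p : ℕ × ℕ => B p.1 p.2 ∩ X.At p.1 t) := by
    intro p q hpq
    rw [Function.onFun, Set.disjoint_left]
    rintro ω ⟨h1, h2⟩ ⟨h3, h4⟩
    have h5 : p.1 = q.1 := (idx_of_At X p.1 t ω h2).symm.trans (idx_of_At X q.1 t ω h4)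
    apply hpq
    refine Prod.ext h5 ?_
    have h1' : X.S p.1 ω = p.2 := h1
    have h3' : X.S q.1 ω = q.2 := h3
    rw [← h1', ← h3', h5]
  have hsplit : ∀ f : Ω → ℝ≥0∞, ∫⁻ ω, f ω ∂P =
      ∑' p : ℕ × ℕ, ∫⁻ ω in B p.1 p.2 ∩ X.At p.1 t, f ω ∂P := by
    intro f
    rw [← lintegral_iUnion (fun p : ℕ × ℕ => (hBm' p.1 p.2).inter (meas_At X p.1 t)) hdisj,
      Measure.restrict_eq_self_of_ae_mem hcov]
  rw [integral_eq_lintegral_of_nonneg_ae hn1 hm1, integral_eq_lintegral_of_nonneg_ae hn2 hm2,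
    hsplit, hsplit]
  congr 1
  exact tsum_congr fun p => hpiece p.1 p.2

end Pool.Agent.R254.RB
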