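import Pool.Agent.R254.RB.Wave
import Pool.Agent.R254.RB.StepSum
import Pool.Agent.R732.RB.NonExp

/-!
# WV-5 (MP_385430_pr): law of large numbers for the old families
-/

open MeasureTheory ProbabilityTheory Filter Topology Set
open scoped ENNReal

namespace Pool.Agent.R254.RB

namespace OldL

/-! ### Real analysis -/

lemma exp_lip {a b : ℝ} (ha : 0 ≤ a) (hb : 0 ≤ b) :
    |Real.exp (-a) - Real.exp (-b)| ≤ |a - b| := by
  wlog h : a ≤ b generalizing a b
  · rw [abs_sub_comm, abs_sub_comm a b]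
    exact this hb ha (le_of_not_ge h)
  have h1 := Real.add_one_le_exp (-(b - a))
  have h2 : Real.exp (-b) = Real.exp (-a) * Real.exp (-(b - a)) := by
    rw [← Real.exp_add]
    congr 1
    ring
  have h3 : Real.exp (-a) ≤ 1 := Real.exp_le_one_iff.2 (by linarith)
  have h4 := Real.exp_pos (-a)
  have h5 : Real.exp (-(b - a)) ≤ 1 := Real.exp_le_one_iff.2 (by linarith)
  rw [h2, abs_of_nonneg (by nlinarith), abs_of_nonpos (by linarith)]
  nlinarith

lemma term_bound {θ N E e : ℝ} (hθ : 0 < θ) (hN : 1 ≤ N) (hN2 : 2 * θ ≤ N) (hE : 1 ≤ E)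
    (he0 : 0 ≤ e) (heE : e ≤ E) :
    0 ≤ Real.log (1 + (Real.exp (θ / (E * N)) - 1) * e) ∧
    |Real.log (1 + (Real.exp (θ / (E * N)) - 1) * e) - θ / N * (e / E)| ≤ 3 * (θ / N) ^ 2 := by
  have hN0 : 0 < N := by linarith
  have hE0 : 0 < E := by linarith
  set lam := θ / (E * N) with hlam
  set s := θ / N with hs
  set u := e / E with hu
  have hs0 : 0 < s := by positivity
  have hs1 : s ≤ 1 / 2 := by
    rw [hs, div_le_iff₀ hN0]
    linarith
  have hu0 : 0 ≤ u := by positivity
  have hu1 : u ≤ 1 := by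
    rw [hu, div_le_one hE0]
    exact heE
  have hl0 : 0 < lam := by positivity
  have hlE : lam * E = s := by
    rw [hlam, hs]
    field_simp
  have hls : lam ≤ s := by nlinarith
  have he : lam * e = s * u := by
    rw [hlam, hs, hu]
    field_simp
  have h1 : lam ≤ Real.exp lam - 1 := by linarith [Real.add_one_le_exp lam]
  have h2 : Real.exp lam - 1 ≤ lam + lam ^ 2 := by
    have h3 := Real.abs_exp_sub_one_sub_id_le (x := lam) (by rw [abs_of_pos hl0]; linarith)
    have h4 := (abs_le.1 h3).2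
    linarith
  set y := (Real.exp lam - 1) * e with hy
  have hy1 : s * u ≤ y := by
    rw [← he]
    exact mul_le_mul_of_nonneg_right h1 he0
  have hy2 : y ≤ s * u + s * u * s := by
    have h3 : y ≤ (lam + lam ^ 2) * e := mul_le_mul_of_nonneg_right h2 he0
    have h4 : (lam + lam ^ 2) * e = s * u + s * u * lam := by
      have : (lam + lam ^ 2) * e = lam * e + lam * e * lam := by ring
      rw [this, he]
    rw [h4] at h3
    have h5 : s * u * lam ≤ s * u * s := mul_le_mul_of_nonneg_left hls (by positivity)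
    linarith
  have hsu : s * u ≤ s := by nlinarith
  have hsu0 : 0 ≤ s * u := by positivity
  have hy0 : 0 ≤ y := le_trans hsu0 hy1
  have hsus : s * u * s ≤ s ^ 2 := by nlinarith
  have hlog1 : Real.log (1 + y) ≤ y := by
    have := Real.log_le_sub_one_of_pos (x := 1 + y) (by linarith)
    linarith
  have hlog2 : y - y ^ 2 ≤ Real.log (1 + y) := by
    have h3 := Real.one_sub_inv_le_log_of_pos (x := 1 + y) (by linarith)
    have h4 : y - y ^ 2 ≤ 1 - (1 + y)⁻¹ := by
      have h5 : 1 - (1 + y)⁻¹ = y / (1 + y) := by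
        field_simp
        ring
      rw [h5, le_div_iff₀ (by linarith)]
      have : 0 ≤ y ^ 3 := by positivity
      nlinarith
    linarith
  refine ⟨Real.log_nonneg (by linarith), ?_⟩
  rw [abs_le]
  constructor
  · have h3 : y ≤ 3 / 2 * s := by nlinarith
    have h4 : y ^ 2 ≤ (3 / 2 * s) ^ 2 := by gcongr
    nlinarith
  · nlinarith

lemma prod_bound (A : Finset ℕ) (w : ℕ → Prop) [DecidablePred w] (z : ℕ → ℕ) (e : ℕ → ℝ)
    (N : ℕ) (hN : ∑ n ∈ A, z n = N) {θ E : ℝ} (hθ : 0 < θ) (hN1 : 1 ≤ N)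
    (hN2 : 2 * θ ≤ N) (hE : 1 ≤ E) (he0 : ∀ n, 0 ≤ e n) (heE : ∀ n, e n ≤ E) :
    |∏ n ∈ A, (if w n then ((1 + (Real.exp (θ / (E * N)) - 1) * e n)⁻¹) ^ (z n) else 1) -
      Real.exp (-(θ * ((∑ n ∈ A, if w n then (z n : ℝ) * (e n / E) else 0) / N)))| ≤
        3 * θ ^ 2 / N := by
  have hN1' : (1 : ℝ) ≤ N := by exact_mod_cast hN1
  have hN0 : (0 : ℝ) < N := by linarith
  have hE0 : 0 < E := by linarith
  have htb := fun n => term_bound hθ hN1' hN2 hE (he0 n) (heE n)
  set L : ℕ → ℝ := fun n => Real.log (1 + (Real.exp (θ / (E * N)) - 1) * e n) with hL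
  have hpos : ∀ n, 0 < 1 + (Real.exp (θ / (E * N)) - 1) * e n := by
    intro n
    have h1 : 0 ≤ Real.exp (θ / (E * N)) - 1 := by
      have := Real.add_one_le_exp (θ / (E * N))
      have h2 : 0 < θ / (E * N) := by positivity
      linarith
    have h2 := mul_nonneg h1 (he0 n)
    linarith
  have h1 : ∏ n ∈ A, (if w n then ((1 + (Real.exp (θ / (E * N)) - 1) * e n)⁻¹) ^ (z n) else 1) =
      Real.exp (-(∑ n ∈ A, if w n then (z n : ℝ) * L n else 0)) := by
    rw [← Finset.sum_neg_distrib, Real.exp_sum]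
    refine Finset.prod_congr rfl fun n _ => ?_
    split_ifs
    · rw [Real.exp_neg, Real.exp_nat_mul, hL]
      simp only
      rw [Real.exp_log (hpos n), inv_pow]
    · rw [neg_zero, Real.exp_zero]
  have h2 : θ * ((∑ n ∈ A, if w n then (z n : ℝ) * (e n / E) else 0) / N) =
      ∑ n ∈ A, if w n then (z n : ℝ) * (θ / N * (e n / E)) else 0 := by
    rw [Finset.sum_div, Finset.mul_sum]
    refine Finset.sum_congr rfl fun n _ => ?_
    split_ifs
    · ring
    · simp
  rw [h1, h2]
  refine (exp_lip (Finset.sum_nonneg fun n _ => ?_) (Finset.sum_nonneg fun n _ => ?_)).trans ?_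
  · split_ifs
    · exact mul_nonneg (Nat.cast_nonneg _) (htb n).1
    · exact le_refl _
  · split_ifs
    · have := he0 n
      positivity
    · exact le_refl _
  rw [← Finset.sum_sub_distrib]
  refine (Finset.abs_sum_le_sum_abs _ _).trans ?_
  have h3 : ∀ n ∈ A, |(if w n then (z n : ℝ) * L n else 0) -
      (if w n then (z n : ℝ) * (θ / N * (e n / E)) else 0)| ≤ (z n : ℝ) * (3 * (θ / N) ^ 2) := by
    intro n _
    split_ifs
    · rw [← mul_sub, abs_mul, Nat.abs_cast]
      exact mul_le_mul_of_nonneg_left (htb n).2 (Nat.cast_nonneg _)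
    · rw [sub_zero, abs_zero]
      positivity
  refine (Finset.sum_le_sum h3).trans (le_of_eq ?_)
  rw [← Finset.sum_mul, ← Nat.cast_sum, hN]
  field_simp

lemma prod_mem (A : Finset ℕ) (w : ℕ → Prop) [DecidablePred w] (z : ℕ → ℕ) (y : ℕ → ℝ)
    (hy : ∀ n, 0 ≤ y n) :
    0 ≤ ∏ n ∈ A, (if w n then ((1 + y n)⁻¹) ^ (z n) else 1) ∧
      ∏ n ∈ A, (if w n then ((1 + y n)⁻¹) ^ (z n) else 1) ≤ 1 := by
  have h0 : ∀ n, 0 ≤ (if w n then ((1 + y n)⁻¹) ^ (z n) else 1) := by
    intro n
    have := hy n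
    split_ifs
    · positivity
    · exact zero_le_one
  refine ⟨Finset.prod_nonneg fun n _ => h0 n, Finset.prod_le_one (fun n _ => h0 n) fun n _ => ?_⟩
  have := hy n
  split_ifs
  · exact pow_le_one₀ (by positivity) (inv_le_one_of_one_le₀ (by linarith))
  · exact le_refl _

lemma sep {y q ε : ℝ} (h : ε < |y - q|) :
    Real.exp (-q) * (1 - Real.exp (-ε)) ≤ |Real.exp (-y) - Real.exp (-q)| := by
  have hq := Real.exp_pos (-q)
  rcases lt_abs.1 h with h1 | h1
  · rw [abs_sub_comm]
    refine le_trans ?_ (le_abs_self _)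
    have h2 : Real.exp (-y) ≤ Real.exp (-q) * Real.exp (-ε) := by
      rw [← Real.exp_add]
      exact Real.exp_le_exp.2 (by linarith)
    linarith
  · refine le_trans ?_ (le_abs_self _)
    have h2 : Real.exp (-q) * Real.exp ε ≤ Real.exp (-y) := by
      rw [← Real.exp_add]
      exact Real.exp_le_exp.2 (by linarith)
    have h3 := Real.add_one_le_exp ε
    have h4 := Real.add_one_le_exp (-ε)
    nlinarith

variable {Ω : Type*} [mΩ : MeasurableSpace Ω] {P : Measure Ω} {μ : Measure ℝ} {β γ : ℝ}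

/-! ### Measurability -/

lemma tau_mono (X : RBP P μ β γ) (ω : Ω) : StrictMono fun k => X.τ k ω :=
  strictMono_nat_of_lt_succ fun k => X.τ_lt k ω

lemma idx_eq_iff (X : RBP P μ β γ) (t : ℝ) (ω : Ω) {j : ℕ} (hj : 1 ≤ j) :
    X.idx t ω = j ↔ ω ∈ X.At j t := by
  unfold RBP.idx RBP.At
  constructor
  · intro h
    have hne : {k | X.τ k ω ≤ t}.Nonempty := by
      rw [Set.nonempty_iff_ne_empty]
      intro h0
      rw [h0] at h
      simp at h
      omega
    have hb : BddAbove {k | X.τ k ω ≤ t} := by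
      by_contra h0
      rw [Nat.sSup_of_not_bddAbove h0] at h
      omega
    have h1 := Nat.sSup_mem hne hb
    rw [h] at h1
    refine ⟨h1, ?_⟩
    by_contra h2
    rw [not_lt] at h2
    have h3 := le_csSup hb (show j + 1 ∈ {k | X.τ k ω ≤ t} from h2)
    omega
  · rintro ⟨h1, h2⟩
    have h3 : {k | X.τ k ω ≤ t} = Iic j := by
      ext k
      simp only [mem_ofPred_eq, mem_Iic]
      constructor
      · intro hk
        by_contra hkj
        have : X.τ (j + 1) ω ≤ X.τ k ω := (tau_mono X ω).monotone (by omega)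
        linarith
      · intro hk
        exact ((tau_mono X ω).monotone hk).trans h1
    rw [h3, csSup_Iic]

lemma meas_At (X : RBP P μ β γ) (j : ℕ) (t : ℝ) : MeasurableSet (X.At j t) :=
  (measurableSet_le (StepSumx.meas_τ X j) measurable_const).inter
    (measurableSet_lt measurable_const (StepSumx.meas_τ X (j + 1)))

lemma meas_idx (X : RBP P μ β γ) (t : ℝ) : Measurable (X.idx t) := by
  refine measurable_to_countable' fun j => ?_
  rcases Nat.eq_zero_or_pos j with hj | hj
  · subst hj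
    have h1 : X.idx t ⁻¹' {0} = (⋃ j : ℕ, X.At (j + 1) t)ᶜ := by
      ext ω
      simp only [mem_preimage, mem_singleton_iff, mem_compl_iff, mem_iUnion, not_exists]
      constructor
      · intro h j hj
        rw [← idx_eq_iff X t ω (by omega)] at hj
        omega
      · intro h
        by_contra h0
        refine h (X.idx t ω - 1) ?_
        have h2 : X.idx t ω - 1 + 1 = X.idx t ω := by omega
        rw [h2]
        exact (idx_eq_iff X t ω (by omega)).1 rfl
    rw [h1]
    exact (MeasurableSet.iUnion fun j => meas_At X (j + 1) t).compl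
  · have h1 : X.idx t ⁻¹' {j} = X.At j t := by
      ext ω
      exact idx_eq_iff X t ω hj
    rw [h1]
    exact meas_At X j t

lemma meas_N (X : RBP P μ β γ) (t : ℝ) : Measurable (X.N t) := by
  have h : Measurable (fun p : ℕ × Ω => X.S p.1 p.2) :=
    measurable_from_prod_countable_right fun k => StepSumx.meas_S X k
  exact h.comp ((meas_idx X t).prodMk measurable_id)

lemma meas_Old (X : RBP P μ β γ) (a t T : ℝ) : Measurable (X.Old a t T) := by
  have h : Measurable (fun p : (ℕ × ℕ) × Ω => ∑ n ∈ Finset.range (X.M p.1.1 p.2),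
      if a < X.F n p.2 ∧ X.F n p.2 < 1 then X.Z p.1.2 n p.2 else 0) := by
    refine measurable_from_prod_countable_right fun jj => ?_
    have h1 : Measurable (fun p : ℕ × Ω => ∑ n ∈ Finset.range p.1,
        if a < (if n < X.M jj.1 p.2 then X.F n p.2 else 1) ∧
          (if n < X.M jj.1 p.2 then X.F n p.2 else 1) < 1 then X.Z jj.2 n p.2 else 0) := by
      refine measurable_from_prod_countable_right fun m => ?_
      change Measurable (fun ω : Ω => ∑ n ∈ Finset.range m,
        if a < (if n < X.M jj.1 ω then X.F n ω else 1) ∧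
          (if n < X.M jj.1 ω then X.F n ω else 1) < 1 then X.Z jj.2 n ω else 0)
      refine Finset.measurable_fun_sum _ fun n _ => ?_
      have h2 := StepSumx.meas_F' X jj.1 n
      exact Measurable.ite ((measurableSet_lt measurable_const h2).inter
        (measurableSet_lt h2 measurable_const)) (StepSumx.meas_Z X jj.2 n) measurable_const
    have h3 := h1.comp ((StepSumx.meas_M X jj.1).prodMk measurable_id)
    convert h3 using 1
    funext ω
    simp only [Function.comp_apply, id_eq]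
    refine Finset.sum_congr rfl fun n hn => ?_
    rw [if_pos (Finset.mem_range.1 hn)]
  exact h.comp (((meas_idx X t).prodMk (meas_idx X (t + T))).prodMk measurable_id)

lemma N_pos (X : RBP P μ β γ) (t : ℝ) (ω : Ω) : 1 ≤ X.N t ω :=
  le_trans (by omega) (X.S_ge (X.idx t ω) ω)

/-! ### The population tends to infinity -/

lemma N_small [IsProbabilityMeasure P] (X : RBP P μ β γ) (hNE : X.NonExpStmt) (K : ℕ) :
    Tendsto (fun t : ℝ => P {ω | X.N t ω < K}) atTop (𝓝 0) := by
  have h1 : Tendsto (fun t : ℝ => P {ω | t < X.τ K ω}) atTop (𝓝 0) := by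
    have h2 := tendsto_measure_iInter_atTop (μ := P) (s := fun t : ℝ => {ω | t < X.τ K ω})
      (fun t => (measurableSet_lt measurable_const (StepSumx.meas_τ X K)).nullMeasurableSet)
      (fun s t hst ω hω => lt_of_le_of_lt hst hω) ⟨0, measure_ne_top _ _⟩
    have h3 : ⋂ t : ℝ, {ω | t < X.τ K ω} = ∅ := by
      ext ω
      simp only [mem_iInter, mem_ofPred_eq, mem_empty_iff_false, iff_false, not_forall, not_lt]
      exact ⟨X.τ K ω, le_refl _⟩
    rw [h3, measure_empty] at h2
    exact h2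
  refine tendsto_of_tendsto_of_tendsto_of_le_of_le tendsto_const_nhds h1
    (fun _ => bot_le) fun t => ?_
  refine measure_mono_ae ?_
  filter_upwards [hNE] with ω hω
  change X.N t ω < K → t < X.τ K ω
  intro h4
  by_contra h5
  rw [not_lt] at h5
  have hb : BddAbove {k | X.τ k ω ≤ t} := by
    obtain ⟨m, hm⟩ := (hω.eventually_gt_atTop t).exists_forall_of_atTop
    refine ⟨m, fun k hk => ?_⟩
    by_contra hkm
    have := hm k (by omega)
    have hk' : X.τ k ω ≤ t := hk
    linarith
  have h6 : K ≤ X.idx t ω := le_csSup hb h5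
  have h7 := X.S_ge (X.idx t ω) ω
  change X.S (X.idx t ω) ω < K at h4
  omega

/-! ### Main estimate -/

/-- the normalised number of old individuals -/
noncomputable def Y (X : RBP P μ β γ) (r x t : ℝ) (ω : Ω) : ℝ :=
  (X.Old (1 - x / t) t (r * t) ω : ℝ) / (Real.exp (γ * (r * t)) * X.N t ω)

lemma Y_nonneg (X : RBP P μ β γ) (r x t : ℝ) (ω : Ω) : 0 ≤ Y X r x t ω := by
  unfold Y
  positivity

lemma meas_Y (X : RBP P μ β γ) (r x t : ℝ) : Measurable (Y X r x t) := by
  unfold Y
  exact (measurable_from_nat.comp (meas_Old X _ _ _)).div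
    (measurable_const.mul (measurable_from_nat.comp (meas_N X t)))

lemma integrable_expY [IsProbabilityMeasure P] (X : RBP P μ β γ) (r x t θ : ℝ) (hθ : 0 ≤ θ) :
    Integrable (fun ω => Real.exp (-(θ * Y X r x t ω))) P := by
  refine (integrable_const (1 : ℝ)).mono'
    (Real.measurable_exp.comp ((meas_Y X r x t).const_mul θ).neg).aestronglyMeasurable
    (ae_of_all _ fun ω => ?_)
  rw [Real.norm_eq_abs, abs_of_pos (Real.exp_pos _), Real.exp_le_one_iff]
  have := mul_nonneg hθ (Y_nonneg X r x t ω)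
  linarith

lemma Q_nonneg (X : RBP P μ β γ) (a t T : ℝ) (ω : Ω) : 0 ≤ X.Q a t T ω := by
  unfold RBP.Q
  refine div_nonneg (Finset.sum_nonneg fun n _ => ?_) (Nat.cast_nonneg _)
  split_ifs
  · positivity
  · exact le_refl _

lemma q_nonneg [IsProbabilityMeasure P] (X : RBP P μ β γ) (h2 : X.QStmt) {g : ℝ → ℝ}
    (hg : X.Prof g) {r x : ℝ} (hr : 0 < r) (hx : 0 < x) : 0 ≤ qq γ g r x := by
  by_contra hq
  rw [not_le] at hq
  have h3 := h2 g hg r x (-(qq γ g r x) / 2) hr hx (by linarith)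
  have h4 : ∀ t : ℝ, P {ω | -(qq γ g r x) / 2 <
      |X.Q (1 - x / t) t (r * t) ω - qq γ g r x|} = 1 := by
    intro t
    have h5 : {ω | -(qq γ g r x) / 2 < |X.Q (1 - x / t) t (r * t) ω - qq γ g r x|} = univ := by
      ext ω
      simp only [mem_ofPred_eq, mem_univ, iff_true]
      refine lt_of_lt_of_le ?_ (le_abs_self _)
      have := Q_nonneg X (1 - x / t) t (r * t) ω
      linarith
    rw [h5, measure_univ]
  simp only [h4] at h3
  exact one_ne_zero (tendsto_nhds_unique tendsto_const_nhds h3)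

/-- the product of LaplStmt -/
noncomputable def Pr (X : RBP P μ β γ) (r x θ t : ℝ) (ω : Ω) : ℝ :=
  ∏ n ∈ Finset.range (X.M (X.idx t ω) ω), if 1 - x / t < X.F n ω ∧ X.F n ω < 1 then
    ((1 + (Real.exp (θ / (Real.exp (γ * (r * t)) * X.N t ω)) - 1) *
      Real.exp (γ * X.F n ω * (r * t)))⁻¹) ^ (X.Z (X.idx t ω) n ω) else 1

lemma lapl (X : RBP P μ β γ) (h1 : X.LaplStmt) {r x θ t : ℝ} (hr : 0 < r) (hθ : 0 < θ)
    (ht : 0 ≤ t) :
    ∫ ω, Real.exp (-(θ * Y X r x t ω)) ∂P = ∫ ω, Pr X r x θ t ω ∂P := by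
  have h3 := h1 (1 - x / t) t (r * t) (fun m => θ / (Real.exp (γ * (r * t)) * m)) ht
    (by positivity) (fun m => by positivity)
  have h4 : ∀ ω, -(θ / (Real.exp (γ * (r * t)) * X.N t ω) * X.Old (1 - x / t) t (r * t) ω) =
      -(θ * Y X r x t ω) := by
    intro ω
    unfold Y
    ring
  simp only [h4] at h3
  exact h3

lemma Pr_mem (X : RBP P μ β γ) {r x θ t : ℝ} (hθ : 0 < θ) (ω : Ω) :
    0 ≤ Pr X r x θ t ω ∧ Pr X r x θ t ω ≤ 1 := by
  unfold Pr
  refine prod_mem _ _ _ (fun n => (Real.exp (θ / (Real.exp (γ * (r * t)) * X.N t ω)) - 1) *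
      Real.exp (γ * X.F n ω * (r * t))) fun n => ?_
  have h1 : 0 ≤ θ / (Real.exp (γ * (r * t)) * X.N t ω) := by positivity
  have h2 := Real.add_one_le_exp (θ / (Real.exp (γ * (r * t)) * X.N t ω))
  have h3 := Real.exp_pos (γ * X.F n ω * (r * t))
  exact mul_nonneg (by linarith) h3.le

lemma Pr_near (X : RBP P μ β γ) (hγ : 0 < γ) {r x θ t : ℝ} (hr : 0 < r) (hθ : 0 < θ) (ht : 0 ≤ t)
    (ω : Ω) (hN2 : 2 * θ ≤ X.N t ω) :
    |Pr X r x θ t ω - Real.exp (-(θ * X.Q (1 - x / t) t (r * t) ω))| ≤ 3 * θ ^ 2 / X.N t ω := by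
  have hE : 1 ≤ Real.exp (γ * (r * t)) := Real.one_le_exp (by positivity)
  have h1 := prod_bound (Finset.range (X.M (X.idx t ω) ω))
    (fun n => 1 - x / t < X.F n ω ∧ X.F n ω < 1) (fun n => X.Z (X.idx t ω) n ω)
    (fun n => Real.exp (γ * X.F n ω * (r * t))) (X.N t ω) rfl hθ (N_pos X t ω) hN2 hE
    (fun n => (Real.exp_pos _).le) (fun n => Real.exp_le_exp.2 (by
      have h2 := (X.F_mem n ω).2
      have h3 : 0 ≤ γ * (r * t) := by positivity
      nlinarith))
  have h2 : X.Q (1 - x / t) t (r * t) ω = (∑ n ∈ Finset.range (X.M (X.idx t ω) ω),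
      if 1 - x / t < X.F n ω ∧ X.F n ω < 1 then (X.Z (X.idx t ω) n ω : ℝ) *
        (Real.exp (γ * X.F n ω * (r * t)) / Real.exp (γ * (r * t))) else 0) / X.N t ω := by
    unfold RBP.Q
    congr 1
    refine Finset.sum_congr rfl fun n _ => ?_
    split_ifs
    · rw [← Real.exp_sub]
      congr 2
      ring
    · rfl
  rw [h2]
  exact h1

lemma conv [IsProbabilityMeasure P] (X : RBP P μ β γ) (hγ : 0 < γ) (hNE : X.NonExpStmt)
    (h1 : X.LaplStmt) (h2 : X.QStmt) {g : ℝ → ℝ} (hg : X.Prof g) {r x θ : ℝ} (hr : 0 < r)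
    (hx : 0 < x) (hθ : 0 < θ) :
    Tendsto (fun t : ℝ => ∫ ω, Real.exp (-(θ * Y X r x t ω)) ∂P) atTop
      (𝓝 (Real.exp (-(θ * qq γ g r x)))) := by
  have hq := q_nonneg X h2 hg hr hx
  set q := qq γ g r x with hqdef
  rw [Metric.tendsto_nhds]
  intro η hη
  obtain ⟨K, hK⟩ := exists_nat_ge (12 * θ ^ 2 / η + 2 * θ + 1)
  have hK1 : (1 : ℝ) ≤ K := by
    have : 0 ≤ 12 * θ ^ 2 / η := by positivity
    linarith
  have hK0 : (0 : ℝ) < K := by linarith
  have hK2 : 2 * θ ≤ K := by
    have : 0 ≤ 12 * θ ^ 2 / η := by positivity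
    linarith
  have hK3 : 3 * θ ^ 2 / K ≤ η / 4 := by
    have h3 : 12 * θ ^ 2 / η ≤ K := by linarith
    rw [div_le_iff₀ hη] at h3
    rw [div_le_iff₀ hK0]
    linarith
  have hB : Tendsto (fun t : ℝ => P {ω | X.N t ω < K} +
      P {ω | η / (4 * θ) < |X.Q (1 - x / t) t (r * t) ω - q|}) atTop (𝓝 (0 + 0)) :=
    (N_small X hNE K).add (h2 g hg r x (η / (4 * θ)) hr hx (by positivity))
  rw [add_zero] at hB
  have hB2 := (tendsto_order.1 hB).2 (ENNReal.ofReal (η / 4))
    (ENNReal.ofReal_pos.2 (by positivity))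
  filter_upwards [hB2, eventually_ge_atTop (0 : ℝ)] with t ht ht0
  set B := toMeasurable P ({ω | X.N t ω < K} ∪
    {ω | η / (4 * θ) < |X.Q (1 - x / t) t (r * t) ω - q|}) with hBdef
  have hBm : MeasurableSet B := measurableSet_toMeasurable _ _
  have hPB : (P B).toReal ≤ η / 4 := by
    have h3 : P B ≤ ENNReal.ofReal (η / 4) := by
      rw [hBdef, measure_toMeasurable]
      exact (measure_union_le _ _).trans ht.le
    exact ENNReal.toReal_le_of_le_ofReal (by positivity) h3
  have hint := integrable_expY X r x t θ hθ.le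
  have hpos : 0 < ∫ ω, Real.exp (-(θ * Y X r x t ω)) ∂P := integral_exp_pos hint
  rw [lapl X h1 hr hθ ht0] at hpos ⊢
  have hPi : Integrable (Pr X r x θ t) P := by
    by_contra h3
    have h4 : ∫ ω, Pr X r x θ t ω ∂P = 0 := integral_undef h3
    linarith
  rw [dist_eq_norm]
  have h5 : (∫ ω, Pr X r x θ t ω ∂P) - Real.exp (-(θ * q)) =
      ∫ ω, (Pr X r x θ t ω - Real.exp (-(θ * q))) ∂P := by
    rw [integral_sub hPi (integrable_const _)]
    simp
  rw [h5]
  have hgi : Integrable (fun ω => η / 2 + B.indicator (fun _ => (1 : ℝ)) ω) P :=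
    (integrable_const _).add ((integrable_const _).indicator hBm)
  have h6 := norm_integral_le_of_norm_le (f := fun ω => Pr X r x θ t ω - Real.exp (-(θ * q)))
    hgi (ae_of_all _ fun ω => ?_)
  · refine lt_of_le_of_lt h6 ?_
    rw [integral_add (integrable_const _) ((integrable_const _).indicator hBm),
      integral_indicator hBm]
    simp only [integral_const, smul_eq_mul, mul_one, probReal_univ, one_mul]
    have h7 : (P.restrict B).real univ = (P B).toReal := by
      simp [Measure.real]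
    rw [h7]
    linarith
  · rw [Real.norm_eq_abs]
    have hm := Pr_mem (r := r) (x := x) (t := t) X hθ ω
    have he0 := Real.exp_pos (-(θ * q))
    have he1 : Real.exp (-(θ * q)) ≤ 1 := Real.exp_le_one_iff.2 (by
      have := mul_nonneg hθ.le hq
      linarith)
    by_cases hω : ω ∈ B
    · rw [indicator_of_mem hω, abs_le]
      constructor <;> linarith [hm.1, hm.2]
    · rw [indicator_of_notMem hω, add_zero]
      have h8 : ω ∉ {ω | X.N t ω < K} ∪
          {ω | η / (4 * θ) < |X.Q (1 - x / t) t (r * t) ω - q|} :=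
        fun h9 => hω (subset_toMeasurable _ _ h9)
      simp only [mem_union, mem_ofPred_eq, not_or, not_lt] at h8
      have h9 : (K : ℝ) ≤ X.N t ω := by exact_mod_cast h8.1
      have h10 := Pr_near (x := x) X hγ hr hθ ht0 ω (hK2.trans h9)
      have h11 : 3 * θ ^ 2 / X.N t ω ≤ η / 4 := by
        refine le_trans ?_ hK3
        gcongr
      have h12 := exp_lip (mul_nonneg hθ.le (Q_nonneg X (1 - x / t) t (r * t) ω))
        (mul_nonneg hθ.le hq)
      rw [← mul_sub, abs_mul, abs_of_pos hθ] at h12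
      have h13 : θ * |X.Q (1 - x / t) t (r * t) ω - q| ≤ η / 4 := by
        have h14 := mul_le_mul_of_nonneg_left h8.2 hθ.le
        have h15 : θ * (η / (4 * θ)) = η / 4 := by
          field_simp
        linarith
      have h16 := abs_sub_le (Pr X r x θ t ω)
        (Real.exp (-(θ * X.Q (1 - x / t) t (r * t) ω))) (Real.exp (-(θ * q)))
      linarith

end OldL

open OldL in
/-- WV-5 -/
theorem oldStmt {Ω : Type*} [mΩ : MeasurableSpace Ω] {P : Measure Ω} {μ : Measure ℝ} {β γ : ℝ}
    [IsProbabilityMeasure P] [IsProbabilityMeasure μ] (X : RBP P μ β γ) {α : ℝ}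
    (hC : Cond μ β γ α) (hNE : X.NonExpStmt) (h1 : X.LaplStmt) (h2 : X.QStmt) : X.OldStmt := by
  intro g hg r x ε hr hx hε
  have hγ := hC.γ_pos
  set q := qq γ g r x with hqdef
  have hc1 := conv X hγ hNE h1 h2 hg hr hx one_pos
  have hc2 := conv X hγ hNE h1 h2 hg hr hx two_pos
  rw [← hqdef] at hc1 hc2
  set δ := Real.exp (-q) * (1 - Real.exp (-ε)) with hδ
  have hδ0 : 0 < δ := by
    have h3 : Real.exp (-ε) < 1 := by
      rw [← Real.exp_zero]
      exact Real.exp_lt_exp.2 (by linarith)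
    have h4 := Real.exp_pos (-q)
    exact mul_pos h4 (by linarith)
  have hJ : ∀ t : ℝ, ∫ ω, (Real.exp (-Y X r x t ω) - Real.exp (-q)) ^ 2 ∂P =
      (∫ ω, Real.exp (-(2 * Y X r x t ω)) ∂P) -
        2 * Real.exp (-q) * (∫ ω, Real.exp (-(1 * Y X r x t ω)) ∂P) + Real.exp (-(2 * q)) := by
    intro t
    have i1 := integrable_expY X r x t 1 zero_le_one
    have i2 := integrable_expY X r x t 2 zero_le_two
    have h3 : ∀ ω, (Real.exp (-Y X r x t ω) - Real.exp (-q)) ^ 2 =
        Real.exp (-(2 * Y X r x t ω)) - 2 * Real.exp (-q) * Real.exp (-(1 * Y X r x t ω)) +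
          Real.exp (-(2 * q)) := by
      intro ω
      have e1 : Real.exp (-(2 * Y X r x t ω)) = Real.exp (-Y X r x t ω) ^ 2 := by
        rw [← Real.exp_nat_mul]
        congr 1
        push_cast
        ring
      have e2 : Real.exp (-(2 * q)) = Real.exp (-q) ^ 2 := by
        rw [← Real.exp_nat_mul]
        congr 1
        push_cast
        ring
      rw [e1, e2, one_mul]
      ring
    simp_rw [h3]
    have j1 : Integrable (fun ω => 2 * Real.exp (-q) * Real.exp (-(1 * Y X r x t ω))) P :=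
      i1.const_mul _
    have j2 : Integrable (fun ω => Real.exp (-(2 * Y X r x t ω)) -
        2 * Real.exp (-q) * Real.exp (-(1 * Y X r x t ω))) P := i2.sub j1
    rw [integral_add j2 (integrable_const _), integral_sub i2 j1, integral_const_mul]
    simp
  have hJi : ∀ t : ℝ, Integrable (fun ω => (Real.exp (-Y X r x t ω) - Real.exp (-q)) ^ 2) P := by
    intro t
    have h3 : Measurable fun ω => (Real.exp (-Y X r x t ω) - Real.exp (-q)) ^ 2 :=
      ((Real.measurable_exp.comp (meas_Y X r x t).neg).sub_const _).pow_const 2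
    refine (integrable_const ((1 + Real.exp (-q)) ^ 2)).mono' h3.aestronglyMeasurable
      (ae_of_all _ fun ω => ?_)
    rw [Real.norm_eq_abs, abs_of_nonneg (sq_nonneg _)]
    have h4 := Real.exp_pos (-Y X r x t ω)
    have h5 : Real.exp (-Y X r x t ω) ≤ 1 :=
      Real.exp_le_one_iff.2 (by linarith [Y_nonneg X r x t ω])
    have h6 := Real.exp_pos (-q)
    refine sq_le_sq' ?_ ?_ <;> linarith
  have hJ0 : Tendsto (fun t : ℝ => ∫ ω, (Real.exp (-Y X r x t ω) - Real.exp (-q)) ^ 2 ∂P) atTop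
      (𝓝 0) := by
    simp_rw [hJ]
    have h3 := (hc2.sub (hc1.const_mul (2 * Real.exp (-q)))).add_const (Real.exp (-(2 * q)))
    have h4 : Real.exp (-(2 * q)) - 2 * Real.exp (-q) * Real.exp (-(1 * q)) +
        Real.exp (-(2 * q)) = 0 := by
      have e2 : Real.exp (-(2 * q)) = Real.exp (-q) ^ 2 := by
        rw [← Real.exp_nat_mul]
        congr 1
        push_cast
        ring
      rw [e2, one_mul]
      ring
    rw [h4] at h3
    exact h3
  have hbound : ∀ t : ℝ, P {ω | ε < |Y X r x t ω - q|} ≤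
      ENNReal.ofReal ((∫ ω, (Real.exp (-Y X r x t ω) - Real.exp (-q)) ^ 2 ∂P) / δ ^ 2) := by
    intro t
    have h3 := mul_meas_ge_le_integral_of_nonneg (μ := P)
      (f := fun ω => (Real.exp (-Y X r x t ω) - Real.exp (-q)) ^ 2)
      (ae_of_all _ fun ω => sq_nonneg _) (hJi t) (δ ^ 2)
    have h4 : P {ω | ε < |Y X r x t ω - q|} ≤
        P {ω | δ ^ 2 ≤ (Real.exp (-Y X r x t ω) - Real.exp (-q)) ^ 2} := by
      refine measure_mono fun ω hω => ?_
      have h5 := sep hω
      change δ ^ 2 ≤ _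
      rw [← sq_abs (Real.exp (-Y X r x t ω) - Real.exp (-q))]
      gcongr
    refine h4.trans ?_
    rw [ENNReal.le_ofReal_iff_toReal_le (measure_ne_top _ _) (by positivity),
      le_div_iff₀ (by positivity), mul_comm]
    exact h3
  have hlim : Tendsto (fun t : ℝ => ENNReal.ofReal
      ((∫ ω, (Real.exp (-Y X r x t ω) - Real.exp (-q)) ^ 2 ∂P) / δ ^ 2)) atTop (𝓝 0) := by
    have h3 := ENNReal.tendsto_ofReal (hJ0.div_const (δ ^ 2))
    rw [zero_div, ENNReal.ofReal_zero] at h3
    exact h3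
  exact tendsto_of_tendsto_of_tendsto_of_le_of_le tendsto_const_nhds hlim
    (fun _ => bot_le) hbound

end Pool.Agent.R254.RB
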