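import Pool.Agent.R254.RB.Wave

/-!
# WV-4: convergence of `Q`.
-/

set_option autoImplicit false

open MeasureTheory ProbabilityTheory Filter Topology Set
open scoped ENNReal

namespace Pool.Agent.R254.RB

namespace QC

/-- integral of one term -/
lemma term_int {F Z c x t : ℝ} (hx : 0 < x) (ht : 0 < t) :
    c * ∫ y in (0 : ℝ)..x, Real.exp (-(c * y)) * (if 1 - y / t < F ∧ F < 1 then Z else 0) =
      if 1 - x / t < F ∧ F < 1 then
        Z * (Real.exp (-(c * (t * (1 - F)))) - Real.exp (-(c * x))) else 0 := by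
  by_cases hF : F < 1
  swap
  · have h1 : ∀ y : ℝ, (if 1 - y / t < F ∧ F < 1 then Z else 0) = 0 := fun y =>
      if_neg (fun h => hF h.2)
    rw [if_neg (fun h => hF h.2)]
    simp only [h1, mul_zero, intervalIntegral.integral_zero]
  have hcond : ∀ y : ℝ, (1 - y / t < F ∧ F < 1) ↔ t * (1 - F) < y := by
    intro y
    constructor
    · rintro ⟨h, -⟩
      have h1 : 1 - F < y / t := by linarith
      rw [lt_div_iff₀ ht] at h1
      linarith
    · intro h
      refine ⟨?_, hF⟩
      have h1 : 1 - F < y / t := by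
        rw [lt_div_iff₀ ht]
        linarith
      linarith
  simp only [hcond]
  set b := t * (1 - F) with hb
  have hb0 : 0 < b := mul_pos ht (by linarith)
  by_cases hbx : b < x
  · rw [if_pos hbx]
    have hi : ∀ u v : ℝ, IntervalIntegrable
        (fun y => Real.exp (-(c * y)) * (if b < y then Z else 0)) volume u v := by
      intro u v
      have h2 : IntervalIntegrable (fun y : ℝ => Real.exp (-(c * y)) * Z) volume u v :=
        Continuous.intervalIntegrable (by fun_prop) _ _
      have h3 : (fun y : ℝ => Real.exp (-(c * y)) * (if b < y then Z else 0)) =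
          (Ioi b).indicator (fun y : ℝ => Real.exp (-(c * y)) * Z) := by
        funext y
        by_cases hy : b < y
        · rw [if_pos hy, indicator_of_mem (mem_Ioi.2 hy)]
        · rw [if_neg hy, indicator_of_notMem (by simpa using hy), mul_zero]
      rw [h3]
      exact ⟨h2.1.indicator measurableSet_Ioi, h2.2.indicator measurableSet_Ioi⟩
    rw [← intervalIntegral.integral_add_adjacent_intervals (hi 0 b) (hi b x)]
    have e1 : ∫ y in (0 : ℝ)..b, Real.exp (-(c * y)) * (if b < y then Z else 0) = 0 := by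
      rw [intervalIntegral.integral_congr (g := fun _ => (0 : ℝ))]
      · simp
      · intro y hy
        rw [uIcc_of_le hb0.le] at hy
        show Real.exp (-(c * y)) * (if b < y then Z else 0) = 0
        rw [if_neg (not_lt.2 hy.2), mul_zero]
    have e2 : ∫ y in b..x, Real.exp (-(c * y)) * (if b < y then Z else 0) =
        ∫ y in b..x, Real.exp (-(c * y)) * Z := by
      refine intervalIntegral.integral_congr_ae (Eventually.of_forall fun y hy => ?_)
      rw [uIoc_of_le hbx.le] at hy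
      rw [if_pos hy.1]
    rw [e1, e2, zero_add, ← intervalIntegral.integral_const_mul]
    have e3 : ∫ y in b..x, c * (Real.exp (-(c * y)) * Z) =
        (-(Real.exp (-(c * x)) * Z)) - (-(Real.exp (-(c * b)) * Z)) := by
      refine intervalIntegral.integral_eq_sub_of_hasDerivAt
        (f := fun y => -(Real.exp (-(c * y)) * Z)) ?_
        (Continuous.intervalIntegrable (by fun_prop) _ _)
      intro y _
      have h4 := ((((hasDerivAt_id y).const_mul c).fun_neg.exp).mul_const Z).fun_neg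
      refine h4.congr_deriv ?_
      simp only [id]
      ring
    rw [e3]
    ring
  · rw [if_neg hbx]
    have e1 : ∫ y in (0 : ℝ)..x, Real.exp (-(c * y)) * (if b < y then Z else 0) = 0 := by
      rw [intervalIntegral.integral_congr (g := fun _ => (0 : ℝ))]
      · simp
      · intro y hy
        rw [uIcc_of_le hx.le] at hy
        show Real.exp (-(c * y)) * (if b < y then Z else 0) = 0
        rw [if_neg (not_lt.2 (hy.2.trans (not_lt.1 hbx))), mul_zero]
    rw [e1, mul_zero]

lemma term_ii {F Z c x t : ℝ} (hZ : 0 ≤ Z) (ht : 0 < t) : IntervalIntegrable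
    (fun y => Real.exp (-(c * y)) * (if 1 - y / t < F ∧ F < 1 then Z else 0)) volume 0 x := by
  have h1 : Monotone (fun y : ℝ => if 1 - y / t < F ∧ F < 1 then Z else 0) := by
    intro y y' hyy
    have h2 : y / t ≤ y' / t := div_le_div_of_nonneg_right hyy ht.le
    show (if 1 - y / t < F ∧ F < 1 then Z else 0) ≤ (if 1 - y' / t < F ∧ F < 1 then Z else 0)
    by_cases h : 1 - y / t < F ∧ F < 1
    · rw [if_pos h, if_pos ⟨by linarith [h.1], h.2⟩]
    · rw [if_neg h]
      split_ifs <;> simp [hZ]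
  exact IntervalIntegrable.continuousOn_mul (h1.monotoneOn _).intervalIntegrable
    (by fun_prop)

variable {Ω : Type*} [mΩ : MeasurableSpace Ω] {P : Measure Ω} {μ : Measure ℝ} {β γ : ℝ}

lemma W_le_N (X : RBP P μ β γ) (a t : ℝ) (ω : Ω) : X.W a t ω ≤ X.N t ω := by
  unfold RBP.W RBP.N RBP.S
  refine Finset.sum_le_sum fun n _ => ?_
  split_ifs <;> simp

lemma W_mono (X : RBP P μ β γ) {a b : ℝ} (h : b ≤ a) (t : ℝ) (ω : Ω) :
    X.W a t ω ≤ X.W b t ω := by
  unfold RBP.W
  refine Finset.sum_le_sum fun n _ => ?_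
  by_cases hc : a < X.F n ω ∧ X.F n ω < 1
  · rw [if_pos hc, if_pos ⟨lt_of_le_of_lt h hc.1, hc.2⟩]
  · rw [if_neg hc]
    exact Nat.zero_le _

lemma Xi_nonneg (X : RBP P μ β γ) (a t : ℝ) (ω : Ω) : 0 ≤ X.Xi a t ω := by
  unfold RBP.Xi
  positivity

lemma Xi_le_one (X : RBP P μ β γ) (a t : ℝ) (ω : Ω) : X.Xi a t ω ≤ 1 := by
  unfold RBP.Xi
  exact div_le_one_of_le₀ (by exact_mod_cast W_le_N X a t ω) (Nat.cast_nonneg _)

lemma Xi_mono (X : RBP P μ β γ) {a b : ℝ} (h : b ≤ a) (t : ℝ) (ω : Ω) :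
    X.Xi a t ω ≤ X.Xi b t ω := by
  unfold RBP.Xi
  exact div_le_div_of_nonneg_right (by exact_mod_cast W_mono X h t ω) (Nat.cast_nonneg _)

lemma Xi_one (X : RBP P μ β γ) (t : ℝ) (ω : Ω) : X.Xi 1 t ω = 0 := by
  have h : X.W 1 t ω = 0 := by
    unfold RBP.W
    refine Finset.sum_eq_zero fun n _ => if_neg ?_
    rintro ⟨h1, h2⟩
    linarith
  unfold RBP.Xi
  rw [h]
  simp

/-- the profile function at time `t` -/
noncomputable def Gf (X : RBP P μ β γ) (t : ℝ) (ω : Ω) (y : ℝ) : ℝ := X.Xi (1 - y / t) t ω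

lemma Gf_mono (X : RBP P μ β γ) {t : ℝ} (ht : 0 < t) (ω : Ω) : Monotone (Gf X t ω) := by
  intro y y' h
  refine Xi_mono X ?_ t ω
  have : y / t ≤ y' / t := div_le_div_of_nonneg_right h ht.le
  linarith

lemma Gf_zero (X : RBP P μ β γ) (t : ℝ) (ω : Ω) : Gf X t ω 0 = 0 := by
  unfold Gf
  rw [zero_div, sub_zero]
  exact Xi_one X t ω

lemma Q_eq (X : RBP P μ β γ) {x r t : ℝ} (hx : 0 < x) (ht : 0 < t) (ω : Ω) :
    X.Q (1 - x / t) t (r * t) ω = qq γ (Gf X t ω) r x := by
  set k := X.idx t ω with hk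
  set s := Finset.range (X.M k ω) with hs
  set Nn : ℝ := (X.N t ω : ℝ) with hN
  have hG : ∀ y, Gf X t ω y = (∑ n ∈ s, (if 1 - y / t < X.F n ω ∧ X.F n ω < 1 then
      (X.Z k n ω : ℝ) else 0)) / Nn := by
    intro y
    unfold Gf RBP.Xi RBP.W
    rw [Nat.cast_sum]
    congr 1
    refine Finset.sum_congr rfl fun n _ => ?_
    split_ifs <;> simp [hk]
  have hint : γ * r * ∫ y in (0 : ℝ)..x, Real.exp (-(γ * r * y)) * Gf X t ω y =
      (∑ n ∈ s, (if 1 - x / t < X.F n ω ∧ X.F n ω < 1 then
        (X.Z k n ω : ℝ) * (Real.exp (-(γ * r * (t * (1 - X.F n ω)))) -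
          Real.exp (-(γ * r * x))) else 0)) / Nn := by
    have e1 : ∀ y, Real.exp (-(γ * r * y)) * Gf X t ω y =
        (∑ n ∈ s, Real.exp (-(γ * r * y)) * (if 1 - y / t < X.F n ω ∧ X.F n ω < 1 then
          (X.Z k n ω : ℝ) else 0)) / Nn := by
      intro y
      rw [hG y, ← Finset.mul_sum, mul_div_assoc]
    simp only [e1]
    rw [intervalIntegral.integral_div, intervalIntegral.integral_finsetSum
      (fun n _ => term_ii (Nat.cast_nonneg _) ht), ← mul_div_assoc, Finset.mul_sum]
    congr 1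
    refine Finset.sum_congr rfl fun n _ => ?_
    exact term_int hx ht
  unfold qq
  rw [hint, hG x, ← mul_div_assoc, ← add_div, Finset.mul_sum, ← Finset.sum_add_distrib]
  unfold RBP.Q
  congr 1
  refine Finset.sum_congr rfl fun n _ => ?_
  by_cases hc : 1 - x / t < X.F n ω ∧ X.F n ω < 1
  · rw [if_pos hc, if_pos hc, if_pos hc]
    have e4 : -(γ * (1 - X.F n ω) * (r * t)) = -(γ * r * (t * (1 - X.F n ω))) := by ring
    rw [e4]
    ring
  · rw [if_neg hc, if_neg hc, if_neg hc]
    simp

/-- comparison of the integrals of two monotone functions -/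
lemma est {G g : ℝ → ℝ} {x c η : ℝ} (hx : 0 < x) (hc : 0 ≤ c)
    (hG : MonotoneOn G (Icc 0 x)) (hg : MonotoneOn g (Icc 0 x)) (K : ℕ) (hK : 0 < K)
    (h : ∀ k : ℕ, k ≤ K → |G (k * (x / K)) - g (k * (x / K))| ≤ η) (hgx : g x - g 0 ≤ 1) :
    |∫ y in (0 : ℝ)..x, Real.exp (-(c * y)) * (G y - g y)| ≤ x * η + x / K := by
  have hK0 : (0 : ℝ) < K := by exact_mod_cast hK
  set a : ℕ → ℝ := fun k => k * (x / K) with ha
  have hstep : ∀ k, a (k + 1) - a k = x / K := by
    intro k
    simp only [ha]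
    push_cast
    ring
  have hδ : 0 < x / K := by positivity
  have ha0 : a 0 = 0 := by simp [ha]
  have haK : a K = x := by
    simp only [ha]
    field_simp
  have hmem : ∀ k, k ≤ K → a k ∈ Icc 0 x := by
    intro k hk
    refine ⟨by simp only [ha]; positivity, ?_⟩
    rw [← haK]
    exact mul_le_mul_of_nonneg_right (by exact_mod_cast hk) hδ.le
  have hIcc : uIcc 0 x = Icc 0 x := uIcc_of_le hx.le
  have hGi : IntervalIntegrable (fun y => G y - g y) volume 0 x :=
    (MonotoneOn.intervalIntegrable (by rwa [hIcc])).sub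
      (MonotoneOn.intervalIntegrable (by rwa [hIcc]))
  have hI : IntervalIntegrable (fun y => Real.exp (-(c * y)) * (G y - g y)) volume 0 x :=
    hGi.continuousOn_mul (by fun_prop)
  have hIk : ∀ k < K, IntervalIntegrable (fun y => Real.exp (-(c * y)) * (G y - g y)) volume
      (a k) (a (k + 1)) := by
    intro k hk
    refine hI.mono_set ?_
    rw [hIcc]
    refine (uIcc_subset_Icc (hmem k hk.le) (hmem (k + 1) hk))
  have hsum := intervalIntegral.sum_integral_adjacent_intervals hIk
  rw [ha0, haK] at hsum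
  rw [← hsum]
  have hb : ∀ k ∈ Finset.range K, |∫ y in a k..a (k + 1), Real.exp (-(c * y)) * (G y - g y)| ≤
      (η + (g (a (k + 1)) - g (a k))) * (x / K) := by
    intro k hk
    have hk' := Finset.mem_range.1 hk
    have hle : a k ≤ a (k + 1) := by linarith [hstep k]
    have h1 := intervalIntegral.norm_integral_le_of_norm_le_const (a := a k) (b := a (k + 1))
      (f := fun y => Real.exp (-(c * y)) * (G y - g y)) (C := η + (g (a (k + 1)) - g (a k))) ?_
    · rw [hstep k, abs_of_pos hδ, Real.norm_eq_abs] at h1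
      exact h1
    · intro y hy
      rw [uIoc_of_le hle] at hy
      have m1 := hmem k hk'.le
      have m2 := hmem (k + 1) hk'
      have my : y ∈ Icc 0 x := ⟨m1.1.trans hy.1.le, hy.2.trans m2.2⟩
      have g1 := hg m1 my hy.1.le
      have g2 := hg my m2 hy.2
      have G1 := hG m1 my hy.1.le
      have G2 := hG my m2 hy.2
      have q1 := abs_le.1 (h k hk'.le)
      have q2 := abs_le.1 (h (k + 1) hk')
      have q2' : -η ≤ G (a (k + 1)) - g (a (k + 1)) ∧ G (a (k + 1)) - g (a (k + 1)) ≤ η := q2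
      have q1' : -η ≤ G (a k) - g (a k) ∧ G (a k) - g (a k) ≤ η := q1
      have hab : |G y - g y| ≤ η + (g (a (k + 1)) - g (a k)) := by
        rw [abs_le]
        constructor <;> linarith [q1'.1, q1'.2, q2'.1, q2'.2]
      rw [norm_mul, Real.norm_eq_abs, Real.norm_eq_abs, abs_of_pos (Real.exp_pos _)]
      have he : Real.exp (-(c * y)) ≤ 1 :=
        Real.exp_le_one_iff.2 (by have := mul_nonneg hc my.1; linarith)
      calc Real.exp (-(c * y)) * |G y - g y| ≤ 1 * |G y - g y| :=
            mul_le_mul_of_nonneg_right he (abs_nonneg _)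
        _ ≤ _ := by rw [one_mul]; exact hab
  calc |∑ k ∈ Finset.range K, ∫ y in a k..a (k + 1), Real.exp (-(c * y)) * (G y - g y)|
      ≤ ∑ k ∈ Finset.range K, |∫ y in a k..a (k + 1), Real.exp (-(c * y)) * (G y - g y)| :=
        Finset.abs_sum_le_sum_abs _ _
    _ ≤ ∑ k ∈ Finset.range K, (η + (g (a (k + 1)) - g (a k))) * (x / K) :=
        Finset.sum_le_sum hb
    _ = (K * η + (g (a K) - g (a 0))) * (x / K) := by
        rw [← Finset.sum_mul, Finset.sum_add_distrib, Finset.sum_range_sub (fun k => g (a k))]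
        simp
    _ ≤ (K * η + 1) * (x / K) := by
        refine mul_le_mul_of_nonneg_right ?_ hδ.le
        rw [haK, ha0]
        linarith
    _ = x * η + x / K := by
        field_simp

lemma g_facts [IsProbabilityMeasure P] (X : RBP P μ β γ) {g : ℝ → ℝ} (hg : X.Prof g) :
    MonotoneOn g (Ioi 0) ∧ ∀ x, 0 < x → 0 ≤ g x ∧ g x ≤ 1 := by
  -- for every finite set of points there is a good `ω`
  have key : ∀ x x' : ℝ, 0 < x → 0 < x' → ∀ ε : ℝ, 0 < ε → ∃ (t : ℝ) (ω : Ω), 0 < t ∧
      |X.Xi (1 - x / t) t ω - g x| ≤ ε ∧ |X.Xi (1 - x' / t) t ω - g x'| ≤ ε := by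
    intro x x' hx hx' ε hε
    have h1 := (hg x hx ε hε).eventually_lt_const (show (0 : ℝ≥0∞) < 1 / 2 by simp)
    have h2 := (hg x' hx' ε hε).eventually_lt_const (show (0 : ℝ≥0∞) < 1 / 2 by simp)
    obtain ⟨t, ht1, ht2, ht0⟩ := (h1.and (h2.and (eventually_gt_atTop (0 : ℝ)))).exists
    by_contra hcon
    push Not at hcon
    have hcov : (univ : Set Ω) ⊆ {ω | ε < |X.Xi (1 - x / t) t ω - g x|} ∪
        {ω | ε < |X.Xi (1 - x' / t) t ω - g x'|} := by
      intro ω _
      by_cases hh : |X.Xi (1 - x / t) t ω - g x| ≤ ε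
      · exact Or.inr (hcon t ω ht0 hh)
      · exact Or.inl (not_le.1 hh)
    have h3 : (1 : ℝ≥0∞) ≤ P {ω | ε < |X.Xi (1 - x / t) t ω - g x|} +
        P {ω | ε < |X.Xi (1 - x' / t) t ω - g x'|} := by
      rw [← measure_univ (μ := P)]
      exact (measure_mono hcov).trans (measure_union_le _ _)
    have h4 : P {ω | ε < |X.Xi (1 - x / t) t ω - g x|} +
        P {ω | ε < |X.Xi (1 - x' / t) t ω - g x'|} < 1 / 2 + 1 / 2 := ENNReal.add_lt_add ht1 ht2
    rw [ENNReal.add_halves] at h4
    exact absurd h3 (not_le.2 h4)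
  refine ⟨?_, ?_⟩
  · intro x hx x' hx' hxx
    by_contra hcon
    push Not at hcon
    obtain ⟨t, ω, ht, h1, h2⟩ := key x x' hx hx' ((g x - g x') / 3) (by linarith)
    have h3 := Gf_mono X ht ω hxx
    unfold Gf at h3
    have h4 := abs_le.1 h1
    have h5 := abs_le.1 h2
    linarith [h4.1, h5.2]
  · intro x hx
    constructor
    · by_contra hcon
      push Not at hcon
      obtain ⟨t, ω, ht, h1, -⟩ := key x x hx hx (-(g x) / 2) (by linarith)
      have h3 := Xi_nonneg X (1 - x / t) t ω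
      have h4 := abs_le.1 h1
      linarith [h4.2]
    · by_contra hcon
      push Not at hcon
      obtain ⟨t, ω, ht, h1, -⟩ := key x x hx hx ((g x - 1) / 2) (by linarith)
      have h3 := Xi_le_one X (1 - x / t) t ω
      have h4 := abs_le.1 h1
      linarith [h4.1]

end QC

open QC in
theorem qstmt {Ω : Type*} [mΩ : MeasurableSpace Ω] {P : Measure Ω} {μ : Measure ℝ} {β γ : ℝ}
    [IsProbabilityMeasure P] [IsProbabilityMeasure μ] (X : RBP P μ β γ) {α : ℝ}
    (hC : Cond μ β γ α) : X.QStmt := by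
  intro g hg r x ε hr hx hε
  obtain ⟨hmono, h01⟩ := g_facts X hg
  have hγ := hC.γ_pos
  set c : ℝ := γ * r with hc
  have hc0 : 0 < c := mul_pos hγ hr
  -- modified profile
  set g' : ℝ → ℝ := fun y => if y ≤ 0 then 0 else g y with hg'
  have hg'0 : g' 0 = 0 := if_pos le_rfl
  have hg'p : ∀ y, 0 < y → g' y = g y := fun y hy => if_neg (not_le.2 hy)
  have hg'm : MonotoneOn g' (Icc 0 x) := by
    intro u hu v hv huv
    rcases hu.1.eq_or_lt with h | h
    · rw [← h, hg'0]
      rcases hv.1.eq_or_lt with h' | h'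
      · rw [← h', hg'0]
      · rw [hg'p v h']
        exact (h01 v h').1
    · rw [hg'p u h, hg'p v (h.trans_le huv)]
      exact hmono h (h.trans_le huv) huv
  have hqq : qq γ g r x = qq γ g' r x := by
    unfold qq
    rw [hg'p x hx]
    congr 2
    refine intervalIntegral.integral_congr_ae (Eventually.of_forall fun y hy => ?_)
    rw [uIoc_of_le hx.le] at hy
    rw [hg'p y hy.1]
  obtain ⟨K, hK⟩ := exists_nat_gt (2 * c * x / ε)
  have hKp : (0 : ℝ) < K := lt_of_le_of_lt (by positivity) hK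
  have hK0 : 0 < K := by exact_mod_cast hKp
  have hKε : c * (x / K) ≤ ε / 2 := by
    rw [div_lt_iff₀ hε] at hK
    have h6 : c * (x / K) = c * x / K := by ring
    rw [h6, div_le_iff₀ hKp]
    linarith
  set η : ℝ := ε / (2 * (1 + c * x)) with hη
  have hcx : 0 < 1 + c * x := by positivity
  have hη0 : 0 < η := by positivity
  have hηε : η * (1 + c * x) = ε / 2 := by
    rw [hη]
    field_simp
  have hlim : Tendsto (fun t : ℝ => ∑ k ∈ Finset.Icc 1 K,
      P {ω | η < |X.Xi (1 - (k * (x / K)) / t) t ω - g (k * (x / K))|}) atTop (𝓝 0) := by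
    have h1 : Tendsto (fun t : ℝ => ∑ k ∈ Finset.Icc 1 K,
      P {ω | η < |X.Xi (1 - (k * (x / K)) / t) t ω - g (k * (x / K))|}) atTop
        (𝓝 (∑ k ∈ Finset.Icc 1 K, 0)) := by
      refine tendsto_finsetSum _ fun k hk => ?_
      have hk1 : (1 : ℝ) ≤ k := by exact_mod_cast (Finset.mem_Icc.1 hk).1
      exact hg _ (by positivity) η hη0
    simpa using h1
  refine tendsto_of_tendsto_of_tendsto_of_le_of_le' tendsto_const_nhds hlim
    (Eventually.of_forall fun _ => bot_le) ?_
  filter_upwards [eventually_gt_atTop (0 : ℝ)] with t ht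
  refine le_trans (measure_mono ?_) (measure_biUnion_finset_le _ _)
  intro ω hω
  rw [mem_ofPred_eq] at hω
  by_contra hcon
  rw [mem_iUnion₂] at hcon
  push Not at hcon
  have hgood : ∀ k : ℕ, k ≤ K → |Gf X t ω (k * (x / K)) - g' (k * (x / K))| ≤ η := by
    intro k hk
    rcases Nat.eq_zero_or_pos k with rfl | hkp
    · rw [Nat.cast_zero, zero_mul, hg'0, Gf_zero]
      simpa using hη0.le
    · have hk1 : (0 : ℝ) < k := by exact_mod_cast hkp
      rw [hg'p _ (by positivity)]
      have h5 := hcon k (Finset.mem_Icc.2 ⟨hkp, hk⟩)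
      rw [mem_ofPred_eq, not_lt] at h5
      exact h5
  have hgx : g' x - g' 0 ≤ 1 := by
    rw [hg'0, hg'p x hx]
    linarith [(h01 x hx).2]
  have hest := est hx hc0.le ((Gf_mono X ht ω).monotoneOn _) hg'm K hK0 hgood hgx
  have hxK : |Gf X t ω x - g' x| ≤ η := by
    have h5 := hgood K le_rfl
    have h6 : (K : ℝ) * (x / K) = x := by field_simp
    rwa [h6] at h5
  have hdiff : X.Q (1 - x / t) t (r * t) ω - qq γ g r x =
      Real.exp (-(c * x)) * (Gf X t ω x - g' x) +
        c * ∫ y in (0 : ℝ)..x, Real.exp (-(c * y)) * (Gf X t ω y - g' y) := by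
    rw [Q_eq X hx ht ω, hqq]
    unfold qq
    have hIcc : uIcc 0 x = Icc 0 x := uIcc_of_le hx.le
    have i1 : IntervalIntegrable (fun y => Real.exp (-(γ * r * y)) * Gf X t ω y) volume 0 x :=
      IntervalIntegrable.continuousOn_mul ((Gf_mono X ht ω).monotoneOn _).intervalIntegrable
        (by fun_prop)
    have i2 : IntervalIntegrable (fun y => Real.exp (-(γ * r * y)) * g' y) volume 0 x :=
      IntervalIntegrable.continuousOn_mul
        (MonotoneOn.intervalIntegrable (by rwa [hIcc])) (by fun_prop)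
    have h7 : ∫ y in (0 : ℝ)..x, Real.exp (-(c * y)) * (Gf X t ω y - g' y) =
        (∫ y in (0 : ℝ)..x, Real.exp (-(γ * r * y)) * Gf X t ω y) -
          ∫ y in (0 : ℝ)..x, Real.exp (-(γ * r * y)) * g' y := by
      rw [← intervalIntegral.integral_sub i1 i2]
      refine intervalIntegral.integral_congr fun y _ => ?_
      show Real.exp (-(c * y)) * (Gf X t ω y - g' y) = _
      rw [hc]
      ring
    rw [h7]
    ring
  have hfin : |X.Q (1 - x / t) t (r * t) ω - qq γ g r x| ≤ ε := by
    rw [hdiff]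
    have he : Real.exp (-(c * x)) ≤ 1 :=
      Real.exp_le_one_iff.2 (by have := mul_pos hc0 hx; linarith)
    calc |Real.exp (-(c * x)) * (Gf X t ω x - g' x) +
        c * ∫ y in (0 : ℝ)..x, Real.exp (-(c * y)) * (Gf X t ω y - g' y)|
        ≤ |Real.exp (-(c * x)) * (Gf X t ω x - g' x)| +
          |c * ∫ y in (0 : ℝ)..x, Real.exp (-(c * y)) * (Gf X t ω y - g' y)| := abs_add_le _ _
      _ = Real.exp (-(c * x)) * |Gf X t ω x - g' x| +
          c * |∫ y in (0 : ℝ)..x, Real.exp (-(c * y)) * (Gf X t ω y - g' y)| := by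
          rw [abs_mul, abs_mul, abs_of_pos (Real.exp_pos _), abs_of_pos hc0]
      _ ≤ 1 * η + c * (x * η + x / K) := by
          gcongr
      _ = η * (1 + c * x) + c * (x / K) := by ring
      _ ≤ ε / 2 + ε / 2 := by
          rw [hηε]
          linarith
      _ = ε := by ring
  exact absurd hω (not_lt.2 hfin)

end Pool.Agent.R254.RB
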