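import Pool.Agent.R254.RB.Wave

/-!
# WV-1 (MP_385430_pr): restart at time `t`
-/

open MeasureTheory ProbabilityTheory Filter Topology Set
open scoped ENNReal

namespace Pool.Agent.R254.RB

namespace WV1

theorem lint_exp_tail {R : ℝ} (hR : 0 < R) (a c : ℝ) (ha : 0 ≤ a) :
    ∫⁻ u in Ioi c, ENNReal.ofReal (a * Real.exp (-R * u)) =
      ENNReal.ofReal (a / R * Real.exp (-R * c)) := by
  have hint : IntegrableOn (fun u : ℝ => a * Real.exp (-R * u)) (Ioi c) :=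
    (integrableOn_exp_mul_Ioi (by linarith) c).const_mul a
  rw [← ofReal_integral_eq_lintegral_ofReal hint
    (Eventually.of_forall (fun u => mul_nonneg ha (Real.exp_pos _).le))]
  congr 1
  rw [MeasureTheory.integral_const_mul, integral_exp_mul_Ioi (by linarith) c]
  field_simp

theorem pr_nonneg {β γ : ℝ} (hβ1 : β ≤ 1) (hγ1 : γ ≤ 1) (hβγ : 1 ≤ β + γ) (j : Fin 3) :
    0 ≤ pr β γ j := by
  unfold pr
  split_ifs <;> linarith

theorem sum_pr {β γ : ℝ} (hβ1 : β ≤ 1) (hγ1 : γ ≤ 1) (hβγ : 1 ≤ β + γ) :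
    ∑ j : Fin 3, ENNReal.ofReal (pr β γ j) = 1 := by
  rw [← ENNReal.ofReal_sum_of_nonneg (fun j _ => pr_nonneg hβ1 hγ1 hβγ j)]
  rw [Fin.sum_univ_three]
  have e10 : (1 : Fin 3) ≠ 0 := by decide
  have e20 : (2 : Fin 3) ≠ 0 := by decide
  have e21 : (2 : Fin 3) ≠ 1 := by decide
  simp only [pr, e10, e20, e21, if_true, if_false]
  rw [show β + γ - 1 + (1 - γ) + (1 - β) = 1 by ring, ENNReal.ofReal_one]

theorem one_term {R : ℝ} (hR : 0 < R) {a : ℝ} (ha : 0 ≤ a) (H : ℝ → ℝ≥0∞) (hH : Measurable H)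
    (c : ℝ≥0∞) {u0 s : ℝ} (hu : 0 ≤ u0) (hs : 0 ≤ s) :
    ∫⁻ u in Ioi (0 : ℝ), (ENNReal.ofReal (a * Real.exp (-R * u)) *
       (if u0 < u then (if u ≤ u0 + s then H (u0 + s - u) else c) else 0)) =
    ENNReal.ofReal (Real.exp (-R * u0)) *
      ((∫⁻ v in Ioo (0 : ℝ) s, (ENNReal.ofReal (a * Real.exp (-R * v)) * H (s - v))) +
        ENNReal.ofReal (a / R * Real.exp (-R * s)) * c) := by
  set g : ℝ → ℝ≥0∞ := fun u => ENNReal.ofReal (a * Real.exp (-R * u)) *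
    (if u ≤ u0 + s then H (u0 + s - u) else c) with hg
  have e1 : (fun u : ℝ => ENNReal.ofReal (a * Real.exp (-R * u)) *
       (if u0 < u then (if u ≤ u0 + s then H (u0 + s - u) else c) else 0)) =
       (Ioi u0).indicator g := by
    funext u
    by_cases h : u0 < u
    · rw [if_pos h, indicator_of_mem (show u ∈ Ioi u0 from h)]
    · rw [if_neg h, indicator_of_notMem (show u ∉ Ioi u0 from h), mul_zero]
  rw [e1, setLIntegral_indicator measurableSet_Ioi]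
  have e2 : Ioi u0 ∩ Ioi (0 : ℝ) = Ioi u0 :=
    inter_eq_left.2 (fun x hx => lt_of_le_of_lt hu hx)
  rw [e2, ← lintegral_indicator measurableSet_Ioi,
    ← lintegral_add_right_eq_self (fun x => (Ioi u0).indicator g x) u0]
  set g2 : ℝ → ℝ≥0∞ := fun v => ENNReal.ofReal (a * Real.exp (-R * v)) *
    (if v ≤ s then H (s - v) else c) with hg2
  have e3 : (fun x : ℝ => (Ioi u0).indicator g (x + u0)) =
      (Ioi (0 : ℝ)).indicator (fun v => ENNReal.ofReal (Real.exp (-R * u0)) * g2 v) := by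
    funext v
    by_cases h : 0 < v
    · rw [indicator_of_mem (show v + u0 ∈ Ioi u0 from by simpa using h),
        indicator_of_mem (show v ∈ Ioi (0 : ℝ) from h), hg, hg2]
      simp only
      have h1 : (v + u0 ≤ u0 + s) = (v ≤ s) := by
        apply propext; constructor <;> intro h <;> linarith
      have h2 : u0 + s - (v + u0) = s - v := by ring
      rw [h2, ← mul_assoc, ← ENNReal.ofReal_mul (Real.exp_pos _).le]
      have h3 : a * Real.exp (-R * (v + u0)) = Real.exp (-R * u0) * (a * Real.exp (-R * v)) := by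
        rw [show -R * (v + u0) = -R * u0 + -R * v by ring, Real.exp_add]; ring
      rw [h3]
      congr 1
      simp only [h1]
    · rw [indicator_of_notMem (show v + u0 ∉ Ioi u0 from by simpa using h),
        indicator_of_notMem (show v ∉ Ioi (0 : ℝ) from h)]
  rw [e3, lintegral_indicator measurableSet_Ioi]
  have hexp : Measurable (fun v : ℝ => ENNReal.ofReal (a * Real.exp (-R * v))) := by fun_prop
  have hg2m : Measurable g2 := by
    refine hexp.mul (Measurable.ite measurableSet_Iic ?_ measurable_const)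
    exact hH.comp (measurable_const.sub measurable_id)
  rw [lintegral_const_mul _ hg2m]
  congr 1
  rw [← Ioc_union_Ioi_eq_Ioi hs, lintegral_union measurableSet_Ioi
    (by rw [Set.disjoint_left]; intro x hx hx'; exact absurd hx.2 (not_le.2 hx'))]
  congr 1
  · rw [setLIntegral_congr (Ioo_ae_eq_Ioc (a := (0 : ℝ)) (b := s)).symm]
    refine setLIntegral_congr_fun measurableSet_Ioo fun v hv => ?_
    show ENNReal.ofReal (a * Real.exp (-R * v)) * (if v ≤ s then H (s - v) else c) = _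
    rw [if_pos hv.2.le]
  · have e4 : ∫⁻ v in Ioi s, g2 v = ∫⁻ v in Ioi s, ENNReal.ofReal (a * Real.exp (-R * v)) * c := by
      refine setLIntegral_congr_fun measurableSet_Ioi fun v hv => ?_
      show ENNReal.ofReal (a * Real.exp (-R * v)) * (if v ≤ s then H (s - v) else c) = _
      rw [if_neg (not_le.2 hv)]
    rw [e4, lintegral_mul_const _ hexp, lint_exp_tail hR a s ha]

theorem core1 {N : ℕ} (a : ℕ → ℝ) (ha : ∀ n, 0 ≤ a n) {R : ℝ} (hR : 0 < R)
    (hsum : ∑ n ∈ Finset.range N, a n = R) (p : Fin 3 → ℝ≥0∞) (hp : ∑ j, p j = 1)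
    (H : ℕ → Fin 3 → ℝ → ℝ≥0∞) (hH : ∀ n j, Measurable (H n j)) (c : ℝ≥0∞) (u0 s : ℝ)
    (hu : 0 ≤ u0) (hs : 0 ≤ s) :
    ∑ n ∈ Finset.range N, ∑ j : Fin 3, p j * ∫⁻ u in Ioi (0 : ℝ),
      (ENNReal.ofReal (a n * Real.exp (-R * u)) *
       (if u0 < u then (if u ≤ u0 + s then H n j (u0 + s - u) else c) else 0)) =
    ENNReal.ofReal (Real.exp (-R * u0)) * (ENNReal.ofReal (Real.exp (-R * s)) * c +
      ∫⁻ v in Ioo (0 : ℝ) s, ∑ n ∈ Finset.range N, ∑ j : Fin 3, p j *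
        (ENNReal.ofReal (a n * Real.exp (-R * v)) * H n j (s - v))) := by
  have hm : ∀ n j, Measurable (fun v : ℝ =>
      ENNReal.ofReal (a n * Real.exp (-R * v)) * H n j (s - v)) := by
    intro n j
    refine Measurable.mul (by fun_prop) ?_
    exact (hH n j).comp (measurable_const.sub measurable_id)
  have e1 : ∫⁻ v in Ioo (0 : ℝ) s, ∑ n ∈ Finset.range N, ∑ j : Fin 3, p j *
        (ENNReal.ofReal (a n * Real.exp (-R * v)) * H n j (s - v)) =
      ∑ n ∈ Finset.range N, ∑ j : Fin 3, p j * ∫⁻ v in Ioo (0 : ℝ) s,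
        (ENNReal.ofReal (a n * Real.exp (-R * v)) * H n j (s - v)) := by
    rw [lintegral_finsetSum _ (fun n _ => Finset.measurable_fun_sum _
      (fun j _ => (hm n j).const_mul _))]
    refine Finset.sum_congr rfl fun n _ => ?_
    rw [lintegral_finsetSum _ (fun j _ => (hm n j).const_mul _)]
    refine Finset.sum_congr rfl fun j _ => ?_
    rw [lintegral_const_mul _ (hm n j)]
  have e2 : ∀ n j, ∫⁻ u in Ioi (0 : ℝ), (ENNReal.ofReal (a n * Real.exp (-R * u)) *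
       (if u0 < u then (if u ≤ u0 + s then H n j (u0 + s - u) else c) else 0)) =
    ENNReal.ofReal (Real.exp (-R * u0)) *
      ((∫⁻ v in Ioo (0 : ℝ) s, (ENNReal.ofReal (a n * Real.exp (-R * v)) * H n j (s - v))) +
        ENNReal.ofReal (a n / R * Real.exp (-R * s)) * c) := fun n j =>
    one_term hR (ha n) (H n j) (hH n j) c hu hs
  rw [e1]
  simp only [e2]
  have e3 : ∑ n ∈ Finset.range N, ENNReal.ofReal (a n / R * Real.exp (-R * s)) =
      ENNReal.ofReal (Real.exp (-R * s)) := by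
    rw [← ENNReal.ofReal_sum_of_nonneg
      (fun n _ => mul_nonneg (div_nonneg (ha n) hR.le) (Real.exp_pos _).le)]
    rw [← Finset.sum_mul, ← Finset.sum_div, hsum, div_self hR.ne', one_mul]
  have e4 : ∀ n, ∑ j : Fin 3, p j * (ENNReal.ofReal (Real.exp (-R * u0)) *
      ((∫⁻ v in Ioo (0 : ℝ) s, (ENNReal.ofReal (a n * Real.exp (-R * v)) * H n j (s - v))) +
        ENNReal.ofReal (a n / R * Real.exp (-R * s)) * c)) =
      ENNReal.ofReal (Real.exp (-R * u0)) * ((∑ j : Fin 3, p j *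
        (∫⁻ v in Ioo (0 : ℝ) s, (ENNReal.ofReal (a n * Real.exp (-R * v)) * H n j (s - v)))) +
        ENNReal.ofReal (a n / R * Real.exp (-R * s)) * c) := by
    intro n
    have h1 : ENNReal.ofReal (a n / R * Real.exp (-R * s)) * c =
        ∑ j : Fin 3, p j * (ENNReal.ofReal (a n / R * Real.exp (-R * s)) * c) := by
      rw [← Finset.sum_mul, hp, one_mul]
    conv_rhs => rw [h1]
    rw [← Finset.sum_add_distrib, Finset.mul_sum]
    refine Finset.sum_congr rfl fun j _ => ?_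
    ring
  simp only [e4]
  rw [← Finset.mul_sum, Finset.sum_add_distrib, ← Finset.sum_mul, e3, add_comm]

open Classical in
/-- the test function of the one-step formula -/
noncomputable def Psi {Ω : Type*} (φ : Ω × ℝ × ℝ → ℝ≥0∞) (c : Ω → ℝ≥0∞) (u0 s : Ω → ℝ)
    (E : Set Ω) (q : Ω × ℝ × ℝ) : ℝ≥0∞ :=
  if q.1 ∈ E then (if u0 q.1 < q.2.1 then (if q.2.1 ≤ u0 q.1 + s q.1 then
    φ (q.1, u0 q.1 + s q.1 - q.2.1, q.2.2) else c q.1) else 0) else 0

theorem measPsi {Ω : Type*} [m : MeasurableSpace Ω] {φ : Ω × ℝ × ℝ → ℝ≥0∞} (hφ : Measurable φ)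
    {c : Ω → ℝ≥0∞} (hc : Measurable c) {u0 s : Ω → ℝ} (hu : Measurable u0) (hs : Measurable s)
    {E : Set Ω} (hE : MeasurableSet E) : Measurable (Psi φ c u0 s E) := by
  unfold Psi
  refine Measurable.ite (measurable_fst hE) ?_ measurable_const
  refine Measurable.ite (measurableSet_lt (hu.comp measurable_fst) measurable_snd.fst) ?_
    measurable_const
  refine Measurable.ite (measurableSet_le measurable_snd.fst
    ((hu.comp measurable_fst).add (hs.comp measurable_fst))) ?_ (hc.comp measurable_fst)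
  exact hφ.comp (measurable_fst.prodMk
    ((((hu.comp measurable_fst).add (hs.comp measurable_fst)).sub measurable_snd.fst).prodMk
      measurable_snd.snd))

theorem measH {Ω : Type*} [m : MeasurableSpace Ω] {μ : Measure ℝ} [SFinite μ]
    {φ : Ω × ℝ × ℝ → ℝ≥0∞} (hφ : Measurable φ) (ω : Ω) :
    Measurable (fun r : ℝ => ∫⁻ f, φ (ω, r, f) ∂μ) := by
  have h : Measurable (fun p : ℝ × ℝ => φ (ω, p)) := hφ.comp measurable_prodMk_left
  exact h.lintegral_prod_right'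

variable {Ω : Type*} [mΩ : MeasurableSpace Ω] {P : Measure Ω} {μ : Measure ℝ} {β γ : ℝ}

theorem R_pos (X : RBP P μ β γ) (k : ℕ) (ω : Ω) : 0 < X.R k ω := by
  have hM : ∀ k, 1 ≤ X.M k ω := by
    intro k
    induction k with
    | zero => rw [X.M_zero]
    | succ k ih => rw [X.M_succ]; omega
  have hZ : ∀ k, 1 ≤ X.Z k 0 ω := by
    intro k
    induction k with
    | zero => rw [X.Z_zero]; simp
    | succ k ih => rw [X.Z_succ]; omega
  unfold RBP.R
  have h0 : 0 ∈ Finset.range (X.M k ω) := Finset.mem_range.mpr (hM k)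
  have hF : ∀ n, 0 < X.F n ω := fun n => (X.F_mem n ω).1
  have h1 : 0 < X.F 0 ω * X.Z k 0 ω := mul_pos (hF 0) (by exact_mod_cast hZ k)
  exact lt_of_lt_of_le h1 (Finset.single_le_sum
    (f := fun m => X.F m ω * (X.Z k m ω : ℝ))
    (fun m _ => mul_nonneg (hF m).le (Nat.cast_nonneg _)) h0)

theorem lemA [IsProbabilityMeasure P] [IsProbabilityMeasure μ] (X : RBP P μ β γ)
    (hβ1 : β ≤ 1) (hγ1 : γ ≤ 1) (hβγ : 1 ≤ β + γ)
    (h1 : X.StepSumStmt) (k : ℕ) (φ : ℕ → Fin 3 → Ω × ℝ × ℝ → ℝ≥0∞)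
    (hφ : ∀ n i, @Measurable (Ω × ℝ × ℝ) ℝ≥0∞
      (MeasurableSpace.prod (X.ℱ k) inferInstance) _ (φ n i))
    (hfree : ∀ n ω s f, φ n 2 (ω, s, f) = φ n 2 (ω, s, 1))
    (c : Ω → ℝ≥0∞) (hc : Measurable[X.ℱ k] c) (u0 s : Ω → ℝ) (hu : Measurable[X.ℱ k] u0)
    (hs : Measurable[X.ℱ k] s) (E : Set Ω) (hE : MeasurableSet[X.ℱ k] E)
    (hu0 : ∀ ω ∈ E, 0 ≤ u0 ω) (hs0 : ∀ ω ∈ E, 0 ≤ s ω) :
    ∫⁻ ω in E ∩ {ω | u0 ω < X.τ (k + 1) ω - X.τ k ω},
      (if X.τ (k + 1) ω - X.τ k ω ≤ u0 ω + s ω then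
        φ (X.I k ω) (X.θ k ω)
          (ω, u0 ω + s ω - (X.τ (k + 1) ω - X.τ k ω), X.F (X.M k ω) ω)
        else c ω) ∂P =
    ∫⁻ ω in E, ENNReal.ofReal (Real.exp (-(X.R k ω) * u0 ω)) *
      (ENNReal.ofReal (Real.exp (-(X.R k ω) * s ω)) * c ω +
        ∫⁻ v in Ioo (0 : ℝ) (s ω), (∑ n ∈ Finset.range (X.M k ω), ∑ i : Fin 3,
          ENNReal.ofReal (pr β γ i) * (ENNReal.ofReal
            (X.F n ω * X.Z k n ω * Real.exp (-(X.R k ω) * v)) *
              ∫⁻ f, φ n i (ω, s ω - v, f) ∂μ))) ∂P := by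
  have h2 := h1 k (fun n i => Psi (φ n i) c u0 s E)
    (fun n i => @measPsi Ω (X.ℱ k) (φ n i) (hφ n i) c hc u0 s hu hs E hE)
    (by
      intro n ω u f
      simp only [Psi]
      split_ifs <;> first | exact hfree n _ _ _ | rfl)
  have hE' : MeasurableSet E := X.ℱ.le k _ hE
  have hτ : ∀ i, Measurable (X.τ i) := fun i => (X.meas_τ i).mono (X.ℱ.le i) le_rfl
  have hu' : Measurable u0 := hu.mono (X.ℱ.le k) le_rfl
  have hE2 : MeasurableSet (E ∩ {ω | u0 ω < X.τ (k + 1) ω - X.τ k ω}) :=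
    hE'.inter (measurableSet_lt hu' ((hτ (k + 1)).sub (hτ k)))
  rw [← lintegral_indicator hE2, ← lintegral_indicator hE']
  refine Eq.trans ?_ (h2.trans ?_)
  · refine lintegral_congr fun ω => ?_
    by_cases h3 : ω ∈ E
    · by_cases h4 : u0 ω < X.τ (k + 1) ω - X.τ k ω
      · rw [indicator_of_mem (show ω ∈ E ∩ {ω | u0 ω < X.τ (k + 1) ω - X.τ k ω} from ⟨h3, h4⟩)]
        simp only [Psi, if_pos h3, if_pos h4]
      · rw [indicator_of_notMem (fun h => h4 h.2)]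
        simp only [Psi, if_pos h3, if_neg h4]
    · rw [indicator_of_notMem (fun h => h3 h.1)]
      simp only [Psi, if_neg h3]
  · refine lintegral_congr fun ω => ?_
    by_cases h3 : ω ∈ E
    · rw [indicator_of_mem h3]
      have h5 : ∀ n i (u : ℝ), ∫⁻ f, Psi (φ n i) c u0 s E (ω, u, f) ∂μ =
          (if u0 ω < u then (if u ≤ u0 ω + s ω then
            (fun r => ∫⁻ f, φ n i (ω, r, f) ∂μ) (u0 ω + s ω - u) else c ω) else 0) := by
        intro n i u
        by_cases h6 : u0 ω < u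
        · by_cases h7 : u ≤ u0 ω + s ω
          · simp only [Psi, if_pos h3, if_pos h6, if_pos h7]
          · simp only [Psi, if_pos h3, if_pos h6, if_neg h7]
            rw [lintegral_const, measure_univ, mul_one]
        · simp only [Psi, if_pos h3, if_neg h6]
          rw [lintegral_const, zero_mul]
      simp only [h5]
      exact core1 (N := X.M k ω) (fun n => X.F n ω * X.Z k n ω)
        (fun n => mul_nonneg (X.F_mem n ω).1.le (Nat.cast_nonneg _)) (R_pos X k ω) rfl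
        (fun i => ENNReal.ofReal (pr β γ i)) (sum_pr hβ1 hγ1 hβγ)
        (fun n i r => ∫⁻ f, φ n i (ω, r, f) ∂μ)
        (fun n i => @measH Ω (X.ℱ k) μ _ (φ n i) (hφ n i) ω) (c ω) (u0 ω) (s ω)
        (hu0 ω h3) (hs0 ω h3)
    · rw [indicator_of_notMem h3]
      have h5 : ∀ n i (u : ℝ), ∫⁻ f, Psi (φ n i) c u0 s E (ω, u, f) ∂μ = 0 := by
        intro n i u
        simp only [Psi, if_neg h3]
        rw [lintegral_const, zero_mul]
      simp only [h5, mul_zero, lintegral_zero, Finset.sum_const_zero]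

/-- the value process from index `j + 1` on -/
noncomputable def V (X : RBP P μ β γ) (U : ℕ → Ω → ℝ → ℝ≥0∞) (j : ℕ) (t' : ℝ) :
    ℕ → Ω → ℝ≥0∞
  | 0, ω => if X.τ (j + 1) ω ≤ t' then U (j + 1) ω (t' - X.τ (j + 1) ω) else U j ω 0
  | m + 1, ω => if X.τ (j + 1 + (m + 1)) ω ≤ t' then
      U (j + 1 + (m + 1)) ω (t' - X.τ (j + 1 + (m + 1)) ω) else
      if X.τ (j + 1 + m) ω ≤ t' then U (j + 1 + m) ω 0 else V X U j t' m ω

theorem V_of_le (X : RBP P μ β γ) (U : ℕ → Ω → ℝ → ℝ≥0∞) (j : ℕ) (t' : ℝ) (m : ℕ) (ω : Ω)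
    (h : X.τ (j + 1 + m) ω ≤ t') :
    V X U j t' m ω = U (j + 1 + m) ω (t' - X.τ (j + 1 + m) ω) := by
  cases m with
  | zero => rw [V, if_pos (by simpa using h)]
  | succ m => rw [V, if_pos h]

theorem measU {Ω : Type*} [m : MeasurableSpace Ω] {U : Ω → ℝ → ℝ≥0∞}
    (hU : Measurable (fun p : Ω × ℝ => U p.1 p.2)) {s : Ω → ℝ} (hs : Measurable s) :
    Measurable (fun ω => U ω (s ω)) :=
  hU.comp (measurable_id.prodMk hs)

theorem measIte {Ω : Type*} [m : MeasurableSpace Ω] {τ : Ω → ℝ} (hτ : Measurable τ) (t : ℝ)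
    {f g : Ω → ℝ≥0∞} (hf : Measurable f) (hg : Measurable g) :
    Measurable (fun ω => if τ ω ≤ t then f ω else g ω) :=
  Measurable.ite (measurableSet_le hτ measurable_const) hf hg

theorem measSub {Ω : Type*} [m : MeasurableSpace Ω] {τ : Ω → ℝ} (hτ : Measurable τ) (t : ℝ) :
    Measurable (fun ω => t - τ ω) := measurable_const.sub hτ

theorem measV (X : RBP P μ β γ) {j : ℕ} {U : ℕ → Ω → ℝ → ℝ≥0∞}
    {Φ : ℕ → ℕ → Fin 3 → Ω × ℝ × ℝ → ℝ≥0∞} (hv : X.Val j U Φ) (t' : ℝ) (m : ℕ) :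
    Measurable[X.ℱ (j + 1 + m)] (V X U j t' m) := by
  have hU : ∀ k, j ≤ k → Measurable[X.ℱ k] (fun ω => U k ω (t' - X.τ k ω)) := fun k hk =>
    @measU Ω (X.ℱ k) (U k) (hv.meas k hk) _ (@measSub Ω (X.ℱ k) _ (X.meas_τ k) t')
  have hU0 : ∀ k, j ≤ k → Measurable[X.ℱ k] (fun ω => U k ω 0) := fun k hk =>
    @measU Ω (X.ℱ k) (U k) (hv.meas k hk) _ (@measurable_const _ _ _ (X.ℱ k) 0)
  induction m with
  | zero =>
    exact @measIte Ω (X.ℱ (j + 1)) _ (X.meas_τ (j + 1)) t' _ _ (hU (j + 1) (by omega))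
      ((hU0 j le_rfl).mono (X.ℱ.mono (by omega)) le_rfl)
  | succ m ih =>
    exact @measIte Ω (X.ℱ (j + 1 + (m + 1))) _ (X.meas_τ _) t' _ _ (hU _ (by omega))
      (@measIte Ω (X.ℱ (j + 1 + (m + 1))) _
        ((X.meas_τ (j + 1 + m)).mono (X.ℱ.mono (by omega)) le_rfl) t' _ _
        ((hU0 (j + 1 + m) (by omega)).mono (X.ℱ.mono (by omega)) le_rfl)
        (ih.mono (X.ℱ.mono (by omega)) le_rfl))

theorem idx_eq (X : RBP P μ β γ) {t : ℝ} {i : ℕ} {ω : Ω} (h1 : X.τ i ω ≤ t)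
    (h2 : t < X.τ (i + 1) ω) : X.idx t ω = i := by
  have hm : StrictMono (fun k => X.τ k ω) := strictMono_nat_of_lt_succ (fun k => X.τ_lt k ω)
  have h : {k | X.τ k ω ≤ t} = Iic i := by
    ext k
    simp only [Set.mem_ofPred_eq, Set.mem_Iic]
    constructor
    · intro hk
      by_contra hki
      have : X.τ (i + 1) ω ≤ X.τ k ω := hm.monotone (show i + 1 ≤ k by omega)
      linarith
    · intro hk
      exact (hm.monotone hk).trans h1
  unfold RBP.idx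
  rw [h, csSup_Iic]

theorem V_of_gt (X : RBP P μ β γ) (U : ℕ → Ω → ℝ → ℝ≥0∞) (j : ℕ) (t' : ℝ) (m : ℕ) (ω : Ω)
    (h0 : X.τ j ω ≤ t') (h : t' < X.τ (j + 1 + m) ω) :
    V X U j t' m ω = U (X.idx t' ω) ω 0 := by
  induction m with
  | zero =>
    rw [idx_eq X h0 h, V, if_neg (not_le.2 h)]
  | succ m ih =>
    rw [V, if_neg (not_le.2 h)]
    by_cases h3 : X.τ (j + 1 + m) ω ≤ t'
    · rw [if_pos h3, idx_eq X h3 h]
    · rw [if_neg h3]
      exact ih (not_le.1 h3)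

theorem measAt (X : RBP P μ β γ) (j : ℕ) (t : ℝ) : MeasurableSet[X.ℱ (j + 1)] (X.At j t) := by
  have h1 : MeasurableSet[X.ℱ (j + 1)] {ω | X.τ j ω ≤ t} :=
    (X.meas_τ j).mono (X.ℱ.mono (by omega)) le_rfl measurableSet_Iic
  have h2 : MeasurableSet[X.ℱ (j + 1)] {ω | t < X.τ (j + 1) ω} :=
    X.meas_τ (j + 1) measurableSet_Ioi
  exact MeasurableSet.inter h1 h2

/-- one step of the value process -/
theorem step_eq [IsProbabilityMeasure P] [IsProbabilityMeasure μ] (X : RBP P μ β γ)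
    (hβ1 : β ≤ 1) (hγ1 : γ ≤ 1) (hβγ : 1 ≤ β + γ) (h1 : X.StepSumStmt) {j : ℕ}
    {U : ℕ → Ω → ℝ → ℝ≥0∞} {Φ : ℕ → ℕ → Fin 3 → Ω × ℝ × ℝ → ℝ≥0∞} (hv : X.Val j U Φ)
    (t' : ℝ) (m : ℕ) (E : Set Ω) (hE : MeasurableSet[X.ℱ (j + 1 + m)] E) :
    ∫⁻ ω in E, V X U j t' (m + 1) ω ∂P =
      ∫⁻ ω in E ∩ {ω | X.τ (j + 1 + m) ω ≤ t'},
        X.gen U Φ (j + 1 + m) ω (t' - X.τ (j + 1 + m) ω) ∂P +
      ∫⁻ ω in E \ {ω | X.τ (j + 1 + m) ω ≤ t'}, V X U j t' m ω ∂P := by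
  set k := j + 1 + m with hk
  have hjk : j ≤ k := by omega
  have hA : MeasurableSet[X.ℱ k] {ω | X.τ k ω ≤ t'} := X.meas_τ k measurableSet_Iic
  have hE' : MeasurableSet E := X.ℱ.le k _ hE
  have hA' : MeasurableSet {ω | X.τ k ω ≤ t'} := X.ℱ.le k _ hA
  rw [← lintegral_inter_add_sdiff (fun ω => V X U j t' (m + 1) ω) E hA']
  congr 1
  · have h2 := lemA X hβ1 hγ1 hβγ h1 k (Φ k) (hv.measΦ k hjk) (hv.free k hjk)
      (fun ω => U k ω 0)
      (@measU Ω (X.ℱ k) (U k) (hv.meas k hjk) _ (@measurable_const _ _ _ (X.ℱ k) 0))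
      (fun _ => 0) (fun ω => t' - X.τ k ω) (@measurable_const _ _ _ (X.ℱ k) 0)
      (@measSub Ω (X.ℱ k) _ (X.meas_τ k) t') (E ∩ {ω | X.τ k ω ≤ t'})
      (MeasurableSet.inter hE hA) (fun _ _ => le_rfl) (fun ω hω => sub_nonneg.2 hω.2)
    have h3 : (E ∩ {ω | X.τ k ω ≤ t'}) ∩ {ω | (0 : ℝ) < X.τ (k + 1) ω - X.τ k ω} =
        E ∩ {ω | X.τ k ω ≤ t'} :=
      inter_eq_left.2 (fun ω _ => sub_pos.2 (X.τ_lt k ω))
    rw [h3] at h2
    refine Eq.trans ?_ (h2.trans ?_)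
    · refine setLIntegral_congr_fun (hE'.inter hA') fun ω hω => ?_
      show V X U j t' (m + 1) ω = _
      have h4 : X.τ k ω ≤ t' := hω.2
      rw [V, ← hk, if_pos h4, show j + 1 + (m + 1) = k + 1 by omega, hv.next k hjk]
      have h5 : (X.τ (k + 1) ω - X.τ k ω ≤ 0 + (t' - X.τ k ω)) = (X.τ (k + 1) ω ≤ t') := by
        apply propext; constructor <;> intro h <;> linarith
      have h6 : 0 + (t' - X.τ k ω) - (X.τ (k + 1) ω - X.τ k ω) = t' - X.τ (k + 1) ω := by ring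
      simp only [h5, h6]
    · refine setLIntegral_congr_fun (hE'.inter hA') fun ω _ => ?_
      show _ = X.gen U Φ k ω (t' - X.τ k ω)
      simp only [mul_zero, Real.exp_zero, ENNReal.ofReal_one, one_mul]
      rfl
  · refine setLIntegral_congr_fun (hE'.diff hA') fun ω hω => ?_
    show V X U j t' (m + 1) ω = _
    have h4 : ¬ X.τ k ω ≤ t' := hω.2
    have h5 : ¬ X.τ (j + 1 + (m + 1)) ω ≤ t' := by
      intro h
      have := X.τ_lt k ω
      rw [show j + 1 + (m + 1) = k + 1 by omega] at h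
      exact h4 (by linarith)
    rw [V, if_neg h5, ← hk, if_neg h4]

theorem split_eq (X : RBP P μ β γ) (U : ℕ → Ω → ℝ → ℝ≥0∞) (j : ℕ) (t' : ℝ) (m : ℕ)
    (E : Set Ω) (hE : MeasurableSet E) :
    ∫⁻ ω in E, V X U j t' m ω ∂P =
      ∫⁻ ω in E ∩ {ω | X.τ (j + 1 + m) ω ≤ t'},
        U (j + 1 + m) ω (t' - X.τ (j + 1 + m) ω) ∂P +
      ∫⁻ ω in E \ {ω | X.τ (j + 1 + m) ω ≤ t'}, V X U j t' m ω ∂P := by
  have hA : MeasurableSet {ω | X.τ (j + 1 + m) ω ≤ t'} :=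
    X.ℱ.le _ _ (X.meas_τ (j + 1 + m) measurableSet_Iic)
  rw [← lintegral_inter_add_sdiff (fun ω => V X U j t' m ω) E hA]
  congr 1
  refine setLIntegral_congr_fun (hE.inter hA) fun ω hω => ?_
  exact V_of_le X U j t' m ω hω.2

/-- the memoryless step -/
theorem first_eq [IsProbabilityMeasure P] [IsProbabilityMeasure μ] (X : RBP P μ β γ)
    (hβ1 : β ≤ 1) (hγ1 : γ ≤ 1) (hβγ : 1 ≤ β + γ) (h1 : X.StepSumStmt) {j : ℕ}
    {U : ℕ → Ω → ℝ → ℝ≥0∞} {Φ : ℕ → ℕ → Fin 3 → Ω × ℝ × ℝ → ℝ≥0∞} (hv : X.Val j U Φ)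
    {t T : ℝ} (hT : 0 ≤ T) (B : Set Ω) (hB : MeasurableSet[X.ℱ j] B) :
    (∫⁻ ω in B ∩ X.At j t, V X U j (t + T) 0 ω ∂P =
      ∫⁻ ω in B ∩ {ω | X.τ j ω ≤ t}, ENNReal.ofReal (Real.exp (-(X.R j ω) * (t - X.τ j ω))) *
        X.gen U Φ j ω T ∂P) ∧
    (∫⁻ ω in B ∩ X.At j t, U j ω T ∂P =
      ∫⁻ ω in B ∩ {ω | X.τ j ω ≤ t}, ENNReal.ofReal (Real.exp (-(X.R j ω) * (t - X.τ j ω))) *
        U j ω T ∂P) := by
  have hA : MeasurableSet[X.ℱ j] {ω | X.τ j ω ≤ t} := X.meas_τ j measurableSet_Iic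
  have hBA : MeasurableSet[X.ℱ j] (B ∩ {ω | X.τ j ω ≤ t}) := MeasurableSet.inter hB hA
  have hset : (B ∩ {ω | X.τ j ω ≤ t}) ∩ {ω | t - X.τ j ω < X.τ (j + 1) ω - X.τ j ω} =
      B ∩ X.At j t := by
    ext ω
    simp only [RBP.At, Set.mem_inter_iff, Set.mem_ofPred_eq]
    constructor
    · rintro ⟨⟨h2, h3⟩, h4⟩; exact ⟨h2, h3, by linarith⟩
    · rintro ⟨h2, h3, h4⟩; exact ⟨⟨h2, h3⟩, by linarith⟩
  have hm : MeasurableSet (B ∩ X.At j t) :=
    (X.ℱ.le j _ hB).inter (X.ℱ.le (j + 1) _ (measAt X j t))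
  constructor
  · have h2 := lemA X hβ1 hγ1 hβγ h1 j (Φ j) (hv.measΦ j le_rfl) (hv.free j le_rfl)
      (fun ω => U j ω 0)
      (@measU Ω (X.ℱ j) (U j) (hv.meas j le_rfl) _ (@measurable_const _ _ _ (X.ℱ j) 0))
      (fun ω => t - X.τ j ω) (fun _ => T) (@measSub Ω (X.ℱ j) _ (X.meas_τ j) t)
      (@measurable_const _ _ _ (X.ℱ j) T) _ hBA (fun ω hω => sub_nonneg.2 hω.2)
      (fun _ _ => hT)
    rw [hset] at h2
    refine Eq.trans ?_ h2
    refine setLIntegral_congr_fun hm fun ω hω => ?_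
    show V X U j (t + T) 0 ω = _
    rw [V, hv.next j le_rfl]
    have h5 : (X.τ (j + 1) ω - X.τ j ω ≤ t - X.τ j ω + T) = (X.τ (j + 1) ω ≤ t + T) := by
      apply propext; constructor <;> intro h <;> linarith
    have h6 : t - X.τ j ω + T - (X.τ (j + 1) ω - X.τ j ω) = t + T - X.τ (j + 1) ω := by ring
    simp only [h5, h6]
  · have h2 := lemA X hβ1 hγ1 hβγ h1 j (fun _ _ _ => 0)
      (fun _ _ => @measurable_const _ _ _ (MeasurableSpace.prod (X.ℱ j) inferInstance) 0)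
      (fun _ _ _ _ => rfl) (fun ω => U j ω T)
      (@measU Ω (X.ℱ j) (U j) (hv.meas j le_rfl) _ (@measurable_const _ _ _ (X.ℱ j) T))
      (fun ω => t - X.τ j ω) (fun _ => 0) (@measSub Ω (X.ℱ j) _ (X.meas_τ j) t)
      (@measurable_const _ _ _ (X.ℱ j) 0) _ hBA (fun ω hω => sub_nonneg.2 hω.2)
      (fun _ _ => le_rfl)
    rw [hset] at h2
    refine Eq.trans ?_ (h2.trans ?_)
    · refine setLIntegral_congr_fun hm fun ω hω => ?_
      show U j ω T = _
      have h3 : t < X.τ (j + 1) ω := hω.2.2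
      rw [if_neg (by linarith)]
    · refine setLIntegral_congr_fun (X.ℱ.le j _ hBA) fun ω _ => ?_
      simp

theorem ev_V (X : RBP P μ β γ) (U : ℕ → Ω → ℝ → ℝ≥0∞) (j : ℕ) {t T : ℝ} (hT : 0 ≤ T)
    {ω : Ω} (hω : ω ∈ X.At j t) (hτ : Tendsto (fun k => X.τ k ω) atTop atTop) :
    ∀ᶠ m in atTop, V X U j (t + T) m ω = U (X.idx (t + T) ω) ω 0 := by
  have h1 : Tendsto (fun m => X.τ (j + 1 + m) ω) atTop atTop :=
    hτ.comp (tendsto_atTop_mono (fun m => Nat.le_add_left m (j + 1)) tendsto_id)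
  filter_upwards [h1.eventually_gt_atTop (t + T)] with m hm
  exact V_of_gt X U j (t + T) m ω (by linarith [hω.1]) hm

theorem V_le_one (X : RBP P μ β γ) (U : ℕ → Ω → ℝ → ℝ≥0∞) (hU : ∀ k ω s, U k ω s ≤ 1)
    (j : ℕ) (t' : ℝ) (m : ℕ) (ω : Ω) : V X U j t' m ω ≤ 1 := by
  induction m with
  | zero => rw [V]; split_ifs <;> exact hU _ _ _
  | succ m ih =>
    rw [V]
    split_ifs
    · exact hU _ _ _
    · exact hU _ _ _
    · exact ih

end WV1

open WV1

variable {Ω : Type*} [mΩ : MeasurableSpace Ω] {P : Measure Ω} {μ : Measure ℝ} {β γ : ℝ}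

theorem restartLe [IsProbabilityMeasure P] [IsProbabilityMeasure μ] (X : RBP P μ β γ) {α : ℝ}
    (hC : Cond μ β γ α) (h1 : X.StepSumStmt) (hNE : X.NonExpStmt) : X.RestartLeStmt := by
  intro j U Φ hv t T ht hT hsup B hB
  have hEm : MeasurableSet[X.ℱ (j + 1)] (B ∩ X.At j t) :=
    MeasurableSet.inter (X.ℱ.mono (Nat.le_succ j) _ hB) (measAt X j t)
  have hE' : MeasurableSet (B ∩ X.At j t) := X.ℱ.le _ _ hEm
  have hVm : ∀ m, Measurable (V X U j (t + T) m) := fun m =>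
    (measV X hv (t + T) m).mono (X.ℱ.le _) le_rfl
  have hstep : ∀ m, ∫⁻ ω in B ∩ X.At j t, V X U j (t + T) (m + 1) ω ∂P ≤
      ∫⁻ ω in B ∩ X.At j t, V X U j (t + T) m ω ∂P := by
    intro m
    rw [step_eq X hC.β_le hC.γ_le hC.one_le h1 hv (t + T) m _ (X.ℱ.mono (by omega) _ hEm),
      split_eq X U j (t + T) m _ hE']
    refine add_le_add ?_ le_rfl
    refine setLIntegral_mono' (hE'.inter (X.ℱ.le _ _ (X.meas_τ _ measurableSet_Iic))) ?_
    intro ω hω
    have h3 : X.τ (j + 1 + m) ω ≤ t + T := hω.2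
    have h4 : t < X.τ (j + 1) ω := hω.1.2.2
    have hm : StrictMono (fun k => X.τ k ω) := strictMono_nat_of_lt_succ (fun k => X.τ_lt k ω)
    have h5 : X.τ (j + 1) ω ≤ X.τ (j + 1 + m) ω := hm.monotone (Nat.le_add_right _ _)
    exact hsup _ (by omega) ω _ ⟨by linarith, by linarith⟩
  have hall : ∀ m, ∫⁻ ω in B ∩ X.At j t, V X U j (t + T) m ω ∂P ≤
      ∫⁻ ω in B ∩ X.At j t, V X U j (t + T) 0 ω ∂P := by
    intro m
    induction m with
    | zero => exact le_rfl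
    | succ m ih => exact (hstep m).trans ih
  have hfirst : ∫⁻ ω in B ∩ X.At j t, V X U j (t + T) 0 ω ∂P ≤
      ∫⁻ ω in B ∩ X.At j t, U j ω T ∂P := by
    obtain ⟨e1, e2⟩ := first_eq X hC.β_le hC.γ_le hC.one_le h1 hv (t := t) hT B hB
    rw [e1, e2]
    refine lintegral_mono fun ω => ?_
    exact mul_le_mul_right (hsup j le_rfl ω T ⟨hT, le_rfl⟩) _
  have hlim : ∫⁻ ω in B ∩ X.At j t, U (X.idx (t + T) ω) ω 0 ∂P =
      ∫⁻ ω in B ∩ X.At j t, liminf (fun m => V X U j (t + T) m ω) atTop ∂P := by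
    refine setLIntegral_congr_fun_ae hE' ?_
    filter_upwards [hNE] with ω hω hωE
    have h3 := ev_V X U j hT hωE.2 hω
    exact ((tendsto_const_nhds.congr' (h3.mono fun _ h => h.symm)).liminf_eq).symm
  rw [hlim]
  refine (lintegral_liminf_le hVm).trans ?_
  refine (liminf_le_of_frequently_le' (Frequently.of_forall fun m => hall m)).trans hfirst

theorem restartEq [IsProbabilityMeasure P] [IsProbabilityMeasure μ] (X : RBP P μ β γ) {α : ℝ}
    (hC : Cond μ β γ α) (h1 : X.StepSumStmt) (hNE : X.NonExpStmt) : X.RestartEqStmt := by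
  intro j U Φ hv t T ht hT hU1 hsup B hB
  have hEm : MeasurableSet[X.ℱ (j + 1)] (B ∩ X.At j t) :=
    MeasurableSet.inter (X.ℱ.mono (Nat.le_succ j) _ hB) (measAt X j t)
  have hE' : MeasurableSet (B ∩ X.At j t) := X.ℱ.le _ _ hEm
  have hVm : ∀ m, Measurable (V X U j (t + T) m) := fun m =>
    (measV X hv (t + T) m).mono (X.ℱ.le _) le_rfl
  have hstep : ∀ m, ∫⁻ ω in B ∩ X.At j t, V X U j (t + T) (m + 1) ω ∂P =
      ∫⁻ ω in B ∩ X.At j t, V X U j (t + T) m ω ∂P := by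
    intro m
    rw [step_eq X hC.β_le hC.γ_le hC.one_le h1 hv (t + T) m _ (X.ℱ.mono (by omega) _ hEm),
      split_eq X U j (t + T) m _ hE']
    congr 1
    refine setLIntegral_congr_fun (hE'.inter (X.ℱ.le _ _ (X.meas_τ _ measurableSet_Iic))) ?_
    intro ω hω
    have h3 : X.τ (j + 1 + m) ω ≤ t + T := hω.2
    have h4 : t < X.τ (j + 1) ω := hω.1.2.2
    have hm : StrictMono (fun k => X.τ k ω) := strictMono_nat_of_lt_succ (fun k => X.τ_lt k ω)
    have h5 : X.τ (j + 1) ω ≤ X.τ (j + 1 + m) ω := hm.monotone (Nat.le_add_right _ _)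
    exact hsup _ (by omega) ω _ ⟨by linarith, by linarith⟩
  have hall : ∀ m, ∫⁻ ω in B ∩ X.At j t, V X U j (t + T) m ω ∂P =
      ∫⁻ ω in B ∩ X.At j t, V X U j (t + T) 0 ω ∂P := by
    intro m
    induction m with
    | zero => rfl
    | succ m ih => exact (hstep m).trans ih
  have hfirst : ∫⁻ ω in B ∩ X.At j t, V X U j (t + T) 0 ω ∂P =
      ∫⁻ ω in B ∩ X.At j t, U j ω T ∂P := by
    obtain ⟨e1, e2⟩ := first_eq X hC.β_le hC.γ_le hC.one_le h1 hv (t := t) hT B hB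
    rw [e1, e2]
    refine lintegral_congr fun ω => ?_
    rw [hsup j le_rfl ω T ⟨hT, le_rfl⟩]
  have hlim : Tendsto (fun m => ∫⁻ ω in B ∩ X.At j t, V X U j (t + T) m ω ∂P) atTop
      (𝓝 (∫⁻ ω in B ∩ X.At j t, U (X.idx (t + T) ω) ω 0 ∂P)) := by
    refine tendsto_lintegral_of_dominated_convergence (fun _ => 1) hVm
      (fun m => ae_of_all _ fun ω => V_le_one X U hU1 j (t + T) m ω) ?_ ?_
    · rw [lintegral_const, one_mul]
      exact measure_ne_top _ _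
    · rw [ae_restrict_iff' hE']
      filter_upwards [hNE] with ω hω hωE
      have h3 := ev_V X U j hT hωE.2 hω
      exact tendsto_const_nhds.congr' (h3.mono fun _ h => h.symm)
  have hconst : Tendsto (fun m => ∫⁻ ω in B ∩ X.At j t, V X U j (t + T) m ω ∂P) atTop
      (𝓝 (∫⁻ ω in B ∩ X.At j t, U j ω T ∂P)) := by
    refine tendsto_const_nhds.congr fun m => ?_
    rw [hall m, hfirst]
  exact tendsto_nhds_unique hlim hconst

end Pool.Agent.R254.RB
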