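import Pool.Agent.R254.RB.Wave
import Pool.Agent.R732.RB.NonExp

/-! # MP_385430_pr, piece WV-9: the shape is at most `α` (helper278) -/

set_option autoImplicit false

open MeasureTheory ProbabilityTheory Filter Topology Set
open scoped ENNReal

namespace Pool.Agent.R254.RB

namespace ShapePf

variable {Ω : Type*} [mΩ : MeasurableSpace Ω] {P : Measure Ω} {μ : Measure ℝ} {β γ : ℝ}

theorem τ_mono (X : RBP P μ β γ) (ω : Ω) : StrictMono (fun k => X.τ k ω) :=
  strictMono_nat_of_lt_succ (fun k => X.τ_lt k ω)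

theorem S_mono (X : RBP P μ β γ) (ω : Ω) : Monotone (fun k => X.S k ω) :=
  monotone_nat_of_le_succ (fun k => (Nat.le_succ _).trans (X.S_succ_ge_n k ω))

theorem idx_eq_iff (X : RBP P μ β γ) (t : ℝ) (ω : Ω) {j : ℕ} (hj : 1 ≤ j) :
    X.idx t ω = j ↔ X.τ j ω ≤ t ∧ t < X.τ (j + 1) ω := by
  have hmono := τ_mono X ω
  constructor
  · intro h
    have hne : ({k | X.τ k ω ≤ t} : Set ℕ).Nonempty := by
      by_contra hcon
      rw [Set.not_nonempty_iff_eq_empty] at hcon
      unfold RBP.idx at h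
      rw [hcon] at h
      simp at h
      omega
    have hbd : BddAbove ({k | X.τ k ω ≤ t} : Set ℕ) := by
      by_contra hcon
      have : X.idx t ω = 0 := Nat.sSup_of_not_bddAbove hcon
      omega
    refine ⟨?_, ?_⟩
    · have := Nat.sSup_mem hne hbd
      rw [← h]
      exact this
    · by_contra hcon
      push Not at hcon
      have := le_csSup hbd (show j + 1 ∈ {k | X.τ k ω ≤ t} from hcon)
      unfold RBP.idx at h
      omega
  · rintro ⟨h1, h2⟩
    unfold RBP.idx
    have hub : ∀ k ∈ ({k | X.τ k ω ≤ t} : Set ℕ), k ≤ j := by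
      intro k hk
      by_contra hcon
      push Not at hcon
      have h3 : X.τ (j + 1) ω ≤ X.τ k ω := hmono.monotone (show j + 1 ≤ k from hcon)
      have hk' : X.τ k ω ≤ t := hk
      linarith
    exact le_antisymm (csSup_le ⟨j, h1⟩ hub) (le_csSup ⟨j, hub⟩ h1)

theorem measurable_idx (X : RBP P μ β γ) (t : ℝ) : Measurable (X.idx t) := by
  have hτ : ∀ k, Measurable (X.τ k) := fun k => (X.meas_τ k).mono (X.ℱ.le k) le_rfl
  have h1 : ∀ j, 1 ≤ j → MeasurableSet (X.idx t ⁻¹' {j}) := by
    intro j hj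
    have : X.idx t ⁻¹' {j} = {ω | X.τ j ω ≤ t} ∩ {ω | t < X.τ (j + 1) ω} := by
      ext ω
      simp only [mem_preimage, mem_singleton_iff, mem_inter_iff, mem_ofPred_eq]
      exact idx_eq_iff X t ω hj
    rw [this]
    exact (measurableSet_le (hτ j) measurable_const).inter
      (measurableSet_lt measurable_const (hτ (j + 1)))
  refine measurable_to_countable' fun j => ?_
  rcases Nat.eq_zero_or_pos j with rfl | hj
  · have : X.idx t ⁻¹' {0} = (⋃ j : ℕ, X.idx t ⁻¹' {j + 1})ᶜ := by
      ext ω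
      simp only [mem_preimage, mem_singleton_iff, mem_compl_iff, mem_iUnion, not_exists]
      constructor
      · intro h i
        omega
      · intro h
        by_contra hcon
        exact h (X.idx t ω - 1) (by omega)
    rw [this]
    exact (MeasurableSet.iUnion fun j => h1 (j + 1) (by omega)).compl
  · exact h1 j hj

theorem measurable_N (X : RBP P μ β γ) (t : ℝ) : Measurable (X.N t) := by
  have h : Measurable (fun p : ℕ × Ω => X.S p.1 p.2) :=
    measurable_from_prod_countable_right fun k => X.measurable_S k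
  exact h.comp ((measurable_idx X t).prodMk measurable_id)

theorem one_le_N (X : RBP P μ β γ) (t : ℝ) (ω : Ω) : 1 ≤ X.N t ω := by
  have := X.S_ge (X.idx t ω) ω
  unfold RBP.N
  omega

theorem one_le_N' (X : RBP P μ β γ) (t : ℝ) (ω : Ω) : (1 : ℝ) ≤ X.N t ω := by
  exact_mod_cast one_le_N X t ω

theorem pop_le (X : RBP P μ β γ) {ω : Ω} (hτ : Tendsto (fun k => X.τ k ω) atTop atTop) (t : ℝ) :
    X.pop t ω ≤ (X.N t ω : ℝ≥0∞) := by
  unfold RBP.pop
  refine iSup_le fun k => ?_
  by_cases hk : X.τ k ω ≤ t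
  · rw [if_pos hk]
    have hbd : BddAbove ({k | X.τ k ω ≤ t} : Set ℕ) := by
      obtain ⟨K, hK⟩ := (hτ.eventually_gt_atTop t).exists_forall_of_atTop
      refine ⟨K, fun j hj => ?_⟩
      by_contra hcon
      push Not at hcon
      exact absurd (hK j hcon.le) (not_lt.2 hj)
    have h1 : k ≤ X.idx t ω := le_csSup hbd hk
    have h2 : X.S k ω ≤ X.N t ω := S_mono X ω h1
    exact_mod_cast h2
  · rw [if_neg hk]
    exact zero_le

/-- the logarithmic increment, normalized -/
noncomputable def yy (X : RBP P μ β γ) (κ t : ℝ) (ω : Ω) : ℝ :=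
  Real.log (X.N ((1 + 1) * t) ω) - Real.log (X.N t ω) - γ * t + κ * Real.log 2

theorem measurable_yy (X : RBP P μ β γ) (κ t : ℝ) : Measurable (yy X κ t) := by
  have h1 : ∀ s, Measurable (fun ω => Real.log (X.N s ω)) := fun s =>
    Real.measurable_log.comp (measurable_from_nat.comp (measurable_N X s))
  unfold yy
  exact (((h1 _).sub (h1 _)).sub_const _).add_const _

theorem claimA (X : RBP P μ β γ) (hR : X.RatioStmt) {g : ℝ → ℝ} (hg : X.Prof g) {κ : ℝ}
    (hpos : ∀ x, 0 < x → 0 < g x)
    (hq : ∀ r x, 0 < r → 0 < x → qq γ g r x = (1 + r) ^ (-κ) * g ((1 + r) * x))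
    {δ : ℝ} (hδ : 0 < δ) :
    Tendsto (fun t : ℝ => P {ω | δ < yy X κ t ω}) atTop (𝓝 0) := by
  have hg1 := hpos 1 one_pos
  set c : ℝ := (1 + 1 : ℝ) ^ (-κ) with hc
  have hc0 : 0 < c := Real.rpow_pos_of_pos (by norm_num) _
  have hqc : qq γ g 1 (1 / 2) = c * g 1 := by
    rw [hq 1 (1 / 2) one_pos (by norm_num), show ((1 : ℝ) + 1) * (1 / 2) = 1 by norm_num]
  have he : 0 < Real.exp δ - 1 := by
    have := Real.add_one_lt_exp hδ.ne'
    linarith
  set ε : ℝ := min (g 1 / 2) (c * g 1 * (Real.exp δ - 1) / (1 + c * Real.exp δ)) with hε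
  have hden : 0 < 1 + c * Real.exp δ := by positivity
  have hε0 : 0 < ε := lt_min (by linarith) (by positivity)
  have hε1 : ε ≤ g 1 / 2 := min_le_left _ _
  have hε2 : ε * (1 + c * Real.exp δ) ≤ c * g 1 * (Real.exp δ - 1) := by
    rw [← le_div_iff₀ hden]
    exact min_le_right _ _
  have hA := hR g hg 1 (1 / 2) ε one_pos (by norm_num) hε0
  have hB := (hg 1 one_pos ε hε0).comp
    (tendsto_id.const_mul_atTop (show (0 : ℝ) < 1 + 1 by norm_num))
  have hAB := hA.add hB
  rw [add_zero] at hAB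
  refine tendsto_of_tendsto_of_tendsto_of_le_of_le tendsto_const_nhds hAB (fun _ => zero_le)
    (fun t => ?_)
  refine le_trans (measure_mono ?_) (measure_union_le _ _)
  intro ω hω
  by_contra hcon
  simp only [mem_union, mem_ofPred_eq, id, not_or, not_lt] at hcon
  obtain ⟨h1, h2⟩ := hcon
  have hω' : δ < yy X κ t ω := hω
  rw [hqc] at h1
  have hxt : (1 : ℝ) - 1 / 2 / t = 1 - 1 / ((1 + 1) * t) := by
    rw [div_div]
    norm_num
  rw [hxt] at h1
  unfold RBP.Xi at h2
  set w : ℝ := (X.W (1 - 1 / ((1 + 1) * t)) ((1 + 1) * t) ω : ℝ) with hw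
  have ha := one_le_N' X ((1 + 1) * t) ω
  have hb := one_le_N' X t ω
  set a : ℝ := (X.N ((1 + 1) * t) ω : ℝ) with haa
  set b : ℝ := (X.N t ω : ℝ) with hbb
  have hE : 0 < Real.exp (γ * (1 * t)) := Real.exp_pos _
  have ha0 : 0 < a := by linarith
  have hb0 : 0 < b := by linarith
  have h3 : w ≤ (c * g 1 + ε) * (Real.exp (γ * (1 * t)) * b) := by
    have := (abs_le.1 h1).2
    rw [← div_le_iff₀ (by positivity)]
    linarith
  have h4 : (g 1 - ε) * a ≤ w := by
    have := (abs_le.1 h2).1
    rw [← le_div_iff₀ ha0]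
    linarith
  have hge : 0 < g 1 - ε := by linarith
  have h5 : c * g 1 + ε ≤ c * Real.exp δ * (g 1 - ε) := by nlinarith
  have h6 : (g 1 - ε) * a ≤ (g 1 - ε) * (c * Real.exp δ * (Real.exp (γ * (1 * t)) * b)) := by
    calc (g 1 - ε) * a ≤ (c * g 1 + ε) * (Real.exp (γ * (1 * t)) * b) := h4.trans h3
      _ ≤ (c * Real.exp δ * (g 1 - ε)) * (Real.exp (γ * (1 * t)) * b) :=
          mul_le_mul_of_nonneg_right h5 (by positivity)
      _ = _ := by ring
  have h7 : a ≤ c * Real.exp δ * (Real.exp (γ * (1 * t)) * b) := le_of_mul_le_mul_left h6 hge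
  have h8 := Real.log_le_log ha0 h7
  rw [Real.log_mul (by positivity) (by positivity), Real.log_mul (by positivity) (by positivity),
    Real.log_mul (by positivity) (by positivity), Real.log_exp, Real.log_exp, hc,
    Real.log_rpow (by norm_num)] at h8
  unfold yy at hω'
  rw [← haa, ← hbb] at hω'
  norm_num at h8
  linarith

theorem exp_yy (X : RBP P μ β γ) (κ t : ℝ) (ω : Ω) :
    ENNReal.ofReal (Real.exp (yy X κ t ω)) =
      ENNReal.ofReal ((2 : ℝ) ^ κ * Real.exp (-(γ * t))) *
        ((X.N (t + t) ω : ℝ≥0∞) / (X.N t ω : ℝ≥0∞)) := by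
  have ha := one_le_N' X ((1 + 1) * t) ω
  have hb := one_le_N' X t ω
  have h2 : (X.N (t + t) ω : ℝ≥0∞) / (X.N t ω : ℝ≥0∞)
      = ENNReal.ofReal ((X.N ((1 + 1) * t) ω : ℝ) / (X.N t ω : ℝ)) := by
    rw [ENNReal.ofReal_div_of_pos (by linarith), ENNReal.ofReal_natCast, ENNReal.ofReal_natCast,
      show (1 + 1) * t = t + t by ring]
  rw [h2, ← ENNReal.ofReal_mul (by positivity)]
  congr 1
  unfold yy
  rw [Real.exp_add, Real.exp_sub, Real.exp_sub, Real.exp_log (by linarith),
    Real.exp_log (by linarith), Real.rpow_def_of_pos (by norm_num), Real.exp_neg,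
    mul_comm (Real.log 2) κ]
  field_simp

theorem claimB (X : RBP P μ β γ) {C : ℝ} (hC : 0 < C)
    (hS : ∀ t T : ℝ, 0 ≤ t → 0 ≤ T →
      ∫⁻ ω, (X.N (t + T) ω : ℝ≥0∞) / (X.N t ω : ℝ≥0∞) ∂P ≤ ENNReal.ofReal (C * Real.exp (γ * T)))
    (κ : ℝ) {t : ℝ} (ht : 0 ≤ t) :
    ∫⁻ ω, ENNReal.ofReal (Real.exp (yy X κ t ω)) ∂P ≤ ENNReal.ofReal ((2 : ℝ) ^ κ * C) := by
  simp_rw [exp_yy]
  rw [lintegral_const_mul' _ _ ENNReal.ofReal_ne_top]
  refine (mul_le_mul_right (hS t t ht ht) _).trans ?_
  rw [← ENNReal.ofReal_mul (by positivity)]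
  refine ENNReal.ofReal_le_ofReal (le_of_eq ?_)
  rw [Real.exp_neg]
  field_simp

theorem pointwise {y A δ : ℝ} (hA : 0 < A) (hδ : 0 < δ) :
    ENNReal.ofReal y ≤ ENNReal.ofReal δ + (if δ < y then ENNReal.ofReal A else 0) +
      ENNReal.ofReal (2 / A) * ENNReal.ofReal (Real.exp y) := by
  by_cases h : δ < y
  · rw [if_pos h]
    rw [← ENNReal.ofReal_mul (by positivity), ← ENNReal.ofReal_add hδ.le hA.le,
      ← ENNReal.ofReal_add (by positivity) (by positivity)]
    refine ENNReal.ofReal_le_ofReal ?_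
    have hy : 0 < y := hδ.trans h
    rcases le_or_gt y A with h' | h'
    · have : 0 ≤ 2 / A * Real.exp y := by positivity
      linarith
    · have h1 := Real.quadratic_le_exp_of_nonneg hy.le
      have h2 : y ≤ 2 / A * Real.exp y := by
        rw [div_mul_eq_mul_div, le_div_iff₀ hA]
        nlinarith
      linarith
  · rw [if_neg h]
    push Not at h
    exact (ENNReal.ofReal_le_ofReal h).trans (by rw [add_zero]; exact le_self_add)

end ShapePf

open ShapePf

/-- WV-9 -/
theorem shape {Ω : Type*} [mΩ : MeasurableSpace Ω] {P : Measure Ω} {μ : Measure ℝ} {β γ : ℝ}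
    [IsProbabilityMeasure P] [IsProbabilityMeasure μ] (X : RBP P μ β γ) {α : ℝ}
    (hC : Cond μ β γ α) (hNE : X.NonExpStmt) (hR : X.RatioStmt) (hS : X.SupStmt)
    (hL : X.LowerStmt α) : X.ShapeStmt α := by
  intro g hg κ hκ hpos hq
  by_contra hcon
  push Not at hcon
  obtain ⟨C, hC0, hS⟩ := hS
  have hlog2 : 0 < Real.log 2 := Real.log_pos (by norm_num)
  -- the sequence
  have htk : ∀ k : ℕ, (0 : ℝ) ≤ 2 ^ k := fun k => by positivity
  have htt : Tendsto (fun k : ℕ => (2 : ℝ) ^ k) atTop atTop :=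
    tendsto_pow_atTop_atTop_of_one_lt (by norm_num)
  set e : ℕ → ℝ≥0∞ := fun k => ∫⁻ ω, ENNReal.ofReal (yy X κ (2 ^ k) ω) ∂P with he
  have hbound : ∀ (A δ : ℝ), 0 < A → 0 < δ → ∀ k, e k ≤ ENNReal.ofReal δ +
      ENNReal.ofReal A * P {ω | δ < yy X κ (2 ^ k) ω} +
        ENNReal.ofReal (2 / A * ((2 : ℝ) ^ κ * C)) := by
    intro A δ hA hδ k
    have hm : MeasurableSet {ω | δ < yy X κ (2 ^ k) ω} :=
      measurableSet_lt measurable_const (measurable_yy X κ _)
    calc e k ≤ ∫⁻ ω, (ENNReal.ofReal δ + (if δ < yy X κ (2 ^ k) ω then ENNReal.ofReal A else 0) +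
          ENNReal.ofReal (2 / A) * ENNReal.ofReal (Real.exp (yy X κ (2 ^ k) ω))) ∂P :=
            lintegral_mono fun ω => pointwise hA hδ
      _ = ENNReal.ofReal δ + ENNReal.ofReal A * P {ω | δ < yy X κ (2 ^ k) ω} +
          ENNReal.ofReal (2 / A) * ∫⁻ ω, ENNReal.ofReal (Real.exp (yy X κ (2 ^ k) ω)) ∂P := by
            have hm2 : Measurable (fun ω => if δ < yy X κ (2 ^ k) ω then ENNReal.ofReal A else 0) :=
              Measurable.ite hm measurable_const measurable_const
            have hm3 : Measurable (fun ω => ENNReal.ofReal δ +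
                (if δ < yy X κ (2 ^ k) ω then ENNReal.ofReal A else 0)) := measurable_const.add hm2
            rw [lintegral_add_left hm3, lintegral_add_left measurable_const,
              lintegral_const_mul' _ _ ENNReal.ofReal_ne_top]
            congr 2
            · simp
            · have : (fun ω => if δ < yy X κ (2 ^ k) ω then ENNReal.ofReal A else (0 : ℝ≥0∞))
                  = indicator {ω | δ < yy X κ (2 ^ k) ω} (fun _ => ENNReal.ofReal A) := by
                funext ω
                simp [indicator]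
              rw [this, lintegral_indicator_const hm]
      _ ≤ _ := by
            rw [ENNReal.ofReal_mul (p := 2 / A) (by positivity)]
            gcongr
            exact claimB X hC0 hS κ (htk k)
  have hfin : ∀ k, e k ≠ ∞ := by
    intro k
    refine ne_top_of_le_ne_top ?_ (hbound 1 1 one_pos one_pos k)
    have : P {ω | 1 < yy X κ (2 ^ k) ω} ≠ ∞ := measure_ne_top _ _
    finiteness
  have he0 : Tendsto e atTop (𝓝 0) := by
    rw [ENNReal.tendsto_nhds_zero]
    intro η hη
    rcases eq_or_ne η ∞ with rfl | hη'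
    · exact Eventually.of_forall fun k => le_top
    have hη0 : 0 < η.toReal := ENNReal.toReal_pos hη.ne' hη'
    set d : ℝ := η.toReal / 3 with hd
    have hd0 : 0 < d := by positivity
    set B : ℝ := 2 * ((2 : ℝ) ^ κ * C) / d with hB
    have hB0 : 0 < B := by positivity
    have hA1 : 2 / B * ((2 : ℝ) ^ κ * C) ≤ d := by
      rw [hB]
      apply le_of_eq
      field_simp
    have h1 := (claimA X hR hg hpos hq hd0).comp htt
    have h2 : Tendsto (fun k : ℕ => ENNReal.ofReal B * P {ω | d < yy X κ (2 ^ k) ω}) atTop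
        (𝓝 0) := by
      have := ENNReal.Tendsto.const_mul (a := ENNReal.ofReal B) h1 (Or.inr ENNReal.ofReal_ne_top)
      rw [mul_zero] at this
      exact this
    rw [ENNReal.tendsto_nhds_zero] at h2
    filter_upwards [h2 (ENNReal.ofReal d) (by positivity)] with k hk
    calc e k ≤ ENNReal.ofReal d + ENNReal.ofReal B * P {ω | d < yy X κ (2 ^ k) ω} +
        ENNReal.ofReal (2 / B * ((2 : ℝ) ^ κ * C)) := hbound B d hB0 hd0 k
      _ ≤ ENNReal.ofReal d + ENNReal.ofReal d + ENNReal.ofReal d := by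
          gcongr
      _ = η := by
          rw [← ENNReal.ofReal_add hd0.le hd0.le, ← ENNReal.ofReal_add (by positivity) hd0.le,
            hd, show η.toReal / 3 + η.toReal / 3 + η.toReal / 3 = η.toReal by ring,
            ENNReal.ofReal_toReal hη']
  -- constants
  set ε : ℝ := (κ - α) / 4 with hε
  have hε0 : 0 < ε := by rw [hε]; linarith
  set δ : ℝ := ε * Real.log 2 with hδ
  have hδ0 : 0 < δ := by positivity
  -- first event
  have hE1 : Tendsto (fun K : ℕ => P {ω | X.pop (2 ^ K) ω <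
      ENNReal.ofReal (Real.exp (γ * 2 ^ K) * (2 ^ K) ^ (-α - ε))}) atTop (𝓝 0) :=
    (hL ε hε0).comp htt
  -- second event
  have hE2 : Tendsto (fun K : ℕ => P {ω | δ * K < Real.log (X.N 1 ω)}) atTop (𝓝 0) := by
    have hm : Measurable (fun ω => Real.log (X.N 1 ω)) :=
      Real.measurable_log.comp (measurable_from_nat.comp (measurable_N X 1))
    have h1 := tendsto_measure_iInter_atTop (μ := P)
      (s := fun K : ℕ => {ω | δ * K < Real.log (X.N 1 ω)})
      (fun K => (measurableSet_lt measurable_const hm).nullMeasurableSet) (by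
        intro K K' hKK' ω hω
        have hω' : δ * K' < Real.log (X.N 1 ω) := hω
        have : (K : ℝ) ≤ K' := by exact_mod_cast hKK'
        show δ * K < Real.log (X.N 1 ω)
        nlinarith) ⟨0, measure_ne_top _ _⟩
    have h2 : (⋂ K : ℕ, {ω | δ * K < Real.log (X.N 1 ω)}) = ∅ := by
      rw [Set.eq_empty_iff_forall_notMem]
      intro ω hω
      rw [mem_iInter] at hω
      obtain ⟨K, hK⟩ := exists_nat_gt (Real.log (X.N 1 ω) / δ)
      have h3 : δ * K < Real.log (X.N 1 ω) := hω K
      rw [div_lt_iff₀ hδ0] at hK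
      linarith
    rw [h2, measure_empty] at h1
    exact h1
  -- third event
  have hE3 : Tendsto (fun K : ℕ => P {ω | ENNReal.ofReal (δ * K) ≤
      ∑ k ∈ Finset.range K, ENNReal.ofReal (yy X κ (2 ^ k) ω)}) atTop (𝓝 0) := by
    have hces : Tendsto (fun K : ℕ => (K : ℝ)⁻¹ * ∑ k ∈ Finset.range K, (e k).toReal) atTop
        (𝓝 0) := by
      have h1 : Tendsto (fun k => (e k).toReal) atTop (𝓝 0) := by
        have := (ENNReal.tendsto_toReal ENNReal.zero_ne_top).comp he0
        simpa [Function.comp_def] using this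
      exact h1.cesaro
    have hlim : Tendsto (fun K : ℕ => ENNReal.ofReal (δ⁻¹ * ((K : ℝ)⁻¹ *
        ∑ k ∈ Finset.range K, (e k).toReal))) atTop (𝓝 0) := by
      have h1 := (ENNReal.continuous_ofReal.tendsto _).comp (hces.const_mul δ⁻¹)
      simpa [Function.comp_def] using h1
    refine tendsto_of_tendsto_of_tendsto_of_le_of_le' tendsto_const_nhds hlim
      (Eventually.of_forall fun _ => zero_le) ?_
    filter_upwards [eventually_gt_atTop 0] with K hK
    have hK0 : (0 : ℝ) < K := by exact_mod_cast hK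
    have hm : ∀ k, Measurable (fun ω => ENNReal.ofReal (yy X κ (2 ^ k) ω)) := fun k =>
      ENNReal.measurable_ofReal.comp (measurable_yy X κ _)
    have hM := meas_ge_le_lintegral_div (μ := P)
      (f := fun ω => ∑ k ∈ Finset.range K, ENNReal.ofReal (yy X κ (2 ^ k) ω))
      (Finset.measurable_sum _ fun k _ => hm k).aemeasurable
      (ε := ENNReal.ofReal (δ * K)) (by
        rw [Ne, ENNReal.ofReal_eq_zero]
        push Not
        positivity) ENNReal.ofReal_ne_top
    refine hM.trans (le_of_eq ?_)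
    rw [lintegral_finsetSum _ fun k _ => hm k]
    have hsum : ∑ k ∈ Finset.range K, ∫⁻ ω, ENNReal.ofReal (yy X κ (2 ^ k) ω) ∂P
        = ENNReal.ofReal (∑ k ∈ Finset.range K, (e k).toReal) := by
      rw [ENNReal.ofReal_sum_of_nonneg fun k _ => ENNReal.toReal_nonneg]
      refine Finset.sum_congr rfl fun k _ => ?_
      rw [ENNReal.ofReal_toReal (hfin k)]
    rw [hsum, ← ENNReal.ofReal_div_of_pos (by positivity)]
    congr 1
    field_simp
  -- conclusion
  have hall := (hE1.add hE2).add hE3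
  simp only [add_zero] at hall
  have h1le : ∀ᶠ K : ℕ in atTop, (1 : ℝ≥0∞) ≤ P {ω | X.pop (2 ^ K) ω <
      ENNReal.ofReal (Real.exp (γ * 2 ^ K) * (2 ^ K) ^ (-α - ε))} +
        P {ω | δ * K < Real.log (X.N 1 ω)} + P {ω | ENNReal.ofReal (δ * K) ≤
      ∑ k ∈ Finset.range K, ENNReal.ofReal (yy X κ (2 ^ k) ω)} := by
    filter_upwards [eventually_gt_atTop 0] with K hK
    have hK0 : (0 : ℝ) < K := by exact_mod_cast hK
    have hae : ∀ᵐ ω ∂P, ω ∈ ({ω | X.pop (2 ^ K) ω <
      ENNReal.ofReal (Real.exp (γ * 2 ^ K) * (2 ^ K) ^ (-α - ε))} ∪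
        {ω | δ * K < Real.log (X.N 1 ω)} ∪ {ω | ENNReal.ofReal (δ * K) ≤
      ∑ k ∈ Finset.range K, ENNReal.ofReal (yy X κ (2 ^ k) ω)}) := by
      filter_upwards [hNE] with ω hω
      by_contra hno
      simp only [mem_union, mem_ofPred_eq, not_or, not_lt, not_le] at hno
      obtain ⟨⟨h1, h2⟩, h3⟩ := hno
      -- lower bound for N
      have h4 : Real.exp (γ * 2 ^ K) * ((2 : ℝ) ^ K) ^ (-α - ε) ≤ (X.N (2 ^ K) ω : ℝ) := by
        have h5 := h1.trans (pop_le X hω _)
        rw [← ENNReal.ofReal_natCast] at h5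
        exact (ENNReal.ofReal_le_ofReal_iff (Nat.cast_nonneg _)).1 h5
      have h6 : γ * 2 ^ K + (-α - ε) * (K * Real.log 2) ≤ Real.log (X.N (2 ^ K) ω) := by
        have h7 := Real.log_le_log (by positivity) h4
        rw [Real.log_mul (by positivity) (by positivity), Real.log_exp,
          Real.log_rpow (by positivity), Real.log_pow] at h7
        exact h7
      -- telescoping
      have htel : ∀ n : ℕ, Real.log (X.N (2 ^ n) ω) = Real.log (X.N 1 ω) +
          ∑ k ∈ Finset.range n, yy X κ (2 ^ k) ω + γ * 2 ^ n - γ - κ * (n * Real.log 2) := by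
        intro n
        induction n with
        | zero => simp
        | succ n ih =>
          rw [Finset.sum_range_succ]
          have : yy X κ (2 ^ n) ω = Real.log (X.N (2 ^ (n + 1)) ω) - Real.log (X.N (2 ^ n) ω)
              - γ * 2 ^ n + κ * Real.log 2 := by
            unfold yy
            rw [show ((1 : ℝ) + 1) * 2 ^ n = 2 ^ (n + 1) by ring]
          rw [this, ih]
          push_cast
          ring
      have h8 := htel K
      have h9 : ∑ k ∈ Finset.range K, yy X κ (2 ^ k) ω ≤ δ * K := by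
        have h10 : ENNReal.ofReal (∑ k ∈ Finset.range K, max (yy X κ (2 ^ k) ω) 0)
            ≤ ENNReal.ofReal (δ * K) := by
          rw [ENNReal.ofReal_sum_of_nonneg fun k _ => le_max_right _ _]
          refine le_trans (le_of_eq ?_) h3.le
          refine Finset.sum_congr rfl fun k _ => ?_
          rw [ENNReal.ofReal_max, ENNReal.ofReal_zero]
          exact max_eq_left zero_le
        rw [ENNReal.ofReal_le_ofReal_iff (by positivity)] at h10
        exact (Finset.sum_le_sum fun k _ => le_max_left _ _).trans h10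
      have hγ := hC.γ_pos
      have h11 : (-α - ε) * (K * Real.log 2) ≤ δ * K + δ * K - κ * (K * Real.log 2) := by
        linarith
      have h12 : 0 < K * Real.log 2 := by positivity
      have h13 : (κ - α - ε - 2 * ε) * (K * Real.log 2) ≤ 0 := by
        rw [hδ] at h11
        nlinarith
      have h14 : 0 < κ - α - ε - 2 * ε := by rw [hε]; linarith
      nlinarith [mul_pos h14 h12]
    have huniv : (1 : ℝ≥0∞) ≤ P ({ω | X.pop (2 ^ K) ω <
      ENNReal.ofReal (Real.exp (γ * 2 ^ K) * (2 ^ K) ^ (-α - ε))} ∪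
        {ω | δ * K < Real.log (X.N 1 ω)} ∪ {ω | ENNReal.ofReal (δ * K) ≤
      ∑ k ∈ Finset.range K, ENNReal.ofReal (yy X κ (2 ^ k) ω)}) := by
      rw [← measure_univ (μ := P)]
      exact measure_mono_ae (by filter_upwards [hae] with ω hω _ using hω)
    refine huniv.trans ((measure_union_le _ _).trans ?_)
    gcongr
    exact measure_union_le _ _
  have := ge_of_tendsto hall h1le
  simp at this

end Pool.Agent.R254.RB
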