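import Pool.Agent.R254.RB.Wave

open MeasureTheory Set Filter Topology

namespace Pool.Agent.R254.RB

namespace Sol

noncomputable def H (l : ℝ) (G : ℝ → ℝ) (x : ℝ) : ℝ :=
  Real.exp (l * x) * G x - l * ∫ y in (0 : ℝ)..x, Real.exp (l * y) * G y

lemma ii (G : ℝ → ℝ) (hG : Monotone G) (l a b : ℝ) :
    IntervalIntegrable (fun y => Real.exp (l * y) * G y) volume a b := by
  have h1 : IntervalIntegrable G volume a b := hG.intervalIntegrable
  exact h1.continuousOn_mul (f := G) (g := fun y => Real.exp (l * y)) (by fun_prop)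

lemma H_zero (G : ℝ → ℝ) (x : ℝ) : H 0 G x = G x := by
  simp [H]

lemma H_comp (G : ℝ → ℝ) (hG : Monotone G) (a b x : ℝ) : H a (H b G) x = H (a + b) G x := by
  set J : ℝ → ℝ := fun y => ∫ z in (0 : ℝ)..y, Real.exp (b * z) * G z with hJ
  have hJc : Continuous J := by
    rw [hJ]
    exact intervalIntegral.continuous_primitive (fun u v => ii G hG b u v) 0
  have hmeas : Measurable (fun y => Real.exp (b * y) * G y) := by
    have := hG.measurable
    fun_prop
  have hJd : ∀ y, ContinuousAt G y → HasDerivAt J (Real.exp (b * y) * G y) y := by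
    intro y hy
    rw [hJ]
    apply intervalIntegral.integral_hasDerivAt_right (ii G hG b 0 y)
    · exact hmeas.stronglyMeasurable.stronglyMeasurableAtFilter
    · have : ContinuousAt (fun y => Real.exp (b * y)) y := by fun_prop
      exact this.mul hy
  have hi1 : IntervalIntegrable (fun y => Real.exp (a * y) * (Real.exp (b * y) * G y)) volume 0 x := by
    exact (ii G hG b 0 x).continuousOn_mul (g := fun y => Real.exp (a * y)) (by fun_prop)
  have hi2 : IntervalIntegrable (fun y => Real.exp (a * y) * J y) volume 0 x := by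
    apply Continuous.intervalIntegrable
    fun_prop
  have hpart : ∫ y in (0:ℝ)..x, (a * (Real.exp (a * y) * J y) +
      Real.exp (a * y) * (Real.exp (b * y) * G y)) = Real.exp (a * x) * J x := by
    have := MeasureTheory.integral_eq_of_hasDerivAt_off_countable
      (fun y => Real.exp (a * y) * J y)
      (fun y => a * (Real.exp (a * y) * J y) + Real.exp (a * y) * (Real.exp (b * y) * G y))
      (a := 0) (b := x) (s := {y | ¬ ContinuousAt G y}) hG.countable_not_continuousAt
      (by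
        apply Continuous.continuousOn
        fun_prop)
      (by
        intro y hy
        have hy2 : ContinuousAt G y := by
          by_contra hcon
          exact hy.2 hcon
        have h1 := hJd y hy2
        have h2 : HasDerivAt (fun y => Real.exp (a * y)) (Real.exp (a * y) * a) y := by
          have := ((hasDerivAt_id y).const_mul a).exp
          simpa using this
        have h3 := h2.mul h1
        exact h3.congr_deriv (by ring))
      ((hi2.const_mul a).add hi1)
    rw [this]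
    simp [hJ]
  rw [intervalIntegral.integral_add (hi2.const_mul a) hi1,
    intervalIntegral.integral_const_mul] at hpart
  have e1 : ∫ y in (0:ℝ)..x, Real.exp (a * y) * H b G y =
      (∫ y in (0:ℝ)..x, Real.exp (a * y) * (Real.exp (b * y) * G y)) -
        b * ∫ y in (0:ℝ)..x, Real.exp (a * y) * J y := by
    rw [← intervalIntegral.integral_const_mul, ← intervalIntegral.integral_sub hi1 (hi2.const_mul b)]
    apply intervalIntegral.integral_congr
    intro y _
    simp only [H, hJ]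
    ring
  have e2 : ∫ y in (0:ℝ)..x, Real.exp ((a + b) * y) * G y =
      ∫ y in (0:ℝ)..x, Real.exp (a * y) * (Real.exp (b * y) * G y) := by
    apply intervalIntegral.integral_congr
    intro y _
    simp only
    rw [add_mul, Real.exp_add]
    ring
  have e3 : H b G x = Real.exp (b * x) * G x - b * J x := rfl
  unfold H at *
  rw [e1, e2, e3, add_mul, Real.exp_add]
  linear_combination b * hpart

lemma H_smul (G : ℝ → ℝ) (l k c x : ℝ) (hc : c ≠ 0) :
    H (l * c) (fun y => k * G (c * y)) x = k * H l G (c * x) := by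
  unfold H
  have e : ∫ y in (0:ℝ)..x, Real.exp (l * c * y) * (k * G (c * y)) =
      k * (c⁻¹ * ∫ y in (0:ℝ)..(c * x), Real.exp (l * y) * G y) := by
    have h := intervalIntegral.integral_comp_mul_left (a := 0) (b := x)
      (fun y => Real.exp (l * y) * G y) hc
    simp only [mul_zero, smul_eq_mul] at h
    rw [← h, ← intervalIntegral.integral_const_mul]
    apply intervalIntegral.integral_congr
    intro y _
    simp only
    rw [mul_assoc l c y]
    ring
  rw [e, mul_assoc l c x]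
  field_simp

lemma H_congr (G G' : ℝ → ℝ) (l x : ℝ) (hx : 0 < x) (h : ∀ y, 0 < y → G y = G' y) :
    H l G x = H l G' x := by
  unfold H
  rw [h x hx]
  congr 2
  apply intervalIntegral.integral_congr_ae
  apply Eventually.of_forall
  intro y hy
  rw [uIoc_of_le hx.le] at hy
  rw [h y hy.1]


lemma cauchy (F : ℝ → ℝ) (hadd : ∀ u v, F (u + v) = F u + F v) (hm : Monotone F) (u : ℝ) :
    F u = u * F 1 := by
  have hn : ∀ (n : ℕ) (v : ℝ), F (n * v) = n * F v := by
    intro n v
    have h := map_nsmul (AddMonoidHom.mk' F hadd) n v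
    simpa using h
  have hz : ∀ (m : ℤ), F m = m * F 1 := by
    intro m
    have h := map_zsmul (AddMonoidHom.mk' F hadd) m (1 : ℝ)
    simpa using h
  have h0 : F 0 = 0 := by
    have := hadd 0 0
    simp at this
    exact this
  have h1 : 0 ≤ F 1 := by
    have := hm (show (0 : ℝ) ≤ 1 by norm_num)
    rwa [h0] at this
  have key : ∀ n : ℕ, (n : ℝ) * |F u - u * F 1| ≤ F 1 := by
    intro n
    have a1 : ((⌊(n : ℝ) * u⌋ : ℤ) : ℝ) ≤ n * u := Int.floor_le _
    have a2 : (n : ℝ) * u < (⌊(n : ℝ) * u⌋ : ℤ) + 1 := Int.lt_floor_add_one _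
    have b1 := hm a1
    have b2 := hm a2.le
    rw [hz, hn] at b1
    have c2 : F (((⌊(n : ℝ) * u⌋ : ℤ) : ℝ) + 1) = ((⌊(n : ℝ) * u⌋ : ℤ) : ℝ) * F 1 + F 1 := by
      rw [hadd, hz]
    rw [c2, hn] at b2
    have d1 : ((⌊(n : ℝ) * u⌋ : ℤ) : ℝ) * F 1 ≤ n * u * F 1 := mul_le_mul_of_nonneg_right a1 h1
    have d2 : (n : ℝ) * u * F 1 ≤ (((⌊(n : ℝ) * u⌋ : ℤ) : ℝ) + 1) * F 1 :=
      mul_le_mul_of_nonneg_right a2.le h1
    have hnn : (0 : ℝ) ≤ n := Nat.cast_nonneg n
    rw [← abs_of_nonneg hnn, ← abs_mul, abs_le]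
    constructor <;> nlinarith
  by_contra hne
  have hpos : 0 < |F u - u * F 1| := abs_pos.mpr (sub_ne_zero.mpr hne)
  obtain ⟨n, hn2⟩ := exists_nat_gt (F 1 / |F u - u * F 1|)
  rw [div_lt_iff₀ hpos] at hn2
  exact absurd (key n) (not_le.mpr hn2)

lemma int_exp (γ a b : ℝ) : γ * ∫ y in a..b, Real.exp (γ * y) = Real.exp (γ * b) - Real.exp (γ * a) := by
  rw [← intervalIntegral.integral_const_mul]
  apply intervalIntegral.integral_eq_sub_of_hasDerivAt (f := fun y => Real.exp (γ * y))
  · intro y _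
    have := ((hasDerivAt_id y).const_mul γ).exp
    refine this.congr_deriv ?_
    simp [mul_comm]
  · apply Continuous.intervalIntegrable
    fun_prop

lemma bnd (G : ℝ → ℝ) (hG : Monotone G) (γ : ℝ) (hγ : 0 < γ) (a b : ℝ) (hab : a ≤ b) :
    γ * ∫ y in a..b, Real.exp (γ * y) * G y ≤ G b * (Real.exp (γ * b) - Real.exp (γ * a)) := by
  have h1 : ∫ y in a..b, Real.exp (γ * y) * G y ≤ ∫ y in a..b, Real.exp (γ * y) * G b := by
    apply intervalIntegral.integral_mono_on hab (ii G hG γ a b)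
    · apply Continuous.intervalIntegrable
      fun_prop
    · intro y hy
      exact mul_le_mul_of_nonneg_left (hG hy.2) (Real.exp_pos _).le
  calc γ * ∫ y in a..b, Real.exp (γ * y) * G y ≤ γ * ∫ y in a..b, Real.exp (γ * y) * G b :=
        mul_le_mul_of_nonneg_left h1 hγ.le
    _ = G b * (Real.exp (γ * b) - Real.exp (γ * a)) := by
        rw [intervalIntegral.integral_mul_const, ← int_exp γ a b]
        ring

lemma H_ge (G : ℝ → ℝ) (hG : Monotone G) (γ : ℝ) (hγ : 0 < γ) (x : ℝ) (hx : 0 ≤ x) :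
    G x ≤ H γ G x := by
  have := bnd G hG γ hγ 0 x hx
  simp only [mul_zero, Real.exp_zero] at this
  unfold H
  linarith

lemma H_mono (G : ℝ → ℝ) (hG : Monotone G) (γ : ℝ) (hγ : 0 < γ) (a b : ℝ) (hab : a ≤ b) :
    H γ G a ≤ H γ G b := by
  have h1 := bnd G hG γ hγ a b hab
  have h2 := intervalIntegral.integral_add_adjacent_intervals (ii G hG γ 0 a) (ii G hG γ a b)
  have h3 : 0 ≤ Real.exp (γ * a) * (G b - G a) :=
    mul_nonneg (Real.exp_pos _).le (sub_nonneg.mpr (hG hab))
  unfold H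
  rw [← h2]
  linarith


theorem main (γ : ℝ) (g g0 : ℝ → ℝ) (hγ : 0 < γ) (hg : ∀ x, 0 < x → g x = g0 x)
    (hG : Monotone g0) (hnn : ∀ x, 0 ≤ g0 x)
    (hfe : ∀ r x₁ x₂ : ℝ, 0 < r → 0 < x₁ → 0 < x₂ →
      H (-(γ * r)) g0 x₁ * g0 ((1 + r) * x₂) = H (-(γ * r)) g0 x₂ * g0 ((1 + r) * x₁))
    (x0 : ℝ) (hx0 : 0 < x0) (hgx0 : 0 < g0 x0) :
    ∃ C κ : ℝ, 0 < C ∧ 0 ≤ κ ∧
      (∀ x, 0 < x → g0 x = C * (Real.exp (-(γ * x)) * x ^ κ +
        γ * ∫ y in (0 : ℝ)..x, y ^ κ * Real.exp (-(γ * y)))) ∧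
      ∀ r x, 0 < r → 0 < x → H (-(γ * r)) g0 x = (1 + r) ^ (-κ) * g0 ((1 + r) * x) := by
  set h : ℝ → ℝ := H γ g0 with hh
  have hge : ∀ x, 0 ≤ x → g0 x ≤ h x := fun x hx => H_ge g0 hG γ hγ x hx
  have hmono : ∀ a b, a ≤ b → h a ≤ h b := fun a b hab => H_mono g0 hG γ hγ a b hab
  have hρ : ∀ r, 0 < r → ∃ ρ : ℝ, 0 < ρ ∧
      (∀ x, 0 < x → H (-(γ * r)) g0 x = ρ * g0 ((1 + r) * x)) ∧
      ∀ x, 0 < x → h x = ρ * h ((1 + r) * x) := by
    intro r hr
    have h1 : 0 < g0 ((1 + r) * x0) := by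
      refine lt_of_lt_of_le hgx0 (hG ?_)
      nlinarith [mul_pos hr hx0]
    have h2 : 0 < H (-(γ * r)) g0 x0 := by
      unfold H
      have hi : 0 ≤ ∫ y in (0:ℝ)..x0, Real.exp (-(γ * r) * y) * g0 y := by
        apply intervalIntegral.integral_nonneg hx0.le
        intro y _
        exact mul_nonneg (Real.exp_pos _).le (hnn y)
      have := mul_pos (Real.exp_pos (-(γ * r) * x0)) hgx0
      have := mul_nonneg (mul_pos hγ hr).le hi
      linarith
    have h3 : ∀ x, 0 < x → H (-(γ * r)) g0 x =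
        (H (-(γ * r)) g0 x0 / g0 ((1 + r) * x0)) * g0 ((1 + r) * x) := by
      intro x hx
      have := hfe r x x0 hr hx hx0
      field_simp
      linarith
    refine ⟨H (-(γ * r)) g0 x0 / g0 ((1 + r) * x0), div_pos h2 h1, h3, ?_⟩
    intro x hx
    have e1 : γ = γ * (1 + r) + -(γ * r) := by ring
    have e2 : h x = H (γ * (1 + r) + -(γ * r)) g0 x := by
      rw [hh]
      congr 1
    rw [e2, ← H_comp g0 hG, H_congr _ _ _ x hx h3, H_smul _ _ _ _ _ (by linarith)]
  have hpos : ∀ x, 0 < x → 0 < h x := by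
    intro x hx
    obtain ⟨ρ, hρ0, -, hρ2⟩ := hρ (x0 / x) (div_pos hx0 hx)
    rw [hρ2 x hx]
    apply mul_pos hρ0
    have e : (1 + x0 / x) * x = x + x0 := by field_simp
    rw [e]
    refine lt_of_lt_of_le hgx0 ((hG (by linarith : x0 ≤ x + x0)).trans (hge _ (by linarith)))
  have mult1 : ∀ c x, 1 < c → 0 < x → h (c * x) * h 1 = h x * h c := by
    intro c x hc hx
    obtain ⟨ρ, hρ0, -, hρ2⟩ := hρ (c - 1) (by linarith)
    have e : (1 + (c - 1)) = c := by ring
    rw [e] at hρ2
    have a1 := hρ2 x hx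
    have a2 := hρ2 1 one_pos
    rw [mul_one] at a2
    rw [a1, a2]
    ring
  have mult : ∀ c x, 0 < c → 0 < x → h (c * x) * h 1 = h x * h c := by
    intro c x hc hx
    rcases lt_trichotomy c 1 with h1 | h1 | h1
    · have hc1 : 1 < c⁻¹ := (one_lt_inv₀ hc).mpr h1
      have a1 := mult1 c⁻¹ (c * x) hc1 (mul_pos hc hx)
      have a2 := mult1 c⁻¹ c hc1 hc
      rw [inv_mul_cancel_left₀ hc.ne'] at a1
      rw [inv_mul_cancel₀ hc.ne'] at a2
      have hp : 0 < h c⁻¹ := hpos _ (inv_pos.mpr hc)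
      have : (h (c * x) * h 1 - h x * h c) * h c⁻¹ = 0 := by
        linear_combination (-(h 1)) * a1 + h x * a2
      rcases mul_eq_zero.mp this with h2 | h2
      · linarith
      · exact absurd h2 hp.ne'
    · rw [h1, one_mul]
    · exact mult1 c x h1 hx
  have h1pos : 0 < h 1 := hpos 1 one_pos
  set F : ℝ → ℝ := fun u => Real.log (h (Real.exp u)) - Real.log (h 1) with hF
  have hadd : ∀ u v, F (u + v) = F u + F v := by
    intro u v
    have a1 := mult (Real.exp u) (Real.exp v) (Real.exp_pos _) (Real.exp_pos _)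
    rw [← Real.exp_add] at a1
    have a2 := congrArg Real.log a1
    rw [Real.log_mul (hpos _ (Real.exp_pos _)).ne' h1pos.ne',
      Real.log_mul (hpos _ (Real.exp_pos _)).ne' (hpos _ (Real.exp_pos _)).ne'] at a2
    simp only [hF]
    linarith
  have hFm : Monotone F := by
    intro u v huv
    have := Real.log_le_log (hpos _ (Real.exp_pos u)) (hmono _ _ (Real.exp_le_exp.mpr huv))
    simp only [hF]
    linarith
  have hF0 : F 0 = 0 := by simp [hF]
  have hκ : 0 ≤ F 1 := by
    have := hFm (show (0 : ℝ) ≤ 1 by norm_num)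
    rwa [hF0] at this
  have hform : ∀ x, 0 < x → h x = h 1 * x ^ (F 1) := by
    intro x hx
    have a1 := cauchy F hadd hFm (Real.log x)
    have a2 : F (Real.log x) = Real.log (h x) - Real.log (h 1) := by
      simp only [hF]
      rw [Real.exp_log hx]
    rw [a2] at a1
    have a3 : Real.log (h x) = Real.log x * F 1 + Real.log (h 1) := by linarith
    rw [← Real.exp_log (hpos x hx), a3, Real.exp_add, Real.exp_log h1pos,
      Real.rpow_def_of_pos hx]
    ring
  refine ⟨h 1, F 1, h1pos, hκ, ?_, ?_⟩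
  · intro x hx
    have e1 : g0 x = H (-γ) h x := by
      rw [hh, H_comp g0 hG, neg_add_cancel, H_zero]
    rw [e1, H_congr h (fun y => h 1 * y ^ (F 1)) (-γ) x hx hform]
    unfold H
    have e2 : ∫ y in (0:ℝ)..x, Real.exp (-γ * y) * (h 1 * y ^ F 1) =
        h 1 * ∫ y in (0:ℝ)..x, y ^ F 1 * Real.exp (-(γ * y)) := by
      rw [← intervalIntegral.integral_const_mul]
      apply intervalIntegral.integral_congr
      intro y _
      simp only [neg_mul]
      ring
    rw [e2, neg_mul γ x]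
    ring
  · intro r x hr hx
    obtain ⟨ρ, hρ0, hρ1, hρ2⟩ := hρ r hr
    rw [hρ1 x hx]
    congr 1
    have a1 := hρ2 1 one_pos
    rw [mul_one, hform (1 + r) (by linarith)] at a1
    have hp : 0 < (1 + r) ^ (F 1) := Real.rpow_pos_of_pos (by linarith) _
    rw [Real.rpow_neg (by linarith), eq_comm]
    have a2 : 1 = ρ * (1 + r) ^ F 1 := by
      have : h 1 * 1 = h 1 * (ρ * (1 + r) ^ F 1) := by linear_combination a1
      exact mul_left_cancel₀ h1pos.ne' this
    exact inv_eq_of_mul_eq_one_left a2.symm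

end Sol

theorem solStmt : SolStmt := by
  intro γ g hγ hg hm hfe
  by_cases hz : ∀ x, 0 < x → g x = 0
  · exact Or.inl hz
  right
  push Not at hz
  obtain ⟨x0, hx0, hgx0⟩ := hz
  set g0 : ℝ → ℝ := fun x => if 0 < x then g x else 0 with hg0
  have hgg : ∀ x, 0 < x → g x = g0 x := by
    intro x hx
    simp [hg0, hx]
  have hG : Monotone g0 := by
    intro a b hab
    simp only [hg0]
    split_ifs with h1 h2 h2
    · exact hm h1 h2 hab
    · exact absurd (lt_of_lt_of_le h1 hab) h2
    · exact (hg b h2).1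
    · exact le_rfl
  have hnn : ∀ x, 0 ≤ g0 x := by
    intro x
    simp only [hg0]
    split_ifs with h1
    · exact (hg x h1).1
    · exact le_rfl
  have hqq : ∀ r x, 0 < x → qq γ g r x = Sol.H (-(γ * r)) g0 x := by
    intro r x hx
    rw [← Sol.H_congr g g0 _ x hx hgg]
    unfold qq Sol.H
    simp only [neg_mul]
    ring
  have hgx0' : 0 < g0 x0 := by
    rw [← hgg x0 hx0]
    exact lt_of_le_of_ne (hg x0 hx0).1 (Ne.symm hgx0)
  obtain ⟨C, κ, hC, hκ, h1, h2⟩ := Sol.main γ g g0 hγ hgg hG hnn (by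
    intro r x₁ x₂ hr hx₁ hx₂
    have := hfe r x₁ x₂ hr hx₁ hx₂
    rwa [hqq r x₁ hx₁, hqq r x₂ hx₂, hgg _ (by positivity), hgg _ (by positivity)] at this)
    x0 hx0 hgx0'
  refine ⟨C, κ, hC, hκ, ?_, ?_⟩
  · intro x hx
    rw [hgg x hx]
    exact h1 x hx
  · intro r x hr hx
    rw [hqq r x hx, hgg _ (by positivity)]
    exact h2 r x hr hx

end Pool.Agent.R254.RB
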