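import Pool.Agent.R254.RB.Wave
import Pool.Agent.R254.RB.Super

/-!
WV-8 (MP_385430_pr): uniform bound of the conditional mean growth.
-/

set_option autoImplicit false

open MeasureTheory ProbabilityTheory Filter Topology Set
open scoped ENNReal

namespace Pool.Agent.R254.RB

namespace SupX

theorem sum_pr_mul {β γ : ℝ} (A B C : ℝ) :
    ∑ j : Fin 3, pr β γ j * (A + (if j ≠ 1 then B else 0) + (if j ≠ 2 then C else 0)) =
      A + γ * B + β * C := by
  rw [Fin.sum_univ_three]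
  have e10 : (1 : Fin 3) ≠ 0 := by decide
  have e20 : (2 : Fin 3) ≠ 0 := by decide
  have e21 : (2 : Fin 3) ≠ 1 := by decide
  have e01 : (0 : Fin 3) ≠ 1 := by decide
  have e02 : (0 : Fin 3) ≠ 2 := by decide
  have e12 : (1 : Fin 3) ≠ 2 := by decide
  simp only [pr, e10, e20, e21, e01, e02, e12, if_true, if_false, ne_eq, not_true, not_false_iff]
  ring

theorem pr_nonneg {β γ : ℝ} (hβ1 : β ≤ 1) (hγ1 : γ ≤ 1) (hβγ : 1 ≤ β + γ) (j : Fin 3) :
    0 ≤ pr β γ j := by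
  unfold pr
  split_ifs <;> linarith

/-- mean of `w` -/
noncomputable def wbar (μ : Measure ℝ) (w : ℝ → ℝ → ℝ) (v : ℝ) : ℝ := ∫ y, w y v ∂μ

section core
variable {μ : Measure ℝ} {β γ : ℝ} {w w' : ℝ → ℝ → ℝ}

theorem ae_Ioc (hμ : μ (Ioo 0 1)ᶜ = 0) : ∀ᵐ y ∂μ, y ∈ Ioc (0 : ℝ) 1 := by
  have h : ∀ᵐ y ∂μ, y ∈ Ioo (0 : ℝ) 1 := by
    rw [ae_iff]
    exact hμ
  exact h.mono (fun y hy => ⟨hy.1, hy.2.le⟩)

theorem integrable_w [IsProbabilityMeasure μ] (hs : SuperSol μ β γ w w')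
    (hμ : μ (Ioo 0 1)ᶜ = 0) {v : ℝ} (hv : 0 ≤ v) : Integrable (fun y => w y v) μ := by
  obtain ⟨K, hK⟩ := hs.bdd v
  have hm : Measurable (fun y => w y v) := hs.meas.comp (measurable_id.prodMk measurable_const)
  refine Integrable.of_bound hm.aestronglyMeasurable K ?_
  refine (ae_Ioc hμ).mono (fun y hy => ?_)
  have h1 := hs.one_le y hy v hv
  rw [Real.norm_of_nonneg (by linarith)]
  exact hK y hy v ⟨hv, le_rfl⟩

theorem wbar_nonneg [IsProbabilityMeasure μ] (hs : SuperSol μ β γ w w')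
    (hμ : μ (Ioo 0 1)ᶜ = 0) {v : ℝ} (hv : 0 ≤ v) : 0 ≤ wbar μ w v := by
  apply integral_nonneg_of_ae
  refine (ae_Ioc hμ).mono (fun y hy => ?_)
  have h1 := hs.one_le y hy v hv
  simp only [Pi.zero_apply]
  linarith

theorem inner_lint [IsProbabilityMeasure μ] (hs : SuperSol μ β γ w w')
    (hμ : μ (Ioo 0 1)ᶜ = 0) {v : ℝ} (hv : 0 ≤ v) (A B : ℝ) (hA : 0 ≤ A) (hB : 0 ≤ B)
    (j : Fin 3) :
    ∫⁻ f, ENNReal.ofReal (A + (if j ≠ 1 then B else 0) + (if j ≠ 2 then w f v else 0)) ∂μ =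
      ENNReal.ofReal (A + (if j ≠ 1 then B else 0) + (if j ≠ 2 then wbar μ w v else 0)) := by
  have hAB : 0 ≤ A + (if j ≠ 1 then B else 0) := by
    split_ifs <;> linarith
  by_cases hj : j ≠ 2
  · simp only [if_pos hj]
    have hint := integrable_w hs hμ hv
    have hint2 : Integrable (fun f => (A + (if j ≠ 1 then B else 0)) + w f v) μ :=
      (integrable_const _).add hint
    rw [← ofReal_integral_eq_lintegral_ofReal hint2]
    · congr 1
      rw [integral_add (integrable_const _) hint, integral_const]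
      simp [wbar]
    · refine (ae_Ioc hμ).mono (fun y hy => ?_)
      have h1 := hs.one_le y hy v hv
      simp only [Pi.zero_apply]
      linarith
  · simp only [if_neg hj]
    rw [lintegral_const, measure_univ, mul_one]

/-- the one-step inequality for fixed data -/
theorem core [IsProbabilityMeasure μ] (hs : SuperSol μ β γ w w') (hμ : μ (Ioo 0 1)ᶜ = 0)
    (hβ : 0 ≤ β) (hβ1 : β ≤ 1) (hγ : 0 ≤ γ) (hγ1 : γ ≤ 1) (hβγ : 1 ≤ β + γ)
    (N : ℕ) (x : ℕ → ℝ) (z : ℕ → ℕ) (hx : ∀ n < N, x n ∈ Ioc (0 : ℝ) 1) (R : ℝ) (hR : 0 ≤ R)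
    (hRs : R = ∑ n ∈ Finset.range N, x n * z n) (u0 : ℝ) (hu0 : 0 ≤ u0) :
    ENNReal.ofReal (Real.exp (-R * u0)) *
      ENNReal.ofReal (∑ m ∈ Finset.range N, (z m : ℝ) * w (x m) 0) +
    ∫⁻ u in Ioo (0 : ℝ) u0, ∑ n ∈ Finset.range N, ∑ j : Fin 3, ENNReal.ofReal (pr β γ j) *
      (ENNReal.ofReal (x n * z n * Real.exp (-R * u)) *
        ∫⁻ f, ENNReal.ofReal ((∑ m ∈ Finset.range N, (z m : ℝ) *
          w (x m) (u0 - u)) + (if j ≠ 1 then w (x n) (u0 - u) else 0) +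
            (if j ≠ 2 then w f (u0 - u) else 0)) ∂μ)
      ≤ ENNReal.ofReal (∑ m ∈ Finset.range N, (z m : ℝ) * w (x m) u0) := by
  have hp := pr_nonneg hβ1 hγ1 hβγ
  have hW : ∀ v, 0 ≤ v → ∀ n < N, 1 ≤ w (x n) v := fun v hv n hn =>
    hs.one_le _ (hx n hn) v hv
  set Wf : ℝ → ℝ := fun v => ∑ m ∈ Finset.range N, (z m : ℝ) * w (x m) v with hWf
  set Wd : ℝ → ℝ := fun v => ∑ m ∈ Finset.range N, (z m : ℝ) * w' (x m) v with hWd
  have hWf0 : ∀ v, 0 ≤ v → 0 ≤ Wf v := fun v hv => Finset.sum_nonneg (fun m hm =>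
    mul_nonneg (Nat.cast_nonneg _) (by linarith [hW v hv m (Finset.mem_range.1 hm)]))
  have hder : ∀ v, 0 ≤ v → HasDerivAt Wf (Wd v) v := by
    intro v hv
    refine HasDerivAt.fun_sum (fun m hm => ?_)
    exact (hs.deriv (x m) (hx m (Finset.mem_range.1 hm)) v hv).const_mul _
  have hWdc : ContinuousOn Wd (Ici 0) := by
    refine continuousOn_finsetSum _ (fun m hm => ?_)
    exact continuousOn_const.mul (hs.cont' (x m) (hx m (Finset.mem_range.1 hm)))
  have hw'0 : ∀ v, 0 ≤ v → ∀ n < N, 0 ≤ w' (x n) v := by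
    intro v hv n hn
    have h1 := hs.super (x n) (hx n hn) v hv
    have h2 := hW v hv n hn
    have h3 : 0 ≤ ∫ y, w y v ∂μ := wbar_nonneg hs hμ hv
    have h4 : 0 ≤ x n * (γ * w (x n) v + β * ∫ y, w y v ∂μ) :=
      mul_nonneg (hx n hn).1.le (add_nonneg (mul_nonneg hγ (by linarith)) (mul_nonneg hβ h3))
    linarith
  have hWd0 : ∀ v, 0 ≤ v → 0 ≤ Wd v := fun v hv => Finset.sum_nonneg (fun m hm =>
    mul_nonneg (Nat.cast_nonneg _) (hw'0 v hv m (Finset.mem_range.1 hm)))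
  have hsumA : ∀ u : ℝ, ∑ n ∈ Finset.range N, x n * z n * Real.exp (-R * u) =
      R * Real.exp (-R * u) := by
    intro u
    rw [← Finset.sum_mul, ← hRs]
  have hAn : ∀ u : ℝ, ∀ n ∈ Finset.range N, 0 ≤ x n * z n * Real.exp (-R * u) := by
    intro u n hn
    exact mul_nonneg (mul_nonneg (hx n (Finset.mem_range.1 hn)).1.le (Nat.cast_nonneg _))
      (Real.exp_pos _).le
  -- pointwise bound
  have step3 : ∀ u ∈ Ioo (0 : ℝ) u0, ∑ n ∈ Finset.range N, ∑ j : Fin 3,
      ENNReal.ofReal (pr β γ j) *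
        (ENNReal.ofReal (x n * z n * Real.exp (-R * u)) *
          ∫⁻ f, ENNReal.ofReal (Wf (u0 - u) + (if j ≠ 1 then w (x n) (u0 - u) else 0) +
            (if j ≠ 2 then w f (u0 - u) else 0)) ∂μ) ≤
      ENNReal.ofReal (R * Real.exp (-R * u) * Wf (u0 - u) +
        Real.exp (-R * u) * Wd (u0 - u)) := by
    intro u hu
    have hv : 0 ≤ u0 - u := by linarith [hu.2]
    set v := u0 - u with hvdef
    have hwb := wbar_nonneg hs hμ hv
    have e1 : ∀ n ∈ Finset.range N, ∑ j : Fin 3, ENNReal.ofReal (pr β γ j) *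
        (ENNReal.ofReal (x n * z n * Real.exp (-R * u)) *
          ∫⁻ f, ENNReal.ofReal (Wf v + (if j ≠ 1 then w (x n) v else 0) +
            (if j ≠ 2 then w f v else 0)) ∂μ) =
        ENNReal.ofReal ((x n * z n * Real.exp (-R * u)) *
          (Wf v + γ * w (x n) v + β * wbar μ w v)) := by
      intro n hn
      have hB := hW v hv n (Finset.mem_range.1 hn)
      rw [← sum_pr_mul, Finset.mul_sum, ENNReal.ofReal_sum_of_nonneg]
      · refine Finset.sum_congr rfl (fun j _ => ?_)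
        rw [inner_lint hs hμ hv _ _ (hWf0 v hv) (by linarith) j,
          ← ENNReal.ofReal_mul (hAn u n hn), ← ENNReal.ofReal_mul (hp j)]
        congr 1
        ring
      · intro j _
        refine mul_nonneg (hAn u n hn) (mul_nonneg (hp j) ?_)
        have := hWf0 v hv
        split_ifs <;> linarith
    rw [Finset.sum_congr rfl e1, ← ENNReal.ofReal_sum_of_nonneg]
    · apply ENNReal.ofReal_le_ofReal
      have e2 : ∀ n ∈ Finset.range N, (x n * z n * Real.exp (-R * u)) *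
          (Wf v + γ * w (x n) v + β * wbar μ w v) ≤
          (x n * z n * Real.exp (-R * u)) * Wf v +
            Real.exp (-R * u) * ((z n : ℝ) * w' (x n) v) := by
        intro n hn
        have h1 := hs.super (x n) (hx n (Finset.mem_range.1 hn)) v hv
        have h2 : (0 : ℝ) ≤ z n * Real.exp (-R * u) :=
          mul_nonneg (Nat.cast_nonneg _) (Real.exp_pos _).le
        have h3 := mul_le_mul_of_nonneg_left h1 h2
        unfold wbar
        nlinarith [h3]
      refine (Finset.sum_le_sum e2).trans (le_of_eq ?_)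
      rw [Finset.sum_add_distrib, ← Finset.sum_mul, hsumA, ← Finset.mul_sum]
    · intro n hn
      refine mul_nonneg (hAn u n hn) ?_
      have := hWf0 v hv
      have h2 := hW v hv n (Finset.mem_range.1 hn)
      have h3 : 0 ≤ γ * w (x n) v := mul_nonneg hγ (by linarith)
      have h4 : 0 ≤ β * wbar μ w v := mul_nonneg hβ hwb
      linarith
  -- integration
  have hcont : ContinuousOn (fun u => R * Real.exp (-R * u) * Wf (u0 - u) +
      Real.exp (-R * u) * Wd (u0 - u)) (Icc 0 u0) := by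
    have hWfc : ContinuousOn Wf (Ici 0) := fun v hv => (hder v hv).continuousAt.continuousWithinAt
    have hsub : MapsTo (fun u : ℝ => u0 - u) (Icc 0 u0) (Ici 0) := by
      intro u hu
      have := hu.2
      simp only [mem_Ici]
      linarith
    have h1 : ContinuousOn (fun u : ℝ => Wf (u0 - u)) (Icc 0 u0) :=
      hWfc.comp (by fun_prop) hsub
    have h2 : ContinuousOn (fun u : ℝ => Wd (u0 - u)) (Icc 0 u0) :=
      hWdc.comp (by fun_prop) hsub
    have h3 : ContinuousOn (fun u : ℝ => Real.exp (-R * u)) (Icc 0 u0) := by fun_prop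
    exact ((continuousOn_const.mul h3).mul h1).add (h3.mul h2)
  have hint : IntervalIntegrable (fun u => R * Real.exp (-R * u) * Wf (u0 - u) +
      Real.exp (-R * u) * Wd (u0 - u)) volume 0 u0 := by
    apply ContinuousOn.intervalIntegrable
    rwa [uIcc_of_le hu0]
  have hFTC : ∫ u in (0 : ℝ)..u0, (R * Real.exp (-R * u) * Wf (u0 - u) +
      Real.exp (-R * u) * Wd (u0 - u)) = Wf u0 - Real.exp (-R * u0) * Wf 0 := by
    have hd : ∀ u ∈ uIcc 0 u0, HasDerivAt (fun u => -(Real.exp (-R * u) * Wf (u0 - u)))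
        (R * Real.exp (-R * u) * Wf (u0 - u) + Real.exp (-R * u) * Wd (u0 - u)) u := by
      intro u hu
      rw [uIcc_of_le hu0] at hu
      have h1 : HasDerivAt (fun u : ℝ => u0 - u) (-1) u := by
        simpa using (hasDerivAt_id u).const_sub u0
      have h2 : HasDerivAt (fun u => Wf (u0 - u)) (Wd (u0 - u) * (-1)) u :=
        (hder (u0 - u) (by linarith [hu.2])).comp u h1
      have h3 : HasDerivAt (fun u : ℝ => Real.exp (-R * u)) (Real.exp (-R * u) * (-R)) u := by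
        have h4 : HasDerivAt (fun u : ℝ => -R * u) (-R) u := by
          simpa using (hasDerivAt_id u).const_mul (-R)
        exact h4.exp
      refine ((h3.fun_mul h2).fun_neg).congr_deriv ?_
      ring
    rw [intervalIntegral.integral_eq_sub_of_hasDerivAt hd hint]
    have q1 : u0 - u0 = 0 := sub_self _
    have q2 : u0 - 0 = u0 := sub_zero _
    have q3 : Real.exp (-R * 0) = 1 := by rw [mul_zero, Real.exp_zero]
    rw [q1, q2, q3]
    ring
  have hint' : IntegrableOn (fun u => R * Real.exp (-R * u) * Wf (u0 - u) +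
      Real.exp (-R * u) * Wd (u0 - u)) (Ioc 0 u0) :=
    (intervalIntegrable_iff_integrableOn_Ioc_of_le hu0).1 hint
  have hnn : ∀ u, u ≤ u0 → 0 ≤ R * Real.exp (-R * u) * Wf (u0 - u) +
      Real.exp (-R * u) * Wd (u0 - u) := by
    intro u hu
    have hv : 0 ≤ u0 - u := by linarith
    exact add_nonneg (mul_nonneg (mul_nonneg hR (Real.exp_pos _).le) (hWf0 _ hv))
      (mul_nonneg (Real.exp_pos _).le (hWd0 _ hv))
  have hlast : ∫⁻ u in Ioo (0 : ℝ) u0, ENNReal.ofReal (R * Real.exp (-R * u) * Wf (u0 - u) +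
        Real.exp (-R * u) * Wd (u0 - u)) ≤
      ENNReal.ofReal (Wf u0 - Real.exp (-R * u0) * Wf 0) := by
    refine (lintegral_mono_set Ioo_subset_Ioc_self).trans ?_
    rw [← ofReal_integral_eq_lintegral_ofReal hint', ← intervalIntegral.integral_of_le hu0,
      hFTC]
    refine (ae_restrict_iff' measurableSet_Ioc).2 (Eventually.of_forall (fun u hu => ?_))
    exact hnn u hu.2
  have hFTC0 : 0 ≤ Wf u0 - Real.exp (-R * u0) * Wf 0 := by
    rw [← hFTC]
    exact intervalIntegral.integral_nonneg hu0 fun u hu => hnn u hu.2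
  calc _ ≤ ENNReal.ofReal (Real.exp (-R * u0)) * ENNReal.ofReal (Wf 0) +
        ENNReal.ofReal (Wf u0 - Real.exp (-R * u0) * Wf 0) :=
        add_le_add le_rfl ((setLIntegral_mono' measurableSet_Ioo step3).trans hlast)
    _ = ENNReal.ofReal (Wf u0) := by
        rw [← ENNReal.ofReal_mul (Real.exp_pos _).le, ← ENNReal.ofReal_add
          (mul_nonneg (Real.exp_pos _).le (hWf0 0 le_rfl)) hFTC0]
        congr 1
        ring

end core

section gen
variable {Ω : Type*} [MeasurableSpace Ω]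

theorem gen_sum_meas {A : Type*} [MeasurableSpace A] (N : ℕ) (M : Ω → ℕ) (Z : ℕ → Ω → ℕ)
    (F : ℕ → Ω → ℝ) (w : ℝ → ℝ → ℝ) (hw : Measurable (Function.uncurry w)) (hM : Measurable M)
    (hZ : ∀ n, Measurable (Z n)) (hF : ∀ n, Measurable (F n)) (g : A → Ω) (hg : Measurable g)
    (v : A → ℝ) (hv : Measurable v) :
    Measurable (fun a => ∑ m ∈ Finset.range N,
      if m < M (g a) then (Z m (g a) : ℝ) * w (F m (g a)) (v a) else 0) := by
  refine Finset.measurable_sum _ (fun m _ => ?_)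
  refine Measurable.ite (measurableSet_lt measurable_const (hM.comp hg)) ?_ measurable_const
  refine Measurable.mul ?_ ?_
  · exact (measurable_from_nat (f := fun n : ℕ => (n : ℝ))).comp ((hZ m).comp hg)
  · exact hw.comp (((hF m).comp hg).prodMk hv)

theorem gen_U_meas (N : ℕ) (M : Ω → ℕ) (Z : ℕ → Ω → ℕ)
    (F : ℕ → Ω → ℝ) (w : ℝ → ℝ → ℝ) (hw : Measurable (Function.uncurry w)) (hM : Measurable M)
    (hZ : ∀ n, Measurable (Z n)) (hF : ∀ n, Measurable (F n)) :
    Measurable (fun p : Ω × ℝ => ENNReal.ofReal (∑ m ∈ Finset.range N,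
      if m < M p.1 then (Z m p.1 : ℝ) * w (F m p.1) p.2 else 0)) :=
  ENNReal.measurable_ofReal.comp
    (gen_sum_meas N M Z F w hw hM hZ hF (fun p : Ω × ℝ => p.1) measurable_fst _ measurable_snd)

theorem gen_P_meas (N : ℕ) (M : Ω → ℕ) (Z : ℕ → Ω → ℕ)
    (F : ℕ → Ω → ℝ) (w : ℝ → ℝ → ℝ) (hw : Measurable (Function.uncurry w)) (hM : Measurable M)
    (hZ : ∀ n, Measurable (Z n)) (hF : ∀ n, Measurable (F n)) (n : ℕ) (j : Fin 3) :
    Measurable (fun p : Ω × ℝ × ℝ =>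
      ENNReal.ofReal ((∑ m ∈ Finset.range N, if m < M p.1 then (Z m p.1 : ℝ) *
        w (F m p.1) p.2.1 else 0) +
        (if j ≠ 1 then w (F n p.1) p.2.1 else 0) +
        (if j ≠ 2 then w p.2.2 p.2.1 else 0))) := by
  have h2 : Measurable (fun p : Ω × ℝ × ℝ => p.2.1) := measurable_fst.comp measurable_snd
  have h3 : Measurable (fun p : Ω × ℝ × ℝ => p.2.2) := measurable_snd.comp measurable_snd
  refine ENNReal.measurable_ofReal.comp ?_
  refine Measurable.add (Measurable.add ?_ ?_) ?_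
  · exact gen_sum_meas N M Z F w hw hM hZ hF (fun p : Ω × ℝ × ℝ => p.1) measurable_fst _ h2
  · by_cases hj : j ≠ 1
    · simp only [if_pos hj]
      exact hw.comp (((hF n).comp measurable_fst).prodMk h2)
    · simp only [if_neg hj]
      exact measurable_const
  · by_cases hj : j ≠ 2
    · simp only [if_pos hj]
      exact hw.comp (h3.prodMk h2)
    · simp only [if_neg hj]
      exact measurable_const

theorem gen_S_meas (N : ℕ) (M : Ω → ℕ) (Z : ℕ → Ω → ℕ) (hM : Measurable M)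
    (hZ : ∀ n, Measurable (Z n)) :
    Measurable (fun a => ∑ m ∈ Finset.range N, if m < M a then Z m a else 0) := by
  refine Finset.measurable_sum _ (fun m _ => ?_)
  exact Measurable.ite (measurableSet_lt measurable_const hM) (hZ m) measurable_const

end gen

theorem sum_if_lt {β : Type*} [AddCommMonoid β] {M N : ℕ} (h : M ≤ N) (f : ℕ → β) :
    ∑ m ∈ Finset.range N, (if m < M then f m else 0) = ∑ m ∈ Finset.range M, f m := by
  rw [← Finset.sum_filter]
  refine Finset.sum_congr ?_ (fun _ _ => rfl)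
  ext m
  simp only [Finset.mem_filter, Finset.mem_range]
  omega

theorem ite_cast_mul (p q : Prop) [Decidable p] [Decidable q] (c : ℝ) :
    ((if p ∧ q then 1 else 0 : ℕ) : ℝ) * c = if p then (if q then c else 0) else 0 := by
  by_cases hp : p <;> by_cases hq : q <;> simp [hp, hq]

section path
variable {Ω : Type*} [mΩ : MeasurableSpace Ω] {P : Measure Ω} {μ : Measure ℝ} {β γ : ℝ}
variable (X : RBP P μ β γ)

theorem M_le (k : ℕ) (ω : Ω) : X.M k ω ≤ k + 1 := by
  induction k with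
  | zero => rw [X.M_zero]
  | succ k ih =>
    rw [X.M_succ]
    split_ifs <;> omega

theorem M_mono (k : ℕ) (ω : Ω) : X.M k ω ≤ X.M (k + 1) ω := by
  rw [X.M_succ]
  omega

theorem Z_ge (k : ℕ) (ω : Ω) : ∀ n, X.M k ω ≤ n → X.Z k n ω = 0 := by
  induction k with
  | zero =>
    intro n hn
    rw [X.M_zero] at hn
    rw [X.Z_zero, if_neg (by omega)]
  | succ k ih =>
    intro n hn
    have h1 := X.I_lt k ω
    rw [X.M_succ] at hn
    rw [X.Z_succ, ih n (by omega), if_neg (by omega)]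
    by_cases h2 : X.θ k ω = 2
    · rw [if_neg (by tauto)]
    · rw [if_neg h2] at hn
      rw [if_neg (by omega)]

theorem one_le_Z (k : ℕ) (ω : Ω) : 1 ≤ X.Z k 0 ω := by
  induction k with
  | zero => rw [X.Z_zero, if_pos rfl]
  | succ k ih =>
    rw [X.Z_succ]
    omega

theorem one_le_S (k : ℕ) (ω : Ω) : 1 ≤ X.S k ω := by
  have h2 : 0 < X.M k ω := lt_of_le_of_lt (Nat.zero_le _) (X.I_lt k ω)
  unfold RBP.S
  exact (one_le_Z X k ω).trans (Finset.single_le_sum (f := fun m => X.Z k m ω)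
    (fun m _ => Nat.zero_le _) (Finset.mem_range.2 h2))

theorem R_nonneg (k : ℕ) (ω : Ω) : 0 ≤ X.R k ω :=
  Finset.sum_nonneg fun m _ => mul_nonneg (X.F_mem m ω).1.le (Nat.cast_nonneg _)

/-- the weight sum along the path -/
noncomputable def Wp (w : ℝ → ℝ → ℝ) (k : ℕ) (ω : Ω) (v : ℝ) : ℝ :=
  ∑ m ∈ Finset.range (X.M k ω), (X.Z k m ω : ℝ) * w (X.F m ω) v

theorem Wp_succ (w : ℝ → ℝ → ℝ) (k : ℕ) (ω : Ω) (v : ℝ) :
    Wp X w (k + 1) ω v = Wp X w k ω v + (if X.θ k ω ≠ 1 then w (X.F (X.I k ω) ω) v else 0) +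
      (if X.θ k ω ≠ 2 then w (X.F (X.M k ω) ω) v else 0) := by
  have hI := X.I_lt k ω
  have hM := M_mono X k ω
  have hexp : Wp X w (k + 1) ω v =
      ∑ m ∈ Finset.range (X.M (k + 1) ω), (X.Z k m ω : ℝ) * w (X.F m ω) v +
      ∑ m ∈ Finset.range (X.M (k + 1) ω),
        (if m = X.I k ω then (if X.θ k ω ≠ 1 then w (X.F m ω) v else 0) else 0) +
      ∑ m ∈ Finset.range (X.M (k + 1) ω),
        (if m = X.M k ω then (if X.θ k ω ≠ 2 then w (X.F m ω) v else 0) else 0) := by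
    unfold Wp
    rw [← Finset.sum_add_distrib, ← Finset.sum_add_distrib]
    refine Finset.sum_congr rfl (fun m _ => ?_)
    rw [X.Z_succ, Nat.cast_add, Nat.cast_add, add_mul, add_mul, ite_cast_mul, ite_cast_mul]
  rw [hexp]
  congr 1
  · congr 1
    · unfold Wp
      symm
      apply Finset.sum_subset (Finset.range_subset_range.2 hM)
      intro m _ hm
      rw [Z_ge X k ω m (by simpa using hm)]
      simp
    · rw [Finset.sum_ite_eq' (Finset.range (X.M (k + 1) ω)) (X.I k ω)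
        (fun m => if X.θ k ω ≠ 1 then w (X.F m ω) v else 0), if_pos]
      rw [Finset.mem_range]
      omega
  · rw [Finset.sum_ite_eq' (Finset.range (X.M (k + 1) ω)) (X.M k ω)
      (fun m => if X.θ k ω ≠ 2 then w (X.F m ω) v else 0)]
    by_cases h2 : X.θ k ω ≠ 2
    · rw [if_pos]
      rw [Finset.mem_range, X.M_succ, if_neg h2]
      omega
    · rw [if_neg h2]
      simp

/-- the fitness, as a measurable function of the past -/
noncomputable def Fp (k n : ℕ) (ω : Ω) : ℝ := if n < X.M k ω then X.F n ω else 1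

theorem Wp_eq (w : ℝ → ℝ → ℝ) (k : ℕ) (ω : Ω) (v : ℝ) :
    (∑ m ∈ Finset.range (k + 1), if m < X.M k ω then (X.Z k m ω : ℝ) * w (Fp X k m ω) v else 0)
      = Wp X w k ω v := by
  rw [sum_if_lt (M_le X k ω)]
  unfold Wp
  refine Finset.sum_congr rfl (fun m hm => ?_)
  rw [Fp, if_pos (Finset.mem_range.1 hm)]

theorem S_meas (k : ℕ) : Measurable[X.ℱ k] (X.S k) := by
  have h := @gen_S_meas Ω (X.ℱ k) (k + 1) (X.M k) (X.Z k) (X.meas_M k) (X.meas_Z k)
  have e : X.S k = fun a => ∑ m ∈ Finset.range (k + 1), if m < X.M k a then X.Z k m a else 0 := by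
    funext a
    rw [sum_if_lt (M_le X k a)]
    rfl
  rw [e]
  exact h

/-- the value function -/
noncomputable def UU (w : ℝ → ℝ → ℝ) (k : ℕ) (ω : Ω) (s : ℝ) : ℝ≥0∞ :=
  ENNReal.ofReal (∑ m ∈ Finset.range (k + 1),
    if m < X.M k ω then (X.Z k m ω : ℝ) * w (Fp X k m ω) s else 0)

/-- the value after one more event -/
noncomputable def PP (w : ℝ → ℝ → ℝ) (k n : ℕ) (j : Fin 3) (p : Ω × ℝ × ℝ) : ℝ≥0∞ :=
  ENNReal.ofReal ((∑ m ∈ Finset.range (k + 1), if m < X.M k p.1 then (X.Z k m p.1 : ℝ) *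
        w (Fp X k m p.1) p.2.1 else 0) +
        (if j ≠ 1 then w (Fp X k n p.1) p.2.1 else 0) +
        (if j ≠ 2 then w p.2.2 p.2.1 else 0))

theorem UU_eq (w : ℝ → ℝ → ℝ) (k : ℕ) (ω : Ω) (s : ℝ) :
    UU X w k ω s = ENNReal.ofReal (Wp X w k ω s) := by
  unfold UU
  rw [Wp_eq]

theorem val {w : ℝ → ℝ → ℝ} (hw : Measurable (Function.uncurry w)) (j : ℕ) :
    X.Val j (UU X w) (PP X w) where
  meas k _ := @gen_U_meas Ω (X.ℱ k) (k + 1) (X.M k) (X.Z k) (Fp X k) w hw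
    (X.meas_M k) (X.meas_Z k) (X.meas_F k)
  measΦ k _ n i := @gen_P_meas Ω (X.ℱ k) (k + 1) (X.M k) (X.Z k) (Fp X k) w hw
    (X.meas_M k) (X.meas_Z k) (X.meas_F k) n i
  free k _ n ω s f := by
    unfold PP
    simp
  next k _ ω s := by
    rw [UU_eq, Wp_succ]
    unfold PP
    simp only
    rw [Wp_eq]
    have e2 : Fp X k (X.I k ω) ω = X.F (X.I k ω) ω := if_pos (X.I_lt k ω)
    rw [e2]

theorem gen_le [IsProbabilityMeasure μ] {α : ℝ} (hC : Cond μ β γ α) {w w' : ℝ → ℝ → ℝ}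
    (hs : SuperSol μ β γ w w') (k : ℕ) (ω : Ω) (s : ℝ) (h0 : 0 ≤ s) :
    X.gen (UU X w) (PP X w) k ω s ≤ UU X w k ω s := by
  have hx : ∀ n < X.M k ω, X.F n ω ∈ Ioc (0 : ℝ) 1 := fun n _ => X.F_mem n ω
  have hcore := core hs hC.supp hC.β_pos.le hC.β_le hC.γ_pos.le hC.γ_le hC.one_le
    (X.M k ω) (fun n => X.F n ω) (fun n => X.Z k n ω) hx (X.R k ω) (R_nonneg X k ω) rfl s h0
  rw [UU_eq]
  refine le_trans (le_of_eq ?_) hcore
  unfold RBP.gen
  rw [UU_eq]
  congr 1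
  refine lintegral_congr (fun u => ?_)
  refine Finset.sum_congr rfl (fun n hn => Finset.sum_congr rfl (fun j _ => ?_))
  congr 2
  refine lintegral_congr (fun f => ?_)
  unfold PP
  simp only
  rw [Wp_eq]
  have e2 : Fp X k n ω = X.F n ω := if_pos (Finset.mem_range.1 hn)
  rw [e2]
  rfl

theorem S_le_UU {w w' : ℝ → ℝ → ℝ} (hs : SuperSol μ β γ w w') (k : ℕ) (ω : Ω) (v : ℝ)
    (hv : 0 ≤ v) : (X.S k ω : ℝ≥0∞) ≤ UU X w k ω v := by
  rw [UU_eq]
  have h : (X.S k ω : ℝ) ≤ Wp X w k ω v := by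
    unfold RBP.S Wp
    rw [Nat.cast_sum]
    refine Finset.sum_le_sum (fun m _ => ?_)
    have h1 := hs.one_le (X.F m ω) (X.F_mem m ω) v hv
    have h2 : (0 : ℝ) ≤ X.Z k m ω := Nat.cast_nonneg _
    nlinarith
  rw [← ENNReal.ofReal_natCast]
  exact ENNReal.ofReal_le_ofReal h

theorem UU_le {w : ℝ → ℝ → ℝ} (k : ℕ) (ω : Ω) (v D : ℝ) (hD : 0 ≤ D)
    (hw : ∀ x ∈ Ioc (0 : ℝ) 1, w x v ≤ D) : UU X w k ω v ≤ ENNReal.ofReal D * (X.S k ω : ℝ≥0∞) := by
  rw [UU_eq, ← ENNReal.ofReal_natCast, ← ENNReal.ofReal_mul hD]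
  apply ENNReal.ofReal_le_ofReal
  unfold RBP.S Wp
  rw [Nat.cast_sum, Finset.mul_sum]
  refine Finset.sum_le_sum (fun m _ => ?_)
  rw [mul_comm D]
  exact mul_le_mul_of_nonneg_left (hw _ (X.F_mem m ω)) (Nat.cast_nonneg _)

theorem τ_strictMono (ω : Ω) : StrictMono (fun k => X.τ k ω) :=
  strictMono_nat_of_lt_succ (fun k => X.τ_lt k ω)

theorem exists_last {ω : Ω} (hτ : Tendsto (fun k => X.τ k ω) atTop atTop) {s : ℝ} (hs : 0 ≤ s) :
    ∃ k, X.τ k ω ≤ s ∧ s < X.τ (k + 1) ω := by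
  classical
  have hex : ∃ k, s < X.τ k ω := (hτ.eventually_gt_atTop s).exists
  have h0 : Nat.find hex ≠ 0 := by
    intro h
    have := Nat.find_spec hex
    rw [h, X.τ_zero] at this
    exact absurd this (not_lt.2 hs)
  obtain ⟨m, hm⟩ := Nat.exists_eq_succ_of_ne_zero h0
  refine ⟨m, ?_, ?_⟩
  · exact not_lt.1 (Nat.find_min hex (m := m) (by omega))
  · have := Nat.find_spec hex
    rw [hm] at this
    exact this

theorem idx_eq {j : ℕ} {t : ℝ} {ω : Ω} (h : ω ∈ X.At j t) : X.idx t ω = j := by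
  obtain ⟨h1, h2⟩ := h
  unfold RBP.idx
  have e : {k | X.τ k ω ≤ t} = Set.Iic j := by
    ext k
    rw [Set.mem_ofPred_eq, Set.mem_Iic]
    constructor
    · intro hk
      by_contra hcon
      have h3 : X.τ (j + 1) ω ≤ X.τ k ω := (τ_strictMono X ω).monotone (by omega : j + 1 ≤ k)
      linarith
    · intro hk
      exact ((τ_strictMono X ω).monotone hk).trans h1
  rw [e]
  exact csSup_Iic

theorem sup_abs [IsProbabilityMeasure P] [IsProbabilityMeasure μ] {α : ℝ} (hC : Cond μ β γ α)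
    (hR : X.RestartLeStmt) (hNE : X.NonExpStmt) {w w' : ℝ → ℝ → ℝ} (hs : SuperSol μ β γ w w')
    (C : ℝ) (hC0 : 0 < C) (hw : ∀ x ∈ Ioc (0 : ℝ) 1, ∀ u, 0 ≤ u → w x u ≤ C * Real.exp (γ * u)) :
    X.SupStmt := by
  refine ⟨C, hC0, fun t T ht hT => ?_⟩
  set c : ℝ≥0∞ := ENNReal.ofReal (C * Real.exp (γ * T)) with hc
  set A : ℕ × ℕ → Set Ω := fun p => {ω | X.S p.1 ω = p.2 + 1} ∩ X.At p.1 t with hA
  have hτm : ∀ k, Measurable (X.τ k) := fun k => (X.meas_τ k).mono (X.ℱ.le k) le_rfl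
  have hAt : ∀ j, MeasurableSet (X.At j t) := fun j =>
    (measurableSet_le (hτm j) measurable_const).inter (measurableSet_lt measurable_const (hτm (j + 1)))
  have hB : ∀ j m : ℕ, MeasurableSet[X.ℱ j] {ω | X.S j ω = m + 1} := fun j m =>
    S_meas X j (measurableSet_singleton (m + 1))
  have hAm : ∀ p, MeasurableSet (A p) := fun p =>
    ((X.ℱ.le p.1) _ (hB p.1 p.2)).inter (hAt p.1)
  have hAd : Pairwise (Function.onFun Disjoint A) := by
    intro p q hpq
    rw [Function.onFun, Set.disjoint_left]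
    rintro ω ⟨h1, h2⟩ ⟨h3, h4⟩
    apply hpq
    have e1 : p.1 = q.1 := (idx_eq X h2).symm.trans (idx_eq X h4)
    rw [Set.mem_ofPred_eq] at h1 h3
    rw [e1] at h1
    exact Prod.ext e1 (by omega)
  have hcov : ∀ᵐ ω ∂P, ω ∈ ⋃ p, A p := by
    filter_upwards [hNE] with ω hω
    obtain ⟨k, h1, h2⟩ := exists_last X hω ht
    have h3 := one_le_S X k ω
    refine Set.mem_iUnion.2 ⟨(k, X.S k ω - 1), ?_, h1, h2⟩
    rw [Set.mem_ofPred_eq]
    simp only
    omega
  have hpiece : ∀ p, ∫⁻ ω in A p, (X.N (t + T) ω : ℝ≥0∞) / (X.N t ω : ℝ≥0∞) ∂P ≤ c * P (A p) := by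
    intro p
    obtain ⟨j, m⟩ := p
    have hm0 : ((m : ℝ≥0∞) + 1) ≠ 0 := by simp
    have hmt : ((m : ℝ≥0∞) + 1) ≠ ⊤ := by simp
    have e1 : ∫⁻ ω in A (j, m), (X.N (t + T) ω : ℝ≥0∞) / (X.N t ω : ℝ≥0∞) ∂P =
        (∫⁻ ω in A (j, m), (X.N (t + T) ω : ℝ≥0∞) ∂P) * ((m : ℝ≥0∞) + 1)⁻¹ := by
      rw [← lintegral_mul_const' _ _ (ENNReal.inv_ne_top.2 hm0)]
      refine setLIntegral_congr_fun (hAm (j, m)) fun ω hω => ?_
      obtain ⟨h1, h2⟩ := hω
      have h3 : X.N t ω = m + 1 := by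
        unfold RBP.N
        rw [idx_eq X h2]
        exact h1
      rw [h3, div_eq_mul_inv]
      push_cast
      rfl
    have e2 : ∫⁻ ω in A (j, m), (X.N (t + T) ω : ℝ≥0∞) ∂P ≤
        ∫⁻ ω in A (j, m), UU X w (X.idx (t + T) ω) ω 0 ∂P :=
      lintegral_mono fun ω => S_le_UU X hs _ ω 0 le_rfl
    have e3 := hR j (UU X w) (PP X w) (val X hs.meas j) t T ht hT
      (fun k _ ω s hs' => gen_le X hC hs k ω s hs'.1) _ (hB j m)
    have e4 : ∫⁻ ω in A (j, m), UU X w j ω T ∂P ≤ (c * ((m : ℝ≥0∞) + 1)) * P (A (j, m)) := by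
      calc ∫⁻ ω in A (j, m), UU X w j ω T ∂P ≤ ∫⁻ _ω in A (j, m), c * ((m : ℝ≥0∞) + 1) ∂P := by
            refine setLIntegral_mono' (hAm (j, m)) fun ω hω => ?_
            have h1 : X.S j ω = m + 1 := hω.1
            have h2 := UU_le X j ω T (C * Real.exp (γ * T)) (by positivity)
              (fun x hx => hw x hx T hT)
            rw [h1] at h2
            push_cast at h2
            exact h2
        _ = (c * ((m : ℝ≥0∞) + 1)) * P (A (j, m)) := by
            rw [lintegral_const, Measure.restrict_apply_univ]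
    rw [e1]
    calc _ ≤ ((c * ((m : ℝ≥0∞) + 1)) * P (A (j, m))) * ((m : ℝ≥0∞) + 1)⁻¹ := by
          gcongr
          exact e2.trans (e3.trans e4)
      _ = (c * P (A (j, m))) * (((m : ℝ≥0∞) + 1) * ((m : ℝ≥0∞) + 1)⁻¹) := by ring
      _ = c * P (A (j, m)) := by rw [ENNReal.mul_inv_cancel hm0 hmt, mul_one]
  calc ∫⁻ ω, (X.N (t + T) ω : ℝ≥0∞) / (X.N t ω : ℝ≥0∞) ∂P
      = ∫⁻ ω in ⋃ p, A p, (X.N (t + T) ω : ℝ≥0∞) / (X.N t ω : ℝ≥0∞) ∂P := by
        rw [Measure.restrict_eq_self_of_ae_mem hcov]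
    _ ≤ ∑' p, ∫⁻ ω in A p, (X.N (t + T) ω : ℝ≥0∞) / (X.N t ω : ℝ≥0∞) ∂P :=
        lintegral_iUnion_le _ _
    _ ≤ ∑' p, c * P (A p) := ENNReal.tsum_le_tsum hpiece
    _ = c * P (⋃ p, A p) := by rw [ENNReal.tsum_mul_left, measure_iUnion hAd hAm]
    _ ≤ c * 1 := by gcongr; exact prob_le_one
    _ = c := mul_one _

end path

/-- from the eventual bound to a bound on `(0, 1]` -/
theorem glob (μ : Measure ℝ) [IsProbabilityMeasure μ] (a' : ℝ) (ha' : 0 < a')
    (h : ∀ᶠ ε in 𝓝[>] (0 : ℝ), (μ (Ioo (1 - ε) 1)).toReal ≤ ε ^ a') :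
    ∃ K : ℝ, ∀ ε ∈ Ioc (0 : ℝ) 1, μ (Ioo (1 - ε) 1) ≤ ENNReal.ofReal (K * ε ^ a') := by
  obtain ⟨e0, he0, h0⟩ := (mem_nhdsGT_iff_exists_Ioo_subset).1 h
  rw [mem_Ioi] at he0
  set e1 := min e0 1 with he1
  have he1pos : 0 < e1 := lt_min he0 one_pos
  have he1le : e1 ≤ 1 := min_le_right _ _
  refine ⟨e1 ^ (-a'), fun ε hε => ?_⟩
  have hp : 0 < ε ^ a' := Real.rpow_pos_of_pos hε.1 _
  have hK : 1 ≤ e1 ^ (-a') := Real.one_le_rpow_of_pos_of_le_one_of_nonpos he1pos he1le (by linarith)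
  rw [← ENNReal.ofReal_toReal (measure_ne_top μ (Ioo (1 - ε) 1))]
  refine ENNReal.ofReal_le_ofReal ?_
  rcases lt_or_ge ε e1 with h2 | h2
  · have h3 : (μ (Ioo (1 - ε) 1)).toReal ≤ ε ^ a' := h0 ⟨hε.1, h2.trans_le (min_le_left _ _)⟩
    refine h3.trans ?_
    calc ε ^ a' = 1 * ε ^ a' := (one_mul _).symm
      _ ≤ e1 ^ (-a') * ε ^ a' := by gcongr
  · have h3 : (μ (Ioo (1 - ε) 1)).toReal ≤ 1 := by
      have := prob_le_one (μ := μ) (s := Ioo (1 - ε) 1)
      exact ENNReal.toReal_le_of_le_ofReal zero_le_one (by rwa [ENNReal.ofReal_one])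
    refine h3.trans ?_
    rw [Real.rpow_neg he1pos.le, inv_mul_eq_div, one_le_div (Real.rpow_pos_of_pos he1pos _)]
    exact Real.rpow_le_rpow he1pos.le h2 ha'.le

open SuperAux

theorem ph_int_le (a c u : ℝ) (ha : 1 < a) (hc : 0 < c) (hu : 0 ≤ u) :
    ∫ s in (0 : ℝ)..u, ph a c s ≤ 1 / (c * (a - 1)) := by
  have ha1 : 0 < a - 1 := by linarith
  have hd : ∀ s ∈ uIcc 0 u, HasDerivAt (fun s => (1 + c * s) ^ (1 - a) * (-(1 / (c * (a - 1)))))
      (ph a c s) s := by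
    intro s hs
    rw [uIcc_of_le hu] at hs
    have hpos : 0 < 1 + c * s := by
      have := mul_nonneg hc.le hs.1
      linarith
    have h1 : HasDerivAt (fun s : ℝ => 1 + c * s) c s := by
      simpa using ((hasDerivAt_id s).const_mul c).const_add 1
    have h2 := (h1.rpow_const (p := 1 - a) (Or.inl hpos.ne')).mul_const (-(1 / (c * (a - 1))))
    refine h2.congr_deriv ?_
    rw [ph_eq a c s hc hs.1]
    have e : 1 - a - 1 = -a := by ring
    rw [e]
    field_simp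
    ring
  have hint : IntervalIntegrable (ph a c) volume 0 u := (ph_cont a c).intervalIntegrable _ _
  rw [intervalIntegral.integral_eq_sub_of_hasDerivAt hd hint]
  have hpos : 0 < 1 + c * u := by
    have := mul_nonneg hc.le hu
    linarith
  have h3 : 0 ≤ (1 + c * u) ^ (1 - a) := Real.rpow_nonneg hpos.le _
  have h4 : (1 + c * 0 : ℝ) ^ (1 - a) = 1 := by rw [mul_zero, add_zero, Real.one_rpow]
  rw [h4]
  have h5 : 0 < 1 / (c * (a - 1)) := by positivity
  nlinarith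

theorem ww_le (β γ a B c : ℝ) (hβ : 0 ≤ β) (hγ : 0 ≤ γ) (ha : 1 < a) (hB : 0 ≤ B) (hc : 0 < c)
    (x : ℝ) (hx : x ∈ Ioc (0 : ℝ) 1) (u : ℝ) (hu : 0 ≤ u) :
    ww β γ a B c x u ≤ (1 + β * B * (1 / (c * (a - 1)))) * Real.exp (γ * u) := by
  have hcont : Continuous fun s => Real.exp (γ * (1 - x) * s) * ph a c s :=
    (by fun_prop : Continuous fun s => Real.exp (γ * (1 - x) * s)).mul (ph_cont a c)
  have h1x : 0 ≤ 1 - x := by linarith [hx.2]
  have hI : ∫ s in (0 : ℝ)..u, Real.exp (γ * (1 - x) * s) * ph a c s ≤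
      Real.exp (γ * (1 - x) * u) * (1 / (c * (a - 1))) := by
    calc ∫ s in (0 : ℝ)..u, Real.exp (γ * (1 - x) * s) * ph a c s
        ≤ ∫ s in (0 : ℝ)..u, Real.exp (γ * (1 - x) * u) * ph a c s := by
          refine intervalIntegral.integral_mono_on hu (hcont.intervalIntegrable _ _)
            ((continuous_const.mul (ph_cont a c)).intervalIntegrable _ _) fun s hs => ?_
          refine mul_le_mul_of_nonneg_right ?_ (ph_nonneg a c s)
          rw [Real.exp_le_exp]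
          exact mul_le_mul_of_nonneg_left hs.2 (mul_nonneg hγ h1x)
      _ = Real.exp (γ * (1 - x) * u) * ∫ s in (0 : ℝ)..u, ph a c s :=
          intervalIntegral.integral_const_mul _ _
      _ ≤ _ := mul_le_mul_of_nonneg_left (ph_int_le a c u ha hc hu) (Real.exp_pos _).le
  set K : ℝ := 1 / (c * (a - 1)) with hK
  have hK0 : 0 ≤ K := by
    have : 0 < a - 1 := by linarith
    positivity
  unfold ww
  have e1 : Real.exp (γ * x * u) * Real.exp (γ * (1 - x) * u) = Real.exp (γ * u) := by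
    rw [← Real.exp_add]
    congr 1
    ring
  have e2 : Real.exp (γ * x * u) ≤ Real.exp (γ * u) := by
    rw [Real.exp_le_exp]
    have h5 : γ * x * u = γ * u * x := by ring
    rw [h5]
    have h6 := mul_le_mul_of_nonneg_left hx.2 (mul_nonneg hγ hu)
    linarith
  have hβxB : 0 ≤ β * x * B := mul_nonneg (mul_nonneg hβ hx.1.le) hB
  calc Real.exp (γ * x * u) * (1 + β * x * B *
        ∫ s in (0 : ℝ)..u, Real.exp (γ * (1 - x) * s) * ph a c s)
      ≤ Real.exp (γ * x * u) * (1 + β * x * B * (Real.exp (γ * (1 - x) * u) * K)) := by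
        refine mul_le_mul_of_nonneg_left ?_ (Real.exp_pos _).le
        have := mul_le_mul_of_nonneg_left hI hβxB
        linarith
    _ = Real.exp (γ * x * u) + β * x * B * K * (Real.exp (γ * x * u) *
        Real.exp (γ * (1 - x) * u)) := by ring
    _ = Real.exp (γ * x * u) + β * x * B * K * Real.exp (γ * u) := by rw [e1]
    _ ≤ Real.exp (γ * u) + β * B * K * Real.exp (γ * u) := by
        refine add_le_add e2 (mul_le_mul_of_nonneg_right ?_ (Real.exp_pos _).le)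
        refine mul_le_mul_of_nonneg_right (mul_le_mul_of_nonneg_right ?_ hB) hK0
        have := mul_le_mul_of_nonneg_left hx.2 hβ
        linarith
    _ = (1 + β * B * K) * Real.exp (γ * u) := by ring

theorem superSol_ww (hK : KernStmt) (μ : Measure ℝ) [IsProbabilityMeasure μ] (β γ a a' K : ℝ)
    (hβ : 0 < β) (hγ : 0 < γ) (ha : 1 < a) (haa' : a < a') (hμ : μ (Ioo 0 1)ᶜ = 0)
    (htail : ∀ ε ∈ Ioc (0 : ℝ) 1, μ (Ioo (1 - ε) 1) ≤ ENNReal.ofReal (K * ε ^ a'))
    (hcond : ∫⁻ x, ENNReal.ofReal (1 / (1 - x)) ∂μ < ENNReal.ofReal ((β + γ) / β)) :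
    ∃ B c : ℝ, 0 < B ∧ 0 < c ∧ SuperSol μ β γ (ww β γ a B c) (ww' β γ a B c) := by
  obtain ⟨B, c, hB, hc, hk⟩ := hK μ inferInstance β γ a a' K hβ hγ ha haa' hμ htail hcond
  have hmean : ∀ u, 0 ≤ u → ∫ y, ww β γ a B c y u ∂μ ≤ B * (Real.exp (γ * u) * ph a c u) := by
    intro u hu
    rw [int_ww μ β γ a B c hγ ha hμ u hu]
    have h1 : ∫ v in (0 : ℝ)..u, kt μ β γ (u - v) * ph a c v =
        ∫ v in (0 : ℝ)..u, kt μ β γ (u - v) * (1 + c * v) ^ (-a) := by
      refine intervalIntegral.integral_congr fun v hv => ?_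
      rw [uIcc_of_le hu] at hv
      rw [ph_eq a c v hc hv.1]
    rw [h1, ph_eq a c u hc hu]
    have h2 := mul_le_mul_of_nonneg_left (hk u hu) (Real.exp_pos (γ * u)).le
    calc _ ≤ _ := h2
      _ = _ := by ring
  refine ⟨B, c, hB, hc, (ww_cont β γ a B c).measurable, ?_, ?_, ?_, ?_, ?_⟩
  · intro x hx u hu
    unfold ww
    have h1 : 1 ≤ Real.exp (γ * x * u) := Real.one_le_exp
      (mul_nonneg (mul_nonneg hγ.le hx.1.le) hu)
    have h2 : 0 ≤ β * x * B * ∫ s in (0 : ℝ)..u, Real.exp (γ * (1 - x) * s) * ph a c s :=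
      mul_nonneg (mul_nonneg (mul_nonneg hβ.le hx.1.le) hB.le) (int_nonneg γ a c x u hu)
    nlinarith
  · intro x _ u _
    exact ww_deriv β γ a B c x u
  · intro x _
    have h1 : Continuous (ww β γ a B c x) :=
      (ww_cont β γ a B c).comp (by fun_prop : Continuous fun u : ℝ => (x, u))
    have h2 : Continuous (ww' β γ a B c x) := by
      unfold ww'
      exact (continuous_const.mul h1).add (continuous_const.mul
        ((by fun_prop : Continuous fun u => Real.exp (γ * u)).mul (ph_cont a c)))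
    exact h2.continuousOn
  · intro t
    have h1 : IsCompact ((Icc (0 : ℝ) 1) ×ˢ (Icc (0 : ℝ) t)) := isCompact_Icc.prod isCompact_Icc
    obtain ⟨C, hC⟩ := h1.exists_bound_of_continuousOn (ww_cont β γ a B c).continuousOn
    refine ⟨C, fun x hx u hu => ?_⟩
    have h2 := hC (x, u) ⟨⟨hx.1.le, hx.2⟩, hu⟩
    exact (le_abs_self _).trans h2
  · intro x hx u hu
    unfold ww'
    have h1 := hmean u hu
    have h2 : x * β * ∫ y, ww β γ a B c y u ∂μ ≤ x * β * (B * (Real.exp (γ * u) * ph a c u)) :=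
      mul_le_mul_of_nonneg_left h1 (mul_nonneg hx.1.le hβ.le)
    linarith

end SupX

open SupX SuperAux in
/-- WV-8 -/
theorem supStmt {Ω : Type*} [MeasurableSpace Ω] {P : Measure Ω} {μ : Measure ℝ} {β γ : ℝ}
    [IsProbabilityMeasure P] [IsProbabilityMeasure μ] (X : RBP P μ β γ) {α : ℝ}
    (hC : Cond μ β γ α) (hR : X.RestartLeStmt) (hNE : X.NonExpStmt) (hK : KernStmt)
    (hP : PotterStmt) : X.SupStmt := by
  have h1α := hC.one_lt
  obtain ⟨K, hKt⟩ := glob μ (α - (α - 1) / 2) (by linarith)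
    ((hP μ inferInstance α hC.rv hC.ess ((α - 1) / 2) (by linarith)).mono fun e he => he.2)
  obtain ⟨B, c, hB, hc, hs⟩ := superSol_ww hK μ β γ ((α + 3) / 4) (α - (α - 1) / 2) K hC.β_pos
    hC.γ_pos (by linarith) (by linarith) hC.supp hKt hC.cond
  have h5 : 0 < c * ((α + 3) / 4 - 1) := mul_pos hc (by linarith)
  have hβ := hC.β_pos
  exact sup_abs X hC hR hNE hs (1 + β * B * (1 / (c * ((α + 3) / 4 - 1)))) (by positivity)
    (fun x hx u hu => ww_le β γ _ B c hC.β_pos.le hC.γ_pos.le (by linarith) hB.le hc x hx u hu)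

end Pool.Agent.R254.RB
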