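import Pool.Agent.R254.RB.Stm

/-!
# The condensation wave (MP_385430_pr): definitions and exact statements of the pieces.
-/

open MeasureTheory ProbabilityTheory Filter Topology Set
open scoped ENNReal

namespace Pool.Agent.R254.RB

variable {Ω : Type*} [mΩ : MeasurableSpace Ω] {P : Measure Ω} {μ : Measure ℝ} {β γ : ℝ}

/-- Index of the last birth event up to time `t`. -/
noncomputable def RBP.idx (X : RBP P μ β γ) (t : ℝ) (ω : Ω) : ℕ := sSup {k | X.τ k ω ≤ t}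

/-- Population size at time `t`. -/
noncomputable def RBP.N (X : RBP P μ β γ) (t : ℝ) (ω : Ω) : ℕ := X.S (X.idx t ω) ω

/-- Number of individuals with fitness in `(a,1)` at time `t`. -/
noncomputable def RBP.W (X : RBP P μ β γ) (a t : ℝ) (ω : Ω) : ℕ :=
  ∑ n ∈ Finset.range (X.M (X.idx t ω) ω),
    if a < X.F n ω ∧ X.F n ω < 1 then X.Z (X.idx t ω) n ω else 0

/-- The empirical fitness distribution `Ξ_t((a,1))`. -/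
noncomputable def RBP.Xi (X : RBP P μ β γ) (a t : ℝ) (ω : Ω) : ℝ :=
  (X.W a t ω : ℝ) / (X.N t ω : ℝ)

/-- `Ξ_t((1-x/t,1)) → g(x)` in probability for every `x > 0`. -/
def RBP.Prof (X : RBP P μ β γ) (g : ℝ → ℝ) : Prop :=
  ∀ x : ℝ, 0 < x → ∀ ε : ℝ, 0 < ε →
    Tendsto (fun t : ℝ => P {ω | ε < |X.Xi (1 - x / t) t ω - g x|}) atTop (𝓝 0)

/-- Individuals at time `t + T`, with fitness in `(a,1)`, in families founded up to time `t`. -/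
noncomputable def RBP.Old (X : RBP P μ β γ) (a t T : ℝ) (ω : Ω) : ℕ :=
  ∑ n ∈ Finset.range (X.M (X.idx t ω) ω),
    if a < X.F n ω ∧ X.F n ω < 1 then X.Z (X.idx (t + T) ω) n ω else 0

/-- Individuals at time `t + T`, with fitness in `(a,1)`, in families founded after time `t`. -/
noncomputable def RBP.New (X : RBP P μ β γ) (a t T : ℝ) (ω : Ω) : ℕ :=
  ∑ n ∈ Finset.Ico (X.M (X.idx t ω) ω) (X.M (X.idx (t + T) ω) ω),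
    if a < X.F n ω ∧ X.F n ω < 1 then X.Z (X.idx (t + T) ω) n ω else 0

/-- A value function: `U k ω s` is the value with remaining time `s` after `k ≥ j` events, and
`Φ k n i (ω, s, f)` its value after one more event in family `n`, of kind `i`, with new fitness
`f`. -/
structure RBP.Val (X : RBP P μ β γ) (j : ℕ) (U : ℕ → Ω → ℝ → ℝ≥0∞)
    (Φ : ℕ → ℕ → Fin 3 → Ω × ℝ × ℝ → ℝ≥0∞) : Prop where
  meas : ∀ k, j ≤ k → @Measurable (Ω × ℝ) ℝ≥0∞ (MeasurableSpace.prod (X.ℱ k) inferInstance) _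
    (fun p => U k p.1 p.2)
  measΦ : ∀ k, j ≤ k → ∀ n i, @Measurable (Ω × ℝ × ℝ) ℝ≥0∞
    (MeasurableSpace.prod (X.ℱ k) inferInstance) _ (Φ k n i)
  free : ∀ k, j ≤ k → ∀ n ω s f, Φ k n 2 (ω, s, f) = Φ k n 2 (ω, s, 1)
  next : ∀ k, j ≤ k → ∀ ω s, U (k + 1) ω s =
    Φ k (X.I k ω) (X.θ k ω) (ω, s, X.F (X.M k ω) ω)

/-- Expected value at the first of: the next event, the end of the remaining time `s`. -/
noncomputable def RBP.gen (X : RBP P μ β γ) (U : ℕ → Ω → ℝ → ℝ≥0∞)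
    (Φ : ℕ → ℕ → Fin 3 → Ω × ℝ × ℝ → ℝ≥0∞) (k : ℕ) (ω : Ω) (s : ℝ) : ℝ≥0∞ :=
  ENNReal.ofReal (Real.exp (-(X.R k ω) * s)) * U k ω 0 +
    ∫⁻ v in Ioo (0 : ℝ) s, (∑ n ∈ Finset.range (X.M k ω), ∑ i : Fin 3,
      ENNReal.ofReal (pr β γ i) * (ENNReal.ofReal
        (X.F n ω * X.Z k n ω * Real.exp (-(X.R k ω) * v)) * ∫⁻ f, Φ k n i (ω, s - v, f) ∂μ))

/-- The event that `j` is the index of the last birth event up to time `t`. -/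
def RBP.At (X : RBP P μ β γ) (j : ℕ) (t : ℝ) : Set Ω := {ω | X.τ j ω ≤ t ∧ t < X.τ (j + 1) ω}

/-- WV-1a: restart at time `t`, supersolutions. -/
def RBP.RestartLeStmt (X : RBP P μ β γ) : Prop :=
  ∀ (j : ℕ) (U : ℕ → Ω → ℝ → ℝ≥0∞) (Φ : ℕ → ℕ → Fin 3 → Ω × ℝ × ℝ → ℝ≥0∞), X.Val j U Φ →
    ∀ t T : ℝ, 0 ≤ t → 0 ≤ T →
    (∀ k, j ≤ k → ∀ ω, ∀ s ∈ Icc (0 : ℝ) T, X.gen U Φ k ω s ≤ U k ω s) →
    ∀ B : Set Ω, MeasurableSet[X.ℱ j] B →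
      ∫⁻ ω in B ∩ X.At j t, U (X.idx (t + T) ω) ω 0 ∂P ≤ ∫⁻ ω in B ∩ X.At j t, U j ω T ∂P

/-- WV-1b: restart at time `t`, bounded solutions. -/
def RBP.RestartEqStmt (X : RBP P μ β γ) : Prop :=
  ∀ (j : ℕ) (U : ℕ → Ω → ℝ → ℝ≥0∞) (Φ : ℕ → ℕ → Fin 3 → Ω × ℝ × ℝ → ℝ≥0∞), X.Val j U Φ →
    ∀ t T : ℝ, 0 ≤ t → 0 ≤ T → (∀ k ω s, U k ω s ≤ 1) →
    (∀ k, j ≤ k → ∀ ω, ∀ s ∈ Icc (0 : ℝ) T, X.gen U Φ k ω s = U k ω s) →
    ∀ B : Set Ω, MeasurableSet[X.ℱ j] B →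
      ∫⁻ ω in B ∩ X.At j t, U (X.idx (t + T) ω) ω 0 ∂P = ∫⁻ ω in B ∩ X.At j t, U j ω T ∂P

/-- WV-2: families founded after time `t` contribute little to a small window. -/
def RBP.NewStmt (X : RBP P μ β γ) : Prop :=
  ∃ C : ℝ, 0 < C ∧ ∀ a t T : ℝ, 0 ≤ t → 0 ≤ T →
    ∫⁻ ω, (X.New a t T ω : ℝ≥0∞) / (X.N t ω : ℝ≥0∞) ∂P ≤
      ENNReal.ofReal (C * T * Real.exp (γ * T) * (μ (Ioo a 1)).toReal)

/-- WV-3: the Laplace functional of the old families. -/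
def RBP.LaplStmt (X : RBP P μ β γ) : Prop :=
  ∀ (a t T : ℝ) (lam : ℕ → ℝ), 0 ≤ t → 0 ≤ T → (∀ m, 0 ≤ lam m) →
    ∫ ω, Real.exp (-(lam (X.N t ω) * X.Old a t T ω)) ∂P =
      ∫ ω, (∏ n ∈ Finset.range (X.M (X.idx t ω) ω), if a < X.F n ω ∧ X.F n ω < 1 then
        ((1 + (Real.exp (lam (X.N t ω)) - 1) * Real.exp (γ * X.F n ω * T))⁻¹) ^
          (X.Z (X.idx t ω) n ω) else 1) ∂P

/-- `∫_{[0,x]} e^{-γ r y} dg(y)`, by parts. -/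
noncomputable def qq (γ : ℝ) (g : ℝ → ℝ) (r x : ℝ) : ℝ :=
  Real.exp (-(γ * r * x)) * g x + γ * r * ∫ y in (0 : ℝ)..x, Real.exp (-(γ * r * y)) * g y

/-- `Q_t = N(t)⁻¹ ∑_{F n ∈ (a,1)} Z_n(t) exp (-γ (1 - F_n) T)`. -/
noncomputable def RBP.Q (X : RBP P μ β γ) (a t T : ℝ) (ω : Ω) : ℝ :=
  (∑ n ∈ Finset.range (X.M (X.idx t ω) ω), if a < X.F n ω ∧ X.F n ω < 1 then
    (X.Z (X.idx t ω) n ω : ℝ) * Real.exp (-(γ * (1 - X.F n ω) * T)) else 0) / (X.N t ω : ℝ)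

/-- WV-4: convergence of `Q`. -/
def RBP.QStmt (X : RBP P μ β γ) : Prop :=
  ∀ g : ℝ → ℝ, X.Prof g → ∀ r x ε : ℝ, 0 < r → 0 < x → 0 < ε →
    Tendsto (fun t : ℝ => P {ω | ε < |X.Q (1 - x / t) t (r * t) ω - qq γ g r x|}) atTop (𝓝 0)

/-- WV-5: law of large numbers for the old families. -/
def RBP.OldStmt (X : RBP P μ β γ) : Prop :=
  ∀ g : ℝ → ℝ, X.Prof g → ∀ r x ε : ℝ, 0 < r → 0 < x → 0 < ε →
    Tendsto (fun t : ℝ => P {ω | ε < |(X.Old (1 - x / t) t (r * t) ω : ℝ) /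
      (Real.exp (γ * (r * t)) * X.N t ω) - qq γ g r x|}) atTop (𝓝 0)

/-- WV-6a: one step of the wave. -/
def RBP.RatioStmt (X : RBP P μ β γ) : Prop :=
  ∀ g : ℝ → ℝ, X.Prof g → ∀ r x ε : ℝ, 0 < r → 0 < x → 0 < ε →
    Tendsto (fun t : ℝ => P {ω | ε < |(X.W (1 - x / t) ((1 + r) * t) ω : ℝ) /
      (Real.exp (γ * (r * t)) * X.N t ω) - qq γ g r x|}) atTop (𝓝 0)

/-- WV-6b: the functional equation. -/
def RBP.FEStmt (X : RBP P μ β γ) : Prop :=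
  ∀ g : ℝ → ℝ, X.Prof g → ∀ r x₁ x₂ : ℝ, 0 < r → 0 < x₁ → 0 < x₂ →
    qq γ g r x₁ * g ((1 + r) * x₂) = qq γ g r x₂ * g ((1 + r) * x₁)

/-- WV-7: solutions of the functional equation (pure analysis). -/
def SolStmt : Prop :=
  ∀ (γ : ℝ) (g : ℝ → ℝ), 0 < γ → (∀ x, 0 < x → 0 ≤ g x ∧ g x ≤ 1) → MonotoneOn g (Ioi 0) →
    (∀ r x₁ x₂ : ℝ, 0 < r → 0 < x₁ → 0 < x₂ →
      qq γ g r x₁ * g ((1 + r) * x₂) = qq γ g r x₂ * g ((1 + r) * x₁)) →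
    (∀ x, 0 < x → g x = 0) ∨ ∃ C κ : ℝ, 0 < C ∧ 0 ≤ κ ∧
      (∀ x, 0 < x → g x = C * (Real.exp (-(γ * x)) * x ^ κ +
        γ * ∫ y in (0 : ℝ)..x, y ^ κ * Real.exp (-(γ * y)))) ∧
      ∀ r x, 0 < r → 0 < x → qq γ g r x = (1 + r) ^ (-κ) * g ((1 + r) * x)

/-- WV-8: uniform bound of the conditional mean growth. -/
def RBP.SupStmt (X : RBP P μ β γ) : Prop :=
  ∃ C : ℝ, 0 < C ∧ ∀ t T : ℝ, 0 ≤ t → 0 ≤ T →
    ∫⁻ ω, (X.N (t + T) ω : ℝ≥0∞) / (X.N t ω : ℝ≥0∞) ∂P ≤ ENNReal.ofReal (C * Real.exp (γ * T))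

/-- WV-9: the shape is at most `α`. -/
def RBP.ShapeStmt (X : RBP P μ β γ) (α : ℝ) : Prop :=
  ∀ g : ℝ → ℝ, X.Prof g → ∀ κ : ℝ, 0 ≤ κ → (∀ x, 0 < x → 0 < g x) →
    (∀ r x, 0 < r → 0 < x → qq γ g r x = (1 + r) ^ (-κ) * g ((1 + r) * x)) → κ ≤ α

/-- The constant `ω(β,γ)`. -/
noncomputable def omg (μ : Measure ℝ) (β γ : ℝ) : ℝ := 1 - β / (β + γ) * ∫ x, 1 / (1 - x) ∂μ

/-- The distribution function of the Gamma law with shape `1 + α` and scale `1`. -/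
noncomputable def GG (α x : ℝ) : ℝ :=
  ∫ s in (0 : ℝ)..x, s ^ α * Real.exp (-s) / Real.Gamma (1 + α)

/-- WV-10: main statement. -/
def RBP.WaveStmt (X : RBP P μ β γ) (α : ℝ) : Prop :=
  (∀ g : ℝ → ℝ, X.Prof g → (∀ x, 0 < x → g x = 0) ∨ ∃ C κ : ℝ, 0 < C ∧ 0 ≤ κ ∧ κ ≤ α ∧
    ∀ x, 0 < x → g x = C * (Real.exp (-(γ * x)) * x ^ κ +
        γ * ∫ y in (0 : ℝ)..x, y ^ κ * Real.exp (-(γ * y)))) ∧
  ¬ X.Prof (fun x => omg μ β γ * GG α x)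

end Pool.Agent.R254.RB
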