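import Pool.Agent.R254.RB.Wave

/-!
# The condensation wave (MP_385430_pr), piece WV-10: the main statement
-/

open MeasureTheory ProbabilityTheory Filter Topology Set
open scoped ENNReal

namespace Pool.Agent.R254.RB

namespace WaveMainAux

variable {Ω : Type*} [mΩ : MeasurableSpace Ω] {P : Measure Ω} {μ : Measure ℝ} {β γ : ℝ}

theorem false_of_cover [IsProbabilityMeasure P] {A B : ℝ → Set Ω}
    (hA : Tendsto (fun t => P (A t)) atTop (𝓝 0)) (hB : Tendsto (fun t => P (B t)) atTop (𝓝 0))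
    (h : ∀ᶠ t in atTop, ∀ ω, ω ∈ A t ∨ ω ∈ B t) : False := by
  have h1 : Tendsto (fun t => P (A t) + P (B t)) atTop (𝓝 0) := by
    have := hA.add hB
    simpa using this
  have h2 : ∀ᶠ t in atTop, (1 : ℝ≥0∞) ≤ P (A t) + P (B t) := by
    filter_upwards [h] with t ht
    calc (1 : ℝ≥0∞) = P univ := measure_univ.symm
      _ ≤ P (A t ∪ B t) := measure_mono fun ω _ => ht ω
      _ ≤ _ := measure_union_le _ _
  have h3 := ge_of_tendsto h1 h2
  exact absurd h3 (by norm_num)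

theorem W_le_N (X : RBP P μ β γ) (a t : ℝ) (ω : Ω) : X.W a t ω ≤ X.N t ω := by
  unfold RBP.W RBP.N RBP.S
  refine Finset.sum_le_sum fun n _ => ?_
  split_ifs
  · exact le_rfl
  · exact Nat.zero_le _

theorem Xi_nonneg (X : RBP P μ β γ) (a t : ℝ) (ω : Ω) : 0 ≤ X.Xi a t ω := by
  unfold RBP.Xi; positivity

theorem Xi_le_one (X : RBP P μ β γ) (a t : ℝ) (ω : Ω) : X.Xi a t ω ≤ 1 := by
  unfold RBP.Xi
  exact div_le_one_of_le₀ (by exact_mod_cast W_le_N X a t ω) (Nat.cast_nonneg _)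

theorem Xi_anti (X : RBP P μ β γ) {a b : ℝ} (hab : a ≤ b) (t : ℝ) (ω : Ω) :
    X.Xi b t ω ≤ X.Xi a t ω := by
  unfold RBP.Xi
  refine div_le_div_of_nonneg_right ?_ (Nat.cast_nonneg _)
  have : X.W b t ω ≤ X.W a t ω := by
    unfold RBP.W
    refine Finset.sum_le_sum fun n _ => ?_
    by_cases h : b < X.F n ω ∧ X.F n ω < 1
    · rw [if_pos h, if_pos ⟨hab.trans_lt h.1, h.2⟩]
    · rw [if_neg h]; exact Nat.zero_le _
  exact_mod_cast this

theorem prof_bounds [IsProbabilityMeasure P] (X : RBP P μ β γ) {g : ℝ → ℝ} (hg : X.Prof g)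
    (x : ℝ) (hx : 0 < x) : 0 ≤ g x ∧ g x ≤ 1 := by
  constructor
  · by_contra hcon
    push Not at hcon
    have h := hg x hx (-g x / 2) (by linarith)
    refine false_of_cover h h (Eventually.of_forall fun t ω => Or.inl ?_)
    have h1 := Xi_nonneg X (1 - x / t) t ω
    show -g x / 2 < |X.Xi (1 - x / t) t ω - g x|
    exact lt_of_lt_of_le (by linarith) (le_abs_self _)
  · by_contra hcon
    push Not at hcon
    have h := hg x hx ((g x - 1) / 2) (by linarith)
    refine false_of_cover h h (Eventually.of_forall fun t ω => Or.inl ?_)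
    have h1 := Xi_le_one X (1 - x / t) t ω
    show (g x - 1) / 2 < |X.Xi (1 - x / t) t ω - g x|
    exact lt_of_lt_of_le (by linarith) (neg_le_abs _)

theorem prof_mono [IsProbabilityMeasure P] (X : RBP P μ β γ) {g : ℝ → ℝ} (hg : X.Prof g) :
    MonotoneOn g (Ioi 0) := by
  intro x hx y hy hxy
  by_contra hcon
  push Not at hcon
  have h1 := hg x hx ((g x - g y) / 3) (by linarith)
  have h2 := hg y hy ((g x - g y) / 3) (by linarith)
  refine false_of_cover h1 h2 ?_
  filter_upwards [eventually_gt_atTop (0 : ℝ)] with t ht ω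
  by_contra hno
  push Not at hno
  obtain ⟨ha, hb⟩ := hno
  rw [abs_le] at ha hb
  have h3 : X.Xi (1 - x / t) t ω ≤ X.Xi (1 - y / t) t ω := by
    apply Xi_anti
    have : x / t ≤ y / t := div_le_div_of_nonneg_right hxy ht.le
    linarith
  linarith [ha.1, hb.2]

theorem form_ge {γ C κ x : ℝ} (hγ : 0 < γ) (hC : 0 < C) (hx : 0 < x) :
    C * (Real.exp (-(γ * x)) * x ^ κ) ≤ C * (Real.exp (-(γ * x)) * x ^ κ +
        γ * ∫ y in (0 : ℝ)..x, y ^ κ * Real.exp (-(γ * y))) := by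
  refine mul_le_mul_of_nonneg_left ?_ hC.le
  have : 0 ≤ ∫ y in (0 : ℝ)..x, y ^ κ * Real.exp (-(γ * y)) := by
    refine intervalIntegral.integral_nonneg hx.le fun y hy => ?_
    exact mul_nonneg (Real.rpow_nonneg hy.1 _) (Real.exp_pos _).le
  have h2 := mul_nonneg hγ.le this
  linarith

theorem part1 [IsProbabilityMeasure P] (X : RBP P μ β γ) {α : ℝ} (hγ : 0 < γ)
    (hFE : X.FEStmt) (hSol : SolStmt) (hSh : X.ShapeStmt α) (g : ℝ → ℝ) (hg : X.Prof g) :
    (∀ x, 0 < x → g x = 0) ∨ ∃ C κ : ℝ, 0 < C ∧ 0 ≤ κ ∧ κ ≤ α ∧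
    ∀ x, 0 < x → g x = C * (Real.exp (-(γ * x)) * x ^ κ +
        γ * ∫ y in (0 : ℝ)..x, y ^ κ * Real.exp (-(γ * y))) := by
  rcases hSol γ g hγ (prof_bounds X hg) (prof_mono X hg) (hFE g hg) with h | ⟨C, κ, hC, hκ, h1, h2⟩
  · exact Or.inl h
  · refine Or.inr ⟨C, κ, hC, hκ, ?_, h1⟩
    refine hSh g hg κ hκ ?_ h2
    intro x hx
    rw [h1 x hx]
    refine lt_of_lt_of_le ?_ (form_ge hγ hC hx)
    exact mul_pos hC (mul_pos (Real.exp_pos _) (Real.rpow_pos_of_pos hx _))

theorem omg_pos {α : ℝ} (hC : Cond μ β γ α) : 0 < omg μ β γ := by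
  unfold omg
  have hb := hC.β_pos
  have hg := hC.γ_pos
  have hnn : 0 ≤ᵐ[μ] fun x : ℝ => 1 / (1 - x) := by
    have h0 : ∀ᵐ x ∂μ, x ∈ Ioo (0 : ℝ) 1 := by
      rw [ae_iff]
      exact hC.supp
    filter_upwards [h0] with x hx
    have : 0 < 1 - x := by linarith [hx.2]
    show (0 : ℝ) ≤ 1 / (1 - x)
    positivity
  have hm : AEStronglyMeasurable (fun x : ℝ => 1 / (1 - x)) μ := by
    apply Measurable.aestronglyMeasurable
    fun_prop
  rw [integral_eq_lintegral_of_nonneg_ae hnn hm]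
  have h1 := hC.cond
  have h2 : (∫⁻ x, ENNReal.ofReal (1 / (1 - x)) ∂μ).toReal < (β + γ) / β := by
    have := (ENNReal.toReal_lt_toReal (ne_top_of_lt h1) ENNReal.ofReal_ne_top).2 h1
    rwa [ENNReal.toReal_ofReal (by positivity)] at this
  have h3 : β / (β + γ) * (∫⁻ x, ENNReal.ofReal (1 / (1 - x)) ∂μ).toReal < 1 := by
    calc β / (β + γ) * (∫⁻ x, ENNReal.ofReal (1 / (1 - x)) ∂μ).toReal
        < β / (β + γ) * ((β + γ) / β) := mul_lt_mul_of_pos_left h2 (by positivity)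
      _ = 1 := by field_simp
  linarith

theorem GG_cont {α : ℝ} (hα : 0 ≤ α) :
    Continuous fun s : ℝ => s ^ α * Real.exp (-s) / Real.Gamma (1 + α) := by
  have h1 := Real.continuous_rpow_const hα
  fun_prop

theorem GG_pos {α x : ℝ} (hα : 0 ≤ α) (hx : 0 < x) : 0 < GG α x := by
  unfold GG
  have hΓ : 0 < Real.Gamma (1 + α) := Real.Gamma_pos_of_pos (by linarith)
  refine intervalIntegral.intervalIntegral_pos_of_pos_on
    ((GG_cont hα).intervalIntegrable _ _) ?_ hx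
  intro s hs
  have := Real.rpow_pos_of_pos hs.1 α
  have h2 := Real.exp_pos (-s)
  positivity

theorem GG_le {α x : ℝ} (hα : 0 ≤ α) (hx : 0 < x) :
    GG α x ≤ x ^ α * x / Real.Gamma (1 + α) := by
  unfold GG
  have hΓ : 0 < Real.Gamma (1 + α) := Real.Gamma_pos_of_pos (by linarith)
  have h1 : ∫ s in (0 : ℝ)..x, s ^ α * Real.exp (-s) / Real.Gamma (1 + α) ≤
      ∫ _s in (0 : ℝ)..x, x ^ α / Real.Gamma (1 + α) := by
    refine intervalIntegral.integral_mono_on hx.le ((GG_cont hα).intervalIntegrable _ _)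
      (continuous_const.intervalIntegrable _ _) ?_
    intro s hs
    refine div_le_div_of_nonneg_right ?_ hΓ.le
    have h2 : s ^ α ≤ x ^ α := Real.rpow_le_rpow hs.1 hs.2 hα
    have h3 : Real.exp (-s) ≤ 1 := Real.exp_le_one_iff.2 (by linarith [hs.1])
    have h4 : 0 ≤ s ^ α := Real.rpow_nonneg hs.1 _
    have h5 := Real.exp_pos (-s)
    nlinarith
  refine h1.trans (le_of_eq ?_)
  rw [intervalIntegral.integral_const, smul_eq_mul, sub_zero]
  ring

end WaveMainAux

open WaveMainAux in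
/-- WV-10 -/
theorem waveMain {Ω : Type*} [mΩ : MeasurableSpace Ω] {P : Measure Ω} {μ : Measure ℝ} {β γ : ℝ}
    [IsProbabilityMeasure P] [IsProbabilityMeasure μ] (X : RBP P μ β γ) {α : ℝ}
    (hC : Cond μ β γ α) (hFE : X.FEStmt) (hSol : SolStmt) (hSh : X.ShapeStmt α) :
    X.WaveStmt α := by
  refine ⟨part1 X hC.γ_pos hFE hSol hSh, ?_⟩
  intro hprof
  have hα0 : 0 ≤ α := by linarith [hC.one_lt]
  have hom := omg_pos hC
  have hγ := hC.γ_pos
  have hΓ : 0 < Real.Gamma (1 + α) := Real.Gamma_pos_of_pos (by linarith)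
  rcases part1 X hC.γ_pos hFE hSol hSh _ hprof with h | ⟨C, κ, hCp, hκ, hκα, h⟩
  · have h1 := h 1 one_pos
    have h2 := mul_pos hom (GG_pos hα0 one_pos)
    linarith
  · have key : ∀ x : ℝ, 0 < x → x ≤ 1 →
        C * Real.exp (-γ) ≤ omg μ β γ / Real.Gamma (1 + α) * x := by
      intro x hx hx1
      have h1 := h x hx
      have h2 := form_ge (κ := κ) hγ hCp hx
      rw [← h1] at h2
      have h3 := mul_le_mul_of_nonneg_left (GG_le hα0 hx) hom.le
      have h4 : Real.exp (-γ) ≤ Real.exp (-(γ * x)) := by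
        apply Real.exp_le_exp.2
        nlinarith
      have h5 : x ^ α ≤ x ^ κ := Real.rpow_le_rpow_of_exponent_ge hx hx1 hκα
      have h6 : 0 < x ^ α := Real.rpow_pos_of_pos hx _
      have h7 : C * (Real.exp (-γ) * x ^ α) ≤ C * (Real.exp (-(γ * x)) * x ^ κ) := by
        refine mul_le_mul_of_nonneg_left ?_ hCp.le
        exact mul_le_mul h4 h5 h6.le (Real.exp_pos _).le
      have h8 : C * Real.exp (-γ) * x ^ α ≤ omg μ β γ / Real.Gamma (1 + α) * x * x ^ α := by
        calc C * Real.exp (-γ) * x ^ α = C * (Real.exp (-γ) * x ^ α) := by ring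
          _ ≤ omg μ β γ * (x ^ α * x / Real.Gamma (1 + α)) := h7.trans (h2.trans h3)
          _ = _ := by ring
      exact le_of_mul_le_mul_right h8 h6
    have hc0 : 0 < C * Real.exp (-γ) := mul_pos hCp (Real.exp_pos _)
    obtain ⟨A, hA⟩ : ∃ A, A = omg μ β γ / Real.Gamma (1 + α) := ⟨_, rfl⟩
    have hA0 : 0 < A := by rw [hA]; positivity
    obtain ⟨x, hx⟩ : ∃ x, x = min 1 (C * Real.exp (-γ) / (2 * A)) := ⟨_, rfl⟩
    have hx0 : 0 < x := by rw [hx]; exact lt_min one_pos (by positivity)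
    have hx1 : x ≤ 1 := by rw [hx]; exact min_le_left _ _
    have hx2 : x ≤ C * Real.exp (-γ) / (2 * A) := by rw [hx]; exact min_le_right _ _
    have h9 := key x hx0 hx1
    rw [← hA] at h9
    have h10 : A * x ≤ C * Real.exp (-γ) / 2 := by
      calc A * x ≤ A * (C * Real.exp (-γ) / (2 * A)) := mul_le_mul_of_nonneg_left hx2 hA0.le
        _ = _ := by field_simp
    linarith

end Pool.Agent.R254.RB
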