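import Mathlib
import Pool.Agent.R254.RB.Wave

/-!
WV-6 (MP_385430_pr): one step of the wave and the functional equation.
-/

open MeasureTheory ProbabilityTheory Filter Topology Set
open scoped ENNReal

namespace Pool.Agent.R254.RB

variable {Ω : Type*} [mΩ : MeasurableSpace Ω] {P : Measure Ω} {μ : Measure ℝ} {β γ : ℝ}

namespace Wv6

variable (X : RBP P μ β γ)

theorem meas_M (k : ℕ) : Measurable (X.M k) := (X.meas_M k).mono (X.ℱ.le k) le_rfl

theorem meas_Z (k n : ℕ) : Measurable (X.Z k n) := (X.meas_Z k n).mono (X.ℱ.le k) le_rfl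

theorem meas_tau (k : ℕ) : Measurable (X.τ k) := (X.meas_τ k).mono (X.ℱ.le k) le_rfl

theorem meas_F' (k n : ℕ) : Measurable (fun ω => if n < X.M k ω then X.F n ω else 1) :=
  (X.meas_F k n).mono (X.ℱ.le k) le_rfl

theorem M_mono (ω : Ω) : Monotone (fun k => X.M k ω) :=
  monotone_nat_of_le_succ fun k => by rw [X.M_succ]; exact Nat.le_add_right _ _

theorem tau_mono (ω : Ω) : StrictMono (fun k => X.τ k ω) :=
  strictMono_nat_of_lt_succ fun k => X.τ_lt k ω

theorem bdd_of {ω : Ω} {t : ℝ} {m : ℕ} (h : t < X.τ m ω) : BddAbove {k | X.τ k ω ≤ t} := by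
  refine ⟨m, fun k hk => ?_⟩
  by_contra hcon
  push Not at hcon
  have h1 := (tau_mono X ω) hcon
  have h2 : X.τ k ω ≤ t := hk
  have h3 : X.τ m ω < X.τ k ω := h1
  linarith

theorem idx_mono {ω : Ω} (h : Tendsto (fun k => X.τ k ω) atTop atTop) {s t : ℝ} (hs : 0 ≤ s)
    (hst : s ≤ t) : X.idx s ω ≤ X.idx t ω := by
  obtain ⟨m, hm⟩ := (h.eventually (eventually_gt_atTop t)).exists
  refine csSup_le_csSup (bdd_of X hm) ⟨0, ?_⟩ ?_
  · show X.τ 0 ω ≤ s
    rw [X.τ_zero]
    exact hs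
  · intro k hk
    exact le_trans (show X.τ k ω ≤ s from hk) hst

theorem split {ω : Ω} (h : Tendsto (fun k => X.τ k ω) atTop atTop) (a : ℝ) {t T : ℝ} (ht : 0 ≤ t)
    (hT : 0 ≤ T) : X.W a (t + T) ω = X.Old a t T ω + X.New a t T ω := by
  unfold RBP.W RBP.Old RBP.New
  have h1 : X.M (X.idx t ω) ω ≤ X.M (X.idx (t + T) ω) ω :=
    M_mono X ω (idx_mono X h ht (by linarith))
  rw [Finset.sum_range_add_sum_Ico _ h1]

theorem lt_idx_iff (t : ℝ) (j : ℕ) (ω : Ω) :
    j < X.idx t ω ↔ (∃ m, t < X.τ m ω) ∧ X.τ (j + 1) ω ≤ t := by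
  constructor
  · intro h
    have hb : BddAbove {k | X.τ k ω ≤ t} := by
      by_contra hcon
      have h0 : X.idx t ω = 0 := by
        unfold RBP.idx
        rw [csSup_of_not_bddAbove hcon]
        simp
      omega
    have hne : {k | X.τ k ω ≤ t}.Nonempty := by
      by_contra hcon
      rw [Set.not_nonempty_iff_eq_empty] at hcon
      have h0 : X.idx t ω = 0 := by
        unfold RBP.idx
        rw [hcon]
        simp
      omega
    obtain ⟨k, hk, hjk⟩ := (lt_csSup_iff hb hne).1 h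
    obtain ⟨B, hB⟩ := hb
    refine ⟨⟨B + 1, ?_⟩, ?_⟩
    · by_contra hcon
      push Not at hcon
      have : B + 1 ≤ B := hB (show X.τ (B + 1) ω ≤ t from hcon)
      omega
    · exact le_trans ((tau_mono X ω).monotone (by omega : j + 1 ≤ k)) hk
  · rintro ⟨⟨m, hm⟩, h2⟩
    have : j + 1 ≤ X.idx t ω := le_csSup (bdd_of X hm) h2
    omega

theorem meas_idx (t : ℝ) : Measurable (X.idx t) := by
  refine measurable_of_Ioi fun j => ?_
  have e : X.idx t ⁻¹' Ioi j = (⋃ m, {ω | t < X.τ m ω}) ∩ {ω | X.τ (j + 1) ω ≤ t} := by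
    ext ω
    simp only [mem_preimage, mem_Ioi, mem_inter_iff, mem_iUnion]
    exact lt_idx_iff X t j ω
  rw [e]
  exact (MeasurableSet.iUnion fun m => measurableSet_lt measurable_const (meas_tau X m)).inter
    (measurableSet_le (meas_tau X (j + 1)) measurable_const)

theorem meas_N (t : ℝ) : Measurable (X.N t) := by
  have hS : ∀ k, Measurable (X.S k) := by
    intro k
    have h1 : Measurable (fun p : ℕ × Ω => ∑ m ∈ Finset.range p.1, X.Z k m p.2) := by
      refine measurable_from_prod_countable_right fun n => ?_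
      show Measurable (fun y : Ω => ∑ m ∈ Finset.range n, X.Z k m y)
      exact Finset.measurable_fun_sum _ fun m _ => meas_Z X k m
    exact h1.comp ((meas_M X k).prodMk measurable_id)
  have h2 : Measurable (fun p : ℕ × Ω => X.S p.1 p.2) :=
    measurable_from_prod_countable_right fun n => hS n
  exact h2.comp ((meas_idx X t).prodMk measurable_id)

theorem meas_New (a t T : ℝ) : Measurable (X.New a t T) := by
  have h1 : ∀ j k : ℕ, Measurable (fun ω => ∑ n ∈ Finset.Ico (X.M j ω) (X.M k ω),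
      if a < X.F n ω ∧ X.F n ω < 1 then X.Z k n ω else 0) := by
    intro j k
    have g1 : ∀ n, Measurable (fun ω => if a < (if n < X.M k ω then X.F n ω else 1) ∧
        (if n < X.M k ω then X.F n ω else 1) < 1 then X.Z k n ω else 0) := by
      intro n
      refine Measurable.ite ?_ (meas_Z X k n) measurable_const
      exact (measurableSet_lt measurable_const (meas_F' X k n)).inter
        (measurableSet_lt (meas_F' X k n) measurable_const)
    have g2 : Measurable (fun p : (ℕ × ℕ) × Ω => ∑ n ∈ Finset.Ico p.1.1 p.1.2,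
        if a < (if n < X.M k p.2 then X.F n p.2 else 1) ∧
        (if n < X.M k p.2 then X.F n p.2 else 1) < 1 then X.Z k n p.2 else 0) := by
      refine measurable_from_prod_countable_right fun q => ?_
      show Measurable (fun y : Ω => ∑ n ∈ Finset.Ico q.1 q.2,
        if a < (if n < X.M k y then X.F n y else 1) ∧
        (if n < X.M k y then X.F n y else 1) < 1 then X.Z k n y else 0)
      exact Finset.measurable_fun_sum _ fun n _ => g1 n
    have g3 := g2.comp (((meas_M X j).prodMk (meas_M X k)).prodMk measurable_id)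
    have e : (fun ω => ∑ n ∈ Finset.Ico (X.M j ω) (X.M k ω),
        if a < X.F n ω ∧ X.F n ω < 1 then X.Z k n ω else 0) =
        ((fun p : (ℕ × ℕ) × Ω => ∑ n ∈ Finset.Ico p.1.1 p.1.2,
        if a < (if n < X.M k p.2 then X.F n p.2 else 1) ∧
        (if n < X.M k p.2 then X.F n p.2 else 1) < 1 then X.Z k n p.2 else 0) ∘
        fun ω => ((X.M j ω, X.M k ω), id ω)) := by
      funext ω
      show ∑ n ∈ Finset.Ico (X.M j ω) (X.M k ω),
        (if a < X.F n ω ∧ X.F n ω < 1 then X.Z k n ω else 0) =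
        ∑ n ∈ Finset.Ico (X.M j ω) (X.M k ω),
        if a < (if n < X.M k ω then X.F n ω else 1) ∧
        (if n < X.M k ω then X.F n ω else 1) < 1 then X.Z k n ω else 0
      refine Finset.sum_congr rfl fun n hn => ?_
      rw [if_pos (Finset.mem_Ico.1 hn).2]
    rw [e]
    exact g3
  have h2 : Measurable (fun p : (ℕ × ℕ) × Ω => ∑ n ∈ Finset.Ico (X.M p.1.1 p.2) (X.M p.1.2 p.2),
      if a < X.F n p.2 ∧ X.F n p.2 < 1 then X.Z p.1.2 n p.2 else 0) := by
    refine measurable_from_prod_countable_right fun q => ?_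
    exact h1 q.1 q.2
  exact h2.comp (((meas_idx X t).prodMk (meas_idx X (t + T))).prodMk measurable_id)

theorem small [IsProbabilityMeasure μ] {α : ℝ} (hC : Cond μ β γ α) (hPot : PotterStmt) (r x : ℝ)
    (hx : 0 < x) :
    Tendsto (fun t : ℝ => r * t * (μ (Ioo (1 - x / t) 1)).toReal) atTop (𝓝 0) := by
  have hα := hC.one_lt
  have hp := hPot μ inferInstance α hC.rv hC.ess ((α - 1) / 2) (by linarith)
  have hlim : Tendsto (fun t : ℝ => x / t) atTop (𝓝[>] 0) := by
    rw [tendsto_nhdsWithin_iff]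
    refine ⟨tendsto_const_nhds.div_atTop tendsto_id, ?_⟩
    filter_upwards [eventually_gt_atTop 0] with t ht
    exact div_pos hx ht
  have hev := hlim.eventually hp
  set q : ℝ := α - (α - 1) / 2 with hq
  have hq1 : 1 < q := by rw [hq]; linarith
  have hmain : Tendsto (fun t : ℝ => |r| * x ^ q * t ^ (-(q - 1))) atTop (𝓝 0) := by
    have h := (tendsto_rpow_neg_atTop (by linarith : 0 < q - 1)).const_mul (|r| * x ^ q)
    simpa using h
  refine squeeze_zero_norm' ?_ hmain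
  filter_upwards [hev, eventually_gt_atTop 0] with t h1 ht
  rw [Real.norm_eq_abs, abs_mul, abs_mul, abs_of_pos ht, abs_of_nonneg ENNReal.toReal_nonneg]
  have h2 : (μ (Ioo (1 - x / t) 1)).toReal ≤ (x / t) ^ q := h1.2
  have h3 : (x / t) ^ q = x ^ q * t ^ (-q) := by
    rw [Real.div_rpow hx.le ht.le, Real.rpow_neg ht.le]
    rfl
  have h4 : t * t ^ (-q) = t ^ (-(q - 1)) := by
    have : t ^ (-(q - 1)) = t ^ (1 + -q) := by congr 1; ring
    rw [this, Real.rpow_add ht, Real.rpow_one]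
  calc |r| * t * (μ (Ioo (1 - x / t) 1)).toReal ≤ |r| * t * (x / t) ^ q :=
        mul_le_mul_of_nonneg_left h2 (by positivity)
    _ = |r| * x ^ q * (t * t ^ (-q)) := by rw [h3]; ring
    _ = |r| * x ^ q * t ^ (-(q - 1)) := by rw [h4]

theorem ratio [IsProbabilityMeasure P] [IsProbabilityMeasure μ] (X : RBP P μ β γ) {α : ℝ}
    (hC : Cond μ β γ α) (hNE : X.NonExpStmt) (hOld : X.OldStmt) (hNew : X.NewStmt)
    (hPot : PotterStmt) : X.RatioStmt := by
  intro g hg r x ε hr hx hε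
  obtain ⟨C, hC0, hNew⟩ := hNew
  have h1 := hOld g hg r x (ε / 2) hr hx (by linarith)
  have h2 : Tendsto (fun t : ℝ => ENNReal.ofReal
      (2 * C / ε * (r * t * (μ (Ioo (1 - x / t) 1)).toReal))) atTop (𝓝 0) := by
    have h := (small (β := β) (γ := γ) hC hPot r x hx).const_mul (2 * C / ε)
    rw [mul_zero] at h
    have h' := (ENNReal.continuous_ofReal.tendsto 0).comp h
    rw [ENNReal.ofReal_zero] at h'
    exact h'
  have h3 := h1.add h2
  rw [add_zero] at h3
  refine tendsto_of_tendsto_of_tendsto_of_le_of_le' tendsto_const_nhds h3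
    (Eventually.of_forall fun t => bot_le) ?_
  filter_upwards [eventually_gt_atTop 0] with t ht
  have hT : 0 ≤ r * t := by positivity
  have hexp : 0 < Real.exp (γ * (r * t)) := Real.exp_pos _
  set D : Ω → ℝ := fun ω => Real.exp (γ * (r * t)) * X.N t ω with hD
  have hsub : {ω | ε < |(X.W (1 - x / t) ((1 + r) * t) ω : ℝ) /
      (Real.exp (γ * (r * t)) * X.N t ω) - qq γ g r x|} ≤ᵐ[P]
      ({ω | ε / 2 < |(X.Old (1 - x / t) t (r * t) ω : ℝ) /
      (Real.exp (γ * (r * t)) * X.N t ω) - qq γ g r x|} ∪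
      {ω | ENNReal.ofReal (ε / 2 * Real.exp (γ * (r * t))) ≤
        (X.New (1 - x / t) t (r * t) ω : ℝ≥0∞) / (X.N t ω : ℝ≥0∞)} : Set Ω) := by
    filter_upwards [hNE] with ω hω hlt
    have hlt' : ε < |(X.W (1 - x / t) ((1 + r) * t) ω : ℝ) /
      (Real.exp (γ * (r * t)) * X.N t ω) - qq γ g r x| := hlt
    have e1 : (1 + r) * t = t + r * t := by ring
    rw [e1, split X hω (1 - x / t) ht.le hT] at hlt'
    push_cast at hlt'
    rw [add_div] at hlt'
    by_cases hc : ε / 2 < |(X.Old (1 - x / t) t (r * t) ω : ℝ) /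
      (Real.exp (γ * (r * t)) * X.N t ω) - qq γ g r x|
    · exact Or.inl hc
    · right
      push Not at hc
      show ENNReal.ofReal (ε / 2 * Real.exp (γ * (r * t))) ≤
        (X.New (1 - x / t) t (r * t) ω : ℝ≥0∞) / (X.N t ω : ℝ≥0∞)
      set A := (X.Old (1 - x / t) t (r * t) ω : ℝ) / (Real.exp (γ * (r * t)) * X.N t ω) with hA
      set B := (X.New (1 - x / t) t (r * t) ω : ℝ) / (Real.exp (γ * (r * t)) * X.N t ω) with hB
      have hB0 : 0 ≤ B := by positivity
      have h5 : |A + B - qq γ g r x| ≤ |A - qq γ g r x| + B := by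
        have : A + B - qq γ g r x = (A - qq γ g r x) + B := by ring
        rw [this]
        refine (abs_add_le _ _).trans ?_
        rw [abs_of_nonneg hB0]
      have h6 : ε / 2 < B := by linarith
      have hN : (X.N t ω : ℝ) ≠ 0 := by
        intro h0
        rw [hB, h0, mul_zero, div_zero] at h6
        linarith
      have hNpos : 0 < (X.N t ω : ℝ) := lt_of_le_of_ne (Nat.cast_nonneg _) (Ne.symm hN)
      have h7 : ε / 2 * Real.exp (γ * (r * t)) ≤
          (X.New (1 - x / t) t (r * t) ω : ℝ) / X.N t ω := by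
        rw [hB, lt_div_iff₀ (by positivity)] at h6
        rw [le_div_iff₀ hNpos]
        linarith
      have h8 := ENNReal.ofReal_le_ofReal h7
      rw [ENNReal.ofReal_div_of_pos hNpos, ENNReal.ofReal_natCast, ENNReal.ofReal_natCast] at h8
      exact h8
  refine (measure_mono_ae hsub).trans ((measure_union_le _ _).trans ?_)
  refine add_le_add le_rfl ?_
  have hmeas : AEMeasurable (fun ω => (X.New (1 - x / t) t (r * t) ω : ℝ≥0∞) /
      (X.N t ω : ℝ≥0∞)) P :=
    ((measurable_from_nat (f := fun n : ℕ => (n : ℝ≥0∞))).comp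
      (meas_New X (1 - x / t) t (r * t))).aemeasurable.div
    ((measurable_from_nat (f := fun n : ℕ => (n : ℝ≥0∞))).comp (meas_N X t)).aemeasurable
  have hpos : 0 < ε / 2 * Real.exp (γ * (r * t)) := by positivity
  have hM := meas_ge_le_lintegral_div hmeas (ε := ENNReal.ofReal (ε / 2 * Real.exp (γ * (r * t))))
    (by rw [Ne, ENNReal.ofReal_eq_zero]; linarith) ENNReal.ofReal_ne_top
  refine hM.trans ?_
  refine (ENNReal.div_le_div_right (hNew (1 - x / t) t (r * t) ht.le hT) _).trans ?_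
  rw [← ENNReal.ofReal_div_of_pos hpos]
  apply ENNReal.ofReal_le_ofReal
  apply le_of_eq
  field_simp

theorem fe_of_ratio [IsProbabilityMeasure P] (X : RBP P μ β γ) (hR : X.RatioStmt) :
    X.FEStmt := by
  intro g hg r x₁ x₂ hr hx₁ hx₂
  by_contra hne
  set q₁ := qq γ g r x₁ with hq₁
  set q₂ := qq γ g r x₂ with hq₂
  set g₁ := g ((1 + r) * x₁) with hg₁
  set g₂ := g ((1 + r) * x₂) with hg₂
  have hδ : 0 < |q₁ * g₂ - q₂ * g₁| := abs_pos.2 (sub_ne_zero.2 hne)
  set S : ℝ := |q₁| + |g₂| + |q₂| + |g₁| + 3 with hS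
  have hS0 : 0 < S := by positivity
  obtain ⟨ε, hε0, hε1, hεS⟩ : ∃ ε : ℝ, 0 < ε ∧ ε ≤ 1 ∧ ε * S < |q₁ * g₂ - q₂ * g₁| := by
    refine ⟨min 1 (|q₁ * g₂ - q₂ * g₁| / (2 * S)), by positivity, min_le_left _ _, ?_⟩
    have h1 : min 1 (|q₁ * g₂ - q₂ * g₁| / (2 * S)) * S ≤
        |q₁ * g₂ - q₂ * g₁| / (2 * S) * S :=
      mul_le_mul_of_nonneg_right (min_le_right _ _) hS0.le
    have h2 : |q₁ * g₂ - q₂ * g₁| / (2 * S) * S = |q₁ * g₂ - q₂ * g₁| / 2 := by field_simp
    linarith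
  have hlim : Tendsto (fun t : ℝ => (1 + r) * t) atTop atTop :=
    tendsto_id.const_mul_atTop (by linarith)
  have hX : ∀ x : ℝ, 0 < x → Tendsto (fun t : ℝ => P {ω | ε < |X.Xi (1 - x / t) ((1 + r) * t) ω -
      g ((1 + r) * x)|}) atTop (𝓝 0) := by
    intro x hx
    have h := (hg ((1 + r) * x) (by positivity) ε hε0).comp hlim
    refine h.congr fun t => ?_
    show P {ω | ε < |X.Xi (1 - (1 + r) * x / ((1 + r) * t)) ((1 + r) * t) ω -
      g ((1 + r) * x)|} = _
    rw [mul_div_mul_left _ _ (by linarith : (1 + r) ≠ 0)]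
  have hA := ((hR g hg r x₁ ε hr hx₁ hε0).add (hR g hg r x₂ ε hr hx₂ hε0)).add
    ((hX x₁ hx₁).add (hX x₂ hx₂))
  simp only [add_zero] at hA
  have hge : ∀ t : ℝ, 1 ≤ P {ω | ε < |(X.W (1 - x₁ / t) ((1 + r) * t) ω : ℝ) /
      (Real.exp (γ * (r * t)) * X.N t ω) - qq γ g r x₁|} +
      P {ω | ε < |(X.W (1 - x₂ / t) ((1 + r) * t) ω : ℝ) /
      (Real.exp (γ * (r * t)) * X.N t ω) - qq γ g r x₂|} +
      (P {ω | ε < |X.Xi (1 - x₁ / t) ((1 + r) * t) ω - g ((1 + r) * x₁)|} +
      P {ω | ε < |X.Xi (1 - x₂ / t) ((1 + r) * t) ω - g ((1 + r) * x₂)|}) := by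
    intro t
    have hcov : (univ : Set Ω) ⊆ ({ω | ε < |(X.W (1 - x₁ / t) ((1 + r) * t) ω : ℝ) /
      (Real.exp (γ * (r * t)) * X.N t ω) - qq γ g r x₁|} ∪
      {ω | ε < |(X.W (1 - x₂ / t) ((1 + r) * t) ω : ℝ) /
      (Real.exp (γ * (r * t)) * X.N t ω) - qq γ g r x₂|}) ∪
      ({ω | ε < |X.Xi (1 - x₁ / t) ((1 + r) * t) ω - g ((1 + r) * x₁)|} ∪
      {ω | ε < |X.Xi (1 - x₂ / t) ((1 + r) * t) ω - g ((1 + r) * x₂)|}) := by
      intro ω _
      by_contra hcon
      simp only [mem_union, not_or] at hcon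
      obtain ⟨⟨a1, a2⟩, a3, a4⟩ := hcon
      have b1 : |(X.W (1 - x₁ / t) ((1 + r) * t) ω : ℝ) /
        (Real.exp (γ * (r * t)) * X.N t ω) - q₁| ≤ ε := not_lt.1 fun h => a1 h
      have b2 : |(X.W (1 - x₂ / t) ((1 + r) * t) ω : ℝ) /
        (Real.exp (γ * (r * t)) * X.N t ω) - q₂| ≤ ε := not_lt.1 fun h => a2 h
      have b3 : |X.Xi (1 - x₁ / t) ((1 + r) * t) ω - g₁| ≤ ε := not_lt.1 fun h => a3 h
      have b4 : |X.Xi (1 - x₂ / t) ((1 + r) * t) ω - g₂| ≤ ε := not_lt.1 fun h => a4 h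
      set V₁ := (X.W (1 - x₁ / t) ((1 + r) * t) ω : ℝ) / (Real.exp (γ * (r * t)) * X.N t ω)
        with hV₁
      set V₂ := (X.W (1 - x₂ / t) ((1 + r) * t) ω : ℝ) / (Real.exp (γ * (r * t)) * X.N t ω)
        with hV₂
      set Y₁ := X.Xi (1 - x₁ / t) ((1 + r) * t) ω with hY₁
      set Y₂ := X.Xi (1 - x₂ / t) ((1 + r) * t) ω with hY₂
      have hid : V₁ * Y₂ = V₂ * Y₁ := by
        rw [hV₁, hV₂, hY₁, hY₂]
        unfold RBP.Xi
        ring
      have key : ∀ V q Y h : ℝ, |V - q| ≤ ε → |Y - h| ≤ ε →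
          |V * Y - q * h| ≤ ε * (|q| + |h| + 1) := by
        intro V q Y h k1 k2
        have e : V * Y - q * h = (V - q) * (Y - h) + (V - q) * h + q * (Y - h) := by ring
        rw [e]
        refine (abs_add_le _ _).trans ?_
        refine (add_le_add (abs_add_le _ _) le_rfl).trans ?_
        rw [abs_mul, abs_mul, abs_mul]
        have m1 : |V - q| * |Y - h| ≤ ε * 1 :=
          mul_le_mul k1 (k2.trans hε1) (abs_nonneg _) hε0.le
        have m2 : |V - q| * |h| ≤ ε * |h| := mul_le_mul_of_nonneg_right k1 (abs_nonneg _)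
        have m3 : |q| * |Y - h| ≤ |q| * ε := mul_le_mul_of_nonneg_left k2 (abs_nonneg _)
        linarith
      have c1 := key V₁ q₁ Y₂ g₂ b1 b4
      have c2 := key V₂ q₂ Y₁ g₁ b2 b3
      rw [hid] at c1
      have c3 : |q₁ * g₂ - q₂ * g₁| ≤ |V₂ * Y₁ - q₁ * g₂| + |V₂ * Y₁ - q₂ * g₁| := by
        have e : q₁ * g₂ - q₂ * g₁ = -(V₂ * Y₁ - q₁ * g₂) + (V₂ * Y₁ - q₂ * g₁) := by ring
        rw [e]
        refine (abs_add_le _ _).trans ?_
        rw [abs_neg]
      have c4 : ε * (|q₁| + |g₂| + 1) + ε * (|q₂| + |g₁| + 1) ≤ ε * S := by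
        rw [hS]
        nlinarith
      linarith
    have h1 : (1 : ℝ≥0∞) = P univ := measure_univ.symm
    rw [h1]
    refine (measure_mono hcov).trans ((measure_union_le _ _).trans ?_)
    exact add_le_add (measure_union_le _ _) (measure_union_le _ _)
  have hfin := ge_of_tendsto' hA hge
  exact absurd hfin (by simp)

theorem fe [IsProbabilityMeasure P] [IsProbabilityMeasure μ] (X : RBP P μ β γ) {α : ℝ}
    (hC : Cond μ β γ α) (hNE : X.NonExpStmt) (hOld : X.OldStmt) (hNew : X.NewStmt)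
    (hPot : PotterStmt) : X.FEStmt :=
  fe_of_ratio X (ratio X hC hNE hOld hNew hPot)

end Wv6

end Pool.Agent.R254.RB
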