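import Pool.Agent.R254.RB.Wave

/-!
# WV-2 (MP_385430_pr): families founded after time `t` contribute little to a small window.
-/

set_option autoImplicit false
set_option maxHeartbeats 1000000

open MeasureTheory ProbabilityTheory Filter Topology Set
open scoped ENNReal

namespace Pool.Agent.R254.RB.WN

theorem sum_pr {β γ : ℝ} (A B C : ℝ) :
    ∑ j : Fin 3, pr β γ j * (A + (if j ≠ 1 then B else 0) + (if j ≠ 2 then C else 0)) =
      A + γ * B + β * C := by
  rw [Fin.sum_univ_three]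
  have e10 : (1 : Fin 3) ≠ 0 := by decide
  have e20 : (2 : Fin 3) ≠ 0 := by decide
  have e21 : (2 : Fin 3) ≠ 1 := by decide
  have e01 : (0 : Fin 3) ≠ 1 := by decide
  have e02 : (0 : Fin 3) ≠ 2 := by decide
  have e12 : (1 : Fin 3) ≠ 2 := by decide
  simp only [pr, e10, e20, e21, e01, e02, e12, if_true, if_false, ne_eq, not_true, not_false_iff]
  ring

theorem pr0 {β γ : ℝ} (hβ1 : β ≤ 1) (hγ1 : γ ≤ 1) (hβγ : 1 ≤ β + γ) (j : Fin 3) :
    0 ≤ pr β γ j := by
  unfold pr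
  split_ifs <;> linarith

/-- The inequality for the generator, for fixed data. -/
theorem core {β γ : ℝ} (hβ : 0 ≤ β) (hβ1 : β ≤ 1) (hγ : 0 ≤ γ) (hγ1 : γ ≤ 1) (hβγ : 1 ≤ β + γ)
    (N : ℕ) (x : ℕ → ℝ) (z : ℕ → ℕ) (hx : ∀ n < N, x n ∈ Ioc (0 : ℝ) 1) (R : ℝ) (hR : 0 ≤ R)
    (hRs : R = ∑ n ∈ Finset.range N, x n * z n) (w w' : ℕ → ℝ → ℝ) (c : ℝ → ℝ) (s : ℝ)
    (hs : 0 ≤ s) (hw0 : ∀ n < N, ∀ v, 0 ≤ v → 0 ≤ w n v) (hc0 : ∀ v, 0 ≤ v → 0 ≤ c v)
    (hd : ∀ n < N, ∀ v, HasDerivAt (w n) (w' n v) v) (hcont : ∀ n < N, Continuous (w' n))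
    (hsup : ∀ n < N, ∀ v, 0 ≤ v → x n * (γ * w n v + β * c v) ≤ w' n v)
    (G : ℕ → Fin 3 → ℝ → ℝ≥0∞)
    (hG : ∀ n < N, ∀ i, ∀ v, 0 ≤ v → G n i v ≤ ENNReal.ofReal ((∑ m ∈ Finset.range N,
      (z m : ℝ) * w m v) + (if i ≠ 1 then w n v else 0) + (if i ≠ 2 then c v else 0))) :
    ENNReal.ofReal (Real.exp (-R * s)) * ENNReal.ofReal (∑ m ∈ Finset.range N, (z m : ℝ) * w m 0) +
      ∫⁻ v in Ioo (0 : ℝ) s, (∑ n ∈ Finset.range N, ∑ i : Fin 3, ENNReal.ofReal (pr β γ i) *
        (ENNReal.ofReal (x n * z n * Real.exp (-R * v)) * G n i (s - v))) ≤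
      ENNReal.ofReal (∑ m ∈ Finset.range N, (z m : ℝ) * w m s) := by
  have hp := pr0 hβ1 hγ1 hβγ
  set Wf : ℝ → ℝ := fun v => ∑ m ∈ Finset.range N, (z m : ℝ) * w m v with hWf
  set Wd : ℝ → ℝ := fun v => ∑ m ∈ Finset.range N, (z m : ℝ) * w' m v with hWd
  have hWf0 : ∀ v, 0 ≤ v → 0 ≤ Wf v := fun v hv => Finset.sum_nonneg (fun m hm =>
    mul_nonneg (Nat.cast_nonneg _) (hw0 m (Finset.mem_range.1 hm) v hv))
  have hder : ∀ v, HasDerivAt Wf (Wd v) v := by
    intro v
    refine HasDerivAt.fun_sum (fun m hm => ?_)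
    exact (hd m (Finset.mem_range.1 hm) v).const_mul _
  have hWdc : Continuous Wd := by
    refine continuous_finsetSum _ (fun m hm => ?_)
    exact continuous_const.mul (hcont m (Finset.mem_range.1 hm))
  have hWfc : Continuous Wf := continuous_iff_continuousAt.2 fun v => (hder v).continuousAt
  have hw'0 : ∀ v, 0 ≤ v → ∀ n < N, 0 ≤ w' n v := by
    intro v hv n hn
    have h1 := hsup n hn v hv
    have h2 := hw0 n hn v hv
    have h4 : 0 ≤ x n * (γ * w n v + β * c v) :=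
      mul_nonneg (hx n hn).1.le (add_nonneg (mul_nonneg hγ h2) (mul_nonneg hβ (hc0 v hv)))
    linarith
  have hWd0 : ∀ v, 0 ≤ v → 0 ≤ Wd v := fun v hv => Finset.sum_nonneg (fun m hm =>
    mul_nonneg (Nat.cast_nonneg _) (hw'0 v hv m (Finset.mem_range.1 hm)))
  have hsumA : ∀ u : ℝ, ∑ n ∈ Finset.range N, x n * z n * Real.exp (-R * u) =
      R * Real.exp (-R * u) := by
    intro u
    rw [← Finset.sum_mul, ← hRs]
  have hAn : ∀ u : ℝ, ∀ n ∈ Finset.range N, 0 ≤ x n * z n * Real.exp (-R * u) := by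
    intro u n hn
    exact mul_nonneg (mul_nonneg (hx n (Finset.mem_range.1 hn)).1.le (Nat.cast_nonneg _))
      (Real.exp_pos _).le
  have step3 : ∀ u ∈ Ioo (0 : ℝ) s, ∑ n ∈ Finset.range N, ∑ j : Fin 3,
      ENNReal.ofReal (pr β γ j) *
        (ENNReal.ofReal (x n * z n * Real.exp (-R * u)) * G n j (s - u)) ≤
      ENNReal.ofReal (R * Real.exp (-R * u) * Wf (s - u) + Real.exp (-R * u) * Wd (s - u)) := by
    intro u hu
    have hv : 0 ≤ s - u := by linarith [hu.2]
    set v := s - u with hvdef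
    have e1 : ∀ n ∈ Finset.range N, ∑ j : Fin 3, ENNReal.ofReal (pr β γ j) *
        (ENNReal.ofReal (x n * z n * Real.exp (-R * u)) * G n j v) ≤
        ENNReal.ofReal ((x n * z n * Real.exp (-R * u)) *
          (Wf v + γ * w n v + β * c v)) := by
      intro n hn
      have hB := hw0 n (Finset.mem_range.1 hn) v hv
      have hcv := hc0 v hv
      rw [← sum_pr, Finset.mul_sum, ENNReal.ofReal_sum_of_nonneg]
      · refine Finset.sum_le_sum (fun j _ => ?_)
        refine (mul_le_mul_right (mul_le_mul_right (hG n (Finset.mem_range.1 hn) j v hv) _)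
          _).trans (le_of_eq ?_)
        rw [← ENNReal.ofReal_mul (hAn u n hn), ← ENNReal.ofReal_mul (hp j)]
        congr 1
        ring
      · intro j _
        refine mul_nonneg (hAn u n hn) (mul_nonneg (hp j) ?_)
        have := hWf0 v hv
        split_ifs <;> linarith
    refine (Finset.sum_le_sum e1).trans ?_
    rw [← ENNReal.ofReal_sum_of_nonneg]
    · apply ENNReal.ofReal_le_ofReal
      have e2 : ∀ n ∈ Finset.range N, (x n * z n * Real.exp (-R * u)) *
          (Wf v + γ * w n v + β * c v) ≤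
          (x n * z n * Real.exp (-R * u)) * Wf v +
            Real.exp (-R * u) * ((z n : ℝ) * w' n v) := by
        intro n hn
        have h1 := hsup n (Finset.mem_range.1 hn) v hv
        have h2 : (0 : ℝ) ≤ z n * Real.exp (-R * u) :=
          mul_nonneg (Nat.cast_nonneg _) (Real.exp_pos _).le
        have h3 := mul_le_mul_of_nonneg_left h1 h2
        nlinarith [h3]
      refine (Finset.sum_le_sum e2).trans (le_of_eq ?_)
      rw [Finset.sum_add_distrib, ← Finset.sum_mul, hsumA, ← Finset.mul_sum]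
    · intro n hn
      refine mul_nonneg (hAn u n hn) ?_
      have := hWf0 v hv
      have h3 : 0 ≤ γ * w n v := mul_nonneg hγ (hw0 n (Finset.mem_range.1 hn) v hv)
      have h4 : 0 ≤ β * c v := mul_nonneg hβ (hc0 v hv)
      linarith
  have hcontf : Continuous (fun u => R * Real.exp (-R * u) * Wf (s - u) +
      Real.exp (-R * u) * Wd (s - u)) := by
    have h1 : Continuous (fun u : ℝ => Wf (s - u)) := hWfc.comp (by fun_prop)
    have h2 : Continuous (fun u : ℝ => Wd (s - u)) := hWdc.comp (by fun_prop)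
    have h3 : Continuous (fun u : ℝ => Real.exp (-R * u)) := by fun_prop
    exact ((continuous_const.mul h3).mul h1).add (h3.mul h2)
  have hFTC : ∫ u in (0 : ℝ)..s, (R * Real.exp (-R * u) * Wf (s - u) +
      Real.exp (-R * u) * Wd (s - u)) = Wf s - Real.exp (-R * s) * Wf 0 := by
    have hdd : ∀ u ∈ uIcc 0 s, HasDerivAt (fun u => -(Real.exp (-R * u) * Wf (s - u)))
        (R * Real.exp (-R * u) * Wf (s - u) + Real.exp (-R * u) * Wd (s - u)) u := by
      intro u _
      have h1 : HasDerivAt (fun u : ℝ => s - u) (-1) u := by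
        simpa using (hasDerivAt_id u).const_sub s
      have h2 : HasDerivAt (fun u => Wf (s - u)) (Wd (s - u) * (-1)) u :=
        (hder (s - u)).comp u h1
      have h3 : HasDerivAt (fun u : ℝ => Real.exp (-R * u)) (Real.exp (-R * u) * (-R)) u := by
        have h4 : HasDerivAt (fun u : ℝ => -R * u) (-R) u := by
          simpa using (hasDerivAt_id u).const_mul (-R)
        exact h4.exp
      refine ((h3.fun_mul h2).fun_neg).congr_deriv ?_
      ring
    rw [intervalIntegral.integral_eq_sub_of_hasDerivAt hdd (hcontf.intervalIntegrable _ _)]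
    have q1 : s - s = 0 := sub_self _
    have q2 : s - 0 = s := sub_zero _
    have q3 : Real.exp (-R * 0) = 1 := by rw [mul_zero, Real.exp_zero]
    rw [q1, q2, q3]
    ring
  have hnn : ∀ u ∈ Icc (0 : ℝ) s, 0 ≤ R * Real.exp (-R * u) * Wf (s - u) +
      Real.exp (-R * u) * Wd (s - u) := by
    intro u hu
    have hv : 0 ≤ s - u := by linarith [hu.2]
    exact add_nonneg (mul_nonneg (mul_nonneg hR (Real.exp_pos _).le) (hWf0 _ hv))
      (mul_nonneg (Real.exp_pos _).le (hWd0 _ hv))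
  have hint' : IntegrableOn (fun u => R * Real.exp (-R * u) * Wf (s - u) +
      Real.exp (-R * u) * Wd (s - u)) (Ioc 0 s) :=
    (intervalIntegrable_iff_integrableOn_Ioc_of_le hs).1 (hcontf.intervalIntegrable _ _)
  have h5 : ∫⁻ v in Ioo (0 : ℝ) s, (∑ n ∈ Finset.range N, ∑ i : Fin 3, ENNReal.ofReal (pr β γ i) *
        (ENNReal.ofReal (x n * z n * Real.exp (-R * v)) * G n i (s - v))) ≤
      ENNReal.ofReal (Wf s - Real.exp (-R * s) * Wf 0) := by
    refine (setLIntegral_mono' measurableSet_Ioo step3).trans ?_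
    refine (lintegral_mono_set Ioo_subset_Ioc_self).trans (le_of_eq ?_)
    rw [← ofReal_integral_eq_lintegral_ofReal hint', ← intervalIntegral.integral_of_le hs, hFTC]
    refine (ae_restrict_iff' measurableSet_Ioc).2 (Eventually.of_forall (fun u hu => ?_))
    exact hnn u ⟨hu.1.le, hu.2⟩
  have h6 : 0 ≤ Wf s - Real.exp (-R * s) * Wf 0 := by
    rw [← hFTC]
    exact intervalIntegral.integral_nonneg hs hnn
  refine (add_le_add_right h5 _).trans (le_of_eq ?_)
  rw [← ENNReal.ofReal_mul (Real.exp_pos _).le, ← ENNReal.ofReal_add]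
  · congr 1
    ring
  · exact mul_nonneg (Real.exp_pos _).le (hWf0 0 le_rfl)
  · exact h6


/-! ### The weights -/

/-- The weight at time `0` of an individual of fitness `f` in a new family. -/
noncomputable def hh (β γ a D f : ℝ) : ℝ := (if a < f then 1 else 0) + β / γ * D * (f / (1 - f))

/-- The weight of an individual of fitness `f` in the family `m`, the families `m < mj` are old. -/
noncomputable def ww (β γ a D : ℝ) (m mj : ℕ) (f s : ℝ) : ℝ :=
  Real.exp (γ * s) * (if m < mj ∨ 1 ≤ f then β * D * s else hh β γ a D f)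

theorem hh_nonneg {β γ a D f : ℝ} (hβ : 0 ≤ β) (hγ : 0 < γ) (hD : 0 ≤ D) (h0 : 0 < f)
    (h1 : f < 1) : 0 ≤ hh β γ a D f := by
  unfold hh
  have h2 : 0 ≤ β / γ * D * (f / (1 - f)) :=
    mul_nonneg (mul_nonneg (div_nonneg hβ hγ.le) hD) (div_nonneg h0.le (by linarith))
  split_ifs <;> linarith

theorem one_le_hh {β γ a D f : ℝ} (hβ : 0 ≤ β) (hγ : 0 < γ) (hD : 0 ≤ D) (h0 : 0 < f)
    (h1 : f < 1) (ha : a < f) : 1 ≤ hh β γ a D f := by
  unfold hh
  have h2 : 0 ≤ β / γ * D * (f / (1 - f)) :=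
    mul_nonneg (mul_nonneg (div_nonneg hβ hγ.le) hD) (div_nonneg h0.le (by linarith))
  rw [if_pos ha]
  linarith

theorem ww_nonneg {β γ a D f s : ℝ} {m mj : ℕ} (hβ : 0 ≤ β) (hγ : 0 < γ) (hD : 0 ≤ D)
    (h0 : 0 < f) (hs : 0 ≤ s) : 0 ≤ ww β γ a D m mj f s := by
  unfold ww
  refine mul_nonneg (Real.exp_pos _).le ?_
  by_cases h : m < mj ∨ 1 ≤ f
  · rw [if_pos h]
    exact mul_nonneg (mul_nonneg hβ hD) hs
  · rw [if_neg h]
    push Not at h
    exact hh_nonneg hβ hγ hD h0 h.2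

theorem ww_new {β γ a D f s : ℝ} {m mj : ℕ} (h : mj ≤ m) :
    ww β γ a D m mj f s = ww β γ a D mj mj f s := by
  unfold ww
  have h1 : ¬ m < mj := by omega
  have h2 : ¬ mj < mj := by omega
  simp only [h1, h2, false_or]

/-- The derivative of the weight. -/
noncomputable def wd (β γ a D : ℝ) (m mj : ℕ) (f s : ℝ) : ℝ :=
  γ * ww β γ a D m mj f s + Real.exp (γ * s) * (if m < mj ∨ 1 ≤ f then β * D else 0)

theorem ww_deriv (β γ a D : ℝ) (m mj : ℕ) (f v : ℝ) :
    HasDerivAt (ww β γ a D m mj f) (wd β γ a D m mj f v) v := by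
  have h3 : HasDerivAt (fun u : ℝ => Real.exp (γ * u)) (Real.exp (γ * v) * γ) v := by
    have h4 : HasDerivAt (fun u : ℝ => γ * u) γ v := by
      simpa using (hasDerivAt_id v).const_mul γ
    exact h4.exp
  unfold wd
  by_cases h : m < mj ∨ 1 ≤ f
  · have e : ww β γ a D m mj f = fun u => Real.exp (γ * u) * (β * D * u) := by
      funext u
      unfold ww
      rw [if_pos h]
    rw [e]
    have h5 : HasDerivAt (fun u : ℝ => β * D * u) (β * D) v := by
      simpa using (hasDerivAt_id v).const_mul (β * D)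
    refine (h3.fun_mul h5).congr_deriv ?_
    rw [if_pos h]
    ring
  · have e : ww β γ a D m mj f = fun u => Real.exp (γ * u) * hh β γ a D f := by
      funext u
      unfold ww
      rw [if_neg h]
    rw [e]
    refine (h3.mul_const _).congr_deriv ?_
    rw [if_neg h]
    ring

theorem ww_cont (β γ a D : ℝ) (m mj : ℕ) (f : ℝ) : Continuous (ww β γ a D m mj f) :=
  continuous_iff_continuousAt.2 fun v => (ww_deriv β γ a D m mj f v).continuousAt

theorem wd_cont (β γ a D : ℝ) (m mj : ℕ) (f : ℝ) : Continuous (wd β γ a D m mj f) := by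
  unfold wd
  have h1 := ww_cont β γ a D m mj f
  have h2 : Continuous (fun s : ℝ => Real.exp (γ * s) * (if m < mj ∨ 1 ≤ f then β * D else 0)) := by
    fun_prop
  exact (continuous_const.mul h1).add h2

theorem ww_super {β γ a D f s : ℝ} {m mj : ℕ} (hβ : 0 ≤ β) (hγ : 0 < γ) (hD : 0 ≤ D)
    (h0 : 0 < f) (h1 : f ≤ 1) (hs : 0 ≤ s) :
    f * (γ * ww β γ a D m mj f s + β * (D * Real.exp (γ * s))) ≤ wd β γ a D m mj f s := by
  have hw := ww_nonneg (a := a) (m := m) (mj := mj) hβ hγ hD h0 hs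
  have hE := Real.exp_pos (γ * s)
  unfold wd
  by_cases h : m < mj ∨ 1 ≤ f
  · rw [if_pos h]
    have h2 : 0 ≤ γ * ww β γ a D m mj f s + β * (D * Real.exp (γ * s)) :=
      add_nonneg (mul_nonneg hγ.le hw) (mul_nonneg hβ (mul_nonneg hD hE.le))
    nlinarith [mul_nonneg (sub_nonneg.2 h1) h2]
  · rw [if_neg h]
    push Not at h
    unfold ww
    rw [if_neg (by push Not; exact h)]
    have h3 : 0 < 1 - f := by linarith [h.2]
    have h4 : β / γ * D * (f / (1 - f)) ≤ hh β γ a D f := by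
      unfold hh
      split_ifs <;> linarith
    have h5 : γ * (1 - f) * (β / γ * D * (f / (1 - f))) = f * β * D := by
      field_simp
    have h6 : f * β * D ≤ γ * (1 - f) * hh β γ a D f := by
      rw [← h5]
      exact mul_le_mul_of_nonneg_left h4 (mul_nonneg hγ.le h3.le)
    have h7 := mul_le_mul_of_nonneg_left h6 hE.le
    nlinarith [h7]

theorem hh_meas (β γ a D : ℝ) : Measurable (hh β γ a D) := by
  unfold hh
  refine Measurable.add ?_ ?_
  · exact Measurable.ite measurableSet_Ioi measurable_const measurable_const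
  · fun_prop

theorem ww_meas {A : Type*} [MeasurableSpace A] (β γ a D : ℝ) (m : ℕ) (mj : A → ℕ)
    (f s : A → ℝ) (hm : Measurable mj) (hf : Measurable f) (hs : Measurable s) :
    Measurable (fun x => ww β γ a D m (mj x) (f x) (s x)) := by
  unfold ww
  refine Measurable.mul (Real.measurable_exp.comp (hs.const_mul γ)) ?_
  refine Measurable.ite ?_ (hs.const_mul _) ((hh_meas β γ a D).comp hf)
  exact (measurableSet_lt measurable_const hm).union (measurableSet_le measurable_const hf)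

theorem key {μ : Measure ℝ} {β γ : ℝ} [IsProbabilityMeasure μ] (hμ : μ (Ioo 0 1)ᶜ = 0)
    (hβ : 0 < β) (hγ : 0 < γ) {qr : ℝ} (hq0 : 0 ≤ qr)
    (hq : ∫⁻ x, ENNReal.ofReal (x / (1 - x)) ∂μ = ENNReal.ofReal qr) (hκ : β / γ * qr < 1)
    (a : ℝ) {D : ℝ} (hD : D = (μ (Ioo a 1)).toReal / (1 - β / γ * qr)) (mj : ℕ) (v : ℝ) :
    ∫⁻ f, ENNReal.ofReal (ww β γ a D mj mj f v) ∂μ ≤ ENNReal.ofReal (D * Real.exp (γ * v)) := by
  have hD0 : 0 ≤ D := by
    rw [hD]
    exact div_nonneg ENNReal.toReal_nonneg (by linarith)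
  have hk0 : 0 ≤ β / γ := div_nonneg hβ.le hγ.le
  have hae : ∀ᵐ y ∂μ, y ∈ Ioo (0 : ℝ) 1 := by
    rw [ae_iff]
    exact hμ
  have h1 : ∀ᵐ f ∂μ, ENNReal.ofReal (ww β γ a D mj mj f v) ≤ ENNReal.ofReal (Real.exp (γ * v)) *
      ((Ioo a 1).indicator (fun _ => (1 : ℝ≥0∞)) f +
        ENNReal.ofReal (β / γ * D) * ENNReal.ofReal (f / (1 - f))) := by
    filter_upwards [hae] with f hf
    have h2 : ¬ (mj < mj ∨ 1 ≤ f) := by
      push Not
      exact ⟨le_rfl, hf.2⟩
    unfold ww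
    rw [if_neg h2, ENNReal.ofReal_mul (Real.exp_pos _).le]
    refine mul_le_mul_right ?_ _
    unfold hh
    have h3 : 0 ≤ f / (1 - f) := div_nonneg hf.1.le (by linarith [hf.2])
    rw [ENNReal.ofReal_add (by split_ifs <;> norm_num)
      (mul_nonneg (mul_nonneg hk0 hD0) h3), ENNReal.ofReal_mul (mul_nonneg hk0 hD0)]
    refine add_le_add_left ?_ _
    by_cases h4 : a < f
    · rw [if_pos h4, Set.indicator_of_mem (show f ∈ Ioo a 1 from ⟨h4, hf.2⟩), ENNReal.ofReal_one]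
    · rw [if_neg h4, ENNReal.ofReal_zero]
      exact bot_le
  refine (lintegral_mono_ae h1).trans ?_
  rw [lintegral_const_mul' _ _ ENNReal.ofReal_ne_top, lintegral_add_left
    (measurable_const.indicator measurableSet_Ioo), lintegral_const_mul' _ _ ENNReal.ofReal_ne_top,
    hq, lintegral_indicator_const measurableSet_Ioo, one_mul,
    ← ENNReal.ofReal_toReal (measure_ne_top μ (Ioo a 1)),
    ← ENNReal.ofReal_mul (mul_nonneg hk0 hD0), ← ENNReal.ofReal_add ENNReal.toReal_nonneg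
      (mul_nonneg (mul_nonneg hk0 hD0) hq0), ← ENNReal.ofReal_mul (Real.exp_pos _).le]
  refine le_of_eq ?_
  congr 1
  have h5 : (μ (Ioo a 1)).toReal = D * (1 - β / γ * qr) := by
    rw [hD, div_mul_cancel₀]
    linarith
  rw [h5]
  ring

/-! ### Pathwise facts -/

section path

variable {Ω : Type*} [mΩ : MeasurableSpace Ω] {P : Measure Ω} {μ : Measure ℝ} {β γ : ℝ}
variable (X : RBP P μ β γ)

theorem M_le (k : ℕ) (ω : Ω) : X.M k ω ≤ k + 1 := by
  induction k with
  | zero => rw [X.M_zero]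
  | succ k ih =>
    rw [X.M_succ]
    split_ifs <;> omega

theorem M_succ_le (k : ℕ) (ω : Ω) : X.M k ω ≤ X.M (k + 1) ω := by
  rw [X.M_succ]
  omega

theorem M_mono {j k : ℕ} (h : j ≤ k) (ω : Ω) : X.M j ω ≤ X.M k ω :=
  monotone_nat_of_le_succ (f := fun k => X.M k ω) (fun k => M_succ_le X k ω) h

theorem Z_ge (k : ℕ) (ω : Ω) : ∀ n, X.M k ω ≤ n → X.Z k n ω = 0 := by
  induction k with
  | zero =>
    intro n hn
    rw [X.M_zero] at hn
    rw [X.Z_zero, if_neg (by omega)]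
  | succ k ih =>
    intro n hn
    have h1 := X.I_lt k ω
    rw [X.M_succ] at hn
    rw [X.Z_succ, ih n (by omega), if_neg (by omega)]
    by_cases h2 : X.θ k ω = 2
    · rw [if_neg (by tauto)]
    · rw [if_neg h2] at hn
      rw [if_neg (by omega)]

theorem one_le_Z (k : ℕ) (ω : Ω) : 1 ≤ X.Z k 0 ω := by
  induction k with
  | zero => rw [X.Z_zero, if_pos rfl]
  | succ k ih =>
    rw [X.Z_succ]
    omega

theorem one_le_S (k : ℕ) (ω : Ω) : 1 ≤ X.S k ω := by
  have h2 : 0 < X.M k ω := lt_of_le_of_lt (Nat.zero_le _) (X.I_lt k ω)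
  exact (one_le_Z X k ω).trans (Finset.single_le_sum (f := fun m => X.Z k m ω)
    (fun m _ => Nat.zero_le _) (Finset.mem_range.2 h2))

theorem R_nonneg (k : ℕ) (ω : Ω) : 0 ≤ X.R k ω :=
  Finset.sum_nonneg (fun m _ => mul_nonneg (X.F_mem m ω).1.le (Nat.cast_nonneg _))

theorem ite_cm (p q : Prop) [Decidable p] [Decidable q] (c : ℝ) :
    ((if p ∧ q then 1 else 0 : ℕ) : ℝ) * c = if p then (if q then c else 0) else 0 := by
  by_cases hp : p <;> by_cases hq : q <;> simp [hp, hq]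

theorem sum_lt {β : Type*} [AddCommMonoid β] {M N : ℕ} (h : M ≤ N) (f : ℕ → β) :
    ∑ m ∈ Finset.range N, (if m < M then f m else 0) = ∑ m ∈ Finset.range M, f m := by
  rw [← Finset.sum_filter]
  refine Finset.sum_congr ?_ (fun _ _ => rfl)
  ext m
  simp only [Finset.mem_filter, Finset.mem_range]
  omega

theorem sum_succ (W : ℕ → ℝ) (k : ℕ) (ω : Ω) :
    ∑ m ∈ Finset.range (X.M (k + 1) ω), (X.Z (k + 1) m ω : ℝ) * W m =
      (∑ m ∈ Finset.range (X.M k ω), (X.Z k m ω : ℝ) * W m) +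
        (if X.θ k ω ≠ 1 then W (X.I k ω) else 0) + (if X.θ k ω ≠ 2 then W (X.M k ω) else 0) := by
  have hI := X.I_lt k ω
  have hM := M_succ_le X k ω
  have hexp : ∑ m ∈ Finset.range (X.M (k + 1) ω), (X.Z (k + 1) m ω : ℝ) * W m =
      ∑ m ∈ Finset.range (X.M (k + 1) ω), (X.Z k m ω : ℝ) * W m +
      ∑ m ∈ Finset.range (X.M (k + 1) ω),
        (if m = X.I k ω then (if X.θ k ω ≠ 1 then W m else 0) else 0) +
      ∑ m ∈ Finset.range (X.M (k + 1) ω),
        (if m = X.M k ω then (if X.θ k ω ≠ 2 then W m else 0) else 0) := by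
    rw [← Finset.sum_add_distrib, ← Finset.sum_add_distrib]
    refine Finset.sum_congr rfl (fun m _ => ?_)
    rw [X.Z_succ, Nat.cast_add, Nat.cast_add, add_mul, add_mul, ite_cm, ite_cm]
  rw [hexp]
  congr 1
  · congr 1
    · symm
      apply Finset.sum_subset (Finset.range_subset_range.2 hM)
      intro m _ hm
      rw [Z_ge X k ω m (by simpa using hm)]
      simp
    · rw [Finset.sum_ite_eq' (Finset.range (X.M (k + 1) ω)) (X.I k ω)
        (fun m => if X.θ k ω ≠ 1 then W m else 0), if_pos]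
      rw [Finset.mem_range]
      omega
  · rw [Finset.sum_ite_eq' (Finset.range (X.M (k + 1) ω)) (X.M k ω)
      (fun m => if X.θ k ω ≠ 2 then W m else 0)]
    by_cases h2 : X.θ k ω ≠ 2
    · rw [if_pos]
      rw [Finset.mem_range, X.M_succ, if_neg h2]
      omega
    · rw [if_neg h2]
      simp

/-- the fitness, as a measurable function of the past -/
noncomputable def Fp (k n : ℕ) (ω : Ω) : ℝ := if n < X.M k ω then X.F n ω else 1

/-- The sum of the weights. -/
noncomputable def Ws (a D : ℝ) (j k : ℕ) (ω : Ω) (s : ℝ) : ℝ :=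
  ∑ m ∈ Finset.range (X.M k ω), (X.Z k m ω : ℝ) * ww β γ a D m (X.M j ω) (X.F m ω) s

/-- The value function. -/
noncomputable def UU (a D : ℝ) (j k : ℕ) (ω : Ω) (s : ℝ) : ℝ≥0∞ :=
  ENNReal.ofReal (Ws X a D j k ω s)

/-- The value after one event. -/
noncomputable def Ph (a D : ℝ) (j k n : ℕ) (i : Fin 3) (p : Ω × ℝ × ℝ) : ℝ≥0∞ :=
  ENNReal.ofReal (Ws X a D j k p.1 p.2.1 +
    (if i ≠ 1 then ww β γ a D n (X.M j p.1) (Fp X k n p.1) p.2.1 else 0) +
    (if i ≠ 2 then ww β γ a D (X.M j p.1) (X.M j p.1) p.2.2 p.2.1 else 0))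

theorem Ws_eq (a D : ℝ) (j k : ℕ) (ω : Ω) (s : ℝ) :
    Ws X a D j k ω s = ∑ m ∈ Finset.range (k + 1), if m < X.M k ω then
      (X.Z k m ω : ℝ) * ww β γ a D m (X.M j ω) (Fp X k m ω) s else 0 := by
  rw [sum_lt (M_le X k ω)]
  refine Finset.sum_congr rfl (fun m hm => ?_)
  rw [Fp, if_pos (Finset.mem_range.1 hm)]

end path

section gen

variable {Ω : Type*} [MeasurableSpace Ω]

theorem gen_meas {A : Type*} [MeasurableSpace A] (β γ a D : ℝ) (N : ℕ) (M Mj : Ω → ℕ)
    (Z : ℕ → Ω → ℕ) (F : ℕ → Ω → ℝ) (hM : Measurable M) (hMj : Measurable Mj)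
    (hZ : ∀ n, Measurable (Z n)) (hF : ∀ n, Measurable (F n)) (g : A → Ω) (hg : Measurable g)
    (v : A → ℝ) (hv : Measurable v) :
    Measurable (fun x => ∑ m ∈ Finset.range N,
      if m < M (g x) then (Z m (g x) : ℝ) * ww β γ a D m (Mj (g x)) (F m (g x)) (v x) else 0) := by
  refine Finset.measurable_sum _ (fun m _ => ?_)
  refine Measurable.ite (measurableSet_lt measurable_const (hM.comp hg)) ?_ measurable_const
  refine Measurable.mul ?_ ?_
  · exact (measurable_from_nat (f := fun n : ℕ => (n : ℝ))).comp ((hZ m).comp hg)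
  · exact ww_meas β γ a D m _ _ _ (hMj.comp hg) ((hF m).comp hg) hv

theorem gen_meas_U (β γ a D : ℝ) (N : ℕ) (M Mj : Ω → ℕ)
    (Z : ℕ → Ω → ℕ) (F : ℕ → Ω → ℝ) (hM : Measurable M) (hMj : Measurable Mj)
    (hZ : ∀ n, Measurable (Z n)) (hF : ∀ n, Measurable (F n)) :
    Measurable (fun p : Ω × ℝ => ENNReal.ofReal (∑ m ∈ Finset.range N,
      if m < M p.1 then (Z m p.1 : ℝ) * ww β γ a D m (Mj p.1) (F m p.1) p.2 else 0)) :=
  ENNReal.measurable_ofReal.comp (gen_meas β γ a D N M Mj Z F hM hMj hZ hF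
    (fun p : Ω × ℝ => p.1) measurable_fst _ measurable_snd)

theorem gen_meas_Ph (β γ a D : ℝ) (N : ℕ) (M Mj : Ω → ℕ)
    (Z : ℕ → Ω → ℕ) (F : ℕ → Ω → ℝ) (hM : Measurable M) (hMj : Measurable Mj)
    (hZ : ∀ n, Measurable (Z n)) (hF : ∀ n, Measurable (F n)) (n : ℕ) (i : Fin 3) :
    Measurable (fun p : Ω × ℝ × ℝ => ENNReal.ofReal ((∑ m ∈ Finset.range N,
      if m < M p.1 then (Z m p.1 : ℝ) * ww β γ a D m (Mj p.1) (F m p.1) p.2.1 else 0) +
      (if i ≠ 1 then ww β γ a D n (Mj p.1) (F n p.1) p.2.1 else 0) +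
      (if i ≠ 2 then ww β γ a D (Mj p.1) (Mj p.1) p.2.2 p.2.1 else 0))) := by
  have h2 : Measurable (fun p : Ω × ℝ × ℝ => p.2.1) := measurable_fst.comp measurable_snd
  have h3 : Measurable (fun p : Ω × ℝ × ℝ => p.2.2) := measurable_snd.comp measurable_snd
  refine ENNReal.measurable_ofReal.comp (Measurable.add (Measurable.add ?_ ?_) ?_)
  · exact gen_meas β γ a D N M Mj Z F hM hMj hZ hF (fun p : Ω × ℝ × ℝ => p.1) measurable_fst _ h2
  · by_cases hi : i ≠ 1
    · simp only [if_pos hi]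
      exact ww_meas β γ a D n _ _ _ (hMj.comp measurable_fst) ((hF n).comp measurable_fst) h2
    · simp only [if_neg hi]
      exact measurable_const
  · by_cases hi : i ≠ 2
    · simp only [if_pos hi]
      have e : (fun p : Ω × ℝ × ℝ => ww β γ a D (Mj p.1) (Mj p.1) p.2.2 p.2.1) =
          fun p : Ω × ℝ × ℝ => ww β γ a D 0 0 p.2.2 p.2.1 := by
        funext p
        unfold ww
        simp only [lt_irrefl, false_or]
      rw [e]
      exact ww_meas β γ a D 0 _ _ _ measurable_const h3 h2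
    · simp only [if_neg hi]
      exact measurable_const

theorem gen_S_meas (N : ℕ) (M : Ω → ℕ) (Z : ℕ → Ω → ℕ) (hM : Measurable M)
    (hZ : ∀ n, Measurable (Z n)) :
    Measurable (fun a => ∑ m ∈ Finset.range N, if m < M a then Z m a else 0) := by
  refine Finset.measurable_sum _ (fun m _ => ?_)
  exact Measurable.ite (measurableSet_lt measurable_const hM) (hZ m) measurable_const

end gen

section main

variable {Ω : Type*} [mΩ : MeasurableSpace Ω] {P : Measure Ω} {μ : Measure ℝ} {β γ : ℝ}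
variable (X : RBP P μ β γ)

theorem S_meas (k : ℕ) : Measurable[X.ℱ k] (X.S k) := by
  have h := @gen_S_meas Ω (X.ℱ k) (k + 1) (X.M k) (X.Z k) (X.meas_M k) (X.meas_Z k)
  have e : X.S k = fun a => ∑ m ∈ Finset.range (k + 1), if m < X.M k a then X.Z k m a else 0 := by
    funext a
    rw [sum_lt (M_le X k a)]
    rfl
  rw [e]
  exact h

theorem val (a D : ℝ) (j : ℕ) : X.Val j (UU X a D j) (Ph X a D j) where
  meas k hk := by
    have h := @gen_meas_U Ω (X.ℱ k) β γ a D (k + 1) (X.M k) (X.M j) (X.Z k) (Fp X k)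
      (X.meas_M k) ((X.meas_M j).mono (X.ℱ.mono hk) le_rfl) (X.meas_Z k) (X.meas_F k)
    have e : (fun p : Ω × ℝ => UU X a D j k p.1 p.2) = fun p : Ω × ℝ =>
        ENNReal.ofReal (∑ m ∈ Finset.range (k + 1), if m < X.M k p.1 then
          (X.Z k m p.1 : ℝ) * ww β γ a D m (X.M j p.1) (Fp X k m p.1) p.2 else 0) := by
      funext p
      unfold UU
      rw [Ws_eq]
    rw [e]
    exact h
  measΦ k hk n i := by
    have h := @gen_meas_Ph Ω (X.ℱ k) β γ a D (k + 1) (X.M k) (X.M j) (X.Z k) (Fp X k)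
      (X.meas_M k) ((X.meas_M j).mono (X.ℱ.mono hk) le_rfl) (X.meas_Z k) (X.meas_F k) n i
    have e : Ph X a D j k n i = fun p : Ω × ℝ × ℝ => ENNReal.ofReal ((∑ m ∈ Finset.range (k + 1),
        if m < X.M k p.1 then (X.Z k m p.1 : ℝ) * ww β γ a D m (X.M j p.1) (Fp X k m p.1) p.2.1
          else 0) +
        (if i ≠ 1 then ww β γ a D n (X.M j p.1) (Fp X k n p.1) p.2.1 else 0) +
        (if i ≠ 2 then ww β γ a D (X.M j p.1) (X.M j p.1) p.2.2 p.2.1 else 0)) := by
      funext p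
      unfold Ph
      rw [Ws_eq]
    rw [e]
    exact h
  free k hk n ω s f := by
    unfold Ph
    simp
  next k hk ω s := by
    unfold UU Ph Ws
    rw [sum_succ X (fun m => ww β γ a D m (X.M j ω) (X.F m ω) s) k ω]
    have e2 : Fp X k (X.I k ω) ω = X.F (X.I k ω) ω := if_pos (X.I_lt k ω)
    simp only
    rw [e2, ww_new (M_mono X hk ω)]

theorem gen_le [IsProbabilityMeasure μ] {α : ℝ} (hC : Cond μ β γ α) (a : ℝ) {D : ℝ}
    (hD0 : 0 ≤ D)
    (hkey : ∀ mj v, ∫⁻ f, ENNReal.ofReal (ww β γ a D mj mj f v) ∂μ ≤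
      ENNReal.ofReal (D * Real.exp (γ * v)))
    (j k : ℕ) (ω : Ω) (s : ℝ) (hs : 0 ≤ s) :
    X.gen (UU X a D j) (Ph X a D j) k ω s ≤ UU X a D j k ω s := by
  unfold RBP.gen UU Ws
  refine core hC.β_pos.le hC.β_le hC.γ_pos.le hC.γ_le hC.one_le (X.M k ω)
    (fun n => X.F n ω) (fun n => X.Z k n ω) (fun n _ => X.F_mem n ω) (X.R k ω)
    (R_nonneg X k ω) rfl (fun m => ww β γ a D m (X.M j ω) (X.F m ω))
    (fun m => wd β γ a D m (X.M j ω) (X.F m ω)) (fun v => D * Real.exp (γ * v)) s hs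
    ?_ ?_ ?_ ?_ ?_ (fun n i v => ∫⁻ f, Ph X a D j k n i (ω, v, f) ∂μ) ?_
  · intro n _ v hv
    exact ww_nonneg hC.β_pos.le hC.γ_pos hD0 (X.F_mem n ω).1 hv
  · intro v _
    exact mul_nonneg hD0 (Real.exp_pos _).le
  · intro n _ v
    exact ww_deriv β γ a D n _ _ v
  · intro n _
    exact wd_cont β γ a D n _ _
  · intro n _ v hv
    exact ww_super hC.β_pos.le hC.γ_pos hD0 (X.F_mem n ω).1 (X.F_mem n ω).2 hv
  · intro n hn i v hv
    have hF : Fp X k n ω = X.F n ω := if_pos hn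
    have hA : 0 ≤ ∑ m ∈ Finset.range (X.M k ω), (X.Z k m ω : ℝ) *
        ww β γ a D m (X.M j ω) (X.F m ω) v := Finset.sum_nonneg (fun m _ =>
      mul_nonneg (Nat.cast_nonneg _) (ww_nonneg hC.β_pos.le hC.γ_pos hD0 (X.F_mem m ω).1 hv))
    have hB : 0 ≤ (if i ≠ 1 then ww β γ a D n (X.M j ω) (X.F n ω) v else 0) := by
      split_ifs
      · exact ww_nonneg hC.β_pos.le hC.γ_pos hD0 (X.F_mem n ω).1 hv
      · exact le_rfl
    unfold Ph Ws
    simp only
    rw [hF]
    have hAB := add_nonneg hA hB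
    by_cases hi : i ≠ 2
    · simp only [if_pos hi]
      refine (lintegral_mono (fun f => ENNReal.ofReal_add_le)).trans ?_
      rw [lintegral_add_left measurable_const, lintegral_const, measure_univ, mul_one,
        ENNReal.ofReal_add hAB (mul_nonneg hD0 (Real.exp_pos _).le)]
      exact add_le_add_right (hkey _ _) _
    · simp only [if_neg hi]
      rw [lintegral_const, measure_univ, mul_one]

theorem idx_eq (j : ℕ) (t : ℝ) (ω : Ω) (h : ω ∈ X.At j t) : X.idx t ω = j := by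
  have hm : StrictMono (fun k => X.τ k ω) := strictMono_nat_of_lt_succ (fun k => X.τ_lt k ω)
  have e : {k | X.τ k ω ≤ t} = Iic j := by
    ext k
    simp only [Set.mem_ofPred_eq, mem_Iic]
    constructor
    · intro hk
      by_contra hlt
      have h1 : X.τ (j + 1) ω ≤ X.τ k ω := hm.monotone (by omega)
      linarith [h.2]
    · intro hk
      exact (hm.monotone hk).trans h.1
  unfold RBP.idx
  rw [e, csSup_Iic]

theorem cover {t : ℝ} (ht : 0 ≤ t) (ω : Ω) (h : Tendsto (fun k => X.τ k ω) atTop atTop) :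
    ∃ j, ω ∈ X.At j t := by
  classical
  have h1 : ∃ k, t < X.τ k ω := (h.eventually_gt_atTop t).exists
  have h2 := Nat.find_spec h1
  have h3 : Nat.find h1 ≠ 0 := by
    intro h4
    rw [h4, X.τ_zero] at h2
    linarith
  obtain ⟨j, hj⟩ := Nat.exists_eq_succ_of_ne_zero h3
  refine ⟨j, ?_, ?_⟩
  · have h5 := Nat.find_min h1 (m := j) (by omega)
    exact not_lt.1 h5
  · rw [hj] at h2
    exact h2

theorem At_meas (j : ℕ) (t : ℝ) : MeasurableSet (X.At j t) := by
  have h1 : Measurable (X.τ j) := (X.meas_τ j).mono (X.ℱ.le j) le_rfl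
  have h2 : Measurable (X.τ (j + 1)) := (X.meas_τ (j + 1)).mono (X.ℱ.le (j + 1)) le_rfl
  exact (measurableSet_le h1 measurable_const).inter (measurableSet_lt measurable_const h2)

/-- One step of the estimate. -/
theorem new_le {β γ a D : ℝ} (hβ : 0 ≤ β) (hγ : 0 < γ) (hD : 0 ≤ D) {P : Measure Ω}
    (X : RBP P μ β γ) {j : ℕ} {t T : ℝ} {ω : Ω} (h : X.idx t ω = j) :
    (X.New a t T ω : ℝ≥0∞) ≤ UU X a D j (X.idx (t + T) ω) ω 0 := by
  unfold UU Ws RBP.New
  rw [h]
  set k := X.idx (t + T) ω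
  rw [← ENNReal.ofReal_natCast]
  apply ENNReal.ofReal_le_ofReal
  rw [Nat.cast_sum]
  have h1 : ∀ m ∈ Finset.Ico (X.M j ω) (X.M k ω),
      ((if a < X.F m ω ∧ X.F m ω < 1 then X.Z k m ω else 0 : ℕ) : ℝ) ≤
        (X.Z k m ω : ℝ) * ww β γ a D m (X.M j ω) (X.F m ω) 0 := by
    intro m hm
    rw [Finset.mem_Ico] at hm
    have hw : 0 ≤ ww β γ a D m (X.M j ω) (X.F m ω) 0 :=
      ww_nonneg hβ hγ hD (X.F_mem m ω).1 le_rfl
    by_cases hc : a < X.F m ω ∧ X.F m ω < 1
    · rw [if_pos hc]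
      have h2 : 1 ≤ ww β γ a D m (X.M j ω) (X.F m ω) 0 := by
        unfold ww
        rw [if_neg (by push Not; exact ⟨hm.1, hc.2⟩), mul_zero, Real.exp_zero, one_mul]
        exact one_le_hh hβ hγ hD (X.F_mem m ω).1 hc.2 hc.1
      have h3 : (0 : ℝ) ≤ X.Z k m ω := Nat.cast_nonneg _
      nlinarith
    · rw [if_neg hc, Nat.cast_zero]
      exact mul_nonneg (Nat.cast_nonneg _) hw
  refine (Finset.sum_le_sum h1).trans (Finset.sum_le_sum_of_subset_of_nonneg ?_ ?_)
  · intro m hm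
    rw [Finset.mem_Ico] at hm
    exact Finset.mem_range.2 hm.2
  · intro m _ _
    exact mul_nonneg (Nat.cast_nonneg _) (ww_nonneg hβ hγ hD (X.F_mem m ω).1 le_rfl)

theorem UU_eq (a D : ℝ) (j : ℕ) (ω : Ω) (T : ℝ) :
    UU X a D j j ω T = ENNReal.ofReal ((X.S j ω : ℝ) * (Real.exp (γ * T) * (β * D * T))) := by
  unfold UU Ws RBP.S
  congr 1
  rw [Nat.cast_sum, Finset.sum_mul]
  refine Finset.sum_congr rfl (fun m hm => ?_)
  unfold ww
  rw [if_pos (Or.inl (Finset.mem_range.1 hm))]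

end main

end Pool.Agent.R254.RB.WN

namespace Pool.Agent.R254.RB

variable {Ω : Type*} [mΩ : MeasurableSpace Ω] {P : Measure Ω} {μ : Measure ℝ} {β γ : ℝ}

/-- WV-2. -/
theorem newStmt [IsProbabilityMeasure P] [IsProbabilityMeasure μ] (X : RBP P μ β γ) {α : ℝ}
    (hC : Cond μ β γ α) (hR : X.RestartLeStmt) (hNE : X.NonExpStmt) : X.NewStmt := by
  have hβ := hC.β_pos
  have hγ := hC.γ_pos
  have hae : ∀ᵐ y ∂μ, y ∈ Ioo (0 : ℝ) 1 := by
    rw [ae_iff]
    exact hC.supp
  -- the constant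
  set q : ℝ≥0∞ := ∫⁻ x, ENNReal.ofReal (x / (1 - x)) ∂μ with hq
  have h1 : ∫⁻ x, ENNReal.ofReal (1 / (1 - x)) ∂μ = 1 + q := by
    have h2 : ∀ᵐ x ∂μ, ENNReal.ofReal (1 / (1 - x)) = 1 + ENNReal.ofReal (x / (1 - x)) := by
      filter_upwards [hae] with x hx
      have h3 : 0 < 1 - x := by linarith [hx.2]
      rw [← ENNReal.ofReal_one, ← ENNReal.ofReal_add zero_le_one (div_nonneg hx.1.le h3.le)]
      congr 1
      field_simp
      ring
    rw [lintegral_congr_ae h2, lintegral_add_left measurable_const, lintegral_const, measure_univ,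
      mul_one]
  have h4 : 1 + q < 1 + ENNReal.ofReal (γ / β) := by
    have h5 := hC.cond
    rw [h1] at h5
    refine h5.trans_le (le_of_eq ?_)
    rw [← ENNReal.ofReal_one, ← ENNReal.ofReal_add zero_le_one (div_nonneg hγ.le hβ.le)]
    congr 1
    field_simp
  have h6 : q < ENNReal.ofReal (γ / β) := lt_of_add_lt_add_left h4
  have hqt : q ≠ ∞ := h6.ne_top
  set qr : ℝ := q.toReal with hqr
  have hq0 : 0 ≤ qr := ENNReal.toReal_nonneg
  have hqq : q = ENNReal.ofReal qr := (ENNReal.ofReal_toReal hqt).symm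
  have h7 : qr < γ / β := by
    rw [hqq] at h6
    exact (ENNReal.ofReal_lt_ofReal_iff (div_pos hγ hβ)).1 h6
  have hκ : β / γ * qr < 1 := by
    have h8 : β / γ * qr < β / γ * (γ / β) := mul_lt_mul_of_pos_left h7 (div_pos hβ hγ)
    have h9 : β / γ * (γ / β) = 1 := by field_simp
    linarith
  have hκ' : 0 < 1 - β / γ * qr := by linarith
  refine ⟨β / (1 - β / γ * qr), div_pos hβ hκ', fun a t T ht hT => ?_⟩
  set D : ℝ := (μ (Ioo a 1)).toReal / (1 - β / γ * qr) with hD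
  have hD0 : 0 ≤ D := div_nonneg ENNReal.toReal_nonneg hκ'.le
  have hkey := WN.key hC.supp hβ hγ hq0 (hq.symm.trans hqq) hκ a hD
  set K : ℝ := Real.exp (γ * T) * (β * D * T) with hK
  have hK0 : 0 ≤ K := mul_nonneg (Real.exp_pos _).le (mul_nonneg (mul_nonneg hβ.le hD0) hT)
  have hKe : β / (1 - β / γ * qr) * T * Real.exp (γ * T) * (μ (Ioo a 1)).toReal = K := by
    rw [hK, hD]
    ring
  rw [hKe]
  -- the partition
  set E : ℕ × ℕ → Set Ω := fun p => {ω | X.S p.1 ω = p.2} ∩ X.At p.1 t with hE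
  have hEm : ∀ p, MeasurableSet (E p) := by
    intro p
    refine MeasurableSet.inter ?_ (WN.At_meas X p.1 t)
    exact ((WN.S_meas X p.1).mono (X.ℱ.le p.1) le_rfl) (measurableSet_singleton p.2)
  have hEd : Pairwise (Function.onFun Disjoint E) := by
    intro p p' hpp
    refine Set.disjoint_left.2 (fun ω h h' => hpp ?_)
    have e1 := WN.idx_eq X p.1 t ω h.2
    have e2 := WN.idx_eq X p'.1 t ω h'.2
    have e3 : p.1 = p'.1 := e1.symm.trans e2
    have e4 : X.S p.1 ω = p.2 := h.1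
    have e5 : X.S p'.1 ω = p'.2 := h'.1
    rw [← e3] at e5
    exact Prod.ext e3 (e4.symm.trans e5)
  have hcov : ∀ᵐ ω ∂P, ω ∈ ⋃ p, E p := by
    filter_upwards [hNE] with ω hω
    obtain ⟨j, hj⟩ := WN.cover X ht ω hω
    exact Set.mem_iUnion.2 ⟨(j, X.S j ω), rfl, hj⟩
  have hpiece : ∀ p, ∫⁻ ω in E p, (X.New a t T ω : ℝ≥0∞) / (X.N t ω : ℝ≥0∞) ∂P ≤
      ENNReal.ofReal K * P (E p) := by
    intro p
    obtain ⟨j, m⟩ := p
    by_cases hm : m = 0
    · have h8 : E (j, m) = ∅ := by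
        rw [Set.eq_empty_iff_forall_notMem]
        intro ω hω
        have h9 : X.S j ω = m := hω.1
        have h10 := WN.one_le_S X j ω
        omega
      rw [h8]
      simp
    · have hm0 : (m : ℝ≥0∞) ≠ 0 := by exact_mod_cast hm
      have hmt : (m : ℝ≥0∞) ≠ ∞ := ENNReal.natCast_ne_top m
      have h8 : ∫⁻ ω in E (j, m), (X.New a t T ω : ℝ≥0∞) / (X.N t ω : ℝ≥0∞) ∂P ≤
          ∫⁻ ω in E (j, m), WN.UU X a D j (X.idx (t + T) ω) ω 0 * (m : ℝ≥0∞)⁻¹ ∂P := by
        refine setLIntegral_mono' (hEm _) (fun ω hω => ?_)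
        have e1 := WN.idx_eq X j t ω hω.2
        have e2 : X.S j ω = m := hω.1
        have e3 : X.N t ω = m := by
          unfold RBP.N
          rw [e1, e2]
        rw [e3, div_eq_mul_inv]
        exact mul_le_mul_left (WN.new_le hβ.le hγ hD0 X e1) _
      refine h8.trans ?_
      rw [lintegral_mul_const' _ _ (ENNReal.inv_ne_top.2 hm0)]
      have hB : MeasurableSet[X.ℱ j] {ω | X.S j ω = m} :=
        (WN.S_meas X j) (measurableSet_singleton m)
      have h9 := hR j (WN.UU X a D j) (WN.Ph X a D j) (WN.val X a D j) t T ht hT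
        (fun k _ ω s hs => WN.gen_le X hC a hD0 hkey j k ω s hs.1) {ω | X.S j ω = m} hB
      have h10 : ∫⁻ ω in E (j, m), WN.UU X a D j j ω T ∂P =
          ENNReal.ofReal ((m : ℝ) * K) * P (E (j, m)) := by
        rw [← setLIntegral_const]
        refine setLIntegral_congr_fun (hEm _) (fun ω hω => ?_)
        have e2 : X.S j ω = m := hω.1
        rw [WN.UU_eq, e2]
      refine (mul_le_mul_left (h9.trans (le_of_eq h10)) _).trans (le_of_eq ?_)
      rw [ENNReal.ofReal_mul (Nat.cast_nonneg m), ENNReal.ofReal_natCast]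
      calc (m : ℝ≥0∞) * ENNReal.ofReal K * P (E (j, m)) * (m : ℝ≥0∞)⁻¹ =
          ((m : ℝ≥0∞) * (m : ℝ≥0∞)⁻¹) * (ENNReal.ofReal K * P (E (j, m))) := by ring
        _ = _ := by rw [ENNReal.mul_inv_cancel hm0 hmt, one_mul]
  calc ∫⁻ ω, (X.New a t T ω : ℝ≥0∞) / (X.N t ω : ℝ≥0∞) ∂P
      = ∫⁻ ω in ⋃ p, E p, (X.New a t T ω : ℝ≥0∞) / (X.N t ω : ℝ≥0∞) ∂P := by
        rw [Measure.restrict_eq_self_of_ae_mem hcov]
    _ = ∑' p, ∫⁻ ω in E p, (X.New a t T ω : ℝ≥0∞) / (X.N t ω : ℝ≥0∞) ∂P :=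
        lintegral_iUnion hEm hEd _
    _ ≤ ∑' p, ENNReal.ofReal K * P (E p) := ENNReal.tsum_le_tsum hpiece
    _ = ENNReal.ofReal K * P (⋃ p, E p) := by
        rw [ENNReal.tsum_mul_left, measure_iUnion hEd hEm]
    _ ≤ ENNReal.ofReal K * 1 := mul_le_mul_right prob_le_one _
    _ = ENNReal.ofReal K := mul_one _

end Pool.Agent.R254.RB
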