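import Pool.Agent.R254.RB.All
import Pool.Agent.R254.RB.Restart
import Pool.Agent.R254.RB.WvNew
import Pool.Agent.R254.RB.Lapl
import Pool.Agent.R254.RB.QConv
import Pool.Agent.R254.RB.OldL
import Pool.Agent.R254.RB.Wv6
import Pool.Agent.R254.RB.Sol
import Pool.Agent.R254.RB.SupWave
import Pool.Agent.R254.RB.Shape
import Pool.Agent.R254.RB.WaveMain

open MeasureTheory ProbabilityTheory Filter Topology Set
open scoped ENNReal

namespace Pool.Agent.R254.RB

variable {Ω : Type*} [mΩ : MeasurableSpace Ω] {P : Measure Ω} {μ : Measure ℝ} {β γ : ℝ}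
  [IsProbabilityMeasure P] [IsProbabilityMeasure μ]

theorem all_restartLe (X : RBP P μ β γ) {α : ℝ} (hC : Cond μ β γ α) : X.RestartLeStmt :=
  restartLe X hC (all_stepSum X) (all_nonExp X hC)

theorem all_new (X : RBP P μ β γ) {α : ℝ} (hC : Cond μ β γ α) : X.NewStmt :=
  newStmt X hC (all_restartLe X hC) (all_nonExp X hC)

theorem all_lapl (X : RBP P μ β γ) {α : ℝ} (hC : Cond μ β γ α) : X.LaplStmt :=
  lapl X hC (restartEq X hC (all_stepSum X) (all_nonExp X hC)) (all_nonExp X hC)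

theorem all_old (X : RBP P μ β γ) {α : ℝ} (hC : Cond μ β γ α) : X.OldStmt :=
  oldStmt X hC (all_nonExp X hC) (all_lapl X hC) (qstmt X hC)

theorem all_ratio (X : RBP P μ β γ) {α : ℝ} (hC : Cond μ β γ α) : X.RatioStmt :=
  Wv6.ratio X hC (all_nonExp X hC) (all_old X hC) (all_new X hC) potterStmt

theorem all_fe (X : RBP P μ β γ) {α : ℝ} (hC : Cond μ β γ α) : X.FEStmt :=
  Wv6.fe X hC (all_nonExp X hC) (all_old X hC) (all_new X hC) potterStmt

theorem all_sup (X : RBP P μ β γ) {α : ℝ} (hC : Cond μ β γ α) : X.SupStmt :=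
  supStmt X hC (all_restartLe X hC) (all_nonExp X hC) kern potterStmt

theorem all_shape (X : RBP P μ β γ) {α : ℝ} (hC : Cond μ β γ α) : X.ShapeStmt α :=
  shape X hC (all_nonExp X hC) (all_ratio X hC) (all_sup X hC) (all_lower X hC)

theorem all_wave (X : RBP P μ β γ) {α : ℝ} (hC : Cond μ β γ α) : X.WaveStmt α :=
  waveMain X hC (all_fe X hC) solStmt (all_shape X hC)

end Pool.Agent.R254.RB
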